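import Mathlib

set_option autoImplicit false

open Finset Filter

namespace Pool.Agent.Helper923.PPS

/-- largest power of `p` not exceeding `n` -/
def pw (p n : ℕ) : ℕ := p ^ Nat.log p n

/-- `log (T / [T]_q)` -/
noncomputable def DD (T q : ℕ) : ℝ := Real.log T - Real.log (pw q T)

theorem pw_pos {q : ℕ} (T : ℕ) (hq : 2 ≤ q) : 0 < pw q T := by
  unfold pw; positivity

theorem log_pw {q : ℕ} (T : ℕ) : Real.log (pw q T) = Nat.log q T * Real.log q := by
  unfold pw; rw [Nat.cast_pow, Real.log_pow]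

theorem DD_eq {q : ℕ} (T : ℕ) : DD T q = Real.log T - Nat.log q T * Real.log q := by
  unfold DD; rw [log_pw]

theorem DD_nonneg {T q : ℕ} (hq : 2 ≤ q) (hT : 1 ≤ T) : 0 ≤ DD T q := by
  unfold DD
  have h1 : pw q T ≤ T := Nat.pow_log_le_self q (by omega)
  have h2 : (0 : ℝ) < pw q T := by exact_mod_cast pw_pos T hq
  have : Real.log (pw q T) ≤ Real.log T := Real.log_le_log h2 (by exact_mod_cast h1)
  linarith

theorem DD_lt_log {T q : ℕ} (hq : 2 ≤ q) (hT : 1 ≤ T) : DD T q < Real.log q := by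
  unfold DD
  have h1 : T < q ^ (Nat.log q T + 1) := Nat.lt_pow_succ_log_self (by omega) T
  have h2 : (T : ℝ) < (pw q T : ℝ) * q := by
    have : T < pw q T * q := by unfold pw; rwa [← pow_succ]
    exact_mod_cast this
  have h3 : (0 : ℝ) < pw q T := by exact_mod_cast pw_pos T hq
  have h4 : (0 : ℝ) < q := by exact_mod_cast (by omega : 0 < q)
  have hT' : (0 : ℝ) < T := by exact_mod_cast hT
  have : Real.log T < Real.log ((pw q T : ℝ) * q) := Real.log_lt_log hT' h2
  rw [Real.log_mul h3.ne' h4.ne'] at this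
  linarith

/-- the absorbing lemma -/
theorem polylog_le (C : ℝ) (k : ℕ) (a b : ℝ) (hab : a < b) :
    ∀ᶠ L : ℝ in atTop, C * (Real.log L) ^ k * L ^ a ≤ L ^ b := by
  have h1 : (fun L : ℝ => (Real.log L) ^ k) =o[atTop] fun L : ℝ => L ^ (b - a) := by
    have := isLittleO_log_rpow_rpow_atTop (k : ℝ) (sub_pos.mpr hab)
    simpa [Real.rpow_natCast] using this
  have h2 := h1.const_mul_left C
  have h3 := h2.bound (c := 1) one_pos
  filter_upwards [h3, eventually_gt_atTop (0 : ℝ)] with L hL hL0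
  rw [Real.norm_eq_abs, Real.norm_eq_abs, one_mul, abs_of_nonneg (Real.rpow_nonneg hL0.le (b - a))]
    at hL
  have h4 := (le_abs_self _).trans hL
  calc C * (Real.log L) ^ k * L ^ a ≤ L ^ (b - a) * L ^ a := by gcongr
    _ = L ^ b := by rw [← Real.rpow_add hL0]; ring_nf

theorem exp_small (a c d : ℝ) (ha : 0 < a) (hc : 0 < c) :
    ∀ᶠ L : ℝ in atTop, Real.exp (-(c * L ^ a)) ≤ L ^ d := by
  have h1 : Tendsto (fun L : ℝ => L ^ a) atTop atTop := tendsto_rpow_atTop ha
  have h2 := (isLittleO_exp_neg_mul_rpow_atTop hc (d / a)).bound (c := 1) one_pos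
  have h3 := h1.eventually h2
  filter_upwards [h3, eventually_gt_atTop (0 : ℝ)] with L hL hL0
  rw [Real.norm_eq_abs, Real.norm_eq_abs, one_mul, abs_of_pos (Real.exp_pos _),
    abs_of_nonneg (Real.rpow_nonneg (Real.rpow_nonneg hL0.le a) _), ← Real.rpow_mul hL0.le,
    mul_div_cancel₀ _ ha.ne'] at hL
  rwa [neg_mul] at hL

theorem tendsto_logT : Tendsto (fun T : ℕ => Real.log T) atTop atTop :=
  Real.tendsto_log_atTop.comp tendsto_natCast_atTop_atTop

theorem tendsto_loglogT : Tendsto (fun T : ℕ => Real.log (Real.log T)) atTop atTop :=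
  Real.tendsto_log_atTop.comp tendsto_logT

end Pool.Agent.Helper923.PPS
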