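import Mathlib
import Pool.Agent.Helper923.PPS.Defs

set_option autoImplicit false

open Finset

namespace Pool.Agent.Helper923.PPS

/-- `f n`: the sum over the primes dividing `n` of the largest power not exceeding `n` -/
def f (n : ℕ) : ℕ := ∑ p ∈ n.primeFactors, p ^ Nat.log p n

/-- admissible sets: pairwise coprime, contained in `{2,...,n}`, all prime factors divide `n` -/
def Admissible (n : ℕ) (A : Finset ℕ) : Prop :=
  (∀ a ∈ A, 2 ≤ a ∧ a ≤ n) ∧ (∀ a ∈ A, ∀ b ∈ A, a ≠ b → Nat.Coprime a b) ∧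
    ∀ a ∈ A, ∀ p : ℕ, p.Prime → p ∣ a → p ∣ n

open scoped Classical in
/-- `F n`: the maximal sum of an admissible set -/
noncomputable def F (n : ℕ) : ℕ :=
  ((Finset.Icc 2 n).powerset.filter (fun A => Admissible n A)).sup (fun A => ∑ a ∈ A, a)

/-- the local criterion -/
def Crit (n : ℕ) : Prop := ∀ e : ℕ, 2 ≤ e → e ≤ n → e.primeFactors ⊆ n.primeFactors →
  e ≤ ∑ p ∈ e.primeFactors, pw p n

/-- the set of real `t ≥ 1` attached to `m` -/
def Iset (m : ℕ) : Set ℝ :=
  {t : ℝ | 1 ≤ t ∧ ∀ e : ℕ, 2 ≤ e → e.primeFactors ⊆ m.primeFactors →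
    ((e : ℝ) ≤ t → (e : ℝ) ≤ ∑ p ∈ e.primeFactors, (pw p ⌊t⌋₊ : ℝ)) ∧
    (e ≤ m → t * ((e : ℝ) - 1) ≤ m * ∑ p ∈ e.primeFactors, (pw p ⌊t⌋₊ : ℝ))}

theorem pw_le {n : ℕ} (hn : n ≠ 0) (p : ℕ) : pw p n ≤ n := Nat.pow_log_le_self p hn

theorem dvd_pw {p n : ℕ} (hp : p.Prime) (hpn : p ≤ n) : p ∣ pw p n :=
  dvd_pow_self p (Nat.log_pos hp.one_lt hpn).ne'

theorem le_pw {p n : ℕ} (hp : p.Prime) (hpn : p ≤ n) : p ≤ pw p n :=
  Nat.le_of_dvd (pow_pos hp.pos _) (dvd_pw hp hpn)

theorem mem_pf {p n : ℕ} (h : p ∈ n.primeFactors) : p.Prime ∧ p ≤ n :=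
  ⟨Nat.prime_of_mem_primeFactors h, Nat.le_of_mem_primeFactors h⟩

theorem pw_coprime {p q n : ℕ} (hp : p.Prime) (hq : q.Prime) (h : p ≠ q) :
    Nat.Coprime (pw p n) (pw q n) :=
  Nat.Coprime.pow _ _ ((Nat.coprime_primes hp hq).mpr h)

theorem pw_inj {S : Finset ℕ} {n : ℕ} (hS : S ⊆ n.primeFactors) :
    Set.InjOn (fun p => pw p n) (S : Set ℕ) := by
  intro p hp q hq h
  by_contra hne
  obtain ⟨hp1, hp2⟩ := mem_pf (hS hp)
  obtain ⟨hq1, hq2⟩ := mem_pf (hS hq)
  have h1 := pw_coprime (n := n) hp1 hq1 hne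
  have h2 : pw p n = pw q n := h
  rw [← h2, Nat.coprime_self] at h1
  have h3 := le_pw hp1 hp2
  have := hp1.two_le
  omega

theorem adm_image {S : Finset ℕ} {n : ℕ} (hn : n ≠ 0) (hS : S ⊆ n.primeFactors) :
    Admissible n (S.image (fun p => pw p n)) := by
  refine ⟨?_, ?_, ?_⟩
  · intro a ha
    obtain ⟨p, hp, rfl⟩ := Finset.mem_image.mp ha
    obtain ⟨hp1, hp2⟩ := mem_pf (hS hp)
    exact ⟨hp1.two_le.trans (le_pw hp1 hp2), pw_le hn p⟩
  · intro a ha b hb hab
    obtain ⟨p, hp, rfl⟩ := Finset.mem_image.mp ha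
    obtain ⟨q, hq, rfl⟩ := Finset.mem_image.mp hb
    apply pw_coprime (mem_pf (hS hp)).1 (mem_pf (hS hq)).1
    rintro rfl
    exact hab rfl
  · intro a ha r hr hra
    obtain ⟨p, hp, rfl⟩ := Finset.mem_image.mp ha
    have h1 : r ∣ p := hr.dvd_of_dvd_pow hra
    exact h1.trans (Nat.dvd_of_mem_primeFactors (hS hp))

theorem le_F {n : ℕ} {A : Finset ℕ} (hA : Admissible n A) : ∑ a ∈ A, a ≤ F n := by
  classical
  unfold F
  apply Finset.le_sup (f := fun A : Finset ℕ => ∑ a ∈ A, a)
  rw [Finset.mem_filter, Finset.mem_powerset]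
  refine ⟨?_, hA⟩
  intro a ha
  exact Finset.mem_Icc.mpr (hA.1 a ha)

theorem f_eq_F_iff (n : ℕ) (hn : 1 ≤ n) : f n = F n ↔ Crit n := by
  classical
  have hn0 : n ≠ 0 := by omega
  constructor
  · intro hfF e he1 he2 he3
    by_contra hcon
    push Not at hcon
    set S := n.primeFactors \ e.primeFactors with hS
    have hSn : S ⊆ n.primeFactors := Finset.sdiff_subset
    have hnot : ∀ p ∈ S, p.Prime ∧ p ≤ n ∧ ¬ p ∣ e := by
      intro p hp
      obtain ⟨h1, h2⟩ := Finset.mem_sdiff.mp hp
      obtain ⟨h3, h4⟩ := mem_pf h1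
      refine ⟨h3, h4, fun h5 => h2 ?_⟩
      exact Nat.mem_primeFactors.mpr ⟨h3, h5, by omega⟩
    have hcop : ∀ p ∈ S, Nat.Coprime e (pw p n) := by
      intro p hp
      obtain ⟨h1, h2, h3⟩ := hnot p hp
      exact Nat.Coprime.pow_right _ ((Nat.Prime.coprime_iff_not_dvd h1).mpr h3).symm
    have heni : e ∉ S.image (fun p => pw p n) := by
      intro h
      obtain ⟨p, hp, hpe⟩ := Finset.mem_image.mp h
      obtain ⟨h1, h2, h3⟩ := hnot p hp
      apply h3
      rw [← hpe]
      exact dvd_pw h1 h2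
    have hadm := adm_image hn0 hSn
    have hA : Admissible n (insert e (S.image (fun p => pw p n))) := by
      refine ⟨?_, ?_, ?_⟩
      · intro a ha
        rcases Finset.mem_insert.mp ha with rfl | ha
        · exact ⟨he1, he2⟩
        · exact hadm.1 a ha
      · intro a ha b hb hab
        rcases Finset.mem_insert.mp ha with h | ha
        · rcases Finset.mem_insert.mp hb with h' | hb
          · exact absurd (h.trans h'.symm) hab
          · obtain ⟨p, hp, rfl⟩ := Finset.mem_image.mp hb
            rw [h]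
            exact hcop p hp
        · rcases Finset.mem_insert.mp hb with h' | hb
          · obtain ⟨p, hp, rfl⟩ := Finset.mem_image.mp ha
            rw [h']
            exact (hcop p hp).symm
          · exact hadm.2.1 a ha b hb hab
      · intro a ha r hr hra
        rcases Finset.mem_insert.mp ha with h | ha
        · rw [h] at hra
          have : r ∈ e.primeFactors := Nat.mem_primeFactors.mpr ⟨hr, hra, by omega⟩
          exact Nat.dvd_of_mem_primeFactors (he3 this)
        · exact hadm.2.2 a ha r hr hra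
    have h1 := le_F hA
    rw [Finset.sum_insert heni, Finset.sum_image (pw_inj hSn)] at h1
    have h2 : f n = ∑ p ∈ S, pw p n + ∑ p ∈ e.primeFactors, pw p n := by
      unfold f
      rw [hS, Finset.sum_sdiff he3]
      rfl
    omega
  · intro hC
    apply le_antisymm
    · have h1 := le_F (adm_image hn0 (Finset.Subset.refl n.primeFactors))
      rw [Finset.sum_image (pw_inj (Finset.Subset.refl n.primeFactors))] at h1
      exact h1
    · unfold F
      apply Finset.sup_le
      intro A hA
      obtain ⟨h1, h2, h3⟩ := (Finset.mem_filter.mp hA).2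
      have hpf : ∀ a ∈ A, a.primeFactors ⊆ n.primeFactors := by
        intro a ha p hp
        exact Nat.mem_primeFactors.mpr ⟨Nat.prime_of_mem_primeFactors hp,
          h3 a ha p (Nat.prime_of_mem_primeFactors hp) (Nat.dvd_of_mem_primeFactors hp), hn0⟩
      calc ∑ a ∈ A, a ≤ ∑ a ∈ A, ∑ p ∈ a.primeFactors, pw p n :=
            Finset.sum_le_sum fun a ha => hC a (h1 a ha).1 (h1 a ha).2 (hpf a ha)
        _ = ∑ p ∈ A.biUnion (fun a => a.primeFactors), pw p n := by
            rw [Finset.sum_biUnion]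
            intro a ha b hb hab
            exact Nat.Coprime.disjoint_primeFactors (h2 a ha b hb hab)
        _ ≤ ∑ p ∈ n.primeFactors, pw p n := by
            apply Finset.sum_le_sum_of_subset
            intro p hp
            obtain ⟨a, ha, hpa⟩ := Finset.mem_biUnion.mp hp
            exact hpf a ha hpa
        _ = f n := rfl

theorem crit_iff_Iset (m q : ℕ) (hm : 1 ≤ m) (hq : q.Prime) (hmq : m < q) :
    Crit (m * q) ↔ ((m * q : ℕ) : ℝ) ∈ Iset m := by
  classical
  have hm0 : m ≠ 0 := by omega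
  have hmR : (0 : ℝ) < m := by exact_mod_cast hm
  have hqpos := hq.pos
  have hqm : ¬ q ∣ m := fun h => absurd (Nat.le_of_dvd (by omega) h) (by omega)
  have hpfn : (m * q).primeFactors = insert q m.primeFactors := by
    rw [Nat.primeFactors_mul hm0 hq.ne_zero, hq.primeFactors, Finset.union_comm]
    rfl
  have hlog : Nat.log q (m * q) = 1 := by
    apply Nat.log_eq_of_pow_le_of_lt_pow
    · rw [pow_one]
      exact Nat.le_mul_of_pos_left q (by omega)
    · rw [pow_succ, pow_one]
      exact Nat.mul_lt_mul_of_pos_right hmq hqpos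
  have hpwq : pw q (m * q) = q := by
    unfold pw
    rw [hlog, pow_one]
  have hfl : ⌊((m * q : ℕ) : ℝ)⌋₊ = m * q := Nat.floor_natCast _
  have hqnm : q ∉ m.primeFactors := fun h => hqm (Nat.dvd_of_mem_primeFactors h)
  have hpfq : ∀ e : ℕ, e ≠ 0 → (q * e).primeFactors = insert q e.primeFactors := by
    intro e he
    rw [Nat.primeFactors_mul hq.ne_zero he, hq.primeFactors]
    rfl
  have hsum : ∀ e : ℕ, e ≠ 0 → q ∉ e.primeFactors →
      ∑ p ∈ (q * e).primeFactors, pw p (m * q) = q + ∑ p ∈ e.primeFactors, pw p (m * q) := by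
    intro e he hqe
    rw [hpfq e he, Finset.sum_insert hqe, hpwq]
  constructor
  · intro hC
    refine ⟨?_, ?_⟩
    · have : 1 ≤ m * q := Nat.mul_pos (by omega) hqpos
      exact_mod_cast this
    · intro e he2 hpf
      rw [hfl]
      refine ⟨?_, ?_⟩
      · intro het
        have h1 : e ≤ m * q := by exact_mod_cast het
        have h2 := hC e he2 h1 (hpf.trans (by rw [hpfn]; exact Finset.subset_insert _ _))
        exact_mod_cast h2
      · intro hem
        have hqe : q ∉ e.primeFactors := fun h => hqnm (hpf h)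
        have h1 := hC (q * e) (by nlinarith [hq.two_le]) (by
          rw [mul_comm m q]
          exact Nat.mul_le_mul_left q hem) (by
          rw [hpfq e (by omega), hpfn]
          exact Finset.insert_subset_insert _ hpf)
        rw [hsum e (by omega) hqe] at h1
        have h2 : ((q * e : ℕ) : ℝ) ≤ ((q + ∑ p ∈ e.primeFactors, pw p (m * q) : ℕ) : ℝ) := by
          exact_mod_cast h1
        push_cast at h2 ⊢
        have h3 : (q : ℝ) * ((e : ℝ) - 1) ≤ ∑ p ∈ e.primeFactors, (pw p (m * q) : ℝ) := by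
          linarith
        calc (m : ℝ) * q * ((e : ℝ) - 1) = m * (q * ((e : ℝ) - 1)) := by ring
          _ ≤ m * ∑ p ∈ e.primeFactors, (pw p (m * q) : ℝ) :=
              mul_le_mul_of_nonneg_left h3 hmR.le
  · rintro ⟨-, hI⟩ e he2 hen hpf
    rw [hfl] at hI
    rw [hpfn] at hpf
    by_cases hqe : q ∣ e
    · obtain ⟨e', rfl⟩ := hqe
      have he'm : e' ≤ m := by
        rw [mul_comm m q] at hen
        exact Nat.le_of_mul_le_mul_left hen hqpos
      have he'0 : e' ≠ 0 := by
        rintro rfl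
        omega
      have hqe' : q ∉ e'.primeFactors := by
        intro h
        have := Nat.le_of_mem_primeFactors h
        omega
      rw [hsum e' he'0 hqe']
      rcases Nat.lt_or_ge e' 2 with h | h
      · have : e' = 1 := by omega
        rw [this]
        omega
      · have hpf' : e'.primeFactors ⊆ m.primeFactors := by
          intro p hp
          have h1 : p ∈ insert q m.primeFactors := hpf (by
            rw [hpfq e' he'0]
            exact Finset.mem_insert_of_mem hp)
          rcases Finset.mem_insert.mp h1 with h2 | h2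
          · rw [h2] at hp
            exact absurd hp hqe'
          · exact h2
        have h1 := (hI e' h hpf').2 he'm
        push_cast at h1
        have h2 : (q : ℝ) * ((e' : ℝ) - 1) ≤ ∑ p ∈ e'.primeFactors, (pw p (m * q) : ℝ) := by
          have h3 : (m : ℝ) * (q * ((e' : ℝ) - 1)) ≤
              m * ∑ p ∈ e'.primeFactors, (pw p (m * q) : ℝ) := by
            linarith
          exact le_of_mul_le_mul_left h3 hmR
        have h4 : ((q * e' : ℕ) : ℝ) ≤ ((q + ∑ p ∈ e'.primeFactors, pw p (m * q) : ℕ) : ℝ) := by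
          push_cast
          linarith
        exact_mod_cast h4
    · have hpf' : e.primeFactors ⊆ m.primeFactors := by
        intro p hp
        rcases Finset.mem_insert.mp (hpf hp) with h2 | h2
        · rw [h2] at hp
          exact absurd (Nat.dvd_of_mem_primeFactors hp) hqe
        · exact h2
      have h1 := (hI e he2 hpf').1 (by exact_mod_cast hen)
      exact_mod_cast h1

/-- block constraint: `S`-part of `n` forces a prime of `S` with a large power below `T` -/
theorem block_constraint (n T : ℕ) (hn : 2 ≤ n) (hnT : n ≤ T) (hTn : T < 4 * n) (hc : Crit n)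
    (S : Finset ℕ) (hS : S ⊆ n.primeFactors) (hne : S.Nonempty) (a : ℕ)
    (ha : n = a * ∏ p ∈ S, p ^ n.factorization p) :
    ∃ q ∈ S, Real.log T - Real.log (pw q T) ≤ Real.log (8 * Real.log T * a) := by
  classical
  have hn0 : n ≠ 0 := by omega
  set e : ℕ := ∏ p ∈ S, p ^ n.factorization p with he
  have he0 : e ≠ 0 := by
    intro h
    rw [h, mul_zero] at ha
    exact hn0 ha
  have ha0 : a ≠ 0 := by
    rintro rfl
    rw [zero_mul] at ha
    exact hn0 ha
  have hSp : ∀ p ∈ S, p.Prime := fun p hp => Nat.prime_of_mem_primeFactors (hS hp)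
  have hSv : ∀ p ∈ S, 1 ≤ n.factorization p := fun p hp =>
    (hSp p hp).factorization_pos_of_dvd hn0 (Nat.dvd_of_mem_primeFactors (hS hp))
  have hpf : e.primeFactors = S := by
    ext p
    rw [Nat.mem_primeFactors]
    constructor
    · rintro ⟨h1, h2, -⟩
      obtain ⟨q, hq, hpq⟩ := (h1.prime.dvd_finsetProd_iff _).mp h2
      have h3 : p ∣ q := h1.dvd_of_dvd_pow hpq
      have h4 : p = q := (Nat.prime_dvd_prime_iff_eq h1 (hSp q hq)).mp h3
      rw [h4]
      exact hq
    · intro hp
      refine ⟨hSp p hp, ?_, he0⟩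
      exact (dvd_pow_self p (by have := hSv p hp; omega)).trans (Finset.dvd_prod_of_mem _ hp)
  have hen : e ≤ n := by
    rw [ha]
    exact Nat.le_mul_of_pos_left e (Nat.pos_of_ne_zero ha0)
  have h2e : 2 ^ S.card ≤ e := by
    rw [he, ← Finset.prod_const]
    apply Finset.prod_le_prod'
    intro p hp
    calc 2 ≤ p := (hSp p hp).two_le
      _ = p ^ 1 := (pow_one p).symm
      _ ≤ p ^ n.factorization p := Nat.pow_le_pow_right (hSp p hp).pos (hSv p hp)
  have he2 : 2 ≤ e := by
    have : 2 ^ 1 ≤ 2 ^ S.card := Nat.pow_le_pow_right (by norm_num) (Finset.card_pos.mpr hne)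
    omega
  have hcrit := hc e he2 hen (by rw [hpf]; exact hS)
  rw [hpf] at hcrit
  obtain ⟨q, hq, hmax⟩ := Finset.exists_max_image S (fun p => pw p n) hne
  have h1 : e ≤ S.card * pw q n := by
    refine hcrit.trans ?_
    have := Finset.sum_le_card_nsmul S (fun p => pw p n) (pw q n) hmax
    rwa [smul_eq_mul] at this
  refine ⟨q, hq, ?_⟩
  have hmono : pw q n ≤ pw q T := Nat.pow_le_pow_right (hSp q hq).pos (Nat.log_mono_right hnT)
  have hT2 : (2 : ℝ) ≤ T := by exact_mod_cast (hn.trans hnT)
  have hTpos : (0 : ℝ) < T := by linarith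
  have hlogT : 0 < Real.log T := Real.log_pos (by linarith)
  have hl2 : (1 / 2 : ℝ) < Real.log 2 := by
    have := Real.log_two_gt_d9
    linarith
  have hcardS : (S.card : ℝ) ≤ 2 * Real.log T := by
    have h3 : ((2 ^ S.card : ℕ) : ℝ) ≤ T := by exact_mod_cast (h2e.trans (hen.trans hnT))
    push_cast at h3
    have h4 := Real.log_le_log (by positivity) h3
    rw [Real.log_pow] at h4
    have h5 : 0 ≤ (S.card : ℝ) := Nat.cast_nonneg _
    nlinarith
  have hpwpos : (0 : ℝ) < pw q T := by
    have : 0 < pw q T := pow_pos (hSp q hq).pos _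
    exact_mod_cast this
  have haR : (0 : ℝ) < a := by exact_mod_cast Nat.pos_of_ne_zero ha0
  have h6 : (T : ℝ) ≤ (8 * Real.log T * a) * pw q T := by
    have h7 : (T : ℝ) ≤ 4 * n := by exact_mod_cast hTn.le
    have h8 : (n : ℝ) = a * e := by exact_mod_cast ha
    have h9 : (e : ℝ) ≤ S.card * pw q T := by
      have : e ≤ S.card * pw q T := h1.trans (Nat.mul_le_mul_left _ hmono)
      exact_mod_cast this
    calc (T : ℝ) ≤ 4 * n := h7
      _ = 4 * a * e := by rw [h8]; ring
      _ ≤ 4 * a * (S.card * pw q T) := mul_le_mul_of_nonneg_left h9 (by positivity)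
      _ ≤ 4 * a * ((2 * Real.log T) * pw q T) := by
          apply mul_le_mul_of_nonneg_left _ (by positivity)
          exact mul_le_mul_of_nonneg_right hcardS hpwpos.le
      _ = _ := by ring
  rw [← Real.log_div hTpos.ne' hpwpos.ne']
  apply Real.log_le_log (by positivity)
  rw [div_le_iff₀ hpwpos]
  exact h6

end Pool.Agent.Helper923.PPS
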