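import Mathlib
import Pool.Agent.Helper923.PPS.Crit

set_option autoImplicit false

open Finset Filter MeasureTheory

namespace Pool.Agent.Helper923.PPS

open scoped Classical in
/-- the counting function of the problem -/
noncomputable def NN (x : ℝ) : ℕ :=
  ((Finset.Icc 1 ⌊x⌋₊).filter (fun n : ℕ => (n : ℝ) < x ∧ f n = F n)).card

/-- `log x` times the truncated main term -/
noncomputable def GM (x : ℝ) : ℝ :=
  ∑ m ∈ Finset.Icc 1 ⌊Real.exp ((Real.log x) ^ (1 / 200 : ℝ))⌋₊,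
    (volume (Iset m ∩ Set.Icc 1 x)).toReal / m

open scoped Classical in
/-- the set in the main input -/
noncomputable def j3482_A (x : ℝ) : Finset ℕ :=
  (Finset.Icc 1 ⌊x⌋₊).filter (fun n : ℕ => (n : ℝ) < x ∧
        x / (Real.log x) ^ 2 < n ∧ ∃ m q : ℕ, q.Prime ∧ n = m * q ∧
        (m : ℝ) ≤ Real.exp ((Real.log x) ^ (1 / 200 : ℝ)) ∧ (n : ℝ) ∈ Iset m)

open scoped Classical in
/-- the exceptional set -/
noncomputable def j3482_E (T : ℕ) : Finset ℕ :=
  (Finset.Icc 1 T).filter (fun n : ℕ => T < 4 * n ∧ Crit n ∧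
      ¬ ∃ m q : ℕ, q.Prime ∧ n = m * q ∧
        (m : ℝ) ≤ Real.exp ((Real.log T) ^ (1 / 200 : ℝ)))

theorem j3482_Iset1 : Iset 1 = Set.Ici 1 := by
  ext t
  constructor
  · intro h
    exact h.1
  · intro h
    refine ⟨h, fun e he hsub => ?_⟩
    exfalso
    rw [Nat.primeFactors_one, Finset.subset_empty, Nat.primeFactors_eq_empty] at hsub
    omega

theorem j3482_G1 {x : ℝ} (hx : 1 ≤ x) : x - 1 ≤ GM x := by
  unfold GM
  have h1 : (1 : ℕ) ∈ Finset.Icc 1 ⌊Real.exp ((Real.log x) ^ (1 / 200 : ℝ))⌋₊ := by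
    rw [Finset.mem_Icc]
    refine ⟨le_rfl, ?_⟩
    rw [Nat.le_floor_iff (Real.exp_pos _).le, Nat.cast_one]
    apply Real.one_le_exp
    exact Real.rpow_nonneg (Real.log_nonneg hx) _
  refine le_trans ?_ (Finset.single_le_sum (f := fun m : ℕ =>
    (volume (Iset m ∩ Set.Icc 1 x)).toReal / (m : ℝ)) (fun m _ => by positivity) h1)
  simp only [Nat.cast_one, div_one]
  rw [j3482_Iset1]
  have h2 : Set.Ici (1 : ℝ) ∩ Set.Icc 1 x = Set.Icc 1 x :=
    Set.inter_eq_right.2 (fun y hy => hy.1)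
  rw [h2, Real.volume_Icc, ENNReal.toReal_ofReal (by linarith)]

theorem j3482_mq {x : ℝ} (hb : Real.exp ((Real.log x) ^ (1 / 200 : ℝ)) ^ 2 ≤
    x / (Real.log x) ^ 2) {n m q : ℕ} (hn : x / (Real.log x) ^ 2 < n) (hnm : n = m * q)
    (hm : (m : ℝ) ≤ Real.exp ((Real.log x) ^ (1 / 200 : ℝ))) : m < q := by
  by_contra hcon
  push Not at hcon
  have h1 : (n : ℝ) ≤ (m : ℝ) ^ 2 := by
    rw [hnm, sq, Nat.cast_mul]
    have : (q : ℝ) ≤ (m : ℝ) := by exact_mod_cast hcon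
    exact mul_le_mul_of_nonneg_left this (Nat.cast_nonneg _)
  have h2 : (m : ℝ) ^ 2 ≤ Real.exp ((Real.log x) ^ (1 / 200 : ℝ)) ^ 2 :=
    pow_le_pow_left₀ (Nat.cast_nonneg _) hm 2
  linarith

theorem j3482_lower (Hff : ∀ n : ℕ, 1 ≤ n → (f n = F n ↔ Crit n))
    (HI : ∀ m q : ℕ, 1 ≤ m → q.Prime → m < q → (Crit (m * q) ↔ ((m * q : ℕ) : ℝ) ∈ Iset m))
    {x : ℝ} (hb : Real.exp ((Real.log x) ^ (1 / 200 : ℝ)) ^ 2 ≤ x / (Real.log x) ^ 2) :
    (j3482_A x).card ≤ NN x := by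
  classical
  unfold j3482_A NN
  apply Finset.card_le_card
  intro n hn
  rw [Finset.mem_filter] at hn ⊢
  obtain ⟨hn1, hnx, hn2, m, q, hq, hnm, hm, hI⟩ := hn
  refine ⟨hn1, hnx, ?_⟩
  rw [Hff n (Finset.mem_Icc.1 hn1).1]
  have hmq := j3482_mq hb hn2 hnm hm
  have hm1 : 1 ≤ m := by
    rcases Nat.eq_zero_or_pos m with h0 | h0
    · rw [h0, zero_mul] at hnm
      have := (Finset.mem_Icc.1 hn1).1
      omega
    · exact h0
  rw [hnm] at hI ⊢
  exact (HI m q hm1 hq hmq).2 hI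

theorem j3482_cover (Hff : ∀ n : ℕ, 1 ≤ n → (f n = F n ↔ Crit n))
    (HI : ∀ m q : ℕ, 1 ≤ m → q.Prime → m < q → (Crit (m * q) ↔ ((m * q : ℕ) : ℝ) ∈ Iset m))
    {x : ℝ} (hx : 1 ≤ x)
    (hb : Real.exp ((Real.log x) ^ (1 / 200 : ℝ)) ^ 2 ≤ x / (Real.log x) ^ 2) :
    (NN x : ℝ) ≤ (j3482_A x).card + x / (Real.log x) ^ 2 +
      ∑ j ∈ (Finset.range (⌊x⌋₊ + 1)).filter
        (fun j => x / (Real.log x) ^ 2 < ((⌊x⌋₊ / 2 ^ j : ℕ) : ℝ)),
        ((j3482_E (⌊x⌋₊ / 2 ^ j)).card : ℝ) := by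
  classical
  set J := (Finset.range (⌊x⌋₊ + 1)).filter
        (fun j => x / (Real.log x) ^ 2 < ((⌊x⌋₊ / 2 ^ j : ℕ) : ℝ)) with hJ
  have hx0 : 0 ≤ x / (Real.log x) ^ 2 := by positivity
  have hcov : (Finset.Icc 1 ⌊x⌋₊).filter (fun n : ℕ => (n : ℝ) < x ∧ f n = F n) ⊆
      (j3482_A x ∪ Finset.Icc 1 ⌊x / (Real.log x) ^ 2⌋₊) ∪
        J.biUnion (fun j => j3482_E (⌊x⌋₊ / 2 ^ j)) := by
    intro n hn
    rw [Finset.mem_filter, Finset.mem_Icc] at hn
    obtain ⟨⟨hn1, hnT⟩, hnx, hf⟩ := hn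
    rw [Finset.mem_union, Finset.mem_union]
    by_cases hsmall : (n : ℝ) ≤ x / (Real.log x) ^ 2
    · left; right
      rw [Finset.mem_Icc]
      exact ⟨hn1, Nat.le_floor hsmall⟩
    push Not at hsmall
    by_cases hA : n ∈ j3482_A x
    · left; left; exact hA
    right
    rw [Finset.mem_biUnion]
    -- choice of j
    set T := ⌊x⌋₊ with hT
    have hTn : 1 ≤ T / n := (Nat.one_le_div_iff hn1).2 hnT
    set j := Nat.log 2 (T / n) with hj
    have h1 : 2 ^ j ≤ T / n := Nat.pow_log_le_self 2 (by omega)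
    have h2 : T / n < 2 ^ (j + 1) := Nat.lt_pow_succ_log_self (by norm_num) _
    have h3 : n ≤ T / 2 ^ j := by
      rw [Nat.le_div_iff_mul_le (by positivity)]
      rw [Nat.le_div_iff_mul_le hn1] at h1
      linarith
    have h4 : T / 2 ^ j < 2 * n := by
      rw [Nat.div_lt_iff_lt_mul hn1] at h2
      rw [Nat.div_lt_iff_lt_mul (by positivity)]
      rw [pow_succ] at h2
      linarith
    have hjT : j < T + 1 := by
      have h5 : j ≤ T / n := (Nat.lt_two_pow_self).le.trans h1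
      have h6 : T / n ≤ T := Nat.div_le_self _ _
      omega
    refine ⟨j, ?_, ?_⟩
    · rw [hJ, Finset.mem_filter, Finset.mem_range]
      refine ⟨hjT, hsmall.trans_le ?_⟩
      exact_mod_cast h3
    · unfold j3482_E
      rw [Finset.mem_filter, Finset.mem_Icc]
      refine ⟨⟨hn1, h3⟩, by omega, (Hff n hn1).1 hf, ?_⟩
      rintro ⟨m, q, hq, hnm, hm⟩
      apply hA
      unfold j3482_A
      rw [Finset.mem_filter, Finset.mem_Icc]
      have hm' : (m : ℝ) ≤ Real.exp ((Real.log x) ^ (1 / 200 : ℝ)) := by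
        refine hm.trans (Real.exp_le_exp.2 ?_)
        have h7 : (1 : ℝ) ≤ ((T / 2 ^ j : ℕ) : ℝ) := by
          have : 1 ≤ T / 2 ^ j := hn1.trans h3
          exact_mod_cast this
        apply Real.rpow_le_rpow (Real.log_nonneg h7) _ (by norm_num)
        apply Real.log_le_log (by linarith)
        calc ((T / 2 ^ j : ℕ) : ℝ) ≤ (T : ℝ) := by exact_mod_cast Nat.div_le_self _ _
          _ ≤ x := Nat.floor_le (by linarith)
      refine ⟨⟨hn1, hnT⟩, hnx, hsmall, m, q, hq, hnm, hm', ?_⟩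
      have hmq := j3482_mq hb hsmall hnm hm'
      have hm1 : 1 ≤ m := by
        rcases Nat.eq_zero_or_pos m with h0 | h0
        · rw [h0, zero_mul] at hnm
          omega
        · exact h0
      have hc := (Hff n hn1).1 hf
      rw [hnm] at hc ⊢
      exact (HI m q hm1 hq hmq).1 hc
  have hcard := Finset.card_le_card hcov
  have h1 : NN x = ((Finset.Icc 1 ⌊x⌋₊).filter (fun n : ℕ => (n : ℝ) < x ∧ f n = F n)).card := by
    unfold NN
    congr
  have h2 : NN x ≤ (j3482_A x).card + ⌊x / (Real.log x) ^ 2⌋₊ +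
      ∑ j ∈ J, (j3482_E (⌊x⌋₊ / 2 ^ j)).card := by
    rw [h1]
    refine hcard.trans ((Finset.card_union_le _ _).trans ?_)
    apply add_le_add
    · refine (Finset.card_union_le _ _).trans ?_
      rw [Nat.card_Icc]
      omega
    · exact Finset.card_biUnion_le
  have h3 : (NN x : ℝ) ≤ (j3482_A x).card + (⌊x / (Real.log x) ^ 2⌋₊ : ℝ) +
      ∑ j ∈ J, ((j3482_E (⌊x⌋₊ / 2 ^ j)).card : ℝ) := by
    exact_mod_cast h2
  have h4 : (⌊x / (Real.log x) ^ 2⌋₊ : ℝ) ≤ x / (Real.log x) ^ 2 := Nat.floor_le hx0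
  linarith

theorem j3482_sum {T₀ : ℕ} (Hexc : ∀ T : ℕ, T₀ ≤ T → ((j3482_E T).card : ℝ) ≤
      T / (Real.log T) ^ (1 + 1 / 2000 : ℝ)) {x : ℝ} (hx : 1 ≤ x) (hL : 1 ≤ Real.log x)
    (hc : Real.exp (Real.log x / 2) ≤ x / (Real.log x) ^ 2)
    (hd : (T₀ : ℝ) ≤ Real.exp (Real.log x / 2)) :
    ∑ j ∈ (Finset.range (⌊x⌋₊ + 1)).filter
        (fun j => x / (Real.log x) ^ 2 < ((⌊x⌋₊ / 2 ^ j : ℕ) : ℝ)),
        ((j3482_E (⌊x⌋₊ / 2 ^ j)).card : ℝ) ≤ 8 * x / (Real.log x) ^ (1 + 1 / 2000 : ℝ) := by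
  classical
  set L := Real.log x with hLdef
  have hterm : ∀ j ∈ (Finset.range (⌊x⌋₊ + 1)).filter
        (fun j => x / L ^ 2 < ((⌊x⌋₊ / 2 ^ j : ℕ) : ℝ)),
      ((j3482_E (⌊x⌋₊ / 2 ^ j)).card : ℝ) ≤ (1 / 2) ^ j * (4 * x / L ^ (1 + 1 / 2000 : ℝ)) := by
    intro j hj
    rw [Finset.mem_filter] at hj
    set T := ⌊x⌋₊ / 2 ^ j with hT
    have h1 : Real.exp (L / 2) ≤ (T : ℝ) := hc.trans hj.2.le
    have h2 : T₀ ≤ T := by exact_mod_cast hd.trans h1
    refine (Hexc T h2).trans ?_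
    have hTx : (T : ℝ) ≤ (1 / 2) ^ j * x := by
      have h3 : (T : ℝ) ≤ (⌊x⌋₊ : ℝ) / ((2 ^ j : ℕ) : ℝ) := Nat.cast_div_le
      have h4 : (⌊x⌋₊ : ℝ) ≤ x := Nat.floor_le (by linarith)
      calc (T : ℝ) ≤ (⌊x⌋₊ : ℝ) / ((2 ^ j : ℕ) : ℝ) := h3
        _ ≤ x / ((2 ^ j : ℕ) : ℝ) := by gcongr
        _ = (1 / 2) ^ j * x := by
          push_cast
          rw [one_div, inv_pow, div_eq_inv_mul]
    have hlog : L / 2 ≤ Real.log T := by
      rw [← Real.log_exp (L / 2)]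
      exact Real.log_le_log (Real.exp_pos _) h1
    have hden : L ^ (1 + 1 / 2000 : ℝ) / 4 ≤ (Real.log T) ^ (1 + 1 / 2000 : ℝ) := by
      calc L ^ (1 + 1 / 2000 : ℝ) / 4 ≤ (L / 2) ^ (1 + 1 / 2000 : ℝ) := by
            rw [Real.div_rpow (by linarith) (by norm_num)]
            apply div_le_div_of_nonneg_left (Real.rpow_nonneg (by linarith) _)
              (Real.rpow_pos_of_pos (by norm_num) _)
            calc (2 : ℝ) ^ (1 + 1 / 2000 : ℝ) ≤ (2 : ℝ) ^ (2 : ℝ) :=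
                  Real.rpow_le_rpow_of_exponent_le (by norm_num) (by norm_num)
              _ = 4 := by norm_num
        _ ≤ (Real.log T) ^ (1 + 1 / 2000 : ℝ) :=
            Real.rpow_le_rpow (by linarith) hlog (by norm_num)
    have hLp : 0 < L ^ (1 + 1 / 2000 : ℝ) := Real.rpow_pos_of_pos (by linarith) _
    calc (T : ℝ) / (Real.log T) ^ (1 + 1 / 2000 : ℝ) ≤
        ((1 / 2) ^ j * x) / (L ^ (1 + 1 / 2000 : ℝ) / 4) := by
          apply div_le_div₀ (by positivity) hTx (by positivity) hden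
      _ = (1 / 2) ^ j * (4 * x / L ^ (1 + 1 / 2000 : ℝ)) := by
          field_simp
  refine (Finset.sum_le_sum hterm).trans ?_
  rw [← Finset.sum_mul]
  have hLp : 0 < L ^ (1 + 1 / 2000 : ℝ) := Real.rpow_pos_of_pos (by linarith) _
  have hgeo : ∑ j ∈ (Finset.range (⌊x⌋₊ + 1)).filter
        (fun j => x / L ^ 2 < ((⌊x⌋₊ / 2 ^ j : ℕ) : ℝ)), ((1 : ℝ) / 2) ^ j ≤ 2 := by
    refine (Finset.sum_le_sum_of_subset_of_nonneg (Finset.filter_subset _ _)
      (fun j _ _ => by positivity)).trans ?_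
    have h1 := sum_geometric_two_le (⌊x⌋₊ + 1)
    exact h1
  calc _ ≤ 2 * (4 * x / L ^ (1 + 1 / 2000 : ℝ)) := by
        apply mul_le_mul_of_nonneg_right hgeo (by positivity)
    _ = 8 * x / L ^ (1 + 1 / 2000 : ℝ) := by ring

theorem j3482_ev1 : ∀ᶠ x : ℝ in atTop, Real.exp (Real.log x / 2) ≤ x / (Real.log x) ^ 2 ∧
    Real.exp ((Real.log x) ^ (1 / 200 : ℝ)) ^ 2 ≤ x / (Real.log x) ^ 2 := by
  have hlog : Tendsto Real.log atTop atTop := Real.tendsto_log_atTop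
  -- `L ^ 2 ≤ exp (L / 2)` eventually
  have h1 : ∀ᶠ L : ℝ in atTop, L ^ 2 ≤ Real.exp (L / 2) := by
    have h2 : Tendsto (fun L : ℝ => Real.exp L / L ^ 2) atTop atTop :=
      Real.tendsto_exp_div_pow_atTop 2
    have h3 : Tendsto (fun L : ℝ => L / 2) atTop atTop :=
      tendsto_id.atTop_div_const (by norm_num)
    have h4 := (h2.comp h3).eventually_ge_atTop 4
    filter_upwards [h4, eventually_gt_atTop 0] with L hL hL0
    simp only [Function.comp_apply] at hL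
    rw [le_div_iff₀ (by positivity)] at hL
    linarith
  -- `2 L ^ (1/200) ≤ L / 2` eventually
  have h5 : ∀ᶠ L : ℝ in atTop, 2 * L ^ (1 / 200 : ℝ) ≤ L / 2 := by
    have h6 : Tendsto (fun L : ℝ => L ^ (199 / 200 : ℝ)) atTop atTop :=
      tendsto_rpow_atTop (by norm_num)
    filter_upwards [h6.eventually_ge_atTop 4, eventually_gt_atTop 0] with L hL hL0
    have h7 : L = L ^ (1 / 200 : ℝ) * L ^ (199 / 200 : ℝ) := by
      rw [← Real.rpow_add hL0]
      norm_num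
    have h8 : 0 ≤ L ^ (1 / 200 : ℝ) := Real.rpow_nonneg hL0.le _
    nlinarith
  filter_upwards [hlog.eventually h1, hlog.eventually h5, hlog.eventually_ge_atTop 1,
    eventually_gt_atTop 0] with x hx1 hx2 hx3 hx0
  have hfirst : Real.exp (Real.log x / 2) ≤ x / (Real.log x) ^ 2 := by
    rw [le_div_iff₀ (by positivity)]
    calc Real.exp (Real.log x / 2) * Real.log x ^ 2 ≤
        Real.exp (Real.log x / 2) * Real.exp (Real.log x / 2) := by gcongr
      _ = x := by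
        rw [← Real.exp_add, add_halves, Real.exp_log hx0]
  refine ⟨hfirst, le_trans ?_ hfirst⟩
  rw [← Real.exp_nat_mul, Real.exp_le_exp]
  push_cast
  exact hx2

open scoped Classical in
theorem assemble
    (Hff : ∀ n : ℕ, 1 ≤ n → (f n = F n ↔ Crit n))
    (HI : ∀ m q : ℕ, 1 ≤ m → q.Prime → m < q → (Crit (m * q) ↔ ((m * q : ℕ) : ℝ) ∈ Iset m))
    (Hexc : ∀ᶠ T : ℕ in atTop, (((Finset.Icc 1 T).filter (fun n : ℕ => T < 4 * n ∧ Crit n ∧
      ¬ ∃ m q : ℕ, q.Prime ∧ n = m * q ∧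
        (m : ℝ) ≤ Real.exp ((Real.log T) ^ (1 / 200 : ℝ)))).card : ℝ) ≤
      T / (Real.log T) ^ (1 + 1 / 2000 : ℝ))
    (Hmain : Tendsto (fun x : ℝ =>
      (Real.log x * (((Finset.Icc 1 ⌊x⌋₊).filter (fun n : ℕ => (n : ℝ) < x ∧
        x / (Real.log x) ^ 2 < n ∧ ∃ m q : ℕ, q.Prime ∧ n = m * q ∧
        (m : ℝ) ≤ Real.exp ((Real.log x) ^ (1 / 200 : ℝ)) ∧ (n : ℝ) ∈ Iset m)).card : ℝ)) /
      GM x) atTop (nhds 1)) :
    Tendsto (fun x : ℝ => (NN x : ℝ) / (1 / Real.log x * GM x)) atTop (nhds 1) := by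
  classical
  obtain ⟨T₀, hT₀⟩ := eventually_atTop.1 Hexc
  have Hexc' : ∀ T : ℕ, T₀ ≤ T → ((j3482_E T).card : ℝ) ≤
      T / (Real.log T) ^ (1 + 1 / 2000 : ℝ) := hT₀
  have hlog : Tendsto Real.log atTop atTop := Real.tendsto_log_atTop
  have hexp2 : Tendsto (fun x : ℝ => Real.exp (Real.log x / 2)) atTop atTop :=
    Real.tendsto_exp_atTop.comp (hlog.atTop_div_const (by norm_num))
  have Hmain' : Tendsto (fun x : ℝ => (Real.log x * ((j3482_A x).card : ℝ)) / GM x)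
      atTop (nhds 1) := Hmain
  have herr : Tendsto (fun x : ℝ => 2 / Real.log x + 16 / (Real.log x) ^ (1 / 2000 : ℝ))
      atTop (nhds 0) := by
    have h1 : Tendsto (fun x : ℝ => 2 / Real.log x) atTop (nhds 0) :=
      hlog.const_div_atTop 2
    have h2 : Tendsto (fun x : ℝ => 16 / (Real.log x) ^ (1 / 2000 : ℝ)) atTop (nhds 0) :=
      ((tendsto_rpow_atTop (by norm_num : (0 : ℝ) < 1 / 2000)).comp hlog).const_div_atTop 16
    simpa using h1.add h2
  have hup : Tendsto (fun x : ℝ => (Real.log x * ((j3482_A x).card : ℝ)) / GM x +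
      (2 / Real.log x + 16 / (Real.log x) ^ (1 / 2000 : ℝ))) atTop (nhds 1) := by
    simpa using Hmain'.add herr
  refine tendsto_of_tendsto_of_tendsto_of_le_of_le' Hmain' hup ?_ ?_
  · filter_upwards [j3482_ev1, hlog.eventually_ge_atTop 1, eventually_ge_atTop 2] with x hx hL hx2
    have hG : 0 < GM x := by
      have := j3482_G1 (x := x) (by linarith)
      linarith
    have h1 : ((j3482_A x).card : ℝ) ≤ NN x := by exact_mod_cast j3482_lower Hff HI hx.2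
    have h2 : (NN x : ℝ) / (1 / Real.log x * GM x) = Real.log x * NN x / GM x := by
      field_simp
    rw [h2]
    gcongr
  · filter_upwards [j3482_ev1, hlog.eventually_ge_atTop 1, eventually_ge_atTop 2,
      hexp2.eventually_ge_atTop (T₀ : ℝ)] with x hx hL hx2 hT
    have hG1 := j3482_G1 (x := x) (by linarith)
    have hG : 0 < GM x := by linarith
    have hG2 : x / 2 ≤ GM x := by linarith
    have h1 := j3482_cover Hff HI (by linarith) hx.2
    have h3 := j3482_sum Hexc' (by linarith) hL hx.1 hT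
    have h2 : (NN x : ℝ) / (1 / Real.log x * GM x) = Real.log x * NN x / GM x := by
      field_simp
    rw [h2]
    set L := Real.log x with hLdef
    have h4 : (NN x : ℝ) ≤ (j3482_A x).card + x / L ^ 2 + 8 * x / L ^ (1 + 1 / 2000 : ℝ) := by
      linarith
    have hx0 : 0 < x := by linarith
    have hL0 : 0 < L := by linarith
    have hLp : 0 < L ^ (1 / 2000 : ℝ) := Real.rpow_pos_of_pos hL0 _
    have h5 : L ^ (1 + 1 / 2000 : ℝ) = L * L ^ (1 / 2000 : ℝ) := by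
      rw [Real.rpow_add hL0, Real.rpow_one]
    rw [h5] at h4
    have h6 : L * (NN x : ℝ) ≤ L * (j3482_A x).card + (x / 2) * (2 / L + 16 / L ^ (1 / 2000 : ℝ)) := by
      calc L * (NN x : ℝ) ≤ L * ((j3482_A x).card + x / L ^ 2 + 8 * x / (L * L ^ (1 / 2000 : ℝ))) :=
            mul_le_mul_of_nonneg_left h4 hL0.le
        _ = L * (j3482_A x).card + (x / 2) * (2 / L + 16 / L ^ (1 / 2000 : ℝ)) := by
            field_simp
            ring
    rw [div_add' _ _ _ hG.ne', div_le_div_iff_of_pos_right hG]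
    have h7 : (x / 2) * (2 / L + 16 / L ^ (1 / 2000 : ℝ)) ≤
        (2 / L + 16 / L ^ (1 / 2000 : ℝ)) * GM x := by
      rw [mul_comm]
      apply mul_le_mul_of_nonneg_left hG2
      positivity
    linarith

end Pool.Agent.Helper923.PPS
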