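import Mathlib

set_option autoImplicit false

open Finset

namespace Pool.Agent.Helper923.PPS

/-- the sum of the weights below `z` -/
noncomputable def WW (u : ℕ → ℝ) (V : ℝ) (c : Finset ℕ) (z : ℕ) : ℝ :=
  V + ∑ p ∈ c.filter (fun p => p < z), u p

/-- the gain of an element -/
noncomputable def gg (u D : ℕ → ℝ) (Cg : ℝ) (q : ℕ) : ℝ := max 1 (2 * Cg * u q / (1 + D q))

theorem one_le_gg (u D : ℕ → ℝ) (Cg : ℝ) (q : ℕ) : 1 ≤ gg u D Cg q := le_max_left _ _

theorem one_le_prod_gg (u D : ℕ → ℝ) (Cg : ℝ) (c : Finset ℕ) : 1 ≤ ∏ q ∈ c, gg u D Cg q := by
  classical
  induction c using Finset.induction_on with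
  | empty => simp
  | insert a s ha ih =>
    rw [Finset.prod_insert ha]
    have := one_le_gg u D Cg a
    nlinarith

theorem chain (u D : ℕ → ℝ) (V Cg : ℝ) (hV : 1 ≤ V) (hCg : 0 ≤ Cg) (hu : ∀ p, 0 ≤ u p)
    (hD : ∀ p, 0 ≤ D p) (hmono : ∀ p q : ℕ, p ≤ q → u p ≤ u q) :
    ∀ (k : ℕ) (c : Finset ℕ), c.card = k →
      (∀ z ∈ c, WW u V c z + u z ≤ Cg * u z) →
      ∀ y : ℝ, y ≤ V + ∑ p ∈ c, u p →
      (∀ z ∈ c, WW u V c z < y → ∃ q ∈ c, z ≤ q ∧ D q ≤ WW u V c z) →
      y ≤ V * ∏ q ∈ c, gg u D Cg q := by
  intro k
  induction k with
  | zero =>
    intro c hc _ y hy _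
    rw [Finset.card_eq_zero] at hc
    subst hc
    simpa using hy
  | succ k ih =>
    intro c hc hcg y hy hyp
    by_cases hyV : y ≤ V
    · have h1 : (1 : ℝ) ≤ ∏ q ∈ c, gg u D Cg q := one_le_prod_gg u D Cg c
      nlinarith
    · push Not at hyV
      have hcne : c.Nonempty := by
        rw [← Finset.card_pos]; omega
      -- the set of z in c with W z < y
      set B := c.filter (fun z => WW u V c z < y) with hB
      have hBne : B.Nonempty := by
        refine ⟨c.min' hcne, ?_⟩
        rw [hB, Finset.mem_filter]
        refine ⟨Finset.min'_mem _ _, ?_⟩
        have : c.filter (fun p => p < c.min' hcne) = ∅ := by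
          rw [Finset.filter_eq_empty_iff]
          intro p hp
          exact not_lt.mpr (Finset.min'_le _ _ hp)
        unfold WW
        rw [this]
        simpa using hyV
      set z := B.max' hBne with hz
      have hzB : z ∈ B := Finset.max'_mem _ _
      have hzc : z ∈ c := (Finset.mem_filter.mp hzB).1
      have hzW : WW u V c z < y := (Finset.mem_filter.mp hzB).2
      -- y ≤ W z + u z
      have hyz : y ≤ WW u V c z + u z := by
        by_cases hlast : ∃ w ∈ c, z < w
        · -- next element
          have hne : (c.filter (fun w => z < w)).Nonempty := by
            obtain ⟨w, hw, hzw⟩ := hlast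
            exact ⟨w, Finset.mem_filter.mpr ⟨hw, hzw⟩⟩
          set w := (c.filter (fun w => z < w)).min' hne with hw
          have hwm : w ∈ c.filter (fun w => z < w) := Finset.min'_mem _ _
          have hwc : w ∈ c := (Finset.mem_filter.mp hwm).1
          have hzw : z < w := (Finset.mem_filter.mp hwm).2
          have hwB : w ∉ B := fun h => by
            have := Finset.le_max' B w h
            omega
          have h1 : y ≤ WW u V c w := by
            by_contra hcon
            push Not at hcon
            exact hwB (Finset.mem_filter.mpr ⟨hwc, hcon⟩)
          have h2 : c.filter (fun p => p < w) = insert z (c.filter (fun p => p < z)) := by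
            ext p
            rw [Finset.mem_filter, Finset.mem_insert, Finset.mem_filter]
            constructor
            · rintro ⟨hp, hpw⟩
              rcases lt_trichotomy p z with h | h | h
              · exact Or.inr ⟨hp, h⟩
              · exact Or.inl h
              · have := Finset.min'_le (c.filter (fun w => z < w)) p
                  (Finset.mem_filter.mpr ⟨hp, h⟩)
                omega
            · rintro (h | h)
              · subst h; exact ⟨hzc, hzw⟩
              · exact ⟨h.1, h.2.trans hzw⟩
          unfold WW at h1 ⊢
          rw [h2, Finset.sum_insert (by simp)] at h1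
          linarith
        · push Not at hlast
          have h2 : c = insert z (c.filter (fun p => p < z)) := by
            ext p
            rw [Finset.mem_insert, Finset.mem_filter]
            constructor
            · intro hp
              have := hlast p hp
              rcases lt_or_eq_of_le this with h | h
              · exact Or.inr ⟨hp, h⟩
              · exact Or.inl h
            · rintro (h | h)
              · rw [h]; exact hzc
              · exact h.1
          have h3 : ∑ p ∈ c, u p = u z + ∑ p ∈ c.filter (fun p => p < z), u p := by
            conv_lhs => rw [h2]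
            rw [Finset.sum_insert (by simp)]
          unfold WW
          linarith
      obtain ⟨q, hqc, hzq, hDq⟩ := hyp z hzc hzW
      -- apply the induction hypothesis to c \ {q}, y' = D q
      have hcard : (c.erase q).card = k := by
        rw [Finset.card_erase_of_mem hqc, hc]; rfl
      have hWle : ∀ w : ℕ, WW u V (c.erase q) w ≤ WW u V c w := by
        intro w
        unfold WW
        have : ∑ p ∈ (c.erase q).filter (fun p => p < w), u p ≤
            ∑ p ∈ c.filter (fun p => p < w), u p := by
          apply Finset.sum_le_sum_of_subset_of_nonneg
          · exact Finset.filter_subset_filter _ (Finset.erase_subset _ _)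
          · intro p _ _; exact hu p
        linarith
      have hWeq : ∀ w : ℕ, w ≤ q → WW u V (c.erase q) w = WW u V c w := by
        intro w hw
        unfold WW
        congr 1
        apply Finset.sum_congr _ (fun _ _ => rfl)
        ext p
        simp only [Finset.mem_filter, Finset.mem_erase]
        constructor
        · rintro ⟨⟨_, h⟩, h'⟩; exact ⟨h, h'⟩
        · rintro ⟨h, h'⟩; exact ⟨⟨by omega, h⟩, h'⟩
      have hWmono : ∀ w w' : ℕ, w ≤ w' → WW u V c w ≤ WW u V c w' := by
        intro w w' hw
        unfold WW
        have : ∑ p ∈ c.filter (fun p => p < w), u p ≤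
            ∑ p ∈ c.filter (fun p => p < w'), u p := by
          apply Finset.sum_le_sum_of_subset_of_nonneg
          · intro p hp
            rw [Finset.mem_filter] at hp ⊢
            exact ⟨hp.1, by omega⟩
          · intro p _ _; exact hu p
        linarith
      have hih := ih (c.erase q) hcard
        (fun w hw => (by
          have := hcg w (Finset.mem_of_mem_erase hw)
          have := hWle w
          linarith)) (D q)
        (by
          refine hDq.trans ?_
          rw [← hWeq z hzq]
          unfold WW
          have : ∑ p ∈ (c.erase q).filter (fun p => p < z), u p ≤ ∑ p ∈ c.erase q, u p := by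
            apply Finset.sum_le_sum_of_subset_of_nonneg (Finset.filter_subset _ _)
            intro p _ _; exact hu p
          linarith)
        (by
          intro w hw hwD
          have hwc := Finset.mem_of_mem_erase hw
          have hwne := Finset.ne_of_mem_erase hw
          by_cases hwz : w < z
          · have hwq : w ≤ q := by omega
            rw [hWeq w hwq] at hwD ⊢
            have hwy : WW u V c w < y := by linarith
            obtain ⟨q', hq'c, hwq', hDq'⟩ := hyp w hwc hwy
            refine ⟨q', ?_, hwq', hDq'⟩
            rw [Finset.mem_erase]
            refine ⟨?_, hq'c⟩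
            rintro rfl
            linarith
          · exfalso
            push Not at hwz
            -- W' w ≥ W' z = W z ≥ D q
            have h1 : WW u V (c.erase q) z ≤ WW u V (c.erase q) w := by
              unfold WW
              have : ∑ p ∈ (c.erase q).filter (fun p => p < z), u p ≤
                  ∑ p ∈ (c.erase q).filter (fun p => p < w), u p := by
                apply Finset.sum_le_sum_of_subset_of_nonneg
                · intro p hp
                  rw [Finset.mem_filter] at hp ⊢
                  exact ⟨hp.1, by omega⟩
                · intro p _ _; exact hu p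
              linarith
            rw [hWeq z hzq] at h1
            linarith)
      -- conclusion
      have hprod : ∏ r ∈ c, gg u D Cg r = gg u D Cg q * ∏ r ∈ c.erase q, gg u D Cg r :=
        (Finset.mul_prod_erase c _ hqc).symm
      set P := ∏ r ∈ c.erase q, gg u D Cg r with hP
      have hP1 : (1 : ℝ) ≤ P := one_le_prod_gg u D Cg _
      have hD0 : (0 : ℝ) < 1 + D q := by have := hD q; linarith
      have hVP : 1 ≤ V * P := by nlinarith
      have h1D : 1 + D q ≤ 2 * (V * P) := by linarith
      have hyq : y ≤ Cg * u q := by
        have h1 := hcg z hzc
        have h2 := hmono z q hzq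
        nlinarith
      have hg : 2 * Cg * u q / (1 + D q) ≤ gg u D Cg q := le_max_right _ _
      have hCu : 0 ≤ Cg * u q := mul_nonneg hCg (hu q)
      rw [hprod]
      calc y ≤ Cg * u q := hyq
        _ = (Cg * u q / (1 + D q)) * (1 + D q) := by field_simp
        _ ≤ (Cg * u q / (1 + D q)) * (2 * (V * P)) := by
            apply mul_le_mul_of_nonneg_left h1D (by positivity)
        _ = (2 * Cg * u q / (1 + D q)) * (V * P) := by ring
        _ ≤ gg u D Cg q * (V * P) := by
            apply mul_le_mul_of_nonneg_right hg (by linarith)
        _ = V * (gg u D Cg q * P) := by ring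

end Pool.Agent.Helper923.PPS
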