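import Mathlib
import Pool.Agent.Helper923.PPS.BT

set_option autoImplicit false

open Finset Nat ArithmeticFunction BoundingSieve

namespace Pool.Agent.Helper923.PPS

theorem sifted_le {a q N R : ℕ} (hq : q = 1 ∨ q.Prime) (hR : 1 ≤ R) :
    (apSieve a q N R).siftedSum ≤ 4 * N / Real.log ((R : ℝ) + 1) + (R : ℝ) ^ 4 := by
  have hq0 : 0 < q := by
    rcases hq with h | h
    · omega
    · exact h.pos
  have hR' : (1 : ℝ) ≤ R := by exact_mod_cast hR
  have h2 := siftedSum_le_selberg (apSieve a q N R) (R : ℝ) hR' 1 zero_le_one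
    (fun d hd => apSieve_rem hq0 hd)
  have h3 := selS_ge_log (a := a) (N := N) (R := R) hq
  have hlog : 0 < Real.log ((R : ℝ) + 1) := Real.log_pos (by linarith)
  have h4 : (apSieve a q N R).totalMass / selS (apSieve a q N R) R ≤
      4 * N / Real.log ((R : ℝ) + 1) := by
    change (N : ℝ) / _ ≤ _
    have : (N : ℝ) / selS (apSieve a q N R) R ≤ (N : ℝ) / (Real.log ((R : ℝ) + 1) / 4) := by
      apply div_le_div_of_nonneg_left (by positivity) (by positivity) h3
    refine this.trans (le_of_eq ?_)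
    field_simp
  have h5 : (∑ d ∈ (divisors (apSieve a q N R).prodPrimes).filter (fun d : ℕ => (d : ℝ) ≤ R),
      ((apSieve a q N R).nu d)⁻¹) ≤ (R : ℝ) ^ 2 := by
    have h6 : (divisors (apSieve a q N R).prodPrimes).filter (fun d : ℕ => (d : ℝ) ≤ R) ⊆
        Finset.Icc 1 R := by
      intro d hd
      rw [Finset.mem_filter, Nat.mem_divisors] at hd
      rw [Finset.mem_Icc]
      refine ⟨Nat.pos_of_ne_zero (ne_zero_of_dvd_ne_zero hd.1.2 hd.1.1), by exact_mod_cast hd.2⟩
    calc (∑ d ∈ (divisors (apSieve a q N R).prodPrimes).filter (fun d : ℕ => (d : ℝ) ≤ R),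
          ((apSieve a q N R).nu d)⁻¹)
        = ∑ d ∈ (divisors (apSieve a q N R).prodPrimes).filter (fun d : ℕ => (d : ℝ) ≤ R),
          (d : ℝ) := by
          apply Finset.sum_congr rfl
          intro d _
          change ((d : ℝ)⁻¹)⁻¹ = d
          rw [inv_inv]
      _ ≤ ∑ d ∈ Finset.Icc 1 R, (d : ℝ) :=
          Finset.sum_le_sum_of_subset_of_nonneg h6 (fun _ _ _ => by positivity)
      _ ≤ ∑ d ∈ Finset.Icc 1 R, (R : ℝ) := by
          apply Finset.sum_le_sum
          intro d hd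
          exact_mod_cast (Finset.mem_Icc.mp hd).2
      _ = (R : ℝ) ^ 2 := by simp; ring
  have h7 : 0 ≤ (∑ d ∈ (divisors (apSieve a q N R).prodPrimes).filter (fun d : ℕ => (d : ℝ) ≤ R),
      ((apSieve a q N R).nu d)⁻¹) := by
    apply Finset.sum_nonneg
    intro d _
    change 0 ≤ ((d : ℝ)⁻¹)⁻¹
    positivity
  have h8 : (∑ d ∈ (divisors (apSieve a q N R).prodPrimes).filter (fun d : ℕ => (d : ℝ) ≤ R),
      ((apSieve a q N R).nu d)⁻¹) ^ 2 ≤ (R : ℝ) ^ 4 := by
    calc _ ≤ ((R : ℝ) ^ 2) ^ 2 := by gcongr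
      _ = (R : ℝ) ^ 4 := by ring
  linarith

open scoped Classical in
theorem rough_le_sifted {a N R z : ℕ} (hRz : R ≤ z) :
    (((Finset.range N).filter (fun k => ∀ p : ℕ, p.Prime → p ∣ a + k → z < p)).card : ℝ) ≤
      (apSieve a 1 N R).siftedSum := by
  have hinj : ∀ x ∈ Finset.range N, ∀ y ∈ Finset.range N,
      (fun k => a + k * 1) x = (fun k => a + k * 1) y → x = y := by
    intro x _ y _ hxy
    simp only at hxy
    omega
  have e : (apSieve a 1 N R).siftedSum =
      (((Finset.range N).filter (fun k => Nat.Coprime (PP 1 R) (a + k * 1))).card : ℝ) := by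
    unfold BoundingSieve.siftedSum
    have h0 : (apSieve a 1 N R).support = (Finset.range N).image (fun k => a + k * 1) := rfl
    rw [h0, Finset.sum_image hinj, Finset.card_filter]
    push_cast
    apply Finset.sum_congr rfl
    intro k _
    have h : (apSieve a 1 N R).prodPrimes = PP 1 R := rfl
    have h' : (apSieve a 1 N R).weights (a + k * 1) = 1 := rfl
    by_cases hc : Nat.Coprime (PP 1 R) (a + k * 1)
    · rw [if_pos hc, if_pos (by rw [h]; exact hc), h']
    · rw [if_neg hc, if_neg (by rw [h]; exact hc)]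
  rw [e]
  have : (Finset.range N).filter (fun k => ∀ p : ℕ, p.Prime → p ∣ a + k → z < p) ⊆
      (Finset.range N).filter (fun k => Nat.Coprime (PP 1 R) (a + k * 1)) := by
    intro k hk
    rw [Finset.mem_filter] at hk ⊢
    refine ⟨hk.1, ?_⟩
    rw [mul_one]
    by_contra hc
    obtain ⟨p, hp, hp1, hp2⟩ := Nat.Prime.not_coprime_iff_dvd.mp hc
    have h1 := hk.2 p hp hp2
    have h2 := ((prime_dvd_PP hp).mp hp1).1
    omega
  exact_mod_cast Finset.card_le_card this

open scoped Classical in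
/-- upper bound for rough numbers in an interval -/
theorem rough_count : ∃ C : ℝ, 1 ≤ C ∧ ∀ (a N z : ℕ), 2 ≤ z → z ≤ N →
    (((Finset.range N).filter (fun k => ∀ p : ℕ, p.Prime → p ∣ a + k → z < p)).card : ℝ) ≤
      C * N / Real.log z := by
  refine ⟨40, by norm_num, fun a N z hz hzN => ?_⟩
  have hN' : (2 : ℝ) ≤ N := by exact_mod_cast hz.trans hzN
  have hz' : (2 : ℝ) ≤ z := by exact_mod_cast hz
  have hzN' : (z : ℝ) ≤ N := by exact_mod_cast hzN
  have hN0 : (0 : ℝ) < N := by linarith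
  have hlogz : 0 < Real.log z := Real.log_pos (by linarith)
  have hlogzN : Real.log z ≤ Real.log N := Real.log_le_log (by linarith) hzN'
  set x : ℝ := (z : ℝ) ^ ((1 : ℝ) / 8) with hx
  have hx1 : 1 ≤ x := Real.one_le_rpow (by linarith) (by norm_num)
  have hx0 : 0 < x := by linarith
  have hR : 1 ≤ ⌊x⌋₊ := Nat.floor_pos.mpr hx1
  have hxz : x ≤ z := by
    calc x ≤ (z : ℝ) ^ (1 : ℝ) := Real.rpow_le_rpow_of_exponent_le (by linarith) (by norm_num)
      _ = z := Real.rpow_one _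
  have hRz : ⌊x⌋₊ ≤ z := by
    have := Nat.floor_le_floor hxz
    rwa [Nat.floor_natCast] at this
  have h := (rough_le_sifted (a := a) (N := N) hRz).trans
    (sifted_le (a := a) (N := N) (R := ⌊x⌋₊) (Or.inl rfl) hR)
  have hfl : (⌊x⌋₊ : ℝ) ≤ x := Nat.floor_le (by linarith)
  have hfl2 : x < (⌊x⌋₊ : ℝ) + 1 := Nat.lt_floor_add_one x
  have hlogx : Real.log x = Real.log z / 8 := by
    rw [hx, Real.log_rpow (by linarith)]; ring
  have h1 : 4 * (N : ℝ) / Real.log ((⌊x⌋₊ : ℝ) + 1) ≤ 32 * N / Real.log z := by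
    have h2 : Real.log z / 8 ≤ Real.log ((⌊x⌋₊ : ℝ) + 1) := by
      rw [← hlogx]; exact Real.log_le_log hx0 hfl2.le
    have h3 : 0 < Real.log z / 8 := by positivity
    calc 4 * (N : ℝ) / Real.log ((⌊x⌋₊ : ℝ) + 1) ≤ 4 * N / (Real.log z / 8) := by
          apply div_le_div_of_nonneg_left (by positivity) h3 h2
      _ = 32 * N / Real.log z := by field_simp; ring
  have h4 : (⌊x⌋₊ : ℝ) ^ 4 ≤ 8 * N / Real.log z := by
    have h5 : (⌊x⌋₊ : ℝ) ^ 4 ≤ (z : ℝ) ^ ((1 : ℝ) / 2) := by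
      calc (⌊x⌋₊ : ℝ) ^ 4 ≤ x ^ 4 := by gcongr
        _ = (z : ℝ) ^ ((1 : ℝ) / 2) := by
          rw [hx, ← Real.rpow_natCast, ← Real.rpow_mul (by linarith)]; norm_num
    have h6 : Real.log z ≤ 2 * (z : ℝ) ^ ((1 : ℝ) / 2) := by
      have := Real.log_le_rpow_div (x := (z : ℝ)) (ε := 1 / 2) (by linarith) (by norm_num)
      linarith
    have h7 : (z : ℝ) ^ ((1 : ℝ) / 2) * (z : ℝ) ^ ((1 : ℝ) / 2) = z := by
      rw [← Real.rpow_add (by linarith)]; norm_num
    have h8 : 0 < (z : ℝ) ^ ((1 : ℝ) / 2) := by positivity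
    rw [le_div_iff₀ hlogz]
    calc (⌊x⌋₊ : ℝ) ^ 4 * Real.log z ≤ (z : ℝ) ^ ((1 : ℝ) / 2) * (2 * (z : ℝ) ^ ((1 : ℝ) / 2)) := by
          gcongr
      _ = 2 * z := by linear_combination 2 * h7
      _ ≤ 8 * N := by linarith
  calc _ ≤ _ := h
    _ ≤ 32 * N / Real.log z + 8 * N / Real.log z := add_le_add h1 h4
    _ = 40 * N / Real.log z := by ring

end Pool.Agent.Helper923.PPS
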