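import Mathlib
import Pool.Agent.Helper923.PPS.Rough
import Pool.Agent.Helper923.HMertens

set_option autoImplicit false

open Finset

namespace Pool.Agent.Helper923.PPS

theorem sum_biUnion_le' {ι α : Type*} [DecidableEq α] (s : Finset ι) (t : ι → Finset α)
    (f : α → ℝ) (hf : ∀ a, 0 ≤ f a) :
    ∑ x ∈ s.biUnion t, f x ≤ ∑ i ∈ s, ∑ x ∈ t i, f x := by
  classical
  induction s using Finset.induction_on with
  | empty => simp
  | insert a s ha ih =>
    rw [Finset.biUnion_insert, Finset.sum_insert ha]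
    have := Finset.sum_union_inter (s₁ := t a) (s₂ := s.biUnion t) (f := f)
    have h2 : 0 ≤ ∑ x ∈ t a ∩ s.biUnion t, f x := Finset.sum_nonneg fun _ _ => hf _
    linarith

theorem exp_le_one_add_two {h : ℝ} (h0 : 0 ≤ h) (h1 : h ≤ 1) : Real.exp h ≤ 1 + 2 * h := by
  have := Real.abs_exp_sub_one_le (x := h) (by rw [abs_of_nonneg h0]; exact h1)
  rw [abs_of_nonneg h0] at this
  have := (abs_le.mp this).2
  linarith

theorem window_small : ∃ C : ℝ, 1 ≤ C ∧ ∀ (α h : ℝ), 1 ≤ α → Real.exp (-α / 2) ≤ h → h ≤ 1 →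
    ∀ S : Finset ℕ, (∀ q ∈ S, q.Prime ∧ α ≤ Real.log q ∧ Real.log q ≤ α + h) →
      ∑ q ∈ S, (1 : ℝ) / q ≤ C * h / α := by
  obtain ⟨C, hC1, hC⟩ := brun_titchmarsh
  refine ⟨10 * C, by linarith, fun α h hα hh hh1 S hS => ?_⟩
  have hh0 : 0 < h := (Real.exp_pos _).trans_le hh
  set y := Real.exp α with hy
  have hy0 : 0 < y := Real.exp_pos _
  have hhy : Real.exp (α / 2) ≤ h * y := by
    have : Real.exp (α / 2) = Real.exp (-α / 2) * y := by
      rw [hy, ← Real.exp_add]; congr 1; ring
    rw [this]; gcongr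
  have hhy1 : 1 ≤ h * y := (Real.one_le_exp (by linarith)).trans hhy
  set a := ⌈y⌉₊ with ha
  set N := ⌈2 * h * y⌉₊ + 2 with hN
  have hN2 : 2 ≤ N := by omega
  have hNle : (N : ℝ) ≤ 5 * (h * y) := by
    have := Nat.ceil_lt_add_one (a := 2 * h * y) (by positivity)
    rw [hN]; push_cast; linarith
  have hNge : h * y ≤ N := by
    have := Nat.le_ceil (2 * h * y)
    rw [hN]; push_cast
    nlinarith
  have hlogN : α / 2 ≤ Real.log N := by
    rw [← Real.log_exp (α / 2)]
    exact Real.log_le_log (Real.exp_pos _) (hhy.trans hNge)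
  have hcard : (S.card : ℝ) ≤ C * N / Real.log N := by
    refine le_trans ?_ (hC a 1 N hN2 (Or.inl rfl))
    have : S.card ≤ ((Finset.range N).filter (fun k => (a + k * 1).Prime)).card := by
      apply Finset.card_le_card_of_injOn (fun q => q - a)
      · intro q hq
        have h1 := hS q hq
        have hq0 : (0 : ℝ) < q := by exact_mod_cast h1.1.pos
        have hqy : y ≤ q := by
          rw [hy, ← Real.exp_log hq0]; exact Real.exp_le_exp.mpr h1.2.1
        have haq : a ≤ q := Nat.ceil_le.mpr hqy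
        have hqle : (q : ℝ) ≤ y + 2 * h * y := by
          calc (q : ℝ) = Real.exp (Real.log q) := (Real.exp_log hq0).symm
            _ ≤ Real.exp (α + h) := Real.exp_le_exp.mpr h1.2.2
            _ = y * Real.exp h := by rw [Real.exp_add]
            _ ≤ y * (1 + 2 * h) := by gcongr; exact exp_le_one_add_two hh0.le hh1
            _ = _ := by ring
        simp only [Finset.coe_filter, Finset.mem_range, Set.mem_ofPred_eq, mul_one]
        refine ⟨?_, ?_⟩
        · have h2 : ((q - a : ℕ) : ℝ) ≤ 2 * h * y := by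
            rw [Nat.cast_sub haq]
            have := Nat.le_ceil y
            linarith
          have h3 : ((q - a : ℕ) : ℝ) ≤ (⌈2 * h * y⌉₊ : ℝ) := h2.trans (Nat.le_ceil _)
          have h4 : q - a ≤ ⌈2 * h * y⌉₊ := by exact_mod_cast h3
          omega
        · rw [Nat.add_sub_cancel' haq]; exact h1.1
      · intro q hq q' hq' hqq
        have h1 := hS q hq
        have h1' := hS q' hq'
        have hq0 : (0 : ℝ) < q := by exact_mod_cast h1.1.pos
        have hq0' : (0 : ℝ) < q' := by exact_mod_cast h1'.1.pos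
        have haq : a ≤ q := Nat.ceil_le.mpr (by
          rw [hy, ← Real.exp_log hq0]; exact Real.exp_le_exp.mpr h1.2.1)
        have haq' : a ≤ q' := Nat.ceil_le.mpr (by
          rw [hy, ← Real.exp_log hq0']; exact Real.exp_le_exp.mpr h1'.2.1)
        simp only at hqq
        omega
    exact_mod_cast this
  have hsum : ∑ q ∈ S, (1 : ℝ) / q ≤ S.card * (1 / y) := by
    rw [← nsmul_eq_mul]
    apply Finset.sum_le_card_nsmul
    intro q hq
    have h1 := hS q hq
    have hq0 : (0 : ℝ) < q := by exact_mod_cast h1.1.pos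
    apply one_div_le_one_div_of_le hy0
    rw [hy, ← Real.exp_log hq0]; exact Real.exp_le_exp.mpr h1.2.1
  have h5 : C * N / Real.log N ≤ C * (5 * (h * y)) / (α / 2) := by
    apply div_le_div₀ (by positivity) (by gcongr) (by linarith) hlogN
  calc ∑ q ∈ S, (1 : ℝ) / q ≤ S.card * (1 / y) := hsum
    _ ≤ (C * (5 * (h * y)) / (α / 2)) * (1 / y) := by
        have : (0 : ℝ) ≤ 1 / y := by positivity
        exact mul_le_mul_of_nonneg_right (hcard.trans h5) this
    _ = 10 * C * h / α := by field_simp; ring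

theorem window_recip : ∃ C : ℝ, 1 ≤ C ∧ ∀ (α h : ℝ), 1 ≤ α → Real.exp (-α / 2) ≤ h →
    ∀ S : Finset ℕ, (∀ q ∈ S, q.Prime ∧ α ≤ Real.log q ∧ Real.log q ≤ α + h) →
      ∑ q ∈ S, (1 : ℝ) / q ≤ C * h / α := by
  classical
  obtain ⟨C, hC1, hC⟩ := window_small
  refine ⟨2 * C, by linarith, fun α h hα hh S hS => ?_⟩
  have hh0 : 0 < h := (Real.exp_pos _).trans_le hh
  by_cases hh1 : h ≤ 1
  · refine (hC α h hα hh hh1 S hS).trans ?_
    gcongr
    linarith
  · push Not at hh1
    have hcover : S ⊆ (Finset.range ⌈h⌉₊).biUnion (fun j : ℕ => S.filter (fun q : ℕ =>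
        α + j ≤ Real.log q ∧ Real.log q ≤ α + j + 1)) := by
      intro q hq
      have h1 := hS q hq
      rw [Finset.mem_biUnion]
      by_cases h0 : Real.log q = α + h
      · refine ⟨⌈h⌉₊ - 1, ?_, ?_⟩
        · rw [Finset.mem_range]
          have : 0 < ⌈h⌉₊ := Nat.ceil_pos.mpr hh0
          omega
        · have hpos : 1 ≤ ⌈h⌉₊ := Nat.ceil_pos.mpr hh0
          rw [Finset.mem_filter]
          refine ⟨hq, ?_, ?_⟩
          · rw [h0, Nat.cast_sub hpos]
            have := Nat.ceil_lt_add_one hh0.le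
            push_cast
            linarith
          · rw [h0, Nat.cast_sub hpos]
            have := Nat.le_ceil h
            push_cast
            linarith
      · have hlt : Real.log q < α + h := lt_of_le_of_ne h1.2.2 h0
        refine ⟨⌊Real.log q - α⌋₊, ?_, ?_⟩
        · rw [Finset.mem_range]
          have h2 : (⌊Real.log q - α⌋₊ : ℝ) ≤ Real.log q - α := Nat.floor_le (by linarith)
          have h3 : (⌊Real.log q - α⌋₊ : ℝ) < (⌈h⌉₊ : ℝ) := by
            have := Nat.le_ceil h
            linarith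
          exact_mod_cast h3
        · rw [Finset.mem_filter]
          have h2 : (⌊Real.log q - α⌋₊ : ℝ) ≤ Real.log q - α := Nat.floor_le (by linarith)
          have h3 := Nat.lt_floor_add_one (Real.log q - α)
          exact ⟨hq, by linarith, by linarith⟩
    calc ∑ q ∈ S, (1 : ℝ) / q ≤ ∑ q ∈ (Finset.range ⌈h⌉₊).biUnion (fun j : ℕ =>
          S.filter (fun q : ℕ => α + j ≤ Real.log q ∧ Real.log q ≤ α + j + 1)), (1 : ℝ) / q :=
          Finset.sum_le_sum_of_subset_of_nonneg hcover (fun _ _ _ => by positivity)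
      _ ≤ ∑ j ∈ Finset.range ⌈h⌉₊, ∑ q ∈ S.filter (fun q : ℕ =>
          α + j ≤ Real.log q ∧ Real.log q ≤ α + j + 1), (1 : ℝ) / q :=
          sum_biUnion_le' _ _ _ (fun _ => by positivity)
      _ ≤ ∑ j ∈ Finset.range ⌈h⌉₊, C * 1 / α := by
          apply Finset.sum_le_sum
          intro j _
          have hj : (0 : ℝ) ≤ j := by positivity
          have h1 := hC (α + j) 1 (by linarith) (Real.exp_le_one_iff.mpr (by linarith)) le_rfl
            (S.filter (fun q : ℕ => α + j ≤ Real.log q ∧ Real.log q ≤ α + j + 1))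
            (fun q hq => by
              rw [Finset.mem_filter] at hq
              exact ⟨(hS q hq.1).1, hq.2.1, hq.2.2⟩)
          refine h1.trans ?_
          gcongr
          linarith
      _ = ⌈h⌉₊ * (C * 1 / α) := by rw [Finset.sum_const, Finset.card_range, nsmul_eq_mul]
      _ ≤ (2 * h) * (C * 1 / α) := by
          have h2 := Nat.ceil_lt_add_one hh0.le
          have h3 : (⌈h⌉₊ : ℝ) ≤ 2 * h := by linarith
          gcongr
      _ = 2 * C * h / α := by ring

end Pool.Agent.Helper923.PPS
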