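import Mathlib
import Pool.Agent.Helper923.PPS.Window
import Pool.Agent.Helper923.PPS.Defs
import Pool.Agent.Helper923.HMertens

set_option autoImplicit false

open Finset Filter

namespace Pool.Agent.Helper923.PPS

/-- sum of reciprocals of the primes up to `T` -/
theorem primes_recip : ∃ C : ℝ, 1 ≤ C ∧ ∀ᶠ T : ℕ in atTop,
    ∀ S : Finset ℕ, (∀ q ∈ S, q.Prime ∧ q ≤ T) →
      ∑ q ∈ S, (1 : ℝ) / q ≤ C * Real.log (Real.log T) := by
  obtain ⟨C, hC0, hC⟩ := HMertens.mertens_ratio
  have hl2 : (0 : ℝ) < Real.log 2 := by have := Real.log_two_gt_d9; linarith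
  refine ⟨2 + (2 + C / Real.log 2), by have : 0 ≤ C / Real.log 2 := by positivity
                                       linarith, ?_⟩
  filter_upwards [tendsto_loglogT.eventually_ge_atTop 1, tendsto_logT.eventually_ge_atTop 2,
    eventually_ge_atTop 2] with T hT1 hT2 hT S hS
  have h1 := (abs_le.mp (hC 2 T le_rfl hT)).2
  have h2 : ∑ q ∈ S, (1 : ℝ) / q ≤ 1 / 2 + ∑ p ∈ (Finset.Ioc 2 T).filter Nat.Prime, (1 : ℝ) / p := by
    have hsub : S ⊆ insert 2 ((Finset.Ioc 2 T).filter Nat.Prime) := by
      intro q hq
      have := hS q hq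
      rw [Finset.mem_insert, Finset.mem_filter, Finset.mem_Ioc]
      rcases Nat.lt_or_ge 2 q with h | h
      · exact Or.inr ⟨⟨h, this.2⟩, this.1⟩
      · have := this.1.two_le
        left; omega
    calc ∑ q ∈ S, (1 : ℝ) / q ≤ ∑ q ∈ insert 2 ((Finset.Ioc 2 T).filter Nat.Prime), (1 : ℝ) / q :=
          Finset.sum_le_sum_of_subset_of_nonneg hsub (fun _ _ _ => by positivity)
      _ = _ := by
          rw [Finset.sum_insert]
          · norm_num
          · simp
  have h3 : Real.log (Real.log T / Real.log (2 : ℕ)) ≤ 2 * Real.log (Real.log T) := by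
    have hll : (0 : ℝ) < Real.log T := by linarith
    have hl2' : (1 : ℝ) / 2 ≤ Real.log 2 := by have := Real.log_two_gt_d9; linarith
    have : Real.log T / Real.log (2 : ℕ) ≤ (Real.log T) ^ 2 := by
      rw [div_le_iff₀ (by exact_mod_cast hl2)]
      push_cast
      nlinarith
    calc Real.log (Real.log T / Real.log (2 : ℕ)) ≤ Real.log ((Real.log T) ^ 2) := by
          apply Real.log_le_log _ this
          have : (0 : ℝ) < Real.log (2 : ℕ) := by exact_mod_cast hl2
          positivity
      _ = 2 * Real.log (Real.log T) := by rw [Real.log_pow]; norm_num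
  have h4 : 0 ≤ C / Real.log 2 := by positivity
  have h5 : C / Real.log (2 : ℕ) = C / Real.log 2 := by norm_num
  rw [h5] at h1
  nlinarith

/-- proximity lemma: few primes have a power just below `T` -/
theorem prox : ∃ C : ℝ, 1 ≤ C ∧ ∀ᶠ T : ℕ in atTop, ∀ z V : ℝ,
    (Real.log T) ^ (1 / 500 : ℝ) ≤ z → 0 ≤ V →
    ∀ S : Finset ℕ, (∀ q ∈ S, q.Prime ∧ q ≤ T ∧ z ≤ Real.log q ∧ DD T q ≤ V) →
      ∑ q ∈ S, (1 : ℝ) / q ≤ C * Real.log (Real.log T) * (V + 1) / z := by
  classical
  obtain ⟨C1, hC1, hP⟩ := primes_recip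
  obtain ⟨C2, hC2, hW⟩ := window_recip
  refine ⟨4 * C1 + 2 * C2, by linarith, ?_⟩
  have hpow : Tendsto (fun L : ℝ => L ^ (1 / 500 : ℝ)) atTop atTop :=
    tendsto_rpow_atTop (by norm_num)
  filter_upwards [hP, tendsto_loglogT.eventually_ge_atTop 1, tendsto_logT.eventually_ge_atTop 2,
    eventually_ge_atTop 2, tendsto_logT.eventually (hpow.eventually_ge_atTop 2),
    tendsto_logT.eventually (exp_small (1 / 500) (3 / 8) (-1) (by norm_num) (by norm_num))]
    with T hPT hLL hL hT hpw hexp z V hz hV S hS
  set L := Real.log T with hLdef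
  have hL0 : 0 < L := by linarith
  have hz2 : 2 ≤ z := hpw.trans hz
  have hz0 : 0 < z := by linarith
  by_cases hSe : S = ∅
  · subst hSe
    simp only [Finset.sum_empty]
    positivity
  · obtain ⟨q0, hq0⟩ := Finset.nonempty_iff_ne_empty.mpr hSe
    have hzL : z ≤ L := by
      have h1 := hS q0 hq0
      refine h1.2.2.1.trans ?_
      exact Real.log_le_log (by exact_mod_cast h1.1.pos) (by exact_mod_cast h1.2.1)
    by_cases hVL : L / 4 ≤ V
    · have h1 := hPT S (fun q hq => ⟨(hS q hq).1, (hS q hq).2.1⟩)
      refine h1.trans ?_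
      rw [le_div_iff₀ hz0]
      have h2 : z ≤ 4 * (V + 1) := by linarith
      have h3 : 0 ≤ Real.log L := by linarith
      calc C1 * Real.log L * z ≤ C1 * Real.log L * (4 * (V + 1)) := by gcongr
        _ = (4 * C1) * Real.log L * (V + 1) := by ring
        _ ≤ (4 * C1 + 2 * C2) * Real.log L * (V + 1) := by gcongr; linarith
    · push Not at hVL
      set K := ⌊L / z⌋₊ with hK
      have hcover : S ⊆ (Finset.Icc 1 K).biUnion (fun k => S.filter (fun q => Nat.log q T = k)) := by
        intro q hq
        have h1 := hS q hq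
        rw [Finset.mem_biUnion]
        refine ⟨Nat.log q T, ?_, Finset.mem_filter.mpr ⟨hq, rfl⟩⟩
        rw [Finset.mem_Icc]
        refine ⟨Nat.log_pos h1.1.one_lt h1.2.1, ?_⟩
        apply Nat.le_floor
        rw [le_div_iff₀ hz0]
        have h2 := DD_nonneg (T := T) h1.1.two_le (by omega)
        rw [DD_eq] at h2
        have h3 : (Nat.log q T : ℝ) * z ≤ Nat.log q T * Real.log q := by
          apply mul_le_mul_of_nonneg_left h1.2.2.1 (by positivity)
        linarith
      have hterm : ∀ k ∈ Finset.Icc 1 K, ∑ q ∈ S.filter (fun q => Nat.log q T = k), (1 : ℝ) / q ≤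
          2 * C2 * (V + 1) / L := by
        intro k hk
        rw [Finset.mem_Icc] at hk
        have hk0 : (0 : ℝ) < k := by exact_mod_cast hk.1
        have hkL : (k : ℝ) * z ≤ L := by
          have h1 : (k : ℝ) ≤ L / z := by
            have := Nat.floor_le (a := L / z) (by positivity)
            have h2 : (k : ℝ) ≤ (⌊L / z⌋₊ : ℝ) := by exact_mod_cast hk.2
            linarith
          rwa [le_div_iff₀ hz0] at h1
        have hα : z * (3 / 4) ≤ (L - V) / k := by
          rw [le_div_iff₀ hk0]
          nlinarith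
        have h1 := hW ((L - V) / k) ((V + 1) / k) (by linarith)
          (by
            calc Real.exp (-((L - V) / k) / 2) ≤ Real.exp (-(3 / 8 * L ^ (1 / 500 : ℝ))) := by
                  apply Real.exp_le_exp.mpr
                  linarith
              _ ≤ L ^ (-1 : ℝ) := hexp
              _ = 1 / L := by rw [Real.rpow_neg_one, one_div]
              _ ≤ (V + 1) / k := by
                  rw [div_le_div_iff₀ hL0 hk0]
                  nlinarith)
          (S.filter (fun q => Nat.log q T = k))
          (fun q hq => by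
            rw [Finset.mem_filter] at hq
            have h1 := hS q hq.1
            have h2 := DD_nonneg (T := T) h1.1.two_le (by omega)
            have h3 := h1.2.2.2
            rw [DD_eq, hq.2] at h2 h3
            refine ⟨h1.1, ?_, ?_⟩
            · rw [div_le_iff₀ hk0]; linarith
            · rw [← add_div, le_div_iff₀ hk0]; linarith)
        refine h1.trans ?_
        have hLV : L / 2 ≤ L - V := by linarith
        have hLV0 : 0 < L - V := by linarith
        have h2 : C2 * ((V + 1) / k) / ((L - V) / k) = C2 * (V + 1) / (L - V) := by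
          field_simp
        rw [h2, div_le_div_iff₀ hLV0 hL0]
        have h3 : 0 ≤ C2 * (V + 1) := by positivity
        nlinarith
      calc ∑ q ∈ S, (1 : ℝ) / q
          ≤ ∑ q ∈ (Finset.Icc 1 K).biUnion (fun k => S.filter (fun q => Nat.log q T = k)),
            (1 : ℝ) / q :=
            Finset.sum_le_sum_of_subset_of_nonneg hcover (fun _ _ _ => by positivity)
        _ ≤ ∑ k ∈ Finset.Icc 1 K, ∑ q ∈ S.filter (fun q => Nat.log q T = k), (1 : ℝ) / q :=
            sum_biUnion_le' _ _ _ (fun _ => by positivity)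
        _ ≤ ∑ k ∈ Finset.Icc 1 K, 2 * C2 * (V + 1) / L := Finset.sum_le_sum hterm
        _ = K * (2 * C2 * (V + 1) / L) := by
            rw [Finset.sum_const, nsmul_eq_mul]; simp
        _ ≤ (L / z) * (2 * C2 * (V + 1) / L) := by
            apply mul_le_mul_of_nonneg_right (Nat.floor_le (by positivity)) (by positivity)
        _ = 2 * C2 * (V + 1) / z := by field_simp
        _ ≤ (4 * C1 + 2 * C2) * Real.log L * (V + 1) / z := by
            apply div_le_div_of_nonneg_right _ hz0.le
            apply mul_le_mul_of_nonneg_right _ (by linarith)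
            nlinarith

end Pool.Agent.Helper923.PPS
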