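import Mathlib
import Pool.Agent.Helper923.PPS.Prox

set_option autoImplicit false

open Finset Filter

namespace Pool.Agent.Helper923.PPS

/-- the set of primes `q'` for which `log q' / log q` has a good rational approximation is thin -/
theorem bad_measure2
    (H : ∃ C : ℝ, 1 ≤ C ∧ ∀ (α h : ℝ), 1 ≤ α → Real.exp (-α / 2) ≤ h →
      ∀ S : Finset ℕ, (∀ q ∈ S, q.Prime ∧ α ≤ Real.log q ∧ Real.log q ≤ α + h) →
        ∑ q ∈ S, (1 : ℝ) / q ≤ C * h / α) :
    ∃ C : ℝ, 1 ≤ C ∧ ∀ (q B K : ℕ) (L z : ℝ), 1 / 2 ≤ Real.log q → 8 ≤ K → 1 ≤ B → 8 ≤ z →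
      (K : ℝ) ≤ Real.exp (z / 4) → 1 ≤ L → 4 * L ≤ K →
      ∀ S : Finset ℕ, (∀ q' ∈ S, q'.Prime ∧ q < q' ∧ z ≤ Real.log q' ∧ Real.log q' ≤ L ∧
        ∃ b : ℕ, 1 ≤ b ∧ b ≤ B ∧ ∃ a : ℤ,
          |b * (Real.log q' / Real.log q) - a| ≤ 2 * (b : ℝ) / K) →
      ∑ q' ∈ S, (1 : ℝ) / q' ≤ C * (B : ℝ) ^ 2 * (1 + Real.log (B * (2 * L + 1))) / K := by
  classical
  obtain ⟨C0, hC0, H⟩ := H
  refine ⟨8 * C0, by linarith, ?_⟩
  intro q B K L z hu hK hB hz hKe hL hLK S hS
  set u : ℝ := Real.log q with hudef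
  have hKr : (8 : ℝ) ≤ K := by exact_mod_cast hK
  have hBr : (1 : ℝ) ≤ B := by exact_mod_cast hB
  have hKpos : (0 : ℝ) < K := by linarith
  have hupos : 0 < u := by linarith
  set N : ℕ := ⌊(B : ℝ) * (2 * L + 1)⌋₊ with hN
  let W : ℕ × ℕ → ℕ → Prop := fun p q' =>
    |(p.1 : ℝ) * (Real.log q' / u) - (p.2 : ℝ)| ≤ 2 * (p.1 : ℝ) / K
  let P : Finset (ℕ × ℕ) := Finset.Icc 1 B ×ˢ Finset.Icc 1 N
  have h2K : (2 : ℝ) / K ≤ 1 / 4 := by
    rw [div_le_div_iff₀ hKpos (by norm_num)]; linarith
  -- bounds on the ratio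
  have hratio : ∀ q' ∈ S, ∀ b : ℕ, 1 ≤ b → ∀ a : ℝ,
      |(b : ℝ) * (Real.log q' / u) - a| ≤ 2 * (b : ℝ) / K →
      3 / 4 * (b : ℝ) ≤ a ∧ a ≤ b * (2 * L + 1) ∧
      a * u / b - 2 * u / K ≤ Real.log q' ∧ Real.log q' ≤ a * u / b - 2 * u / K + 4 * u / K := by
    intro q' hq' b hb a hab
    obtain ⟨hp, hlt, hzq, hle, -⟩ := hS q' hq'
    have hbr : (1 : ℝ) ≤ b := by exact_mod_cast hb
    have hqpos : (0 : ℝ) < q := by
      by_contra h
      have : (q : ℝ) = 0 := le_antisymm (not_lt.1 h) (Nat.cast_nonneg q)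
      rw [hudef, this, Real.log_zero] at hu
      linarith
    have hlog : u ≤ Real.log q' := by
      apply Real.log_le_log hqpos
      exact_mod_cast hlt.le
    rw [abs_le] at hab
    obtain ⟨h1, h2⟩ := hab
    have h3 : 2 * (b : ℝ) / K = b * (2 / K) := by ring
    rw [h3] at h1 h2
    set r : ℝ := Real.log q' / u with hr
    have hr1 : 1 ≤ r := by rw [hr, le_div_iff₀ hupos]; linarith
    have hrL : r ≤ 2 * L := by
      rw [hr, div_le_iff₀ hupos]
      nlinarith
    have hru : Real.log q' = r * u := by rw [hr]; field_simp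
    refine ⟨?_, ?_, ?_, ?_⟩
    · nlinarith
    · nlinarith
    · rw [hru]
      have : a / b ≤ r + 2 / K := by
        rw [div_le_iff₀ (by linarith)]
        nlinarith
      calc a * u / b - 2 * u / K = (a / b - 2 / K) * u := by ring
        _ ≤ r * u := by nlinarith
    · rw [hru]
      have : r - 2 / K ≤ a / b := by
        rw [le_div_iff₀ (by linarith)]
        nlinarith
      calc r * u ≤ (a / b + 2 / K) * u := by nlinarith
        _ = a * u / b - 2 * u / K + 4 * u / K := by ring
  -- sum over a window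
  have hwin : ∀ p ∈ P, ∑ q' ∈ S.filter (W p), (1 : ℝ) / q' ≤ 8 * C0 * B / K * (1 / (p.2 : ℝ)) := by
    rintro ⟨b, a⟩ hp
    simp only [P, Finset.mem_product, Finset.mem_Icc] at hp
    obtain ⟨⟨hb1, hbB⟩, ha1, haN⟩ := hp
    have hbr : (1 : ℝ) ≤ b := by exact_mod_cast hb1
    have hbBr : (b : ℝ) ≤ B := by exact_mod_cast hbB
    have har : (1 : ℝ) ≤ a := by exact_mod_cast ha1
    simp only
    by_cases hne : (S.filter (W (b, a))).Nonempty
    · obtain ⟨q0, hq0⟩ := hne
      rw [Finset.mem_filter] at hq0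
      obtain ⟨hab, -, -, -⟩ := hratio q0 hq0.1 b hb1 a hq0.2
      set α0 : ℝ := a * u / b - 2 * u / K with hα0
      have hdiv : 3 / 4 ≤ (a : ℝ) / b := by
        rw [le_div_iff₀ (by linarith)]; linarith
      have hα0' : α0 = u * (a / b - 2 / K) := by rw [hα0]; ring
      have huL : u ≤ L := by
        have hq0' := hS q0 hq0.1
        have hqpos : (0 : ℝ) < q := by
          by_contra h
          have : (q : ℝ) = 0 := le_antisymm (not_lt.1 h) (Nat.cast_nonneg q)
          rw [hudef, this, Real.log_zero] at hu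
          linarith
        have : u ≤ Real.log q0 := by
          apply Real.log_le_log hqpos
          exact_mod_cast hq0'.2.1.le
        linarith [hq0'.2.2.2.1]
      have hα1 : z - 1 ≤ α0 := by
        obtain ⟨-, -, -, h4⟩ := hratio q0 hq0.1 b hb1 a hq0.2
        have h5 : 4 * u / K ≤ 1 := by
          rw [div_le_one hKpos]; linarith
        have h6 := (hS q0 hq0.1).2.2.1
        linarith
      have hα2 : a * u / (2 * b) ≤ α0 := by
        rw [hα0']
        have : a * u / (2 * b) = u * ((a : ℝ) / b / 2) := by field_simp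
        rw [this]
        nlinarith
      have hexp : Real.exp (-α0 / 2) ≤ 4 * u / K := by
        have h1 : Real.exp (-α0 / 2) ≤ Real.exp (-(z / 4)) := Real.exp_le_exp.2 (by linarith)
        have h2 : Real.exp (-(z / 4)) ≤ 1 / K := by
          rw [Real.exp_neg, ← one_div]
          apply one_div_le_one_div_of_le hKpos
          exact hKe
        have h3 : (1 : ℝ) / K ≤ 4 * u / K := by
          apply div_le_div_of_nonneg_right _ hKpos.le
          linarith
        linarith
      have hsum := H α0 (4 * u / K) (by linarith) hexp (S.filter (W (b, a))) (by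
        intro q' hq'
        rw [Finset.mem_filter] at hq'
        obtain ⟨-, -, h1, h2⟩ := hratio q' hq'.1 b hb1 a hq'.2
        exact ⟨(hS q' hq'.1).1, h1, h2⟩)
      refine hsum.trans ?_
      have hapos : 0 < a * u / (2 * (b : ℝ)) := by positivity
      calc C0 * (4 * u / K) / α0 ≤ C0 * (4 * u / K) / (a * u / (2 * b)) := by
            apply div_le_div_of_nonneg_left _ hapos hα2
            positivity
        _ = 8 * C0 * b / K * (1 / a) := by field_simp; ring
        _ ≤ 8 * C0 * B / K * (1 / a) := by gcongr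
    · rw [Finset.not_nonempty_iff_eq_empty] at hne
      rw [hne, Finset.sum_empty]
      positivity
  -- covering
  have hcov : ∑ q' ∈ S, (1 : ℝ) / q' ≤ ∑ p ∈ P, ∑ q' ∈ S.filter (W p), (1 : ℝ) / q' := by
    have e1 : ∀ p ∈ P, ∑ q' ∈ S.filter (W p), (1 : ℝ) / q' =
        ∑ q' ∈ S, if W p q' then (1 : ℝ) / q' else 0 := by
      intro p _
      rw [Finset.sum_filter]
    rw [Finset.sum_congr rfl e1, Finset.sum_comm]
    refine Finset.sum_le_sum fun q' hq' => ?_
    obtain ⟨hp, hlt, hzq, hle, b, hb1, hbB, a, hab⟩ := hS q' hq'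
    obtain ⟨h1, h2, -, -⟩ := hratio q' hq' b hb1 a hab
    have hbr : (1 : ℝ) ≤ b := by exact_mod_cast hb1
    have hbBr : (b : ℝ) ≤ B := by exact_mod_cast hbB
    have hapos : (0 : ℝ) < a := by linarith
    have hapos' : 0 < a := by exact_mod_cast hapos
    obtain ⟨a', rfl⟩ : ∃ a' : ℕ, a = (a' : ℤ) := ⟨a.toNat, by omega⟩
    have ha'1 : 1 ≤ a' := by omega
    have hmem : (b, a') ∈ P := by
      simp only [P, Finset.mem_product, Finset.mem_Icc]
      refine ⟨⟨hb1, hbB⟩, ha'1, ?_⟩
      rw [hN]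
      apply Nat.le_floor
      push_cast at h2
      refine h2.trans ?_
      gcongr
    have hW : W (b, a') q' := by
      simp only [W]
      push_cast at hab
      exact hab
    calc (1 : ℝ) / q' = if W (b, a') q' then (1 : ℝ) / q' else 0 := by rw [if_pos hW]
      _ ≤ ∑ p ∈ P, if W p q' then (1 : ℝ) / q' else 0 := by
        apply Finset.single_le_sum (f := fun p => if W p q' then (1 : ℝ) / q' else 0) _ hmem
        intro p _
        split_ifs
        · positivity
        · exact le_rfl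
  refine hcov.trans ((Finset.sum_le_sum hwin).trans ?_)
  rw [← Finset.mul_sum, Finset.sum_product]
  simp only [Finset.sum_const, Nat.card_Icc, Nat.add_sub_cancel, nsmul_eq_mul]
  have hharm : ∑ y ∈ Finset.Icc 1 N, (1 : ℝ) / (y : ℝ) ≤ 1 + Real.log (B * (2 * L + 1)) := by
    have h1 := harmonic_floor_le_one_add_log ((B : ℝ) * (2 * L + 1)) (by nlinarith)
    rw [← hN] at h1
    refine le_trans (le_of_eq ?_) h1
    rw [harmonic_eq_sum_Icc]
    push_cast
    refine Finset.sum_congr rfl fun y _ => ?_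
    rw [one_div]
  calc 8 * C0 * (B : ℝ) / K * ((B : ℝ) * ∑ y ∈ Finset.Icc 1 N, (1 : ℝ) / (y : ℝ))
      ≤ 8 * C0 * (B : ℝ) / K * ((B : ℝ) * (1 + Real.log (B * (2 * L + 1)))) := by
        gcongr
    _ = 8 * C0 * (B : ℝ) ^ 2 * (1 + Real.log (B * (2 * L + 1))) / K := by ring


/-- proximity lemma, sharper form -/
theorem prox2 : ∃ C : ℝ, 1 ≤ C ∧ ∀ᶠ T : ℕ in atTop, ∀ z V : ℝ,
    3 * Real.log (Real.log T) ≤ z → 0 ≤ V → V ≤ Real.log T / 4 →
    ∀ S : Finset ℕ, (∀ q ∈ S, q.Prime ∧ q ≤ T ∧ z ≤ Real.log q ∧ DD T q ≤ V) →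
      ∑ q ∈ S, (1 : ℝ) / q ≤ C * (V + 1) / z := by
  classical
  obtain ⟨C2, hC2, hW⟩ := window_recip
  refine ⟨2 * C2, by linarith, ?_⟩
  filter_upwards [tendsto_loglogT.eventually_ge_atTop 1, tendsto_logT.eventually_ge_atTop 2,
    eventually_ge_atTop 2] with T hLL hL hT z V hz hV hVL S hS
  set L := Real.log T with hLdef
  have hL0 : 0 < L := by linarith
  have hz2 : 3 ≤ z := by linarith
  have hz0 : 0 < z := by linarith
  by_cases hSe : S = ∅
  · subst hSe
    simp only [Finset.sum_empty]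
    positivity
  · obtain ⟨q0, hq0⟩ := Finset.nonempty_iff_ne_empty.mpr hSe
    have hzL : z ≤ L := by
      have h1 := hS q0 hq0
      refine h1.2.2.1.trans ?_
      exact Real.log_le_log (by exact_mod_cast h1.1.pos) (by exact_mod_cast h1.2.1)
    set K := ⌊L / z⌋₊ with hK
    have hcover : S ⊆ (Finset.Icc 1 K).biUnion (fun k => S.filter (fun q => Nat.log q T = k)) := by
      intro q hq
      have h1 := hS q hq
      rw [Finset.mem_biUnion]
      refine ⟨Nat.log q T, ?_, Finset.mem_filter.mpr ⟨hq, rfl⟩⟩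
      rw [Finset.mem_Icc]
      refine ⟨Nat.log_pos h1.1.one_lt h1.2.1, ?_⟩
      apply Nat.le_floor
      rw [le_div_iff₀ hz0]
      have h2 := DD_nonneg (T := T) h1.1.two_le (by omega)
      rw [DD_eq] at h2
      have h3 : (Nat.log q T : ℝ) * z ≤ Nat.log q T * Real.log q := by
        apply mul_le_mul_of_nonneg_left h1.2.2.1 (by positivity)
      linarith
    have hterm : ∀ k ∈ Finset.Icc 1 K, ∑ q ∈ S.filter (fun q => Nat.log q T = k), (1 : ℝ) / q ≤
        2 * C2 * (V + 1) / L := by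
      intro k hk
      rw [Finset.mem_Icc] at hk
      have hk0 : (0 : ℝ) < k := by exact_mod_cast hk.1
      have hkL : (k : ℝ) * z ≤ L := by
        have h1 : (k : ℝ) ≤ L / z := by
          have := Nat.floor_le (a := L / z) (by positivity)
          have h2 : (k : ℝ) ≤ (⌊L / z⌋₊ : ℝ) := by exact_mod_cast hk.2
          linarith
        rwa [le_div_iff₀ hz0] at h1
      have hα : z * (3 / 4) ≤ (L - V) / k := by
        rw [le_div_iff₀ hk0]
        nlinarith
      have h1 := hW ((L - V) / k) ((V + 1) / k) (by linarith)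
        (by
          calc Real.exp (-((L - V) / k) / 2) ≤ Real.exp (-Real.log L) := by
                apply Real.exp_le_exp.mpr
                linarith
            _ = 1 / L := by rw [Real.exp_neg, Real.exp_log hL0, one_div]
            _ ≤ (V + 1) / k := by
                rw [div_le_div_iff₀ hL0 hk0]
                nlinarith)
        (S.filter (fun q => Nat.log q T = k))
        (fun q hq => by
          rw [Finset.mem_filter] at hq
          have h1 := hS q hq.1
          have h2 := DD_nonneg (T := T) h1.1.two_le (by omega)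
          have h3 := h1.2.2.2
          rw [DD_eq, hq.2] at h2 h3
          refine ⟨h1.1, ?_, ?_⟩
          · rw [div_le_iff₀ hk0]; linarith
          · rw [← add_div, le_div_iff₀ hk0]; linarith)
      refine h1.trans ?_
      have hLV : L / 2 ≤ L - V := by linarith
      have hLV0 : 0 < L - V := by linarith
      have h2 : C2 * ((V + 1) / k) / ((L - V) / k) = C2 * (V + 1) / (L - V) := by
        field_simp
      rw [h2, div_le_div_iff₀ hLV0 hL0]
      have h3 : 0 ≤ C2 * (V + 1) := by positivity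
      nlinarith
    calc ∑ q ∈ S, (1 : ℝ) / q
        ≤ ∑ q ∈ (Finset.Icc 1 K).biUnion (fun k => S.filter (fun q => Nat.log q T = k)),
          (1 : ℝ) / q :=
          Finset.sum_le_sum_of_subset_of_nonneg hcover (fun _ _ _ => by positivity)
      _ ≤ ∑ k ∈ Finset.Icc 1 K, ∑ q ∈ S.filter (fun q => Nat.log q T = k), (1 : ℝ) / q :=
          sum_biUnion_le' _ _ _ (fun _ => by positivity)
      _ ≤ ∑ k ∈ Finset.Icc 1 K, 2 * C2 * (V + 1) / L := Finset.sum_le_sum hterm
      _ = K * (2 * C2 * (V + 1) / L) := by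
          rw [Finset.sum_const, nsmul_eq_mul]; simp
      _ ≤ (L / z) * (2 * C2 * (V + 1) / L) := by
          apply mul_le_mul_of_nonneg_right (Nat.floor_le (by positivity)) (by positivity)
      _ = 2 * C2 * (V + 1) / z := by field_simp

/-- the logarithmically weighted sum over the primes with a power close to `T` -/
theorem close_log : ∃ C : ℝ, 1 ≤ C ∧ ∀ᶠ T : ℕ in atTop,
    ∀ S : Finset ℕ, (∀ q ∈ S, q.Prime ∧ q ≤ T ∧ 3 * Real.log (Real.log T) ≤ Real.log q ∧
      DD T q ≤ 1) →
      ∑ q ∈ S, Real.log q / q ≤ C * Real.log (Real.log T) := by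
  classical
  obtain ⟨C, hC, hP⟩ := prox2
  refine ⟨12 * C, by linarith, ?_⟩
  filter_upwards [hP, tendsto_loglogT.eventually_ge_atTop 2, tendsto_logT.eventually_ge_atTop 4,
    eventually_ge_atTop 2] with T hPT hLL hL hT S hS
  set L := Real.log T with hLdef
  have hL0 : 0 < L := by linarith
  set N := ⌊2 * Real.log L⌋₊ + 1 with hN
  have hN1 : 2 * Real.log L < N := by
    rw [hN]; push_cast; exact Nat.lt_floor_add_one _
  have hN2 : (N : ℝ) ≤ 3 * Real.log L := by
    rw [hN]; push_cast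
    have := Nat.floor_le (a := 2 * Real.log L) (by linarith)
    linarith
  have hqL : ∀ q ∈ S, Real.log q ≤ L := fun q hq =>
    Real.log_le_log (by exact_mod_cast (hS q hq).1.pos) (by exact_mod_cast (hS q hq).2.1)
  set A : ℕ → Finset ℕ := fun i => S.filter (fun q : ℕ => (2 : ℝ) ^ i ≤ Real.log q ∧
    Real.log q < (2 : ℝ) ^ (i + 1)) with hA
  have hcover : S ⊆ (Finset.range N).biUnion A := by
    intro q hq
    have h1 := hS q hq
    have hq1 : 1 ≤ Real.log q := by linarith [h1.2.2.1]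
    obtain ⟨i, hi1, hi2⟩ := exists_nat_pow_near hq1 (by norm_num : (1 : ℝ) < 2)
    rw [Finset.mem_biUnion]
    refine ⟨i, ?_, ?_⟩
    · rw [Finset.mem_range]
      have h2 := hqL q hq
      have h3 : (2 : ℝ) ^ i ≤ 2 * L := by linarith
      have h4 := Real.log_le_log (by positivity) h3
      rw [Real.log_pow, Real.log_mul (by norm_num) hL0.ne'] at h4
      have h5 := Real.log_two_gt_d9
      have h6 := Real.log_two_lt_d9
      have h7 : (i : ℝ) < N := by
        by_contra hcon
        push Not at hcon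
        have h8 : 2 * Real.log L < i := lt_of_lt_of_le hN1 hcon
        nlinarith
      exact_mod_cast h7
    · rw [hA]
      exact Finset.mem_filter.mpr ⟨hq, hi1, hi2⟩
  have hlq : ∀ q : ℕ, 0 ≤ Real.log q / (q : ℝ) := fun q =>
    div_nonneg (Real.log_natCast_nonneg q) (Nat.cast_nonneg q)
  have hterm : ∀ i ∈ Finset.range N, ∑ q ∈ A i, Real.log q / q ≤ 4 * C := by
    intro i _
    have hmem : ∀ q ∈ A i, q ∈ S ∧ (2 : ℝ) ^ i ≤ Real.log q ∧
        Real.log q < (2 : ℝ) ^ (i + 1) := fun q hq => by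
      rw [hA] at hq
      exact Finset.mem_filter.mp hq
    have h2i : (0 : ℝ) < 2 ^ i := by positivity
    have hp := hPT (max ((2 : ℝ) ^ i) (3 * Real.log L)) 1
      (le_max_right _ _) (by norm_num) (by linarith) (A i) (fun q hq => by
        have h1 := hmem q hq
        have h2 := hS q h1.1
        exact ⟨h2.1, h2.2.1, max_le h1.2.1 h2.2.2.1, h2.2.2.2⟩)
    calc ∑ q ∈ A i, Real.log q / q ≤ ∑ q ∈ A i, (2 : ℝ) ^ (i + 1) * (1 / q) := by
          apply Finset.sum_le_sum
          intro q hq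
          have h1 := hmem q hq
          rw [div_eq_mul_one_div]
          exact mul_le_mul_of_nonneg_right h1.2.2.le (by positivity)
      _ = (2 : ℝ) ^ (i + 1) * ∑ q ∈ A i, (1 : ℝ) / q := by rw [Finset.mul_sum]
      _ ≤ (2 : ℝ) ^ (i + 1) * (C * (1 + 1) / 2 ^ i) := by
          apply mul_le_mul_of_nonneg_left _ (by positivity)
          refine hp.trans ?_
          apply div_le_div_of_nonneg_left (by linarith) h2i (le_max_left _ _)
      _ = 4 * C := by rw [pow_succ]; field_simp; ring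
  calc ∑ q ∈ S, Real.log q / q ≤ ∑ q ∈ (Finset.range N).biUnion A, Real.log q / q :=
        Finset.sum_le_sum_of_subset_of_nonneg hcover (fun _ _ _ => hlq _)
    _ ≤ ∑ i ∈ Finset.range N, ∑ q ∈ A i, Real.log q / q :=
        sum_biUnion_le' _ _ _ (fun _ => hlq _)
    _ ≤ ∑ i ∈ Finset.range N, 4 * C := Finset.sum_le_sum hterm
    _ = N * (4 * C) := by
        rw [Finset.sum_const, nsmul_eq_mul, Finset.card_range]
    _ ≤ (3 * Real.log L) * (4 * C) := by
        gcongr
    _ = 12 * C * Real.log L := by ring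

end Pool.Agent.Helper923.PPS
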