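import Mathlib
import Pool.Agent.Helper923.PPS.Crit

set_option autoImplicit false

open Filter MeasureTheory

namespace Pool.Agent.Helper923.PPS

/-- sum over primes `q` with `m q` in `J` -/
noncomputable def SS (x : ℝ) (m : ℕ) (J : Set ℝ) : ℝ := by
  classical
  exact ∑ q ∈ (Finset.Icc 1 ⌊x⌋₊).filter (fun q : ℕ => q.Prime ∧ ((m : ℝ) * q) ∈ J), Real.log q

theorem theta_sub {s t : ℝ} (h : s ≤ t) : Chebyshev.theta t - Chebyshev.theta s =
    ∑ p ∈ (Finset.Ioc ⌊s⌋₊ ⌊t⌋₊).filter Nat.Prime, Real.log p := by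
  have hf : ⌊s⌋₊ ≤ ⌊t⌋₊ := Nat.floor_mono h
  unfold Chebyshev.theta
  rw [← Finset.Ioc_union_Ioc_eq_Ioc (Nat.zero_le _) hf, Finset.filter_union,
    Finset.sum_union]
  · ring
  · apply Finset.disjoint_filter_filter
    rw [Finset.disjoint_left]
    intro a ha hb
    rw [Finset.mem_Ioc] at ha hb
    omega

theorem interval_est {x y : ℝ} (hx : 1 ≤ x) {m : ℕ} (hm : 1 ≤ m) {J : Set ℝ} (hJ : J.OrdConnected)
    (hJs : J ⊆ Set.Ioo y x) (hym : 1 ≤ y) (hyx : y ≤ x) {E : ℝ}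
    (hE : ∀ t : ℝ, y / m ≤ t → t ≤ x / m → |Chebyshev.theta t - t| ≤ E) :
    |SS x m J - (volume J).toReal / m| ≤ 2 * E + Real.log x := by
  classical
  have hm0 : (0 : ℝ) < m := by exact_mod_cast hm
  have hm1 : (1 : ℝ) ≤ m := by exact_mod_cast hm
  have hlx : 0 ≤ Real.log x := Real.log_nonneg hx
  have hE0 : 0 ≤ E := (abs_nonneg _).trans (hE (y / m) le_rfl (by gcongr))
  rcases J.eq_empty_or_nonempty with rfl | hne
  · simp only [SS, Set.mem_empty_iff_false, and_false, Finset.filter_false, Finset.sum_empty,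
      measure_empty, ENNReal.toReal_zero, zero_div, sub_zero, abs_zero]
    positivity
  have hbb : BddBelow J := ⟨y, fun t ht => (hJs ht).1.le⟩
  have hba : BddAbove J := ⟨x, fun t ht => (hJs ht).2.le⟩
  set a := sInf J with ha
  set b := sSup J with hb
  have hya : y ≤ a := le_csInf hne fun t ht => (hJs ht).1.le
  have hbx : b ≤ x := csSup_le hne fun t ht => (hJs ht).2.le
  have hab : a ≤ b := by
    obtain ⟨t, ht⟩ := hne
    exact (csInf_le hbb ht).trans (le_csSup hba ht)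
  have h1 : Set.Ioo a b ⊆ J := by
    intro t ht
    obtain ⟨j1, hj1, hj1'⟩ := exists_lt_of_csInf_lt hne ht.1
    obtain ⟨j2, hj2, hj2'⟩ := exists_lt_of_lt_csSup hne ht.2
    exact hJ.out hj1 hj2 ⟨hj1'.le, hj2'.le⟩
  have h2 : J ⊆ Set.Icc a b := fun t ht => ⟨csInf_le hbb ht, le_csSup hba ht⟩
  have hvol : (volume J).toReal = b - a := by
    have e1 : volume (Set.Ioo a b) ≤ volume J := measure_mono h1
    have e2 : volume J ≤ volume (Set.Icc a b) := measure_mono h2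
    rw [Real.volume_Ioo] at e1
    rw [Real.volume_Icc] at e2
    rw [le_antisymm e2 e1, ENNReal.toReal_ofReal (by linarith)]
  have hamb : a / m ≤ b / m := by gcongr
  set P := (Finset.Ioc ⌊a / m⌋₊ ⌊b / m⌋₊).filter Nat.Prime with hP
  set S := (Finset.Icc 1 ⌊x⌋₊).filter (fun q : ℕ => q.Prime ∧ ((m : ℝ) * q) ∈ J) with hS
  have hth : Chebyshev.theta (b / m) - Chebyshev.theta (a / m) = ∑ p ∈ P, Real.log p :=
    theta_sub hamb
  have hSS : SS x m J = ∑ q ∈ S, Real.log q := by simp only [SS, hS]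
  have ha0 : 0 ≤ a / m := by
    apply div_nonneg _ hm0.le; linarith
  have hb0 : 0 ≤ b / m := ha0.trans hamb
  have lx : ∀ t : ℝ, 0 ≤ t → t ≤ x → Real.log (⌊t⌋₊ : ℝ) ≤ Real.log x := by
    intro t ht0 ht
    rcases Nat.eq_zero_or_pos ⌊t⌋₊ with h | h
    · rw [h]; simpa using hlx
    · apply Real.log_le_log (by exact_mod_cast h)
      exact (Nat.floor_le ht0).trans ht
  have hbm : b / m ≤ x := (div_le_self (by linarith) hm1).trans hbx
  have ham : a / m ≤ x := hamb.trans hbm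
  have up : ∑ q ∈ S, Real.log q ≤ ∑ p ∈ P, Real.log p + Real.log x := by
    have hsub : S ⊆ P ∪ {⌊a / m⌋₊} := by
      intro q hq
      rw [hS, Finset.mem_filter] at hq
      obtain ⟨hq1, hqp, hqJ⟩ := hq
      have := h2 hqJ
      have q1 : a / m ≤ q := by rw [div_le_iff₀ hm0]; linarith [this.1]
      have q2 : (q : ℝ) ≤ b / m := by rw [le_div_iff₀ hm0]; linarith [this.2]
      have q3 : q ≤ ⌊b / m⌋₊ := Nat.le_floor q2
      have q4 : ⌊a / m⌋₊ ≤ q := Nat.floor_le_of_le q1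
      rw [Finset.mem_union, Finset.mem_singleton, hP, Finset.mem_filter, Finset.mem_Ioc]
      rcases q4.lt_or_eq with h | h
      · left; exact ⟨⟨h, q3⟩, hqp⟩
      · right; exact h.symm
    calc ∑ q ∈ S, Real.log q ≤ ∑ q ∈ P ∪ {⌊a / m⌋₊}, Real.log q :=
          Finset.sum_le_sum_of_subset_of_nonneg hsub fun i _ _ => Real.log_natCast_nonneg i
      _ ≤ ∑ q ∈ P, Real.log q + ∑ q ∈ ({⌊a / m⌋₊} : Finset ℕ), Real.log q := by
          have := Finset.sum_union_inter (s₁ := P) (s₂ := {⌊a / m⌋₊}) (f := fun q : ℕ => Real.log q)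
          have h0 : 0 ≤ ∑ q ∈ P ∩ {⌊a / m⌋₊}, Real.log (q : ℝ) :=
            Finset.sum_nonneg fun i _ => Real.log_natCast_nonneg i
          linarith
      _ ≤ _ := by
          rw [Finset.sum_singleton]
          have := lx (a / m) ha0 ham
          linarith
  have lo : ∑ p ∈ P, Real.log p ≤ ∑ q ∈ S, Real.log q + Real.log x := by
    have hsub : P ⊆ S ∪ {⌊b / m⌋₊} := by
      intro q hq
      rw [hP, Finset.mem_filter, Finset.mem_Ioc] at hq
      obtain ⟨⟨hq1, hq2⟩, hqp⟩ := hq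
      have q1 : a / m < q := (Nat.floor_lt ha0).1 hq1
      have q2 : (q : ℝ) ≤ b / m := (Nat.le_floor_iff hb0).1 hq2
      rw [Finset.mem_union, Finset.mem_singleton, hS, Finset.mem_filter, Finset.mem_Icc]
      rcases q2.lt_or_eq with h | h
      · left
        refine ⟨⟨hqp.one_lt.le, Nat.le_floor (q2.trans hbm)⟩, hqp, h1 ⟨?_, ?_⟩⟩
        · rw [div_lt_iff₀ hm0] at q1; linarith
        · rw [lt_div_iff₀ hm0] at h; linarith
      · right
        rw [← h, Nat.floor_natCast]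
    calc ∑ q ∈ P, Real.log (q : ℝ) ≤ ∑ q ∈ S ∪ {⌊b / m⌋₊}, Real.log (q : ℝ) :=
          Finset.sum_le_sum_of_subset_of_nonneg hsub fun i _ _ => Real.log_natCast_nonneg i
      _ ≤ ∑ q ∈ S, Real.log (q : ℝ) + ∑ q ∈ ({⌊b / m⌋₊} : Finset ℕ), Real.log (q : ℝ) := by
          have := Finset.sum_union_inter (s₁ := S) (s₂ := {⌊b / m⌋₊}) (f := fun q : ℕ => Real.log q)
          have h0 : 0 ≤ ∑ q ∈ S ∩ {⌊b / m⌋₊}, Real.log (q : ℝ) :=
            Finset.sum_nonneg fun i _ => Real.log_natCast_nonneg i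
          linarith
      _ ≤ _ := by
          rw [Finset.sum_singleton]
          have := lx (b / m) hb0 hbm
          linarith
  have ea := abs_le.1 (hE (a / m) (by gcongr) (hamb.trans (by gcongr)))
  have eb := abs_le.1 (hE (b / m) (le_trans (by gcongr) hamb) (by gcongr))
  rw [hvol, hSS, sub_div, abs_le]
  constructor
  · linarith [ea.1, ea.2, eb.1, eb.2]
  · linarith [ea.1, ea.2, eb.1, eb.2]

/-- signature sum -/
noncomputable def sg (m : ℕ) (t : ℝ) : ℕ := ∑ p ∈ m.primeFactors, Nat.log p ⌊t⌋₊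

theorem sg_mono (m : ℕ) : Monotone (sg m) := by
  intro s t h
  unfold sg
  exact Finset.sum_le_sum fun p _ => Nat.log_mono_right (Nat.floor_mono h)

theorem sg_eq {m : ℕ} {s t : ℝ} (h : s ≤ t) (he : sg m s = sg m t) {p : ℕ}
    (hp : p ∈ m.primeFactors) : Nat.log p ⌊s⌋₊ = Nat.log p ⌊t⌋₊ := by
  unfold sg at he
  exact (Finset.sum_eq_sum_iff_of_le
    (fun p _ => Nat.log_mono_right (Nat.floor_mono h))).1 he p hp

/-- the piece -/
def Jk (x y : ℝ) (m k : ℕ) : Set ℝ := {t | t ∈ Iset m ∧ t ∈ Set.Ioo y x ∧ sg m t = k}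

theorem Jk_ordConnected (x y : ℝ) (m k : ℕ) : (Jk x y m k).OrdConnected := by
  constructor
  rintro u ⟨hu1, hu2, hu3⟩ v ⟨hv1, hv2, hv3⟩ t ⟨hut, htv⟩
  have hs : sg m t = k := le_antisymm (hv3 ▸ sg_mono m htv) (hu3 ▸ sg_mono m hut)
  have hp : ∀ p ∈ m.primeFactors, pw p ⌊t⌋₊ = pw p ⌊v⌋₊ := by
    intro p hp
    unfold pw
    rw [sg_eq htv (by rw [hs, hv3]) hp]
  refine ⟨⟨hu1.1.trans hut, ?_⟩, ⟨hu2.1.trans_le hut, htv.trans_lt hv2.2⟩, hs⟩
  intro e he hem
  have hsum : ∑ p ∈ e.primeFactors, (pw p ⌊t⌋₊ : ℝ) = ∑ p ∈ e.primeFactors, (pw p ⌊v⌋₊ : ℝ) :=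
    Finset.sum_congr rfl fun p hpe => by rw [hp p (hem hpe)]
  obtain ⟨g1, g2⟩ := hv1.2 e he hem
  rw [hsum]
  refine ⟨fun h => g1 (h.trans htv), fun h => le_trans ?_ (g2 h)⟩
  have : (2 : ℝ) ≤ e := by exact_mod_cast he
  gcongr
  linarith

theorem iUnion_Jk (x y : ℝ) (m : ℕ) :
    Iset m ∩ Set.Ioo y x = ⋃ k ∈ Finset.Icc (sg m y) (sg m x), Jk x y m k := by
  ext t
  simp only [Set.mem_inter_iff, Set.mem_iUnion, Finset.mem_Icc, Jk, Set.mem_ofPred_eq, exists_prop]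
  constructor
  · rintro ⟨h1, h2⟩
    exact ⟨sg m t, ⟨sg_mono m h2.1.le, sg_mono m h2.2.le⟩, h1, h2, rfl⟩
  · rintro ⟨k, -, h1, h2, -⟩
    exact ⟨h1, h2⟩

theorem vol_sum (x y : ℝ) (m : ℕ) :
    (volume (Iset m ∩ Set.Ioo y x)).toReal =
      ∑ k ∈ Finset.Icc (sg m y) (sg m x), (volume (Jk x y m k)).toReal := by
  rw [iUnion_Jk, measure_biUnion_finset, ENNReal.toReal_sum]
  · intro k _
    apply ne_of_lt
    have : volume (Jk x y m k) ≤ volume (Set.Ioo y x) := measure_mono fun t ht => ht.2.1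
    apply this.trans_lt
    rw [Real.volume_Ioo]; exact ENNReal.ofReal_lt_top
  · intro i _ j _ hij
    rw [Function.onFun, Set.disjoint_left]
    rintro t ⟨_, _, h⟩ ⟨_, _, h'⟩
    exact hij (h.symm.trans h')
  · intro k _
    exact (Jk_ordConnected x y m k).measurableSet

theorem SS_sum (x y : ℝ) (m : ℕ) :
    SS x m (Iset m ∩ Set.Ioo y x) =
      ∑ k ∈ Finset.Icc (sg m y) (sg m x), SS x m (Jk x y m k) := by
  classical
  simp only [SS]
  rw [← Finset.sum_biUnion]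
  · apply Finset.sum_congr _ fun _ _ => rfl
    ext q
    rw [iUnion_Jk]
    simp only [Finset.mem_filter, Finset.mem_biUnion, Set.mem_iUnion, exists_prop]
    constructor
    · rintro ⟨h1, h2, k, hk, h3⟩; exact ⟨k, hk, h1, h2, h3⟩
    · rintro ⟨k, hk, h1, h2, h3⟩; exact ⟨h1, h2, k, hk, h3⟩
  · intro i _ j _ hij
    rw [Function.onFun, Finset.disjoint_left]
    intro q hq hq'
    rw [Finset.mem_filter] at hq hq'
    exact hij (hq.2.2.2.2.symm.trans hq'.2.2.2.2)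

theorem m_est {x y : ℝ} (hx : 1 ≤ x) {m : ℕ} (hm : 1 ≤ m) (hym : 1 ≤ y) (hyx : y ≤ x) {E : ℝ}
    (hE : ∀ t : ℝ, y / m ≤ t → t ≤ x / m → |Chebyshev.theta t - t| ≤ E) :
    |SS x m (Iset m ∩ Set.Ioo y x) - (volume (Iset m ∩ Set.Ioo y x)).toReal / m| ≤
      ((sg m x : ℝ) - sg m y + 1) * (2 * E + Real.log x) := by
  rw [SS_sum, vol_sum, Finset.sum_div, ← Finset.sum_sub_distrib]
  refine (Finset.abs_sum_le_sum_abs _ _).trans ?_
  refine (Finset.sum_le_sum (g := fun _ => 2 * E + Real.log x) fun k _ =>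
    interval_est hx hm (Jk_ordConnected x y m k) (fun t ht => ht.2.1) hym hyx hE).trans ?_
  rw [Finset.sum_const, nsmul_eq_mul, Nat.card_Icc]
  have hle := sg_mono m hyx
  rw [Nat.cast_sub (by omega)]
  push_cast
  apply le_of_eq; ring

/-- number of prime factors -/
theorem card_pf {m : ℕ} (hm : 1 ≤ m) : (m.primeFactors.card : ℝ) ≤ 2 * Real.log m := by
  have h1 : 2 ^ m.primeFactors.card ≤ m := by
    calc 2 ^ m.primeFactors.card ≤ ∏ p ∈ m.primeFactors, p := by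
          apply Finset.pow_card_le_prod
          intro p hp; exact (Nat.prime_of_mem_primeFactors hp).two_le
      _ ≤ m := Nat.le_of_dvd hm (Nat.prod_primeFactors_dvd m)
  have h2 : ((2 : ℝ) ^ m.primeFactors.card) ≤ m := by exact_mod_cast h1
  have h3 := Real.log_le_log (by positivity) h2
  rw [Real.log_pow] at h3
  have h4 := Real.log_two_gt_d9
  have h5 : (0 : ℝ) ≤ m.primeFactors.card := by positivity
  nlinarith

/-- difference of signatures -/
theorem sg_diff {x y : ℝ} (hy : 1 ≤ y) (hyx : y ≤ x) {m : ℕ} (hm : 1 ≤ m) :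
    (sg m x : ℝ) - sg m y ≤ 2 * Real.log m * (1 + 2 * Real.log (x / y)) := by
  have hyp : 0 < y := by linarith
  have hxp : 0 < x := by linarith
  have hlog : 0 ≤ Real.log (x / y) := Real.log_nonneg (by rw [le_div_iff₀ hyp]; linarith)
  have key : ∀ p ∈ m.primeFactors, ((Nat.log p ⌊x⌋₊ : ℕ) : ℝ) - Nat.log p ⌊y⌋₊ ≤
      1 + 2 * Real.log (x / y) := by
    intro p hp
    have hp2 := (Nat.prime_of_mem_primeFactors hp).two_le
    set k := Nat.log p ⌊x⌋₊ with hk
    set j := Nat.log p ⌊y⌋₊ with hj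
    have hx1 : ⌊x⌋₊ ≠ 0 := by
      have : 1 ≤ ⌊x⌋₊ := Nat.le_floor (by simpa using hy.trans hyx)
      omega
    have k1 : p ^ k ≤ ⌊x⌋₊ := Nat.pow_log_le_self p hx1
    have k2 : ((p : ℝ)) ^ k ≤ x := by
      calc ((p : ℝ)) ^ k = ((p ^ k : ℕ) : ℝ) := by push_cast; rfl
        _ ≤ (⌊x⌋₊ : ℝ) := by exact_mod_cast k1
        _ ≤ x := Nat.floor_le hxp.le
    have j1 : ⌊y⌋₊ < p ^ (j + 1) := Nat.lt_pow_succ_log_self hp2 _
    have j2 : y < (p : ℝ) ^ (j + 1) := by
      have := (Nat.floor_lt hyp.le).1 j1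
      push_cast at this; exact this
    have hpp : (2 : ℝ) ≤ p := by exact_mod_cast hp2
    have l1 := Real.log_le_log (by positivity) k2
    have l2 := Real.log_lt_log hyp j2
    rw [Real.log_pow] at l1 l2
    rw [Real.log_div hxp.ne' hyp.ne'] at hlog ⊢
    have l3 : Real.log 2 ≤ Real.log p := Real.log_le_log (by norm_num) hpp
    have l4 := Real.log_two_gt_d9
    push_cast at l2
    by_cases hcase : (k : ℝ) - j ≤ 1
    · linarith
    · push Not at hcase
      have : ((k : ℝ) - j - 1) * Real.log p ≤ Real.log x - Real.log y := by nlinarith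
      nlinarith
  unfold sg
  push_cast
  rw [← Finset.sum_sub_distrib]
  refine (Finset.sum_le_sum key).trans ?_
  rw [Finset.sum_const, nsmul_eq_mul]
  have := card_pf hm
  have h0 : 0 ≤ 1 + 2 * Real.log (x / y) := by linarith
  exact mul_le_mul_of_nonneg_right this h0

/-- the counted primes for given `m` -/
noncomputable def Qf (x y : ℝ) (m : ℕ) : Finset ℕ := by
  classical
  exact (Finset.Icc 1 ⌊x⌋₊).filter (fun q : ℕ => q.Prime ∧ ((m : ℝ) * q) ∈ Iset m ∩ Set.Ioo y x)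

theorem mem_Qf {x y : ℝ} {m q : ℕ} : q ∈ Qf x y m ↔ (1 ≤ q ∧ q ≤ ⌊x⌋₊) ∧ q.Prime ∧
    ((m : ℝ) * q) ∈ Iset m ∧ y < (m : ℝ) * q ∧ (m : ℝ) * q < x := by
  classical
  unfold Qf
  rw [Finset.mem_filter, Finset.mem_Icc]
  rfl

theorem SS_eq (x y : ℝ) (m : ℕ) : SS x m (Iset m ∩ Set.Ioo y x) =
    ∑ q ∈ Qf x y m, Real.log (q : ℝ) := by
  classical
  unfold SS Qf
  apply Finset.sum_congr _ fun _ _ => rfl
  ext q
  simp only [Finset.mem_filter]

theorem count_eq {x y M : ℝ} (hM1 : 1 ≤ M) (hMy : M * M ≤ y)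
    (F : Finset ℕ) (hF : ∀ n, n ∈ F ↔ n ∈ Finset.Icc 1 ⌊x⌋₊ ∧ ((n : ℝ) < x ∧
        y < n ∧ ∃ m q : ℕ, q.Prime ∧ n = m * q ∧
        (m : ℝ) ≤ M ∧ (n : ℝ) ∈ Iset m)) :
    F.card = ∑ m ∈ Finset.Icc 1 ⌊M⌋₊, (Qf x y m).card := by
  rw [← Finset.card_sigma]
  symm
  apply Finset.card_bij (fun p _ => p.1 * p.2)
  · rintro ⟨m, q⟩ h
    rw [Finset.mem_sigma, Finset.mem_Icc, mem_Qf] at h
    obtain ⟨⟨hm1, hm2⟩, ⟨hq1, hq2⟩, hqp, hI, hy1, hx1⟩ := h
    simp only at hm1 hm2 hq1 hq2 hqp hI hy1 hx1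
    rw [hF, Finset.mem_Icc]
    simp only
    refine ⟨⟨Nat.mul_pos hm1 hq1, Nat.le_floor (by push_cast; exact hx1.le)⟩, by push_cast; exact hx1,
      by push_cast; exact hy1, m, q, hqp, rfl, ?_, by push_cast; exact hI⟩
    exact (Nat.le_floor_iff (by linarith)).1 hm2
  · rintro ⟨m, q⟩ h ⟨m', q'⟩ h' heq
    rw [Finset.mem_sigma, Finset.mem_Icc, mem_Qf] at h h'
    obtain ⟨⟨hm1, hm2⟩, ⟨hq1, hq2⟩, hqp, hI, hy1, hx1⟩ := h
    obtain ⟨⟨hm1', hm2'⟩, ⟨hq1', hq2'⟩, hqp', hI', hy1', hx1'⟩ := h'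
    simp only at hm1 hm2 hq1 hq2 hqp hI hy1 hx1 hm1' hm2' hq1' hq2' hqp' hI' hy1' hx1' heq
    have hqq : q = q' := by
      by_contra hne
      have hd : q ∣ m' * q' := ⟨m, by rw [← heq, mul_comm]⟩
      rcases hqp.dvd_mul.1 hd with h | h
      · have h1 : q ≤ m' := Nat.le_of_dvd hm1' h
        have h2 : (m' : ℝ) ≤ M := (Nat.le_floor_iff (by linarith)).1 hm2'
        have h2' : (m : ℝ) ≤ M := (Nat.le_floor_iff (by linarith)).1 hm2
        have h3 : (q : ℝ) ≤ M := le_trans (by exact_mod_cast h1) h2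
        have h4 : (m : ℝ) * q ≤ M * M := by
          apply mul_le_mul h2' h3 (by positivity) (by linarith)
        linarith
      · exact hne ((Nat.prime_dvd_prime_iff_eq hqp hqp').1 h)
    subst hqq
    have : m = m' := Nat.eq_of_mul_eq_mul_right (by omega) heq
    subst this
    rfl
  · intro n hn
    rw [hF, Finset.mem_Icc] at hn
    obtain ⟨⟨hn1, hn2⟩, hnx, hny, m, q, hqp, rfl, hmM, hI⟩ := hn
    have hm1 : 1 ≤ m := by
      rcases Nat.eq_zero_or_pos m with h | h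
      · subst h; simp at hn1
      · exact h
    push_cast at hnx hny hI
    refine ⟨⟨m, q⟩, ?_, rfl⟩
    rw [Finset.mem_sigma, Finset.mem_Icc, mem_Qf]
    simp only
    refine ⟨⟨hm1, Nat.le_floor hmM⟩, ⟨hqp.one_lt.le, ?_⟩, hqp, hI, hny, hnx⟩
    exact le_trans (Nat.le_mul_of_pos_left q hm1) hn2

/-- the sum of logs against the count -/
theorem log_vs_count {x y M : ℝ} (hM1 : 1 ≤ M) (hy1 : 1 ≤ y) {m : ℕ} (hm : 1 ≤ m)
    (hmM : (m : ℝ) ≤ M) :
    |SS x m (Iset m ∩ Set.Ioo y x) - Real.log x * (Qf x y m).card| ≤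
      (Real.log x - Real.log y + Real.log M) * (Qf x y m).card := by
  rw [SS_eq]
  have h1 : Real.log x * (Qf x y m).card = ∑ q ∈ Qf x y m, Real.log x := by
    rw [Finset.sum_const, nsmul_eq_mul, mul_comm]
  rw [h1, ← Finset.sum_sub_distrib]
  refine (Finset.abs_sum_le_sum_abs _ _).trans ?_
  refine (Finset.sum_le_sum (g := fun _ => Real.log x - Real.log y + Real.log M) ?_).trans ?_
  · intro q hq
    rw [mem_Qf] at hq
    obtain ⟨⟨hq1, hq2⟩, hqp, hI, hyq, hxq⟩ := hq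
    have hm1 : (1 : ℝ) ≤ m := by exact_mod_cast hm
    have hq1' : (1 : ℝ) ≤ q := by exact_mod_cast hq1
    have hqx : (q : ℝ) ≤ x := by nlinarith
    have l1 : Real.log q ≤ Real.log x := Real.log_le_log (by linarith) hqx
    have l2 : Real.log y ≤ Real.log M + Real.log q := by
      rw [← Real.log_mul (by linarith) (by linarith)]
      apply Real.log_le_log (by linarith)
      exact hyq.le.trans (mul_le_mul_of_nonneg_right hmM (by linarith))
    rw [abs_le]
    have l3 : 0 ≤ Real.log M := Real.log_nonneg hM1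
    by_cases hyx : y ≤ x
    · have l4 : Real.log y ≤ Real.log x := Real.log_le_log (by linarith) hyx
      constructor <;> linarith
    · exfalso; linarith
  · rw [Finset.sum_const, nsmul_eq_mul, mul_comm]

theorem harm {M : ℝ} (hM : 1 ≤ M) : ∑ m ∈ Finset.Icc 1 ⌊M⌋₊, ((m : ℝ))⁻¹ ≤ 1 + Real.log M := by
  have h := harmonic_le_one_add_log ⌊M⌋₊
  rw [harmonic_eq_sum_Icc] at h
  push_cast at h
  refine h.trans ?_
  have : Real.log (⌊M⌋₊ : ℝ) ≤ Real.log M := by
    apply Real.log_le_log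
    · have : 1 ≤ ⌊M⌋₊ := Nat.le_floor (by simpa using hM)
      exact_mod_cast this
    · exact Nat.floor_le (by linarith)
  linarith

theorem Iset_one : Iset 1 = Set.Ici 1 := by
  ext t
  constructor
  · rintro ⟨h, -⟩; exact h
  · intro h
    refine ⟨h, ?_⟩
    intro e he hs
    exfalso
    rw [Nat.primeFactors_one, Finset.subset_empty, Nat.primeFactors_eq_empty] at hs
    omega

theorem vol_lt_top (m : ℕ) (x y : ℝ) : volume (Iset m ∩ Set.Ioo y x) ≠ ⊤ := by
  apply ne_of_lt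
  apply (measure_mono (Set.inter_subset_right)).trans_lt
  rw [Real.volume_Ioo]; exact ENNReal.ofReal_lt_top

theorem vol_lt_top' (m : ℕ) (x y : ℝ) : volume (Iset m ∩ Set.Icc y x) ≠ ⊤ := by
  apply ne_of_lt
  apply (measure_mono (Set.inter_subset_right)).trans_lt
  rw [Real.volume_Icc]; exact ENNReal.ofReal_lt_top

theorem vol_le (m : ℕ) {x y : ℝ} (hy : 1 ≤ y) :
    (volume (Iset m ∩ Set.Ioo y x)).toReal ≤ (volume (Iset m ∩ Set.Icc 1 x)).toReal := by
  apply ENNReal.toReal_mono (vol_lt_top' m x 1)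
  apply measure_mono
  rintro t ⟨h1, h2⟩
  exact ⟨h1, by linarith [h2.1], h2.2.le⟩

theorem vol_ge (m : ℕ) {x y : ℝ} (hy : 1 ≤ y) :
    (volume (Iset m ∩ Set.Icc 1 x)).toReal ≤ (volume (Iset m ∩ Set.Ioo y x)).toReal + y := by
  have h1 : volume (Iset m ∩ Set.Icc 1 x) ≤ volume (Iset m ∩ Set.Ioo y x) + volume (Set.Icc 0 y) +
      volume ({x} : Set ℝ) := by
    refine (measure_mono ?_).trans ((measure_union_le _ _).trans
      (add_le_add_left (measure_union_le _ _) _))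
    rintro t ⟨h1, h2⟩
    rcases le_or_gt t y with h | h
    · left; right; exact ⟨by linarith [h2.1], h⟩
    · rcases h2.2.lt_or_eq with h' | h'
      · left; left; exact ⟨h1, h, h'⟩
      · right; exact h'
  rw [Real.volume_singleton, add_zero, Real.volume_Icc] at h1
  have h2 := ENNReal.toReal_mono (by
    exact ENNReal.add_ne_top.2 ⟨vol_lt_top m x y, ENNReal.ofReal_ne_top⟩) h1
  rw [ENNReal.toReal_add (vol_lt_top m x y) ENNReal.ofReal_ne_top,
    ENNReal.toReal_ofReal (by linarith)] at h2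
  linarith


theorem rpow_bound {u t : ℝ} (hu : 804 ≤ u) (ht : u ^ 200 / 2 ≤ t) :
    u ^ 4 / 2 ≤ t ^ (1 / 50 : ℝ) := by
  have hu0 : 0 < u := by linarith
  have h1 : (u ^ 200 / 2) ^ (1 / 50 : ℝ) ≤ t ^ (1 / 50 : ℝ) :=
    Real.rpow_le_rpow (by positivity) ht (by norm_num)
  refine le_trans ?_ h1
  rw [Real.div_rpow (by positivity) (by norm_num)]
  have h2 : (u ^ 200) ^ (1 / 50 : ℝ) = u ^ 4 := by
    rw [← Real.rpow_natCast, ← Real.rpow_mul hu0.le, ← Real.rpow_natCast]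
    norm_num
  rw [h2]
  have h3 : (2 : ℝ) ^ (1 / 50 : ℝ) ≤ 2 := by
    calc (2 : ℝ) ^ (1 / 50 : ℝ) ≤ 2 ^ (1 : ℝ) :=
          Real.rpow_le_rpow_of_exponent_le (by norm_num) (by norm_num)
      _ = 2 := by norm_num
  have h4 : (0 : ℝ) < 2 ^ (1 / 50 : ℝ) := by positivity
  gcongr

theorem per_m {C : ℝ} (hC : 0 < C) (H : ∀ x : ℝ, 2 ≤ x →
      |Chebyshev.theta x - x| ≤ C * x / (Real.log x) ^ (1 / 50 : ℝ))
    {x y u : ℝ} (hu : 804 ≤ u) (hL : Real.log x = u ^ 200) (hx1 : 1 ≤ x)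
    (hyx : y ≤ x) (hy1 : 1 ≤ y) (hMy : Real.exp u * Real.exp u ≤ y) (hxyL : x = y * (u ^ 200) ^ 2)
    (hlogxy : Real.log x - Real.log y ≤ 400 * u)
    {m : ℕ} (hm : 1 ≤ m) (hmM : (m : ℝ) ≤ Real.exp u) :
    |SS x m (Iset m ∩ Set.Ioo y x) - (volume (Iset m ∩ Set.Ioo y x)).toReal / m| ≤
      1603 * (4 * C + 1) * x / u ^ 2 * (m : ℝ)⁻¹ := by
  have hu0 : 0 < u := by linarith
  have hm0 : (0 : ℝ) < m := by exact_mod_cast hm
  have hm1 : (1 : ℝ) ≤ m := by exact_mod_cast hm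
  have hy0 : 0 < y := by linarith
  have hx0 : 0 < x := by linarith
  have hu199 : u ≤ u ^ 199 := le_self_pow₀ (by linarith) (by norm_num)
  have hu200 : u ^ 200 = u * u ^ 199 := by ring
  have hLbig : 802 * u ≤ u ^ 200 := by rw [hu200]; nlinarith
  have hE : ∀ t : ℝ, y / m ≤ t → t ≤ x / m →
      |Chebyshev.theta t - t| ≤ 2 * C * (x / m) / u ^ 4 := by
    intro t h1 h2
    have h3 : Real.exp u ≤ t := by
      refine le_trans ?_ h1
      rw [le_div_iff₀ hm0]
      exact (mul_le_mul_of_nonneg_left hmM (Real.exp_pos u).le).trans hMy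
    have h4 : 2 ≤ t := by
      have := Real.add_one_le_exp u
      linarith
    have hl : u ^ 200 / 2 ≤ Real.log t := by
      have e1 : Real.log (y / m) ≤ Real.log t := Real.log_le_log (by positivity) h1
      rw [Real.log_div hy0.ne' hm0.ne'] at e1
      have e2 : Real.log m ≤ u := by
        rw [← Real.log_exp u]; exact Real.log_le_log hm0 hmM
      linarith
    have h5 := rpow_bound hu hl
    refine (H t h4).trans ?_
    have h6 : 0 < u ^ 4 / 2 := by positivity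
    calc C * t / (Real.log t) ^ (1 / 50 : ℝ) ≤ C * (x / m) / (u ^ 4 / 2) := by
          gcongr
      _ = 2 * C * (x / m) / u ^ 4 := by field_simp
  refine (m_est hx1 hm hy1 hyx hE).trans ?_
  have hsg := sg_diff hy1 hyx hm
  rw [Real.log_div hx0.ne' hy0.ne'] at hsg
  have e2 : Real.log m ≤ u := by
    rw [← Real.log_exp u]; exact Real.log_le_log hm0 hmM
  have e3 : 0 ≤ Real.log m := Real.log_nonneg hm1
  have e4 : 0 ≤ Real.log x - Real.log y := sub_nonneg.2 (Real.log_le_log hy0 hyx)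
  have hK : (sg m x : ℝ) - sg m y + 1 ≤ 1603 * u ^ 2 := by
    have : 2 * Real.log m * (1 + 2 * (Real.log x - Real.log y)) ≤ 2 * u * (1 + 2 * (400 * u)) := by
      gcongr
    nlinarith
  have hlx : Real.log x ≤ (x / m) / u ^ 4 := by
    rw [hL, le_div_iff₀ (by positivity), le_div_iff₀ hm0]
    have f1 : u ^ 4 ≤ u ^ 200 := pow_le_pow_right₀ (by linarith) (by norm_num)
    have f2 : (m : ℝ) ≤ y := by
      refine hmM.trans (le_trans ?_ hMy)
      have := Real.one_le_exp hu0.le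
      nlinarith
    calc u ^ 200 * u ^ 4 * m ≤ u ^ 200 * u ^ 200 * y := by gcongr
      _ = x := by rw [hxyL]; ring
  have hsum : 2 * (2 * C * (x / m) / u ^ 4) + Real.log x ≤ (4 * C + 1) * (x / m) / u ^ 4 := by
    have : (4 * C + 1) * (x / m) / u ^ 4 = 2 * (2 * C * (x / m) / u ^ 4) + (x / m) / u ^ 4 := by
      ring
    rw [this]; linarith
  have hnn : 0 ≤ 2 * (2 * C * (x / m) / u ^ 4) + Real.log x := by
    have := Real.log_nonneg hx1
    positivity
  calc ((sg m x : ℝ) - sg m y + 1) * (2 * (2 * C * (x / m) / u ^ 4) + Real.log x)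
      ≤ 1603 * u ^ 2 * ((4 * C + 1) * (x / m) / u ^ 4) := by gcongr
    _ = 1603 * (4 * C + 1) * x / u ^ 2 * (m : ℝ)⁻¹ := by field_simp

theorem main_ineq {C : ℝ} (hC : 0 < C) (H : ∀ x : ℝ, 2 ≤ x →
      |Chebyshev.theta x - x| ≤ C * x / (Real.log x) ^ (1 / 50 : ℝ))
    {x u : ℝ} (hx0 : 0 < x) (hu : 804 ≤ u) (hL : Real.log x = u ^ 200) :
    Real.exp u * Real.exp u ≤ x / (Real.log x) ^ 2 ∧
    0 < ∑ m ∈ Finset.Icc 1 ⌊Real.exp u⌋₊, (volume (Iset m ∩ Set.Icc 1 x)).toReal / m ∧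
    |Real.log x * (∑ m ∈ Finset.Icc 1 ⌊Real.exp u⌋₊, ((Qf x (x / (Real.log x) ^ 2) m).card : ℝ)) -
      ∑ m ∈ Finset.Icc 1 ⌊Real.exp u⌋₊, (volume (Iset m ∩ Set.Icc 1 x)).toReal / m| ≤
    (401 / u) * (Real.log x * (∑ m ∈ Finset.Icc 1 ⌊Real.exp u⌋₊,
      ((Qf x (x / (Real.log x) ^ 2) m).card : ℝ))) +
    ((6412 * (4 * C + 1) + 4) / u) *
      ∑ m ∈ Finset.Icc 1 ⌊Real.exp u⌋₊, (volume (Iset m ∩ Set.Icc 1 x)).toReal / m := by
  have hu0 : 0 < u := by linarith
  have hu199 : u ≤ u ^ 199 := le_self_pow₀ (by linarith) (by norm_num)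
  have hu200 : u ^ 200 = u * u ^ 199 := by ring
  have hLbig : 802 * u ≤ u ^ 200 := by rw [hu200]; nlinarith
  have hxe : x = Real.exp (u ^ 200) := by rw [← hL, Real.exp_log hx0]
  set y := x / (Real.log x) ^ 2 with hy
  have hLpos : 0 < u ^ 200 := by positivity
  have hxyL : x = y * (u ^ 200) ^ 2 := by
    rw [hy, hL]; field_simp
  have hy0 : 0 < y := by rw [hy, hL]; positivity
  have hlogu : Real.log (u ^ 200) ≤ 200 * u := by
    rw [Real.log_pow]
    have := Real.log_le_sub_one_of_pos hu0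
    push_cast
    linarith
  have hlogy : Real.log y = u ^ 200 - 2 * Real.log (u ^ 200) := by
    rw [hy, hL, Real.log_div hx0.ne' (by positivity), hL]
    rw [Real.log_pow (n := 2)]
    push_cast
    ring
  have hlogxy : Real.log x - Real.log y ≤ 400 * u := by
    rw [hL, hlogy]; linarith
  have hMy : Real.exp u * Real.exp u ≤ y := by
    rw [← Real.exp_add, ← Real.exp_log hy0]
    apply Real.exp_le_exp.2
    rw [hlogy]; linarith
  have hM1 : 1 ≤ Real.exp u := Real.one_le_exp hu0.le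
  have hy1 : 1 ≤ y := by nlinarith
  have hL2 : 2 * y ≤ x := by
    rw [hxyL]
    have : (2 : ℝ) ≤ (u ^ 200) ^ 2 := by nlinarith
    nlinarith
  have hyx : y ≤ x := by linarith
  have hx1 : 1 ≤ x := by linarith
  set I := Finset.Icc 1 ⌊Real.exp u⌋₊ with hI
  set N := ∑ m ∈ I, ((Qf x y m).card : ℝ) with hN
  set G := ∑ m ∈ I, (volume (Iset m ∩ Set.Icc 1 x)).toReal / m with hG
  set G' := ∑ m ∈ I, (volume (Iset m ∩ Set.Ioo y x)).toReal / m with hG'
  set A := ∑ m ∈ I, SS x m (Iset m ∩ Set.Ioo y x) with hA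
  have hmem : ∀ m ∈ I, 1 ≤ m ∧ (m : ℝ) ≤ Real.exp u := by
    intro m hm
    rw [hI, Finset.mem_Icc] at hm
    exact ⟨hm.1, (Nat.le_floor_iff (Real.exp_pos u).le).1 hm.2⟩
  have hharm : ∑ m ∈ I, ((m : ℝ))⁻¹ ≤ 2 * u := by
    have := harm hM1
    rw [Real.log_exp] at this
    linarith
  -- A vs G'
  have k1 : |A - G'| ≤ 3206 * (4 * C + 1) * x / u := by
    rw [hA, hG', ← Finset.sum_sub_distrib]
    refine (Finset.abs_sum_le_sum_abs _ _).trans ?_
    refine (Finset.sum_le_sum fun m hm => per_m hC H hu hL hx1 hyx hy1 hMy hxyL hlogxy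
      (hmem m hm).1 (hmem m hm).2).trans ?_
    rw [← Finset.mul_sum]
    calc 1603 * (4 * C + 1) * x / u ^ 2 * ∑ m ∈ I, ((m : ℝ))⁻¹
        ≤ 1603 * (4 * C + 1) * x / u ^ 2 * (2 * u) := by gcongr
      _ = 3206 * (4 * C + 1) * x / u := by field_simp; ring
  -- G' large
  have k2 : x / 2 ≤ G' := by
    have h1 : (volume (Iset 1 ∩ Set.Ioo y x)).toReal / ((1 : ℕ) : ℝ) ≤ G' := by
      rw [hG']
      apply Finset.single_le_sum (f := fun m : ℕ => (volume (Iset m ∩ Set.Ioo y x)).toReal / (m : ℝ))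
      · intro i _; positivity
      · rw [hI, Finset.mem_Icc]; exact ⟨le_rfl, Nat.le_floor (by simpa using hM1)⟩
    have h2 : Iset 1 ∩ Set.Ioo y x = Set.Ioo y x := by
      rw [Iset_one, Set.inter_eq_right]
      intro t ht; exact hy1.trans ht.1.le
    rw [h2, Real.volume_Ioo, ENNReal.toReal_ofReal (by linarith)] at h1
    norm_num at h1
    linarith
  have k3 : G' ≤ G := by
    rw [hG', hG]
    apply Finset.sum_le_sum
    intro m _
    have := vol_le m (x := x) hy1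
    gcongr
  have k4 : G ≤ G' + (4 / u) * G' := by
    have h1 : G ≤ G' + y * ∑ m ∈ I, ((m : ℝ))⁻¹ := by
      rw [hG', hG, Finset.mul_sum, ← Finset.sum_add_distrib]
      apply Finset.sum_le_sum
      intro m hm
      have := vol_ge m (x := x) hy1
      have hm0 : (0 : ℝ) < m := by exact_mod_cast (hmem m hm).1
      rw [← div_eq_mul_inv, ← add_div]
      gcongr
    have h2 : y * ∑ m ∈ I, ((m : ℝ))⁻¹ ≤ y * (2 * u) := by gcongr
    have h3 : y * (2 * u) ≤ 2 * x / u := by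
      rw [le_div_iff₀ hu0]
      have f1 : u ^ 2 ≤ (u ^ 200) ^ 2 := by
        have : u ≤ u ^ 200 := le_self_pow₀ (by linarith) (by norm_num)
        gcongr
      calc y * (2 * u) * u = 2 * (y * u ^ 2) := by ring
        _ ≤ 2 * (y * (u ^ 200) ^ 2) := by gcongr
        _ = 2 * x := by rw [← hxyL]
    have h4 : 2 * x / u ≤ (4 / u) * G' := by
      rw [div_mul_eq_mul_div]
      apply div_le_div_of_nonneg_right _ hu0.le
      linarith
    linarith
  have hN0 : 0 ≤ N := by rw [hN]; positivity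
  have k5 : |A - Real.log x * N| ≤ (401 / u) * (Real.log x * N) := by
    have h1 : |A - Real.log x * N| ≤ (401 * u) * N := by
      rw [hA, hN, Finset.mul_sum, ← Finset.sum_sub_distrib, Finset.mul_sum]
      refine (Finset.abs_sum_le_sum_abs _ _).trans ?_
      apply Finset.sum_le_sum
      intro m hm
      refine (log_vs_count hM1 hy1 (hmem m hm).1 (hmem m hm).2).trans ?_
      rw [Real.log_exp]
      exact mul_le_mul_of_nonneg_right (by linarith) (Nat.cast_nonneg _)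
    refine h1.trans ?_
    rw [hL]
    have h401 : 401 * u ≤ 401 / u * u ^ 200 := by
      rw [hu200, div_mul_eq_mul_div, le_div_iff₀ hu0]
      nlinarith
    calc 401 * u * N ≤ 401 / u * u ^ 200 * N := mul_le_mul_of_nonneg_right h401 hN0
      _ = 401 / u * (u ^ 200 * N) := by ring
  have hG'pos : 0 < G' := by linarith
  refine ⟨hMy, by linarith, ?_⟩
  clear_value N G G' A I y
  have k6 : 3206 * (4 * C + 1) * x / u ≤ (6412 * (4 * C + 1) / u) * G' := by
    rw [div_mul_eq_mul_div]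
    apply div_le_div_of_nonneg_right _ hu0.le
    have : 3206 * (4 * C + 1) * x = 6412 * (4 * C + 1) * (x / 2) := by ring
    rw [this]
    exact mul_le_mul_of_nonneg_left k2 (by positivity)
  have k7 : (6412 * (4 * C + 1) / u) * G' ≤ (6412 * (4 * C + 1) / u) * G := by gcongr
  have k8 : (4 / u) * G' ≤ (4 / u) * G := by gcongr
  have k9 : (6412 * (4 * C + 1) + 4) / u * G = (6412 * (4 * C + 1) / u) * G + (4 / u) * G := by
    ring
  rw [k9]
  have m1 := abs_le.1 k1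
  have m5 := abs_le.1 k5
  rw [abs_le]
  constructor
  · linarith [m1.1, m1.2, m5.1, m5.2]
  · linarith [m1.1, m1.2, m5.1, m5.2]

open scoped Classical in
theorem main_count
    (H : ∃ C : ℝ, 0 < C ∧ ∀ x : ℝ, 2 ≤ x →
      |Chebyshev.theta x - x| ≤ C * x / (Real.log x) ^ (1 / 50 : ℝ)) :
    Tendsto (fun x : ℝ =>
      (Real.log x * (((Finset.Icc 1 ⌊x⌋₊).filter (fun n : ℕ => (n : ℝ) < x ∧
        x / (Real.log x) ^ 2 < n ∧ ∃ m q : ℕ, q.Prime ∧ n = m * q ∧
        (m : ℝ) ≤ Real.exp ((Real.log x) ^ (1 / 200 : ℝ)) ∧ (n : ℝ) ∈ Iset m)).card : ℝ)) /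
      (∑ m ∈ Finset.Icc 1 ⌊Real.exp ((Real.log x) ^ (1 / 200 : ℝ))⌋₊,
        (volume (Iset m ∩ Set.Icc 1 x)).toReal / m)) atTop (nhds 1) := by
  obtain ⟨C, hC, H⟩ := H
  set c := 6412 * (4 * C + 1) + 4 with hc
  have hc0 : 0 < c := by positivity
  have hutend : Tendsto (fun x : ℝ => (Real.log x) ^ (1 / 200 : ℝ)) atTop atTop :=
    (tendsto_rpow_atTop (by norm_num)).comp Real.tendsto_log_atTop
  rw [tendsto_iff_norm_sub_tendsto_zero]
  have hlim : Tendsto (fun x : ℝ => (401 * (2 * (1 + c)) + c) / ((Real.log x) ^ (1 / 200 : ℝ)))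
      atTop (nhds 0) := by
    exact Tendsto.div_atTop tendsto_const_nhds hutend
  refine squeeze_zero' (Filter.Eventually.of_forall fun _ => norm_nonneg _) ?_ hlim
  filter_upwards [hutend.eventually_ge_atTop 804, eventually_gt_atTop 1] with x hu hx1
  set u := (Real.log x) ^ (1 / 200 : ℝ) with hudef
  have hx0 : 0 < x := by linarith
  have hlx0 : 0 < Real.log x := Real.log_pos hx1
  have hL : Real.log x = u ^ 200 := by
    rw [hudef, ← Real.rpow_natCast, ← Real.rpow_mul hlx0.le]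
    norm_num
  obtain ⟨hMy, hGpos, hmain⟩ := main_ineq hC H hx0 hu hL
  have hcount := count_eq (x := x) (Real.one_le_exp (by linarith : (0:ℝ) ≤ u)) hMy
    ((Finset.Icc 1 ⌊x⌋₊).filter (fun n : ℕ => (n : ℝ) < x ∧
        x / (Real.log x) ^ 2 < n ∧ ∃ m q : ℕ, q.Prime ∧ n = m * q ∧
        (m : ℝ) ≤ Real.exp u ∧ (n : ℝ) ∈ Iset m)) (by intro n; rw [Finset.mem_filter])
  rw [hcount]
  push_cast
  set X := Real.log x * ∑ m ∈ Finset.Icc 1 ⌊Real.exp u⌋₊, ((Qf x (x / Real.log x ^ 2) m).card : ℝ)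
    with hX
  set G := ∑ m ∈ Finset.Icc 1 ⌊Real.exp u⌋₊, (volume (Iset m ∩ Set.Icc 1 x)).toReal / (m : ℝ)
    with hG
  have hu0 : 0 < u := by linarith
  have hX0 : 0 ≤ X := by
    rw [hX]
    exact mul_nonneg hlx0.le (Finset.sum_nonneg fun _ _ => Nat.cast_nonneg _)
  rw [Real.norm_eq_abs]
  rw [← hc] at hmain
  clear_value X G u c
  clear hL hcount hutend hlim hudef hX hG hMy
  have e1 : X / G - 1 = (X - G) / G := by rw [sub_div, div_self hGpos.ne']
  rw [e1, abs_div, abs_of_pos hGpos, div_le_iff₀ hGpos]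
  -- X ≤ 2 (1 + c) G
  have a1 := abs_le.1 hmain
  have a2 : 401 / u * X ≤ X / 2 := by
    have : 401 / u ≤ 1 / 2 := by rw [div_le_div_iff₀ hu0 (by norm_num)]; linarith
    calc 401 / u * X ≤ 1 / 2 * X := by gcongr
      _ = X / 2 := by ring
  have a3 : c / u * G ≤ c * G := by
    have : c / u ≤ c := div_le_self hc0.le (by linarith)
    gcongr
  have a4 : X ≤ 2 * (1 + c) * G := by linarith [a1.2]
  calc |X - G| ≤ 401 / u * X + c / u * G := hmain
    _ ≤ 401 / u * (2 * (1 + c) * G) + c / u * G := by gcongr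
    _ = (401 * (2 * (1 + c)) + c) / u * G := by ring

end Pool.Agent.Helper923.PPS
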