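import Mathlib

set_option autoImplicit false

open Finset

namespace Pool.Agent.Helper923.PPS

/-- if `α` has no good rational approximation with denominator `≤ B` then the rotation by `-α`
enters every interval of length `h` in time `≤ K` -/
theorem rot_hit (α x0 h : ℝ) (B K : ℕ) (hh : 0 < h) (hB : 1 / h ≤ B) (hK : 4 * B ≤ K)
    (hbad : ∀ b : ℕ, 1 ≤ b → b ≤ B → ∀ a : ℤ, 2 * (b : ℝ) / K < |b * α - a|) :
    ∃ j : ℕ, j ≤ K ∧ Int.fract (x0 - j * α) ≤ h := by
  have hBpos : (0 : ℝ) < B := lt_of_lt_of_le (by positivity) hB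
  have hBn : 0 < B := by exact_mod_cast hBpos
  obtain ⟨b, hb0, hbB, hb⟩ := Real.exists_nat_abs_mul_sub_round_le α hBn
  set a : ℤ := round ((b : ℝ) * α) with ha
  have hbad' := hbad b hb0 hbB a
  have hKr : (4 : ℝ) * B ≤ K := by exact_mod_cast hK
  have hB1 : (1 : ℝ) ≤ B := by exact_mod_cast hBn
  have hKpos : (0 : ℝ) < K := by linarith
  have hbr : (1 : ℝ) ≤ b := by exact_mod_cast hb0
  have hbBr : (b : ℝ) ≤ B := by exact_mod_cast hbB
  have hlt1 : (1 : ℝ) / (B + 1) ≤ 1 / 2 := by
    apply div_le_div_of_nonneg_left <;> linarith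
  have hlth : (1 : ℝ) / (B + 1) ≤ h := by
    rw [div_le_iff₀ hh] at hB
    rw [div_le_iff₀ (by linarith)]
    nlinarith
  set d : ℝ := b * α - a with hd
  have hf0 := Int.fract_nonneg x0
  have hf1 := Int.fract_lt_one x0
  have hfx : x0 = Int.floor x0 + Int.fract x0 := (Int.floor_add_fract x0).symm
  have hKb : 0 < 2 * (b : ℝ) / K := by positivity
  rcases lt_trichotomy d 0 with hneg | hzero | hpos
  · -- `d < 0`
    have habs : |d| = -d := abs_of_neg hneg
    rw [habs] at hb hbad'
    set e : ℝ := -d with he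
    have hepos : 0 < e := by linarith
    set i : ℕ := ⌈(1 - Int.fract x0) / e⌉₊ with hi
    have hi1 : (1 - Int.fract x0) / e ≤ i := Nat.le_ceil _
    have hi2 : (i : ℝ) < (1 - Int.fract x0) / e + 1 := Nat.ceil_lt_add_one (by
      apply div_nonneg <;> linarith)
    rw [div_le_iff₀ hepos] at hi1
    have hi3 : (i : ℝ) * e < (1 - Int.fract x0) + e := by
      have := mul_lt_mul_of_pos_right hi2 hepos
      rw [add_mul, div_mul_cancel₀ _ hepos.ne', one_mul] at this
      exact this
    refine ⟨b * i, ?_, ?_⟩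
    · have h1 : 2 * (b : ℝ) < e * K := by
        rw [div_lt_iff₀ hKpos] at hbad'
        exact hbad'
      have h2 : (i : ℝ) * e < 1 + e := by linarith
      have h3 : ((b * i : ℕ) : ℝ) ≤ K := by
        push_cast
        -- b * i * e < b + b e ; b < e K / 2 ; so b i < K/2 + b
        have h4 : (b : ℝ) * i * e < (K / 2 + b) * e := by nlinarith
        have h5 : (b : ℝ) * i < K / 2 + b := lt_of_mul_lt_mul_right h4 hepos.le
        linarith
      exact_mod_cast h3
    · have : Int.fract (x0 - ((b * i : ℕ) : ℝ) * α) = Int.fract x0 + i * e - 1 := by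
        rw [Int.fract_eq_iff]
        refine ⟨by linarith, by linarith, Int.floor x0 - i * a + 1, ?_⟩
        push_cast
        have hα : (b : ℝ) * α = a - e := by rw [he, hd]; ring
        calc x0 - (b : ℝ) * i * α - (Int.fract x0 + i * e - 1)
            = x0 - i * ((b : ℝ) * α) - (Int.fract x0 + i * e - 1) := by ring
          _ = x0 - i * (a - e) - (Int.fract x0 + i * e - 1) := by rw [hα]
          _ = (x0 - Int.fract x0) - i * a + 1 := by ring
          _ = (Int.floor x0 : ℝ) - i * a + 1 := by rw [Int.self_sub_fract]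
      rw [this]
      linarith
  · rw [hzero, abs_zero] at hbad'
    linarith
  · -- `d > 0`
    have habs : |d| = d := abs_of_pos hpos
    rw [habs] at hb hbad'
    set i : ℕ := ⌊Int.fract x0 / d⌋₊ with hi
    have hi1 : (i : ℝ) ≤ Int.fract x0 / d := Nat.floor_le (by positivity)
    have hi2 : Int.fract x0 / d < i + 1 := Nat.lt_floor_add_one _
    rw [le_div_iff₀ hpos] at hi1
    rw [div_lt_iff₀ hpos] at hi2
    refine ⟨b * i, ?_, ?_⟩
    · have h1 : 2 * (b : ℝ) < d * K := by
        rw [div_lt_iff₀ hKpos] at hbad'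
        exact hbad'
      have h3 : ((b * i : ℕ) : ℝ) ≤ K := by
        push_cast
        have h4 : (b : ℝ) * i * d < (K / 2 : ℝ) * d + (K / 2) * d := by nlinarith
        have h5 : (b : ℝ) * i * d < (K : ℝ) * d := by linarith
        exact (lt_of_mul_lt_mul_right h5 hpos.le).le
      exact_mod_cast h3
    · have : Int.fract (x0 - ((b * i : ℕ) : ℝ) * α) = Int.fract x0 - i * d := by
        rw [Int.fract_eq_iff]
        refine ⟨by linarith, by nlinarith [mul_nonneg (Nat.cast_nonneg (α := ℝ) i) hpos.le], Int.floor x0 - i * a, ?_⟩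
        push_cast
        have hα : (b : ℝ) * α = a + d := by rw [hd]; ring
        calc x0 - (b : ℝ) * i * α - (Int.fract x0 - i * d)
            = x0 - i * ((b : ℝ) * α) - (Int.fract x0 - i * d) := by ring
          _ = x0 - i * (a + d) - (Int.fract x0 - i * d) := by rw [hα]
          _ = (x0 - Int.fract x0) - i * a := by ring
          _ = (Int.floor x0 : ℝ) - i * a := by rw [Int.self_sub_fract]
      rw [this]
      nlinarith

/-- the set of primes `q'` for which `log q' / log q` has a good rational approximation is thin -/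
theorem bad_measure
    (H : ∃ C : ℝ, 1 ≤ C ∧ ∀ (α h : ℝ), 1 ≤ α → Real.exp (-α / 2) ≤ h →
      ∀ S : Finset ℕ, (∀ q ∈ S, q.Prime ∧ α ≤ Real.log q ∧ Real.log q ≤ α + h) →
        ∑ q ∈ S, (1 : ℝ) / q ≤ C * h / α) :
    ∃ C : ℝ, 1 ≤ C ∧ ∀ (q B K : ℕ) (L : ℝ), 4 ≤ Real.log q → 8 ≤ K → 1 ≤ B →
      (K : ℝ) ≤ Real.exp (Real.log q / 4) → 1 ≤ L →
      ∀ S : Finset ℕ, (∀ q' ∈ S, q'.Prime ∧ q < q' ∧ Real.log q' ≤ L ∧
        ∃ b : ℕ, 1 ≤ b ∧ b ≤ B ∧ ∃ a : ℤ,
          |b * (Real.log q' / Real.log q) - a| ≤ 2 * (b : ℝ) / K) →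
      ∑ q' ∈ S, (1 : ℝ) / q' ≤ C * (B : ℝ) ^ 2 * (1 + Real.log (B * (L + 1))) / K := by
  classical
  obtain ⟨C0, hC0, H⟩ := H
  refine ⟨8 * C0, by linarith, ?_⟩
  intro q B K L hu hK hB hKe hL S hS
  set u : ℝ := Real.log q with hudef
  have hKr : (8 : ℝ) ≤ K := by exact_mod_cast hK
  have hBr : (1 : ℝ) ≤ B := by exact_mod_cast hB
  have hKpos : (0 : ℝ) < K := by linarith
  have hupos : 0 < u := by linarith
  set N : ℕ := ⌊(B : ℝ) * (L + 1)⌋₊ with hN
  let W : ℕ × ℕ → ℕ → Prop := fun p q' =>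
    |(p.1 : ℝ) * (Real.log q' / u) - (p.2 : ℝ)| ≤ 2 * (p.1 : ℝ) / K
  let P : Finset (ℕ × ℕ) := Finset.Icc 1 B ×ˢ Finset.Icc 1 N
  have h2K : (2 : ℝ) / K ≤ 1 / 4 := by
    rw [div_le_div_iff₀ hKpos (by norm_num)]; linarith
  -- bounds on the ratio
  have hratio : ∀ q' ∈ S, ∀ b : ℕ, 1 ≤ b → ∀ a : ℝ,
      |(b : ℝ) * (Real.log q' / u) - a| ≤ 2 * (b : ℝ) / K →
      3 / 4 * (b : ℝ) ≤ a ∧ a ≤ b * (L + 1) ∧
      a * u / b - 2 * u / K ≤ Real.log q' ∧ Real.log q' ≤ a * u / b - 2 * u / K + 4 * u / K := by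
    intro q' hq' b hb a hab
    obtain ⟨hp, hlt, hle, -⟩ := hS q' hq'
    have hbr : (1 : ℝ) ≤ b := by exact_mod_cast hb
    have hqpos : (0 : ℝ) < q := by
      by_contra h
      have : (q : ℝ) = 0 := le_antisymm (not_lt.1 h) (Nat.cast_nonneg q)
      rw [hudef, this, Real.log_zero] at hu
      linarith
    have hlog : u ≤ Real.log q' := by
      apply Real.log_le_log hqpos
      exact_mod_cast hlt.le
    rw [abs_le] at hab
    obtain ⟨h1, h2⟩ := hab
    have h3 : 2 * (b : ℝ) / K = b * (2 / K) := by ring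
    rw [h3] at h1 h2
    set r : ℝ := Real.log q' / u with hr
    have hr1 : 1 ≤ r := by rw [hr, le_div_iff₀ hupos]; linarith
    have hrL : r ≤ L := by
      rw [hr, div_le_iff₀ hupos]
      nlinarith
    have hru : Real.log q' = r * u := by rw [hr]; field_simp
    refine ⟨?_, ?_, ?_, ?_⟩
    · nlinarith
    · nlinarith
    · rw [hru]
      have : a / b ≤ r + 2 / K := by
        rw [div_le_iff₀ (by linarith)]
        nlinarith
      calc a * u / b - 2 * u / K = (a / b - 2 / K) * u := by ring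
        _ ≤ r * u := by nlinarith
    · rw [hru]
      have : r - 2 / K ≤ a / b := by
        rw [le_div_iff₀ (by linarith)]
        nlinarith
      calc r * u ≤ (a / b + 2 / K) * u := by nlinarith
        _ = a * u / b - 2 * u / K + 4 * u / K := by ring
  -- sum over a window
  have hwin : ∀ p ∈ P, ∑ q' ∈ S.filter (W p), (1 : ℝ) / q' ≤ 8 * C0 * B / K * (1 / (p.2 : ℝ)) := by
    rintro ⟨b, a⟩ hp
    simp only [P, Finset.mem_product, Finset.mem_Icc] at hp
    obtain ⟨⟨hb1, hbB⟩, ha1, haN⟩ := hp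
    have hbr : (1 : ℝ) ≤ b := by exact_mod_cast hb1
    have hbBr : (b : ℝ) ≤ B := by exact_mod_cast hbB
    have har : (1 : ℝ) ≤ a := by exact_mod_cast ha1
    simp only
    by_cases hne : (S.filter (W (b, a))).Nonempty
    · obtain ⟨q0, hq0⟩ := hne
      rw [Finset.mem_filter] at hq0
      obtain ⟨hab, -, -, -⟩ := hratio q0 hq0.1 b hb1 a hq0.2
      set α0 : ℝ := a * u / b - 2 * u / K with hα0
      have hdiv : 3 / 4 ≤ (a : ℝ) / b := by
        rw [le_div_iff₀ (by linarith)]; linarith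
      have hα0' : α0 = u * (a / b - 2 / K) := by rw [hα0]; ring
      have hα1 : u / 2 ≤ α0 := by rw [hα0']; nlinarith
      have hα2 : a * u / (2 * b) ≤ α0 := by
        rw [hα0']
        have : a * u / (2 * b) = u * ((a : ℝ) / b / 2) := by field_simp
        rw [this]
        nlinarith
      have hexp : Real.exp (-α0 / 2) ≤ 4 * u / K := by
        have h1 : Real.exp (-α0 / 2) ≤ Real.exp (-(u / 4)) := Real.exp_le_exp.2 (by linarith)
        have h2 : Real.exp (-(u / 4)) ≤ 1 / K := by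
          rw [Real.exp_neg, ← one_div]
          apply one_div_le_one_div_of_le hKpos
          exact hKe
        have h3 : (1 : ℝ) / K ≤ 4 * u / K := by
          apply div_le_div_of_nonneg_right _ hKpos.le
          linarith
        linarith
      have hsum := H α0 (4 * u / K) (by linarith) hexp (S.filter (W (b, a))) (by
        intro q' hq'
        rw [Finset.mem_filter] at hq'
        obtain ⟨-, -, h1, h2⟩ := hratio q' hq'.1 b hb1 a hq'.2
        exact ⟨(hS q' hq'.1).1, h1, h2⟩)
      refine hsum.trans ?_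
      have hapos : 0 < a * u / (2 * (b : ℝ)) := by positivity
      calc C0 * (4 * u / K) / α0 ≤ C0 * (4 * u / K) / (a * u / (2 * b)) := by
            apply div_le_div_of_nonneg_left _ hapos hα2
            positivity
        _ = 8 * C0 * b / K * (1 / a) := by field_simp; ring
        _ ≤ 8 * C0 * B / K * (1 / a) := by gcongr
    · rw [Finset.not_nonempty_iff_eq_empty] at hne
      rw [hne, Finset.sum_empty]
      positivity
  -- covering
  have hcov : ∑ q' ∈ S, (1 : ℝ) / q' ≤ ∑ p ∈ P, ∑ q' ∈ S.filter (W p), (1 : ℝ) / q' := by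
    have e1 : ∀ p ∈ P, ∑ q' ∈ S.filter (W p), (1 : ℝ) / q' =
        ∑ q' ∈ S, if W p q' then (1 : ℝ) / q' else 0 := by
      intro p _
      rw [Finset.sum_filter]
    rw [Finset.sum_congr rfl e1, Finset.sum_comm]
    refine Finset.sum_le_sum fun q' hq' => ?_
    obtain ⟨hp, hlt, hle, b, hb1, hbB, a, hab⟩ := hS q' hq'
    obtain ⟨h1, h2, -, -⟩ := hratio q' hq' b hb1 a hab
    have hbr : (1 : ℝ) ≤ b := by exact_mod_cast hb1
    have hbBr : (b : ℝ) ≤ B := by exact_mod_cast hbB
    have hapos : (0 : ℝ) < a := by linarith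
    have hapos' : 0 < a := by exact_mod_cast hapos
    obtain ⟨a', rfl⟩ : ∃ a' : ℕ, a = (a' : ℤ) := ⟨a.toNat, by omega⟩
    have ha'1 : 1 ≤ a' := by omega
    have hmem : (b, a') ∈ P := by
      simp only [P, Finset.mem_product, Finset.mem_Icc]
      refine ⟨⟨hb1, hbB⟩, ha'1, ?_⟩
      rw [hN]
      apply Nat.le_floor
      push_cast at h2
      refine h2.trans ?_
      gcongr
    have hW : W (b, a') q' := by
      simp only [W]
      push_cast at hab
      exact hab
    calc (1 : ℝ) / q' = if W (b, a') q' then (1 : ℝ) / q' else 0 := by rw [if_pos hW]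
      _ ≤ ∑ p ∈ P, if W p q' then (1 : ℝ) / q' else 0 := by
        apply Finset.single_le_sum (f := fun p => if W p q' then (1 : ℝ) / q' else 0) _ hmem
        intro p _
        split_ifs
        · positivity
        · exact le_rfl
  refine hcov.trans ((Finset.sum_le_sum hwin).trans ?_)
  rw [← Finset.mul_sum, Finset.sum_product]
  simp only [Finset.sum_const, Nat.card_Icc, Nat.add_sub_cancel, nsmul_eq_mul]
  have hharm : ∑ y ∈ Finset.Icc 1 N, (1 : ℝ) / (y : ℝ) ≤ 1 + Real.log (B * (L + 1)) := by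
    have h1 := harmonic_floor_le_one_add_log ((B : ℝ) * (L + 1)) (by nlinarith)
    rw [← hN] at h1
    refine le_trans (le_of_eq ?_) h1
    rw [harmonic_eq_sum_Icc]
    push_cast
    refine Finset.sum_congr rfl fun y _ => ?_
    rw [one_div]
  calc 8 * C0 * (B : ℝ) / K * ((B : ℝ) * ∑ y ∈ Finset.Icc 1 N, (1 : ℝ) / (y : ℝ))
      ≤ 8 * C0 * (B : ℝ) / K * ((B : ℝ) * (1 + Real.log (B * (L + 1)))) := by
        gcongr
    _ = 8 * C0 * (B : ℝ) ^ 2 * (1 + Real.log (B * (L + 1))) / K := by ring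

end Pool.Agent.Helper923.PPS
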