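import Mathlib

set_option autoImplicit false

open Finset

namespace Pool.Agent.Helper923.PPS

theorem sum_biUnion_le'' {ι α : Type*} [DecidableEq α] (s : Finset ι) (t : ι → Finset α)
    (f : α → ℝ) (hf : ∀ a, 0 ≤ f a) :
    ∑ x ∈ s.biUnion t, f x ≤ ∑ i ∈ s, ∑ x ∈ t i, f x := by
  classical
  induction s using Finset.induction_on with
  | empty => simp
  | insert a s ha ih =>
    rw [Finset.biUnion_insert, Finset.sum_insert ha]
    have := Finset.sum_union_inter (s₁ := t a) (s₂ := s.biUnion t) (f := f)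
    have h2 : 0 ≤ ∑ x ∈ t a ∩ s.biUnion t, f x := Finset.sum_nonneg fun _ _ => hf _
    linarith

theorem star_aux (w : ℕ → ℝ) (hw : ∀ p, 0 ≤ w p) (k : ℕ)
    (ih : ∀ R : Finset ℕ, ∑ c ∈ Finset.powersetCard k R, ∏ q ∈ c, w q ≤ (∑ q ∈ R, w q) ^ k)
    (R : Finset ℕ) (E : ℕ → Finset ℕ) :
    ∑ c ∈ (Finset.powersetCard (k + 1) R).filter (fun c => ∃ q ∈ c, c.erase q ⊆ E q),
      ∏ q ∈ c, w q ≤ ∑ q ∈ R, w q * (∑ q' ∈ E q, w q') ^ k := by
  classical
  have hprod : ∀ c : Finset ℕ, 0 ≤ ∏ q ∈ c, w q := fun c => Finset.prod_nonneg fun _ _ => hw _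
  set A : ℕ → Finset (Finset ℕ) := fun q =>
    (Finset.powersetCard (k + 1) R).filter (fun c => q ∈ c ∧ c.erase q ⊆ E q) with hA
  have hsub : (Finset.powersetCard (k + 1) R).filter (fun c => ∃ q ∈ c, c.erase q ⊆ E q) ⊆
      R.biUnion A := by
    intro c hc
    rw [Finset.mem_filter] at hc
    obtain ⟨h1, q, hq, h2⟩ := hc
    rw [Finset.mem_biUnion]
    refine ⟨q, (Finset.mem_powersetCard.mp h1).1 hq, ?_⟩
    rw [hA]
    exact Finset.mem_filter.mpr ⟨h1, hq, h2⟩
  calc ∑ c ∈ (Finset.powersetCard (k + 1) R).filter (fun c => ∃ q ∈ c, c.erase q ⊆ E q),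
        ∏ q ∈ c, w q ≤ ∑ c ∈ R.biUnion A, ∏ q ∈ c, w q :=
        Finset.sum_le_sum_of_subset_of_nonneg hsub (fun c _ _ => hprod c)
    _ ≤ ∑ q ∈ R, ∑ c ∈ A q, ∏ r ∈ c, w r := sum_biUnion_le'' _ _ _ hprod
    _ ≤ ∑ q ∈ R, w q * (∑ q' ∈ E q, w q') ^ k := by
        apply Finset.sum_le_sum
        intro q _
        have h1 : ∑ c ∈ A q, ∏ r ∈ c, w r = ∑ c ∈ A q, w q * ∏ r ∈ c.erase q, w r := by
          apply Finset.sum_congr rfl
          intro c hc
          rw [hA, Finset.mem_filter] at hc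
          exact (Finset.mul_prod_erase c w hc.2.1).symm
        rw [h1, ← Finset.mul_sum]
        apply mul_le_mul_of_nonneg_left _ (hw q)
        refine le_trans ?_ (ih (E q))
        have hinj : Set.InjOn (fun c : Finset ℕ => c.erase q) (A q : Set (Finset ℕ)) := by
          intro c hc c' hc' h
          rw [hA, Finset.mem_coe, Finset.mem_filter] at hc hc'
          simp only at h
          rw [← Finset.insert_erase hc.2.1, ← Finset.insert_erase hc'.2.1, h]
        rw [← Finset.sum_image (f := fun c => ∏ r ∈ c, w r) hinj]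
        apply Finset.sum_le_sum_of_subset_of_nonneg
        · intro c hc
          rw [Finset.mem_image] at hc
          obtain ⟨c', hc', rfl⟩ := hc
          rw [hA, Finset.mem_filter, Finset.mem_powersetCard] at hc'
          rw [Finset.mem_powersetCard]
          refine ⟨hc'.2.2, ?_⟩
          rw [Finset.card_erase_of_mem hc'.2.1, hc'.1.2]
          rfl
        · intro c _ _; exact hprod c

theorem sum_powersetCard_le (w : ℕ → ℝ) (hw : ∀ p, 0 ≤ w p) (k : ℕ) :
    ∀ R : Finset ℕ, ∑ c ∈ Finset.powersetCard k R, ∏ q ∈ c, w q ≤ (∑ q ∈ R, w q) ^ k := by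
  classical
  induction k with
  | zero => intro R; simp
  | succ k ih =>
    intro R
    have h := star_aux w hw k ih R (fun _ => R)
    have h1 : (Finset.powersetCard (k + 1) R).filter (fun c => ∃ q ∈ c, c.erase q ⊆ R) =
        Finset.powersetCard (k + 1) R := by
      rw [Finset.filter_eq_self]
      intro c hc
      rw [Finset.mem_powersetCard] at hc
      have hne : c.Nonempty := by rw [← Finset.card_pos]; omega
      obtain ⟨q, hq⟩ := hne
      exact ⟨q, hq, (Finset.erase_subset _ _).trans hc.1⟩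
    rw [h1, ← Finset.sum_mul] at h
    refine h.trans (le_of_eq ?_)
    ring

theorem star_sum (w : ℕ → ℝ) (hw : ∀ p, 0 ≤ w p) (k : ℕ)
    (R : Finset ℕ) (E : ℕ → Finset ℕ) :
    ∑ c ∈ (Finset.powersetCard (k + 1) R).filter (fun c => ∃ q ∈ c, c.erase q ⊆ E q),
      ∏ q ∈ c, w q ≤ ∑ q ∈ R, w q * (∑ q' ∈ E q, w q') ^ k :=
  star_aux w hw k (sum_powersetCard_le w hw k) R E

theorem sum_small_subsets (w : ℕ → ℝ) (hw : ∀ p, 0 ≤ w p) (R : Finset ℕ) (k : ℕ) :
    ∑ c ∈ R.powerset.filter (fun c => c.card < k), ∏ q ∈ c, w q ≤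
      k * (1 + ∑ q ∈ R, w q) ^ k := by
  classical
  have hprod : ∀ c : Finset ℕ, 0 ≤ ∏ q ∈ c, w q := fun c => Finset.prod_nonneg fun _ _ => hw _
  have hsub : R.powerset.filter (fun c => c.card < k) ⊆
      (Finset.range k).biUnion (fun j => Finset.powersetCard j R) := by
    intro c hc
    rw [Finset.mem_filter, Finset.mem_powerset] at hc
    rw [Finset.mem_biUnion]
    exact ⟨c.card, Finset.mem_range.mpr hc.2, Finset.mem_powersetCard.mpr ⟨hc.1, rfl⟩⟩
  have hS : 0 ≤ ∑ q ∈ R, w q := Finset.sum_nonneg fun _ _ => hw _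
  calc ∑ c ∈ R.powerset.filter (fun c => c.card < k), ∏ q ∈ c, w q
      ≤ ∑ c ∈ (Finset.range k).biUnion (fun j => Finset.powersetCard j R), ∏ q ∈ c, w q :=
        Finset.sum_le_sum_of_subset_of_nonneg hsub (fun c _ _ => hprod c)
    _ ≤ ∑ j ∈ Finset.range k, ∑ c ∈ Finset.powersetCard j R, ∏ q ∈ c, w q :=
        sum_biUnion_le'' _ _ _ hprod
    _ ≤ ∑ j ∈ Finset.range k, (1 + ∑ q ∈ R, w q) ^ k := by
        apply Finset.sum_le_sum
        intro j hj
        rw [Finset.mem_range] at hj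
        calc ∑ c ∈ Finset.powersetCard j R, ∏ q ∈ c, w q ≤ (∑ q ∈ R, w q) ^ j :=
              sum_powersetCard_le w hw j R
          _ ≤ (1 + ∑ q ∈ R, w q) ^ j := by gcongr; linarith
          _ ≤ (1 + ∑ q ∈ R, w q) ^ k := by
              apply pow_le_pow_right₀ (by linarith) hj.le
    _ = k * (1 + ∑ q ∈ R, w q) ^ k := by
        rw [Finset.sum_const, Finset.card_range, nsmul_eq_mul]

end Pool.Agent.Helper923.PPS
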