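import Mathlib
import Pool.Agent.Helper923.PPS.Prox

set_option autoImplicit false

open Finset Filter

namespace Pool.Agent.Helper923.PPS

theorem dyadic_lt {x L : ℝ} {i N : ℕ} (hi : (2 : ℝ) ^ i ≤ x) (hxL : x ≤ 2 * L) (hL : 2 ≤ Real.log L)
    (hL0 : 0 < L) (hN : 2 * Real.log L < N) : i < N := by
  have h1 : (2 : ℝ) ^ i ≤ 2 * L := hi.trans hxL
  have h2 := Real.log_le_log (by positivity) h1
  rw [Real.log_pow, Real.log_mul (by norm_num) hL0.ne'] at h2
  have h3 := Real.log_two_gt_d9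
  have h4 := Real.log_two_lt_d9
  have h5 : (i : ℝ) < N := by
    by_contra hcon
    push Not at hcon
    have h6 : 2 * Real.log L < i := lt_of_lt_of_le hN hcon
    nlinarith
  exact_mod_cast h5

/-- the average gain -/
theorem sum_gain : ∃ C : ℝ, 1 ≤ C ∧ ∀ᶠ T : ℕ in atTop,
    ∀ S : Finset ℕ, (∀ q ∈ S, q.Prime ∧ q ≤ T ∧ (Real.log T) ^ (1 / 500 : ℝ) ≤ Real.log q) →
      ∑ q ∈ S, (1 : ℝ) / q * (Real.log q / (1 + DD T q)) ≤ C * (Real.log (Real.log T)) ^ 3 := by
  classical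
  obtain ⟨C, hC, hP⟩ := prox
  refine ⟨54 * C, by linarith, ?_⟩
  have hpow : Tendsto (fun L : ℝ => L ^ (1 / 500 : ℝ)) atTop atTop :=
    tendsto_rpow_atTop (by norm_num)
  filter_upwards [hP, tendsto_loglogT.eventually_ge_atTop 2, tendsto_logT.eventually_ge_atTop 2,
    eventually_ge_atTop 2, tendsto_logT.eventually (hpow.eventually_ge_atTop 2)]
    with T hPT hLL hL hT hpw S hS
  set L := Real.log T with hLdef
  have hL0 : 0 < L := by linarith
  set N := ⌊2 * Real.log L⌋₊ + 1 with hN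
  have hN1 : 2 * Real.log L < N := by
    rw [hN]; push_cast; exact Nat.lt_floor_add_one _
  have hN2 : (N : ℝ) ≤ 3 * Real.log L := by
    rw [hN]; push_cast
    have := Nat.floor_le (a := 2 * Real.log L) (by linarith)
    linarith
  have hqL : ∀ q ∈ S, Real.log q ≤ L := fun q hq =>
    Real.log_le_log (by exact_mod_cast (hS q hq).1.pos) (by exact_mod_cast (hS q hq).2.1)
  set A : ℕ × ℕ → Finset ℕ := fun ij => S.filter (fun q : ℕ => (2 : ℝ) ^ ij.1 ≤ Real.log q ∧
    Real.log q < (2 : ℝ) ^ (ij.1 + 1) ∧ (2 : ℝ) ^ ij.2 ≤ 1 + DD T q ∧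
    1 + DD T q < (2 : ℝ) ^ (ij.2 + 1)) with hA
  have hDnn : ∀ q ∈ S, 0 ≤ DD T q := fun q hq => DD_nonneg (hS q hq).1.two_le (by omega)
  have hcover : S ⊆ (Finset.range N ×ˢ Finset.range N).biUnion A := by
    intro q hq
    have h1 := hS q hq
    have hq1 : 1 ≤ Real.log q := by linarith [h1.2.2]
    have hD := hDnn q hq
    obtain ⟨i, hi1, hi2⟩ := exists_nat_pow_near hq1 (by norm_num : (1 : ℝ) < 2)
    obtain ⟨j, hj1, hj2⟩ := exists_nat_pow_near (by linarith : 1 ≤ 1 + DD T q)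
      (by norm_num : (1 : ℝ) < 2)
    rw [Finset.mem_biUnion]
    refine ⟨(i, j), ?_, ?_⟩
    · rw [Finset.mem_product, Finset.mem_range, Finset.mem_range]
      have h2 := hqL q hq
      have h3 := DD_lt_log (T := T) h1.1.two_le (by omega)
      exact ⟨dyadic_lt hi1 (by linarith) hLL hL0 hN1, dyadic_lt hj1 (by linarith) hLL hL0 hN1⟩
    · rw [hA]
      exact Finset.mem_filter.mpr ⟨hq, hi1, hi2, hj1, hj2⟩
  have hterm : ∀ ij ∈ Finset.range N ×ˢ Finset.range N,
      ∑ q ∈ A ij, (1 : ℝ) / q * (Real.log q / (1 + DD T q)) ≤ 6 * C * Real.log L := by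
    intro ij _
    obtain ⟨i, j⟩ := ij
    have hmem : ∀ q ∈ A (i, j), q ∈ S ∧ (2 : ℝ) ^ i ≤ Real.log q ∧
        Real.log q < (2 : ℝ) ^ (i + 1) ∧ (2 : ℝ) ^ j ≤ 1 + DD T q ∧
        1 + DD T q < (2 : ℝ) ^ (j + 1) := fun q hq => by
      rw [hA] at hq
      exact Finset.mem_filter.mp hq
    have h2i : (0 : ℝ) < 2 ^ i := by positivity
    have h2j : (1 : ℝ) ≤ 2 ^ j := one_le_pow₀ (by norm_num)
    have hp := hPT (max ((2 : ℝ) ^ i) (L ^ (1 / 500 : ℝ))) ((2 : ℝ) ^ (j + 1)) (le_max_right _ _)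
      (by positivity) (A (i, j)) (fun q hq => by
        have h1 := hmem q hq
        have h2 := hS q h1.1
        exact ⟨h2.1, h2.2.1, max_le h1.2.1 h2.2.2, by linarith [h1.2.2.2.2]⟩)
    have h3 : C * Real.log L * ((2 : ℝ) ^ (j + 1) + 1) / max ((2 : ℝ) ^ i) (L ^ (1 / 500 : ℝ)) ≤
        C * Real.log L * (3 * 2 ^ j) / 2 ^ i := by
      apply div_le_div₀ (by positivity) _ h2i (le_max_left _ _)
      apply mul_le_mul_of_nonneg_left _ (by positivity)
      rw [pow_succ]; linarith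
    calc ∑ q ∈ A (i, j), (1 : ℝ) / q * (Real.log q / (1 + DD T q))
        ≤ ∑ q ∈ A (i, j), (1 : ℝ) / q * ((2 : ℝ) ^ (i + 1) / 2 ^ j) := by
          apply Finset.sum_le_sum
          intro q hq
          have h1 := hmem q hq
          apply mul_le_mul_of_nonneg_left _ (by positivity)
          exact div_le_div₀ (by positivity) h1.2.2.1.le (by positivity) h1.2.2.2.1
      _ = (∑ q ∈ A (i, j), (1 : ℝ) / q) * ((2 : ℝ) ^ (i + 1) / 2 ^ j) := by
          rw [Finset.sum_mul]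
      _ ≤ (C * Real.log L * (3 * 2 ^ j) / 2 ^ i) * ((2 : ℝ) ^ (i + 1) / 2 ^ j) := by
          apply mul_le_mul_of_nonneg_right (hp.trans h3) (by positivity)
      _ = 6 * C * Real.log L := by
          rw [pow_succ]; field_simp; ring
  have hnn : ∀ q ∈ S, 0 ≤ (1 : ℝ) / q * (Real.log q / (1 + DD T q)) := by
    intro q hq
    have h1 := hDnn q hq
    have h2 : 0 ≤ Real.log q := by linarith [(hS q hq).2.2]
    positivity
  have hfil : ∀ ij, A ij ⊆ S := fun ij => Finset.filter_subset _ _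
  -- replace the summand by an everywhere nonnegative one
  set φ : ℕ → ℝ := fun q => |(1 : ℝ) / q * (Real.log q / (1 + DD T q))| with hφ
  have hφeq : ∀ q ∈ S, φ q = (1 : ℝ) / q * (Real.log q / (1 + DD T q)) := fun q hq =>
    abs_of_nonneg (hnn q hq)
  calc ∑ q ∈ S, (1 : ℝ) / q * (Real.log q / (1 + DD T q)) = ∑ q ∈ S, φ q :=
        Finset.sum_congr rfl (fun q hq => (hφeq q hq).symm)
    _ ≤ ∑ q ∈ (Finset.range N ×ˢ Finset.range N).biUnion A, φ q :=
        Finset.sum_le_sum_of_subset_of_nonneg hcover (fun _ _ _ => abs_nonneg _)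
    _ ≤ ∑ ij ∈ Finset.range N ×ˢ Finset.range N, ∑ q ∈ A ij, φ q :=
        sum_biUnion_le' _ _ _ (fun _ => abs_nonneg _)
    _ ≤ ∑ ij ∈ Finset.range N ×ˢ Finset.range N, 6 * C * Real.log L := by
        apply Finset.sum_le_sum
        intro ij hij
        refine le_trans (le_of_eq ?_) (hterm ij hij)
        exact Finset.sum_congr rfl (fun q hq => hφeq q (hfil ij hq))
    _ = (N * N) * (6 * C * Real.log L) := by
        rw [Finset.sum_const, nsmul_eq_mul, Finset.card_product, Finset.card_range]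
        push_cast; ring
    _ ≤ ((3 * Real.log L) * (3 * Real.log L)) * (6 * C * Real.log L) := by
        gcongr
    _ = 54 * C * (Real.log L) ^ 3 := by ring

/-- few primes with a power close to `T` -/
theorem sum_close : ∃ C : ℝ, 1 ≤ C ∧ ∀ᶠ T : ℕ in atTop,
    ∀ S : Finset ℕ, (∀ q ∈ S, q.Prime ∧ q ≤ T ∧ (Real.log T) ^ (1 / 500 : ℝ) ≤ Real.log q ∧
      DD T q ≤ (Real.log T) ^ (-(1 / 10) : ℝ) * Real.log q + Real.log 8) →
      ∑ q ∈ S, (1 : ℝ) / q ≤ C * (Real.log (Real.log T)) ^ 2 *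
        (Real.log T) ^ (-(1 / 500) : ℝ) := by
  classical
  obtain ⟨C, hC, hP⟩ := prox
  refine ⟨24 * C, by linarith, ?_⟩
  have hpow : Tendsto (fun L : ℝ => L ^ (1 / 500 : ℝ)) atTop atTop :=
    tendsto_rpow_atTop (by norm_num)
  filter_upwards [hP, tendsto_loglogT.eventually_ge_atTop 2, tendsto_logT.eventually_ge_atTop 2,
    eventually_ge_atTop 2, tendsto_logT.eventually (hpow.eventually_ge_atTop 2)]
    with T hPT hLL hL hT hpw S hS
  set L := Real.log T with hLdef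
  have hL0 : 0 < L := by linarith
  set N := ⌊2 * Real.log L⌋₊ + 1 with hN
  have hN1 : 2 * Real.log L < N := by
    rw [hN]; push_cast; exact Nat.lt_floor_add_one _
  have hN2 : (N : ℝ) ≤ 3 * Real.log L := by
    rw [hN]; push_cast
    have := Nat.floor_le (a := 2 * Real.log L) (by linarith)
    linarith
  have hqL : ∀ q ∈ S, Real.log q ≤ L := fun q hq =>
    Real.log_le_log (by exact_mod_cast (hS q hq).1.pos) (by exact_mod_cast (hS q hq).2.1)
  set A : ℕ → Finset ℕ := fun i => S.filter (fun q : ℕ => (2 : ℝ) ^ i ≤ Real.log q ∧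
    Real.log q < (2 : ℝ) ^ (i + 1)) with hA
  have hcover : S ⊆ (Finset.range N).biUnion A := by
    intro q hq
    have h1 := hS q hq
    have hq1 : 1 ≤ Real.log q := by linarith [h1.2.2.1]
    obtain ⟨i, hi1, hi2⟩ := exists_nat_pow_near hq1 (by norm_num : (1 : ℝ) < 2)
    rw [Finset.mem_biUnion]
    refine ⟨i, ?_, ?_⟩
    · rw [Finset.mem_range]
      have h2 := hqL q hq
      exact dyadic_lt hi1 (by linarith) hLL hL0 hN1
    · rw [hA]
      exact Finset.mem_filter.mpr ⟨hq, hi1, hi2⟩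
  have hl8 : Real.log 8 ≤ 3 := by
    have : Real.log 8 = 3 * Real.log 2 := by
      rw [show (8 : ℝ) = 2 ^ 3 by norm_num, Real.log_pow]; norm_num
    have := Real.log_two_lt_d9
    linarith
  have hl8' : 0 ≤ Real.log 8 := Real.log_nonneg (by norm_num)
  set r := L ^ (-(1 / 10) : ℝ) with hr
  set s := L ^ (-(1 / 500) : ℝ) with hs
  have hr0 : 0 ≤ r := Real.rpow_nonneg hL0.le _
  have hs0 : 0 < s := Real.rpow_pos_of_pos hL0 _
  have hrs : r ≤ s := Real.rpow_le_rpow_of_exponent_le (by linarith) (by norm_num)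
  have hsinv : L ^ (1 / 500 : ℝ) = s⁻¹ := by
    rw [hs, Real.rpow_neg hL0.le, inv_inv]
  have hterm : ∀ i ∈ Finset.range N, ∑ q ∈ A i, (1 : ℝ) / q ≤ 8 * C * Real.log L * s := by
    intro i _
    have hmem : ∀ q ∈ A i, q ∈ S ∧ (2 : ℝ) ^ i ≤ Real.log q ∧
        Real.log q < (2 : ℝ) ^ (i + 1) := fun q hq => by
      rw [hA] at hq
      exact Finset.mem_filter.mp hq
    have h2i : (0 : ℝ) < 2 ^ i := by positivity
    have hp := hPT (max ((2 : ℝ) ^ i) (L ^ (1 / 500 : ℝ))) (r * (2 : ℝ) ^ (i + 1) + Real.log 8)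
      (le_max_right _ _) (by positivity) (A i) (fun q hq => by
        have h1 := hmem q hq
        have h2 := hS q h1.1
        refine ⟨h2.1, h2.2.1, max_le h1.2.1 h2.2.2.1, h2.2.2.2.trans ?_⟩
        have := mul_le_mul_of_nonneg_left h1.2.2.le hr0
        linarith)
    refine hp.trans ?_
    set M := max ((2 : ℝ) ^ i) (L ^ (1 / 500 : ℝ)) with hM
    have hM0 : 0 < M := lt_of_lt_of_le h2i (le_max_left _ _)
    rw [div_le_iff₀ hM0]
    have h3 : r * (2 : ℝ) ^ (i + 1) ≤ 2 * s * M := by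
      have h4 : (2 : ℝ) ^ i ≤ M := le_max_left _ _
      rw [pow_succ]
      have : r * 2 ^ i ≤ s * M := mul_le_mul hrs h4 h2i.le hs0.le
      linarith
    have h5 : 1 ≤ s * M := by
      have h6 : L ^ (1 / 500 : ℝ) ≤ M := le_max_right _ _
      rw [hsinv] at h6
      calc (1 : ℝ) = s * s⁻¹ := (mul_inv_cancel₀ hs0.ne').symm
        _ ≤ s * M := mul_le_mul_of_nonneg_left h6 hs0.le
    have h7 : 0 ≤ C * Real.log L := by positivity
    calc C * Real.log L * (r * (2 : ℝ) ^ (i + 1) + Real.log 8 + 1)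
        ≤ C * Real.log L * (8 * (s * M)) := by
          apply mul_le_mul_of_nonneg_left _ h7
          linarith
      _ = 8 * C * Real.log L * s * M := by ring
  calc ∑ q ∈ S, (1 : ℝ) / q ≤ ∑ q ∈ (Finset.range N).biUnion A, (1 : ℝ) / q :=
        Finset.sum_le_sum_of_subset_of_nonneg hcover (fun _ _ _ => by positivity)
    _ ≤ ∑ i ∈ Finset.range N, ∑ q ∈ A i, (1 : ℝ) / q :=
        sum_biUnion_le' _ _ _ (fun _ => by positivity)
    _ ≤ ∑ i ∈ Finset.range N, 8 * C * Real.log L * s := Finset.sum_le_sum hterm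
    _ = N * (8 * C * Real.log L * s) := by
        rw [Finset.sum_const, nsmul_eq_mul, Finset.card_range]
    _ ≤ (3 * Real.log L) * (8 * C * Real.log L * s) := by
        gcongr
    _ = 24 * C * (Real.log L) ^ 2 * s := by ring

end Pool.Agent.Helper923.PPS
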