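import Mathlib
import Pool.Agent.Helper923.PPS.Sums
import Pool.Agent.Helper923.PPS.Sub
import Pool.Agent.Helper923.PPS.Rot

set_option autoImplicit false

open Finset Filter

namespace Pool.Agent.Helper923.PPS

noncomputable def z0 (T : ℕ) : ℕ := ⌊Real.exp ((Real.log T) ^ (1 / 500 : ℝ))⌋₊
noncomputable def Y1 (T : ℕ) : ℕ := ⌊Real.exp ((Real.log T) ^ (3 / 5 : ℝ))⌋₊
noncomputable def BB (T : ℕ) : ℕ := ⌈(Real.log T) ^ (1 / 10 : ℝ)⌉₊
noncomputable def KK (T : ℕ) : ℕ := ⌊(Real.log T) ^ (2 / 5 : ℝ) / 3⌋₊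

/-- the primes of medium size -/
noncomputable def RR (T : ℕ) : Finset ℕ := (Finset.Ioc (z0 T) (Y1 T)).filter Nat.Prime

def Close (T q : ℕ) : Prop :=
  DD T q ≤ (Real.log T) ^ (-(1 / 10) : ℝ) * Real.log q + Real.log 8

def BadP (T q q' : ℕ) : Prop :=
  ∃ b : ℕ, 1 ≤ b ∧ b ≤ BB T ∧ ∃ a : ℤ,
    |b * (Real.log q' / Real.log q) - a| ≤ 2 * (b : ℝ) / KK T

theorem lt_log_of_z0 {T q : ℕ} (h : z0 T < q) : (Real.log T) ^ (1 / 500 : ℝ) ≤ Real.log q := by
  have h1 : Real.exp ((Real.log T) ^ (1 / 500 : ℝ)) < q := (Nat.floor_lt (Real.exp_pos _).le).mp h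
  have := Real.log_le_log (Real.exp_pos _) h1.le
  rwa [Real.log_exp] at this

theorem log_le_of_Y1 {T q : ℕ} (hq : 0 < q) (h : q ≤ Y1 T) :
    Real.log q ≤ (Real.log T) ^ (3 / 5 : ℝ) := by
  have h1 : (q : ℝ) ≤ Real.exp ((Real.log T) ^ (3 / 5 : ℝ)) :=
    (Nat.le_floor_iff (Real.exp_pos _).le).mp h
  have := Real.log_le_log (by exact_mod_cast hq) h1
  rwa [Real.log_exp] at this

theorem log_ge_of_Y1 {T q : ℕ} (h : Y1 T < q) : (Real.log T) ^ (3 / 5 : ℝ) ≤ Real.log q := by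
  have h1 : Real.exp ((Real.log T) ^ (3 / 5 : ℝ)) < q := (Nat.floor_lt (Real.exp_pos _).le).mp h
  have := Real.log_le_log (Real.exp_pos _) h1.le
  rwa [Real.log_exp] at this

theorem le_T_of_Y1 {T q : ℕ} (hT : 1 ≤ Real.log T) (hq : 0 < q) (h : q ≤ Y1 T) : q ≤ T := by
  have h1 := log_le_of_Y1 hq h
  have h2 : (Real.log T) ^ (3 / 5 : ℝ) ≤ Real.log T := by
    calc (Real.log T) ^ (3 / 5 : ℝ) ≤ (Real.log T) ^ (1 : ℝ) :=
          Real.rpow_le_rpow_of_exponent_le hT (by norm_num)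
      _ = _ := Real.rpow_one _
  have hT0 : (0 : ℝ) < T := by
    rcases Nat.eq_zero_or_pos T with h | h
    · subst h; norm_num at hT
    · exact_mod_cast h
  have h3 := (Real.log_le_log_iff (by exact_mod_cast hq) hT0).mp (h1.trans h2)
  exact_mod_cast h3

theorem mem_RR {T q : ℕ} : q ∈ RR T ↔ q.Prime ∧ z0 T < q ∧ q ≤ Y1 T := by
  unfold RR
  rw [Finset.mem_filter, Finset.mem_Ioc]
  tauto

/-- growth facts -/
theorem KB_facts : ∀ᶠ L : ℝ in atTop, 4 * ⌈L ^ (1 / 10 : ℝ)⌉₊ ≤ ⌊L ^ (2 / 5 : ℝ) / 3⌋₊ ∧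
    8 ≤ ⌊L ^ (2 / 5 : ℝ) / 3⌋₊ ∧ L ^ (2 / 5 : ℝ) / 6 ≤ (⌊L ^ (2 / 5 : ℝ) / 3⌋₊ : ℝ) ∧
    L / 3 + 2 * L ^ (3 / 5 : ℝ) + 2 ≤ L := by
  have h1 := polylog_le 1 0 (1 / 10) (1 / 5) (by norm_num)
  have hpow : Tendsto (fun L : ℝ => L ^ (1 / 5 : ℝ)) atTop atTop :=
    tendsto_rpow_atTop (by norm_num)
  have h2 := polylog_le 4 0 (3 / 5) 1 (by norm_num)
  filter_upwards [h1, h2, hpow.eventually_ge_atTop 100, eventually_ge_atTop (12 : ℝ)]
    with L hL1 hL2 hL3 hL4
  have hL0 : (0 : ℝ) < L := by linarith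
  rw [pow_zero, one_mul, one_mul] at hL1
  rw [pow_zero, mul_one, Real.rpow_one] at hL2
  have e : L ^ (2 / 5 : ℝ) = L ^ (1 / 5 : ℝ) * L ^ (1 / 5 : ℝ) := by
    rw [← Real.rpow_add hL0]; norm_num
  have h3 : (⌈L ^ (1 / 10 : ℝ)⌉₊ : ℝ) < L ^ (1 / 10 : ℝ) + 1 :=
    Nat.ceil_lt_add_one (Real.rpow_nonneg hL0.le _)
  have h5 : (4 * ⌈L ^ (1 / 10 : ℝ)⌉₊ : ℕ) ≤ ⌊L ^ (2 / 5 : ℝ) / 3⌋₊ := by
    apply Nat.le_floor
    push_cast
    rw [e]
    nlinarith
  have h6 : 8 ≤ ⌊L ^ (2 / 5 : ℝ) / 3⌋₊ := by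
    apply Nat.le_floor
    push_cast
    rw [e]
    nlinarith
  refine ⟨h5, h6, ?_, by linarith⟩
  have h7 := Nat.lt_floor_add_one (L ^ (2 / 5 : ℝ) / 3)
  have h8 : (8 : ℝ) ≤ (⌊L ^ (2 / 5 : ℝ) / 3⌋₊ : ℝ) := by exact_mod_cast h6
  linarith

/-- the pair lemma -/
theorem pair_key : ∀ᶠ T : ℕ in atTop, ∀ n q q' : ℕ, q.Prime → q'.Prime → q < q' → q' ≤ Y1 T →
    n ≤ T → T < 4 * n →
    (∀ i J : ℕ, 1 ≤ i → 1 ≤ J → q ^ i * q' ^ J ≤ n → q ^ i * q' ^ J ≤ pw q T + pw q' T) →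
    Close T q ∨ Close T q' ∨ BadP T q q' := by
  filter_upwards [tendsto_logT.eventually KB_facts, tendsto_logT.eventually_ge_atTop 12,
    eventually_ge_atTop 2] with T hKB hL hT n q q' hq hq' hqq hq'Y hnT hTn hyp
  obtain ⟨hKB1, hKB2, hKB3, hKB4⟩ := hKB
  by_contra hcon
  push Not at hcon
  obtain ⟨hc1, hc2, hc3⟩ := hcon
  unfold Close at hc1 hc2
  push Not at hc1 hc2
  set L := Real.log T with hLdef
  have hL0 : (0 : ℝ) < L := by linarith
  set h := L ^ (-(1 / 10) : ℝ) with hh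
  have hh0 : 0 < h := Real.rpow_pos_of_pos hL0 _
  set u := Real.log q with hu
  set u' := Real.log q' with hu'
  have hu0 : 0 < u := Real.log_pos (by exact_mod_cast hq.one_lt)
  have huu : u < u' := Real.log_lt_log (by exact_mod_cast hq.pos) (by exact_mod_cast hqq)
  have hu'L : u' ≤ L ^ (3 / 5 : ℝ) := log_le_of_Y1 hq'.pos hq'Y
  have hn0 : 0 < n := by omega
  have hn0' : (0 : ℝ) < n := by exact_mod_cast hn0
  have hT0' : (0 : ℝ) < T := by exact_mod_cast (by omega : 0 < T)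
  have hlogn : L - 2 ≤ Real.log n := by
    have h1 : (T : ℝ) ≤ 4 * n := by exact_mod_cast hTn.le
    have h2 := Real.log_le_log hT0' h1
    rw [Real.log_mul (by norm_num) hn0'.ne'] at h2
    have h3 : Real.log 4 ≤ 2 := by
      have : Real.log 4 = 2 * Real.log 2 := by
        rw [show (4 : ℝ) = 2 ^ 2 by norm_num, Real.log_pow]; norm_num
      have := Real.log_two_lt_d9
      linarith
    linarith
  have hhinv : 1 / h ≤ (BB T : ℝ) := by
    rw [hh, Real.rpow_neg hL0.le, one_div, inv_inv]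
    exact Nat.le_ceil _
  obtain ⟨j, hjK, hj⟩ := rot_hit (u' / u) ((Real.log n - u') / u) h (BB T) (KK T) hh0 hhinv hKB1
    (by
      intro b hb1 hb2 a
      by_contra hcon
      push Not at hcon
      exact hc3 ⟨b, hb1, hb2, a, hcon⟩)
  have hKle : ((KK T : ℕ) : ℝ) ≤ L ^ (2 / 5 : ℝ) / 3 :=
    Nat.floor_le (by have := Real.rpow_nonneg hL0.le (2 / 5 : ℝ); positivity)
  have hjle : (j : ℝ) ≤ L ^ (2 / 5 : ℝ) / 3 := le_trans (by exact_mod_cast hjK) hKle
  have hju : (j : ℝ) * u' ≤ L / 3 := by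
    calc (j : ℝ) * u' ≤ (L ^ (2 / 5 : ℝ) / 3) * L ^ (3 / 5 : ℝ) :=
          mul_le_mul hjle hu'L (by linarith) (by positivity)
      _ = L / 3 := by
          have : L ^ (2 / 5 : ℝ) * L ^ (3 / 5 : ℝ) = L := by
            rw [← Real.rpow_add hL0]; norm_num
          linear_combination this / 3
  set x := (Real.log n - u') / u - j * (u' / u) with hx
  have hxu : x * u = Real.log n - u' - j * u' := by
    rw [hx]; field_simp
  have hx1 : 1 ≤ x := by
    have : 1 * u ≤ x * u := by rw [hxu]; linarith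
    exact le_of_mul_le_mul_right this hu0
  set i := ⌊x⌋₊ with hi
  have hi1 : 1 ≤ i := Nat.floor_pos.mpr hx1
  have hfr : Int.fract x = x - i := by
    rw [hi, ← Int.self_sub_floor, natCast_floor_eq_intCast_floor (by linarith)]
  rw [hfr] at hj
  have hix : (i : ℝ) ≤ x := Nat.floor_le (by linarith)
  -- the element e
  have hloge : Real.log ((q ^ i * q' ^ (j + 1) : ℕ) : ℝ) = i * u + (j + 1) * u' := by
    have h1 : ((q : ℝ) ^ i) ≠ 0 := by
      have : (0 : ℝ) < q := by exact_mod_cast hq.pos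
      positivity
    have h2 : ((q' : ℝ) ^ (j + 1)) ≠ 0 := by
      have : (0 : ℝ) < q' := by exact_mod_cast hq'.pos
      positivity
    push_cast
    rw [Real.log_mul h1 h2, Real.log_pow, Real.log_pow]
    push_cast
    ring
  have he0 : (0 : ℝ) < ((q ^ i * q' ^ (j + 1) : ℕ) : ℝ) := by
    have : 0 < q ^ i * q' ^ (j + 1) := by
      have := hq.pos
      have := hq'.pos
      positivity
    exact_mod_cast this
  have hle : Real.log ((q ^ i * q' ^ (j + 1) : ℕ) : ℝ) ≤ Real.log n := by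
    rw [hloge]
    have : (i : ℝ) * u ≤ x * u := mul_le_mul_of_nonneg_right hix hu0.le
    linarith
  have hge : Real.log n - h * u ≤ Real.log ((q ^ i * q' ^ (j + 1) : ℕ) : ℝ) := by
    rw [hloge]
    have : (x - i) * u ≤ h * u := mul_le_mul_of_nonneg_right hj hu0.le
    linarith
  have hen : q ^ i * q' ^ (j + 1) ≤ n := by
    have := (Real.log_le_log_iff he0 hn0').mp hle
    exact_mod_cast this
  have hfin := hyp i (j + 1) hi1 (by omega) hen
  have hfin' : ((q ^ i * q' ^ (j + 1) : ℕ) : ℝ) ≤ (pw q T : ℝ) + pw q' T := by exact_mod_cast hfin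
  -- bounds for the two powers
  have hb : ∀ r : ℕ, r.Prime → u ≤ Real.log r → h * Real.log r + Real.log 8 < DD T r →
      (pw r T : ℝ) < T * Real.exp (-(h * u)) / 8 := by
    intro r hr hur hD
    unfold DD at hD
    have hp : (0 : ℝ) < pw r T := by exact_mod_cast pw_pos T hr.two_le
    rw [← Real.exp_log hp]
    have h1 : Real.log (pw r T) < L + (-(h * u)) - Real.log 8 := by
      have : h * u ≤ h * Real.log r := mul_le_mul_of_nonneg_left hur hh0.le
      linarith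
    calc Real.exp (Real.log (pw r T)) < Real.exp (L + (-(h * u)) - Real.log 8) :=
          Real.exp_lt_exp.mpr h1
      _ = T * Real.exp (-(h * u)) / 8 := by
          rw [Real.exp_sub, Real.exp_add, Real.exp_log hT0', Real.exp_log (by norm_num)]
  have hb1 := hb q hq le_rfl hc1
  have hb2 := hb q' hq' huu.le hc2
  have hge' : (n : ℝ) * Real.exp (-(h * u)) ≤ ((q ^ i * q' ^ (j + 1) : ℕ) : ℝ) := by
    rw [← Real.exp_log he0]
    calc (n : ℝ) * Real.exp (-(h * u)) = Real.exp (Real.log n + -(h * u)) := by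
          rw [Real.exp_add, Real.exp_log hn0']
      _ ≤ _ := Real.exp_le_exp.mpr (by linarith)
  have h1 : (T : ℝ) < 4 * n := by exact_mod_cast hTn
  have hE : 0 < Real.exp (-(h * u)) := Real.exp_pos _
  have h2 : (T : ℝ) * Real.exp (-(h * u)) < 4 * n * Real.exp (-(h * u)) :=
    mul_lt_mul_of_pos_right h1 hE
  linarith

/-- pairwise compatible sets -/
def PairOK (T : ℕ) (c : Finset ℕ) : Prop := ∀ q ∈ c, ∀ q' ∈ c, q < q' →
  Close T q ∨ Close T q' ∨ BadP T q q'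

open scoped Classical in
/-- the sum over sets of many medium primes which are pairwise compatible -/
theorem star_bound (k : ℕ) (hk : k = 1000) : ∀ᶠ T : ℕ in atTop,
    ∑ c ∈ (Finset.powersetCard (k + 1) (RR T)).filter (fun c => PairOK T c),
      ∏ q ∈ c, (1 : ℝ) / q ≤ (Real.log T) ^ (-(3 / 2) : ℝ) := by
  obtain ⟨C1, hC1, h1⟩ := primes_recip
  obtain ⟨C2, hC2, h2⟩ := sum_close
  obtain ⟨C3, hC3, h3⟩ := bad_measure window_recip
  have hpow : Tendsto (fun L : ℝ => L ^ (1 / 500 : ℝ)) atTop atTop :=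
    tendsto_rpow_atTop (by norm_num)
  have hK := exp_small (1 / 500) (1 / 4) (-1) (by norm_num) (by norm_num)
  have hfin := polylog_le (C1 * (C2 + 72 * C3) ^ k) (2 * k + 1) (-2) (-(3 / 2)) (by norm_num)
  filter_upwards [h1, h2, tendsto_logT.eventually KB_facts, tendsto_logT.eventually_ge_atTop 12,
    eventually_ge_atTop 2, tendsto_logT.eventually (hpow.eventually_ge_atTop 4),
    tendsto_logT.eventually hK, tendsto_loglogT.eventually_ge_atTop 2,
    tendsto_logT.eventually hfin] with T h1T h2T hKB hL hT hpw hKT hLL hfinT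
  obtain ⟨hKB1, hKB2, hKB3, hKB4⟩ := hKB
  set L := Real.log T with hLdef
  have hL0 : (0 : ℝ) < L := by linarith
  have hRR : ∀ q ∈ RR T, q.Prime ∧ q ≤ T ∧ L ^ (1 / 500 : ℝ) ≤ Real.log q ∧
      Real.log q ≤ L ^ (3 / 5 : ℝ) := by
    intro q hq
    rw [mem_RR] at hq
    exact ⟨hq.1, le_T_of_Y1 (by linarith) hq.1.pos hq.2.2, lt_log_of_z0 hq.2.1,
      log_le_of_Y1 hq.1.pos hq.2.2⟩
  set E : ℕ → Finset ℕ := fun q => (RR T).filter (fun q' => Close T q') ∪
    (RR T).filter (fun q' => q < q' ∧ BadP T q q') with hE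
  set w : ℕ → ℝ := fun q => (1 : ℝ) / q with hw
  have hw0 : ∀ p, 0 ≤ w p := fun p => by rw [hw]; positivity
  -- the compatible sets are stars
  have hsub : (Finset.powersetCard (k + 1) (RR T)).filter (fun c => PairOK T c) ⊆
      (Finset.powersetCard (k + 1) (RR T)).filter (fun c => ∃ q ∈ c, c.erase q ⊆ E q) := by
    intro c hc
    rw [Finset.mem_filter] at hc ⊢
    refine ⟨hc.1, ?_⟩
    have hc1 := Finset.mem_powersetCard.mp hc.1
    have hne : c.Nonempty := by rw [← Finset.card_pos]; omega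
    by_cases hN : (c.filter (fun q => ¬ Close T q)).Nonempty
    · set q := (c.filter (fun q => ¬ Close T q)).min' hN with hq
      have hqm : q ∈ c.filter (fun q => ¬ Close T q) := Finset.min'_mem _ _
      rw [Finset.mem_filter] at hqm
      refine ⟨q, hqm.1, ?_⟩
      intro q' hq'
      rw [Finset.mem_erase] at hq'
      rw [hE]
      simp only [Finset.mem_union, Finset.mem_filter]
      by_cases hcl : Close T q'
      · exact Or.inl ⟨hc1.1 hq'.2, hcl⟩
      · right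
        have hle : q ≤ q' := Finset.min'_le _ _ (Finset.mem_filter.mpr ⟨hq'.2, hcl⟩)
        have hlt : q < q' := lt_of_le_of_ne hle (Ne.symm hq'.1)
        rcases hc.2 q hqm.1 q' hq'.2 hlt with h | h | h
        · exact absurd h hqm.2
        · exact absurd h hcl
        · exact ⟨hc1.1 hq'.2, hlt, h⟩
    · obtain ⟨q, hq⟩ := hne
      refine ⟨q, hq, ?_⟩
      intro q' hq'
      rw [Finset.mem_erase] at hq'
      rw [hE]
      simp only [Finset.mem_union, Finset.mem_filter]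
      left
      refine ⟨hc1.1 hq'.2, ?_⟩
      by_contra hcon
      exact hN ⟨q', Finset.mem_filter.mpr ⟨hq'.2, hcon⟩⟩
  -- the measure of E q
  have hEq : ∀ q ∈ RR T, ∑ q' ∈ E q, w q' ≤
      (C2 + 72 * C3) * (Real.log L) ^ 2 * L ^ (-(1 / 500) : ℝ) := by
    intro q hq
    have hq1 := hRR q hq
    have hunion : ∑ q' ∈ E q, w q' ≤ ∑ q' ∈ (RR T).filter (fun q' => Close T q'), w q' +
        ∑ q' ∈ (RR T).filter (fun q' => q < q' ∧ BadP T q q'), w q' := by
      rw [hE, ← Finset.sum_union_inter]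
      have : 0 ≤ ∑ x ∈ (RR T).filter (fun q' => Close T q') ∩
        (RR T).filter (fun q' => q < q' ∧ BadP T q q'), w x := Finset.sum_nonneg fun _ _ => hw0 _
      linarith
    have hcl := h2T ((RR T).filter (fun q' => Close T q')) (fun q' hq' => by
      rw [Finset.mem_filter] at hq'
      have := hRR q' hq'.1
      exact ⟨this.1, this.2.1, this.2.2.1, hq'.2⟩)
    have hL35 : 1 ≤ L ^ (3 / 5 : ℝ) := Real.one_le_rpow (by linarith) (by norm_num)
    have hBB1 : 1 ≤ BB T := Nat.ceil_pos.mpr (Real.rpow_pos_of_pos hL0 _)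
    have hbd := h3 q (BB T) (KK T) (L ^ (3 / 5 : ℝ)) (by linarith [hq1.2.2.1]) hKB2 hBB1
      (by
        have h5 : L ≤ Real.exp (1 / 4 * L ^ (1 / 500 : ℝ)) := by
          rw [Real.rpow_neg_one, Real.exp_neg] at hKT
          exact (inv_le_inv₀ (Real.exp_pos _) hL0).mp hKT
        calc ((KK T : ℕ) : ℝ) ≤ L ^ (2 / 5 : ℝ) / 3 :=
              Nat.floor_le (by have := Real.rpow_nonneg hL0.le (2 / 5 : ℝ); positivity)
          _ ≤ L ^ (2 / 5 : ℝ) := by
              have := Real.rpow_nonneg hL0.le (2 / 5 : ℝ); linarith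
          _ ≤ L ^ (1 : ℝ) := Real.rpow_le_rpow_of_exponent_le (by linarith) (by norm_num)
          _ = L := Real.rpow_one _
          _ ≤ _ := h5
          _ ≤ Real.exp (Real.log q / 4) := by
              apply Real.exp_le_exp.mpr
              linarith [hq1.2.2.1])
      hL35 ((RR T).filter (fun q' => q < q' ∧ BadP T q q')) (fun q' hq' => by
        rw [Finset.mem_filter] at hq'
        have := hRR q' hq'.1
        exact ⟨this.1, hq'.2.1, this.2.2.2, hq'.2.2⟩)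
    -- bound the bad measure
    have hBle : ((BB T : ℕ) : ℝ) ≤ 2 * L ^ (1 / 10 : ℝ) := by
      have h5 : ((BB T : ℕ) : ℝ) < L ^ (1 / 10 : ℝ) + 1 :=
        Nat.ceil_lt_add_one (Real.rpow_nonneg hL0.le _)
      have h6 : 1 ≤ L ^ (1 / 10 : ℝ) := Real.one_le_rpow (by linarith) (by norm_num)
      linarith
    have hB2 : ((BB T : ℕ) : ℝ) ^ 2 ≤ 4 * L ^ (1 / 5 : ℝ) := by
      calc ((BB T : ℕ) : ℝ) ^ 2 ≤ (2 * L ^ (1 / 10 : ℝ)) ^ 2 := by gcongr
        _ = 4 * (L ^ (1 / 10 : ℝ) * L ^ (1 / 10 : ℝ)) := by ring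
        _ = 4 * L ^ (1 / 5 : ℝ) := by rw [← Real.rpow_add hL0]; norm_num
    have hlogB : 1 + Real.log (BB T * (L ^ (3 / 5 : ℝ) + 1)) ≤ 3 * Real.log L := by
      have h5 : (BB T : ℝ) * (L ^ (3 / 5 : ℝ) + 1) ≤ L ^ 2 := by
        have h6 : L ^ (3 / 5 : ℝ) + 1 ≤ 2 * L ^ (3 / 5 : ℝ) := by linarith
        have h7 : L ^ (1 / 10 : ℝ) * L ^ (3 / 5 : ℝ) ≤ L := by
          rw [← Real.rpow_add hL0]
          calc L ^ (1 / 10 + 3 / 5 : ℝ) ≤ L ^ (1 : ℝ) :=
                Real.rpow_le_rpow_of_exponent_le (by linarith) (by norm_num)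
            _ = L := Real.rpow_one _
        calc (BB T : ℝ) * (L ^ (3 / 5 : ℝ) + 1) ≤ (2 * L ^ (1 / 10 : ℝ)) * (2 * L ^ (3 / 5 : ℝ)) :=
              mul_le_mul hBle h6 (by positivity) (by positivity)
          _ = 4 * (L ^ (1 / 10 : ℝ) * L ^ (3 / 5 : ℝ)) := by ring
          _ ≤ 4 * L := by linarith
          _ ≤ L ^ 2 := by nlinarith
      have h8 : (0 : ℝ) < (BB T : ℝ) * (L ^ (3 / 5 : ℝ) + 1) := by
        have : (1 : ℝ) ≤ BB T := by exact_mod_cast hBB1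
        positivity
      have h9 := Real.log_le_log h8 h5
      rw [Real.log_pow] at h9
      push_cast at h9
      linarith
    have hKpos : (0 : ℝ) < KK T := by
      have : (8 : ℝ) ≤ (KK T : ℝ) := by exact_mod_cast hKB2
      linarith
    have hbd2 : C3 * (BB T : ℝ) ^ 2 * (1 + Real.log (BB T * (L ^ (3 / 5 : ℝ) + 1))) / KK T ≤
        72 * C3 * (Real.log L) ^ 2 * L ^ (-(1 / 500) : ℝ) := by
      have h5 : (0 : ℝ) < L ^ (2 / 5 : ℝ) / 6 := by
        have := Real.rpow_pos_of_pos hL0 (2 / 5 : ℝ); positivity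
      have hl1 : 0 ≤ 3 * Real.log L := by linarith
      calc C3 * (BB T : ℝ) ^ 2 * (1 + Real.log (BB T * (L ^ (3 / 5 : ℝ) + 1))) / KK T
          ≤ C3 * (4 * L ^ (1 / 5 : ℝ)) * (3 * Real.log L) / (L ^ (2 / 5 : ℝ) / 6) := by
            apply div_le_div₀ (by positivity) _ h5 hKB3
            have h10 : C3 * (BB T : ℝ) ^ 2 ≤ C3 * (4 * L ^ (1 / 5 : ℝ)) := by gcongr
            calc C3 * (BB T : ℝ) ^ 2 * (1 + Real.log (BB T * (L ^ (3 / 5 : ℝ) + 1)))
                ≤ C3 * (BB T : ℝ) ^ 2 * (3 * Real.log L) := by gcongr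
              _ ≤ _ := by gcongr
        _ = 72 * C3 * Real.log L * (L ^ (1 / 5 : ℝ) / L ^ (2 / 5 : ℝ)) := by
            field_simp; ring
        _ = 72 * C3 * Real.log L * L ^ (-(1 / 5) : ℝ) := by
            rw [← Real.rpow_sub hL0]; norm_num
        _ ≤ 72 * C3 * (Real.log L) ^ 2 * L ^ (-(1 / 500) : ℝ) := by
            have h11 : L ^ (-(1 / 5) : ℝ) ≤ L ^ (-(1 / 500) : ℝ) :=
              Real.rpow_le_rpow_of_exponent_le (by linarith) (by norm_num)
            have h12 : Real.log L ≤ (Real.log L) ^ 2 := by nlinarith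
            gcongr
    calc ∑ q' ∈ E q, w q' ≤ _ := hunion
      _ ≤ C2 * (Real.log L) ^ 2 * L ^ (-(1 / 500) : ℝ) +
          72 * C3 * (Real.log L) ^ 2 * L ^ (-(1 / 500) : ℝ) :=
          add_le_add hcl (hbd.trans hbd2)
      _ = _ := by ring
  have hρ0 : 0 ≤ (C2 + 72 * C3) * (Real.log L) ^ 2 * L ^ (-(1 / 500) : ℝ) := by positivity
  calc ∑ c ∈ (Finset.powersetCard (k + 1) (RR T)).filter (fun c => PairOK T c),
        ∏ q ∈ c, (1 : ℝ) / q
      ≤ ∑ c ∈ (Finset.powersetCard (k + 1) (RR T)).filter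
          (fun c => ∃ q ∈ c, c.erase q ⊆ E q), ∏ q ∈ c, w q :=
        Finset.sum_le_sum_of_subset_of_nonneg hsub
          (fun c _ _ => Finset.prod_nonneg fun _ _ => hw0 _)
    _ ≤ ∑ q ∈ RR T, w q * (∑ q' ∈ E q, w q') ^ k := star_sum w hw0 k (RR T) E
    _ ≤ ∑ q ∈ RR T, w q * ((C2 + 72 * C3) * (Real.log L) ^ 2 * L ^ (-(1 / 500) : ℝ)) ^ k := by
        apply Finset.sum_le_sum
        intro q hq
        apply mul_le_mul_of_nonneg_left _ (hw0 q)
        apply pow_le_pow_left₀ (Finset.sum_nonneg fun _ _ => hw0 _) (hEq q hq)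
    _ = (∑ q ∈ RR T, w q) *
        ((C2 + 72 * C3) * (Real.log L) ^ 2 * L ^ (-(1 / 500) : ℝ)) ^ k := by
        rw [Finset.sum_mul]
    _ ≤ (C1 * Real.log L) *
        ((C2 + 72 * C3) * (Real.log L) ^ 2 * L ^ (-(1 / 500) : ℝ)) ^ k := by
        apply mul_le_mul_of_nonneg_right _ (pow_nonneg hρ0 _)
        exact h1T (RR T) (fun q hq => ⟨(hRR q hq).1, (hRR q hq).2.1⟩)
    _ = C1 * (C2 + 72 * C3) ^ k * (Real.log L) ^ (2 * k + 1) * L ^ (-2 : ℝ) := by
        have e1 : (L ^ (-(1 / 500) : ℝ)) ^ k = L ^ (-2 : ℝ) := by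
          rw [← Real.rpow_natCast, ← Real.rpow_mul hL0.le, hk]; norm_num
        rw [mul_pow, mul_pow, e1, ← pow_mul, pow_succ]
        ring
    _ ≤ L ^ (-(3 / 2) : ℝ) := hfinT

end Pool.Agent.Helper923.PPS
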