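import Mathlib

set_option autoImplicit false

open Finset

namespace Pool.Agent.Helper923.PPS

/-- the part of `n` composed of primes `≤ z` -/
def sp (z n : ℕ) : ℕ := ∏ p ∈ n.primeFactors.filter (fun p => p ≤ z), p ^ n.factorization p

theorem rk_log {z : ℕ} (hz : 3000 ≤ z) : 8 ≤ Real.log z := by
  have h1 : Real.exp 8 ≤ 3000 := by
    have h2 : Real.exp 8 = (Real.exp 1) ^ 8 := by rw [← Real.exp_nat_mul]; norm_num
    rw [h2]
    have h3 := Real.exp_one_lt_d9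
    have h4 : (Real.exp 1) ^ 8 ≤ (2.7182818286 : ℝ) ^ 8 :=
      pow_le_pow_left₀ (Real.exp_pos 1).le h3.le 8
    refine h4.trans ?_
    norm_num
  have h2 : (3000 : ℝ) ≤ z := by exact_mod_cast hz
  rw [Real.le_log_iff_exp_le (by linarith)]
  linarith

theorem rk_factor {x : ℝ} (h0 : 0 ≤ x) (h1 : x ≤ 3 / 4) : (1 - x)⁻¹ ≤ Real.exp (x + 4 * x ^ 2) := by
  have h2 : 0 < 1 - x := by linarith
  have h3 : (1 - x)⁻¹ = x / (1 - x) + 1 := by field_simp; ring
  rw [h3]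
  refine (Real.add_one_le_exp _).trans (Real.exp_le_exp.2 ?_)
  rw [div_le_iff₀ h2]
  nlinarith [mul_nonneg h0 h0, mul_nonneg (mul_nonneg h0 h0) (by linarith : (0:ℝ) ≤ 3 / 4 - x)]

theorem rankin
    (H1 : ∃ C : ℝ, ∀ N : ℕ, 1 ≤ N →
      |∑ p ∈ (Finset.Icc 1 N).filter Nat.Prime, Real.log p / p - Real.log N| ≤ C)
    (H2 : ∃ C : ℝ, 0 ≤ C ∧ ∀ a b : ℕ, 2 ≤ a → a ≤ b →
      |∑ p ∈ (Finset.Ioc a b).filter Nat.Prime, (1 : ℝ) / p -
        Real.log (Real.log b / Real.log a)| ≤ C / Real.log a) :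
    ∃ C : ℝ, 1 ≤ C ∧ ∀ (z : ℕ) (v : ℝ), 3000 ≤ z → 0 ≤ v →
    ∀ S : Finset ℕ, (∀ a ∈ S, Real.exp v ≤ a ∧ ∀ p : ℕ, p.Prime → p ∣ a → p ≤ z) →
      ∑ a ∈ S, (1 : ℝ) / a ≤ C * Real.log z * Real.exp (-v / Real.log z) := by
  classical
  obtain ⟨C1, hC1⟩ := H1
  obtain ⟨C2, hC20, hC2⟩ := H2
  have hC10 : 0 ≤ C1 := (abs_nonneg _).trans (hC1 1 le_rfl)
  have hsumm : Summable (fun n : ℕ => (n : ℝ) ^ (-(7 / 4) : ℝ)) :=
    Real.summable_nat_rpow.2 (by norm_num)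
  obtain ⟨K, hK⟩ : ∃ K : ℝ, K = ∑' n : ℕ, (n : ℝ) ^ (-(7 / 4) : ℝ) := ⟨_, rfl⟩
  obtain ⟨K', hK'⟩ : ∃ K' : ℝ, K' = 1 / 2 - Real.log (Real.log 2) + C2 / Real.log 2 + 2 + 2 * C1 + 4 * K :=
    ⟨_, rfl⟩
  refine ⟨max 1 (Real.exp K'), le_max_left _ _, ?_⟩
  intro z v hz hv S hS
  have hL := rk_log hz
  obtain ⟨L, hLdef⟩ : ∃ L : ℝ, L = Real.log z := ⟨_, rfl⟩
  rw [← hLdef] at hL ⊢
  have hL0 : 0 < L := by linarith
  obtain ⟨d, hd⟩ : ∃ d : ℝ, d = 1 / L := ⟨_, rfl⟩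
  have hd0 : 0 < d := by rw [hd]; positivity
  have hd8 : d ≤ 1 / 8 := by
    rw [hd]
    exact one_div_le_one_div_of_le (by norm_num) hL
  have hdL : d * L = 1 := by rw [hd]; field_simp
  let f : ℕ →* ℝ :=
    { toFun := fun n => (n : ℝ) ^ (-1 + d)
      map_one' := by simp
      map_mul' := by
        intro a b
        push_cast
        exact Real.mul_rpow (Nat.cast_nonneg _) (Nat.cast_nonneg _) }
  have hf : ∀ n : ℕ, f n = (n : ℝ) ^ (-1 + d) := fun _ => rfl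
  have hf0 : ∀ n : ℕ, 0 ≤ f n := fun n => by rw [hf]; positivity
  have hfp : ∀ {p : ℕ}, p.Prime → ‖f p‖ < 1 := by
    intro p hp
    rw [Real.norm_of_nonneg (hf0 p), hf]
    exact Real.rpow_lt_one_of_one_lt_of_neg (by exact_mod_cast hp.one_lt) (by linarith)
  have hhas := (EulerProduct.summable_and_hasSum_smoothNumbers_prod_primesBelow_geometric hfp (z + 1)).2
  -- sum over S of f
  have hSm : ∀ a ∈ S, a ∈ (z + 1).smoothNumbers := by
    intro a ha
    obtain ⟨h1, h2⟩ := hS a ha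
    rw [Nat.mem_smoothNumbers']
    intro p hp hpa
    exact Nat.lt_succ_of_le (h2 p hp hpa)
  have hSf : ∑ a ∈ S, f a ≤ ∏ p ∈ (z + 1).primesBelow, (1 - f p)⁻¹ := by
    rw [← Finset.sum_subtype_of_mem (fun a => f a) hSm]
    exact sum_le_hasSum _ (fun i _ => hf0 _) hhas
  have hS1 : ∑ a ∈ S, (1 : ℝ) / a ≤ Real.exp (-v / L) * ∑ a ∈ S, f a := by
    rw [Finset.mul_sum]
    apply Finset.sum_le_sum
    intro a ha
    obtain ⟨h1, _⟩ := hS a ha
    have ha0 : (0 : ℝ) < a := lt_of_lt_of_le (Real.exp_pos v) h1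
    have e1 : (1 : ℝ) / a = (a : ℝ) ^ (-d) * f a := by
      rw [hf, ← Real.rpow_add ha0]
      have : -d + (-1 + d) = -1 := by ring
      rw [this, Real.rpow_neg_one, one_div]
    have e2 : (a : ℝ) ^ (-d) ≤ Real.exp (-v / L) := by
      have h2 := Real.rpow_le_rpow_of_nonpos (Real.exp_pos v) h1 (by linarith : -d ≤ 0)
      rw [← Real.exp_mul] at h2
      have h3 : v * -d = -v / L := by rw [hd]; ring
      rwa [h3] at h2
    rw [e1]
    exact mul_le_mul_of_nonneg_right e2 (hf0 a)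
  -- the product
  have hPB : (z + 1).primesBelow = (Finset.Icc 1 z).filter Nat.Prime := by
    ext p
    rw [Nat.mem_primesBelow, Finset.mem_filter, Finset.mem_Icc]
    constructor
    · rintro ⟨h1, h2⟩
      exact ⟨⟨h2.one_lt.le, by omega⟩, h2⟩
    · rintro ⟨⟨h1, h2⟩, h3⟩
      exact ⟨by omega, h3⟩
  rw [hPB] at hSf
  set Q := (Finset.Icc 1 z).filter Nat.Prime with hQ
  have hQp : ∀ p ∈ Q, p.Prime ∧ 1 ≤ p ∧ p ≤ z := by
    intro p hp
    rw [hQ, Finset.mem_filter, Finset.mem_Icc] at hp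
    exact ⟨hp.2, hp.1.1, hp.1.2⟩
  have hprod : ∏ p ∈ Q, (1 - f p)⁻¹ ≤ Real.exp (∑ p ∈ Q, (f p + 4 * f p ^ 2)) := by
    rw [Real.exp_sum]
    apply Finset.prod_le_prod
    · intro p hp
      have h1 := hfp (hQp p hp).1
      rw [Real.norm_of_nonneg (hf0 p)] at h1
      exact inv_nonneg.2 (by linarith)
    · intro p hp
      apply rk_factor (hf0 p)
      have hp2 : (2 : ℝ) ≤ p := by exact_mod_cast (hQp p hp).1.two_le
      rw [hf]
      have h1 : (p : ℝ) ^ (-1 + d) ≤ (p : ℝ) ^ (-(1 / 2) : ℝ) :=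
        Real.rpow_le_rpow_of_exponent_le (by linarith) (by linarith)
      have h2 : (p : ℝ) ^ (-(1 / 2) : ℝ) ≤ (2 : ℝ) ^ (-(1 / 2) : ℝ) :=
        Real.rpow_le_rpow_of_nonpos (by norm_num) hp2 (by norm_num)
      refine h1.trans (h2.trans ?_)
      rw [Real.rpow_neg (by norm_num), ← Real.sqrt_eq_rpow]
      have h3 : (4 / 3 : ℝ) ≤ Real.sqrt 2 := Real.le_sqrt_of_sq_le (by norm_num)
      rw [inv_le_comm₀ (by positivity) (by norm_num)]
      refine le_trans ?_ h3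
      norm_num
  have hsq : ∑ p ∈ Q, f p ^ 2 ≤ K := by
    rw [hK]
    refine le_trans (Finset.sum_le_sum (g := fun p : ℕ => (p : ℝ) ^ (-(7 / 4) : ℝ)) ?_)
      (hsumm.sum_le_tsum Q (fun i _ => by positivity))
    intro p hp
    have hp1 : (1 : ℝ) ≤ p := by exact_mod_cast (hQp p hp).2.1
    rw [hf, ← Real.rpow_natCast, ← Real.rpow_mul (by linarith)]
    apply Real.rpow_le_rpow_of_exponent_le hp1
    push_cast
    linarith
  have hlin : ∑ p ∈ Q, f p ≤ ∑ p ∈ Q, (1 : ℝ) / p + 2 * d * ∑ p ∈ Q, Real.log p / p := by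
    rw [Finset.mul_sum, ← Finset.sum_add_distrib]
    apply Finset.sum_le_sum
    intro p hp
    obtain ⟨_, hp1, hpz⟩ := hQp p hp
    have hp1' : (1 : ℝ) ≤ p := by exact_mod_cast hp1
    have hp0 : (0 : ℝ) < p := by linarith
    have hlogp : 0 ≤ Real.log p := Real.log_nonneg hp1'
    have hlogpz : Real.log p ≤ L := by
      rw [hLdef]
      exact Real.log_le_log hp0 (by exact_mod_cast hpz)
    rw [hf, Real.rpow_add hp0, Real.rpow_neg_one, Real.rpow_def_of_pos hp0]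
    have hu1 : Real.log p * d ≤ 1 := by
      calc Real.log p * d ≤ L * d := mul_le_mul_of_nonneg_right hlogpz hd0.le
        _ = 1 := by rw [mul_comm]; exact hdL
    have hu0 : 0 ≤ Real.log p * d := mul_nonneg hlogp hd0.le
    have h3 : Real.exp (Real.log p * d) ≤ 1 + 2 * (Real.log p * d) := by
      have h4 := Real.abs_exp_sub_one_sub_id_le (x := Real.log p * d) (by rw [abs_of_nonneg hu0]; exact hu1)
      rw [abs_le] at h4
      nlinarith [h4.2]
    calc (p : ℝ)⁻¹ * Real.exp (Real.log p * d) ≤ (p : ℝ)⁻¹ * (1 + 2 * (Real.log p * d)) :=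
          mul_le_mul_of_nonneg_left h3 (by positivity)
      _ = 1 / (p : ℝ) + 2 * d * (Real.log p / p) := by field_simp
  have hz1 : 1 ≤ z := by omega
  have h1 := hC1 z hz1
  rw [← hLdef, abs_le] at h1
  have h2 := hC2 2 z le_rfl (by omega)
  rw [← hLdef, abs_le] at h2
  have hsum2 : ∑ p ∈ Q, (1 : ℝ) / p ≤ 1 / 2 + ∑ p ∈ (Finset.Ioc 2 z).filter Nat.Prime, (1 : ℝ) / p := by
    have hsub : Q ⊆ insert 2 ((Finset.Ioc 2 z).filter Nat.Prime) := by
      intro p hp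
      obtain ⟨hpp, hp1, hpz⟩ := hQp p hp
      rw [Finset.mem_insert, Finset.mem_filter, Finset.mem_Ioc]
      have := hpp.two_le
      rcases Nat.lt_or_ge 2 p with h | h
      · exact Or.inr ⟨⟨h, hpz⟩, hpp⟩
      · exact Or.inl (by omega)
    refine (Finset.sum_le_sum_of_subset_of_nonneg hsub (fun p _ _ => by positivity)).trans ?_
    rw [Finset.sum_insert (by simp)]
    norm_num
  have hlog2 : 0 < Real.log 2 := Real.log_pos (by norm_num)
  have hfin1 : ∑ p ∈ Q, f p ≤ Real.log L + (K' - 4 * K) := by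
    have e1 : Real.log (L / Real.log 2) = Real.log L - Real.log (Real.log 2) :=
      Real.log_div hL0.ne' hlog2.ne'
    have h2' := h2.2
    have : Real.log ((2 : ℕ) : ℝ) = Real.log 2 := by norm_num
    rw [this, e1] at h2'
    have h3 : 2 * d * ∑ p ∈ Q, Real.log p / p ≤ 2 + 2 * C1 := by
      have h4 : ∑ p ∈ Q, Real.log p / p ≤ L + C1 := by linarith [h1.2]
      calc 2 * d * ∑ p ∈ Q, Real.log p / p ≤ 2 * d * (L + C1) :=
            mul_le_mul_of_nonneg_left h4 (by positivity)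
        _ = 2 * (d * L) + 2 * C1 * d := by ring
        _ ≤ 2 * 1 + 2 * C1 * 1 := by
            rw [hdL]
            have : d ≤ 1 := by linarith
            have := mul_le_mul_of_nonneg_left this (by positivity : 0 ≤ 2 * C1)
            linarith
        _ = 2 + 2 * C1 := by ring
    rw [hK']
    linarith
  have hfin2 : ∑ p ∈ Q, (f p + 4 * f p ^ 2) ≤ Real.log L + K' := by
    rw [Finset.sum_add_distrib, ← Finset.mul_sum]
    linarith
  have hP : ∏ p ∈ Q, (1 - f p)⁻¹ ≤ L * Real.exp K' := by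
    refine hprod.trans ((Real.exp_le_exp.2 hfin2).trans ?_)
    rw [Real.exp_add, Real.exp_log hL0]
  calc ∑ a ∈ S, (1 : ℝ) / a ≤ Real.exp (-v / L) * ∑ a ∈ S, f a := hS1
    _ ≤ Real.exp (-v / L) * (L * Real.exp K') :=
        mul_le_mul_of_nonneg_left (hSf.trans hP) (Real.exp_pos _).le
    _ ≤ Real.exp (-v / L) * (L * max 1 (Real.exp K')) := by
        apply mul_le_mul_of_nonneg_left _ (Real.exp_pos _).le
        exact mul_le_mul_of_nonneg_left (le_max_right _ _) hL0.le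
    _ = max 1 (Real.exp K') * L * Real.exp (-v / L) := by ring

theorem sp_dvd {z n : ℕ} (hn : n ≠ 0) : sp z n ∣ n := by
  conv_rhs => rw [← Nat.prod_factorization_pow_eq_self hn]
  unfold sp
  exact Finset.prod_dvd_prod_of_subset _ _ _ (Finset.filter_subset _ _)

theorem sp_smooth {z n p : ℕ} (hp : p.Prime) (h : p ∣ sp z n) : p ≤ z := by
  unfold sp at h
  obtain ⟨q, hq, hpq⟩ := (Prime.dvd_finsetProd_iff hp.prime _).1 h
  rw [Finset.mem_filter] at hq
  have h1 := hp.dvd_of_dvd_pow hpq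
  rw [Nat.prime_dvd_prime_iff_eq hp (Nat.prime_of_mem_primeFactors hq.1)] at h1
  rw [h1]
  exact hq.2

open scoped Classical in
theorem rankin_count
    (H1 : ∃ C : ℝ, ∀ N : ℕ, 1 ≤ N →
      |∑ p ∈ (Finset.Icc 1 N).filter Nat.Prime, Real.log p / p - Real.log N| ≤ C)
    (H2 : ∃ C : ℝ, 0 ≤ C ∧ ∀ a b : ℕ, 2 ≤ a → a ≤ b →
      |∑ p ∈ (Finset.Ioc a b).filter Nat.Prime, (1 : ℝ) / p -
        Real.log (Real.log b / Real.log a)| ≤ C / Real.log a) :
    ∃ C : ℝ, 1 ≤ C ∧ ∀ (z T : ℕ) (v : ℝ), 3000 ≤ z → 0 ≤ v →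
    (((Finset.Icc 1 T).filter (fun n => Real.exp v < (sp z n : ℝ))).card : ℝ) ≤
      C * T * Real.log z * Real.exp (-v / Real.log z) := by
  obtain ⟨C, hC1, hC⟩ := rankin H1 H2
  refine ⟨C, hC1, ?_⟩
  intro z T v hz hv
  set A := (Finset.Icc 1 T).filter (fun n => Real.exp v < (sp z n : ℝ)) with hA
  have hAm : ∀ n ∈ A, (1 ≤ n ∧ n ≤ T) ∧ Real.exp v < (sp z n : ℝ) := by
    intro n hn
    rw [hA, Finset.mem_filter, Finset.mem_Icc] at hn
    exact hn
  have h1 := hC z v hz hv (A.image (sp z)) (by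
    intro a ha
    obtain ⟨n, hn, rfl⟩ := Finset.mem_image.1 ha
    exact ⟨(hAm n hn).2.le, fun p hp hpa => sp_smooth hp hpa⟩)
  have h2 : (A.card : ℝ) ≤ ∑ b ∈ A.image (sp z), (T : ℝ) * (1 / (b : ℝ)) := by
    rw [Finset.card_eq_sum_card_image (sp z) A]
    push_cast
    apply Finset.sum_le_sum
    intro b _
    have h3 : (A.filter (fun a => sp z a = b)).card ≤ T / b := by
      rw [← Nat.Ioc_filter_dvd_card_eq_div]
      apply Finset.card_le_card
      intro n hn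
      rw [Finset.mem_filter] at hn
      obtain ⟨hn1, hn2⟩ := hn
      obtain ⟨⟨g1, g2⟩, _⟩ := hAm n hn1
      rw [Finset.mem_filter, Finset.mem_Ioc]
      refine ⟨⟨by omega, g2⟩, ?_⟩
      rw [← hn2]
      exact sp_dvd (by omega)
    calc ((A.filter (fun a => sp z a = b)).card : ℝ) ≤ ((T / b : ℕ) : ℝ) := by exact_mod_cast h3
      _ ≤ (T : ℝ) / b := Nat.cast_div_le
      _ = (T : ℝ) * (1 / (b : ℝ)) := by ring
  rw [← Finset.mul_sum] at h2
  calc (A.card : ℝ) ≤ _ := h2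
    _ ≤ (T : ℝ) * (C * Real.log z * Real.exp (-v / Real.log z)) :=
        mul_le_mul_of_nonneg_left h1 (Nat.cast_nonneg _)
    _ = _ := by ring

end Pool.Agent.Helper923.PPS
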