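import Mathlib
import Pool.Agent.Helper923.PPS.Pair
import Pool.Agent.Helper923.PPS.Crit
import Pool.Agent.Helper923.PPS.Chain
import Pool.Agent.Helper923.PPS.Smooth

set_option autoImplicit false

open Finset Filter

namespace Pool.Agent.Helper923.PPS

/-- the constraints used below -/
structure Good (T N : ℕ) : Prop where
  ne : N ≠ 0
  bc : ∀ S : Finset ℕ, S ⊆ N.primeFactors → S.Nonempty → ∀ a : ℕ,
    N = a * ∏ p ∈ S, p ^ N.factorization p →
    ∃ q ∈ S, DD T q ≤ Real.log (8 * Real.log T * a)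
  pc : ∀ q q' : ℕ, q.Prime → q'.Prime → q ∣ N → q' ∣ N → q < q' → q' ≤ Y1 T →
    Close T q ∨ Close T q' ∨ BadP T q q'

theorem pf_two {q q' : ℕ} (hq : q.Prime) (hq' : q'.Prime) {i J : ℕ} (hi : 1 ≤ i) (hJ : 1 ≤ J) :
    (q ^ i * q' ^ J).primeFactors = {q, q'} := by
  rw [Nat.primeFactors_mul (pow_ne_zero _ hq.ne_zero) (pow_ne_zero _ hq'.ne_zero),
    Nat.primeFactors_pow _ (by omega), Nat.primeFactors_pow _ (by omega), hq.primeFactors,
    hq'.primeFactors]
  rfl

theorem two_le_prod {q q' : ℕ} (hq : q.Prime) (hq' : q'.Prime) {i J : ℕ} (hi : 1 ≤ i) :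
    2 ≤ q ^ i * q' ^ J := by
  have h1 : 2 ≤ q ^ i := by
    calc 2 ≤ q := hq.two_le
      _ = q ^ 1 := (pow_one q).symm
      _ ≤ q ^ i := Nat.pow_le_pow_right hq.pos hi
  have h2 : 1 ≤ q' ^ J := Nat.one_le_iff_ne_zero.mpr (pow_ne_zero _ hq'.ne_zero)
  nlinarith

theorem good_of_crit : ∀ᶠ T : ℕ in atTop, ∀ n : ℕ, Crit n → n ≤ T → T < 4 * n → Good T n := by
  filter_upwards [pair_key, eventually_ge_atTop 8] with T hpk hT n hc hnT hTn
  refine ⟨by omega, ?_, ?_⟩
  · intro S hS hne a ha
    exact block_constraint n T (by omega) hnT hTn hc S hS hne a ha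
  · intro q q' hq hq' hqn hq'n hqq hq'Y
    refine hpk n q q' hq hq' hqq hq'Y hnT hTn ?_
    intro i J hi hJ hle
    have h1 := hc (q ^ i * q' ^ J) (two_le_prod hq hq' hi) hle (by
      rw [pf_two hq hq' hi hJ]
      intro r hr
      rw [Finset.mem_insert, Finset.mem_singleton] at hr
      rw [Nat.mem_primeFactors]
      rcases hr with rfl | rfl
      · exact ⟨hq, hqn, by omega⟩
      · exact ⟨hq', hq'n, by omega⟩)
    rw [pf_two hq hq' hi hJ, Finset.sum_pair hqq.ne] at h1
    have h2 : pw q n ≤ pw q T := Nat.pow_le_pow_right hq.pos (Nat.log_mono_right hnT)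
    have h3 : pw q' n ≤ pw q' T := Nat.pow_le_pow_right hq'.pos (Nat.log_mono_right hnT)
    omega

theorem good_of_Iset : ∀ᶠ T : ℕ in atTop, ∀ (t : ℝ) (m : ℕ), ⌊t⌋₊ = T → t ∈ Iset m → 1 ≤ m →
    m ≤ T ^ 2 → Good T m := by
  filter_upwards [pair_key, eventually_ge_atTop 8] with T hpk hT t m htT ht hm hmT
  have ht1 : 1 ≤ t := ht.1
  have hTt : (T : ℝ) ≤ t := by
    rw [← htT]; exact Nat.floor_le (by linarith)
  have hT0 : (0 : ℝ) < T := by exact_mod_cast (by omega : 0 < T)
  refine ⟨by omega, ?_, ?_⟩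
  · intro S hS hne a ha
    set e := ∏ p ∈ S, p ^ m.factorization p with he
    have hSp : ∀ p ∈ S, p.Prime ∧ p ∣ m := fun p hp => by
      have := Nat.mem_primeFactors.mp (hS hp)
      exact ⟨this.1, this.2.1⟩
    have hfac : ∀ p ∈ S, 1 ≤ m.factorization p := fun p hp =>
      (hSp p hp).1.factorization_pos_of_dvd (by omega) (hSp p hp).2
    have hpow2 : ∀ p ∈ S, 2 ≤ p ^ m.factorization p := fun p hp => by
      calc 2 ≤ p := (hSp p hp).1.two_le
        _ = p ^ 1 := (pow_one p).symm
        _ ≤ _ := Nat.pow_le_pow_right (hSp p hp).1.pos (hfac p hp)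
    have hcard : 2 ^ S.card ≤ e := by
      rw [he, ← Finset.prod_const]
      exact Finset.prod_le_prod' hpow2
    have hcardpos : 1 ≤ S.card := hne.card_pos
    have he2 : 2 ≤ e := by
      calc 2 = 2 ^ 1 := (pow_one 2).symm
        _ ≤ 2 ^ S.card := Nat.pow_le_pow_right (by norm_num) hcardpos
        _ ≤ e := hcard
    have ha0 : a ≠ 0 := by
      rintro rfl
      omega
    have hem : e ≤ m := by
      rw [ha]
      exact Nat.le_mul_of_pos_left _ (by omega)
    have hepf : e.primeFactors ⊆ S := by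
      intro p hp
      rw [Nat.mem_primeFactors] at hp
      obtain ⟨r, hr, hpr⟩ := (hp.1.prime.dvd_finsetProd_iff _).mp hp.2.1
      have := (Nat.prime_dvd_prime_iff_eq hp.1 (hSp r hr).1).mp (hp.1.dvd_of_dvd_pow hpr)
      rw [this]; exact hr
    have hcond := (ht.2 e he2 (hepf.trans hS)).2 hem
    obtain ⟨q, hqS, hqmax⟩ := Finset.exists_max_image S (fun p => pw p T) hne
    refine ⟨q, hqS, ?_⟩
    have hsum : ∑ p ∈ e.primeFactors, (pw p ⌊t⌋₊ : ℝ) ≤ S.card * pw q T := by
      rw [htT]
      calc ∑ p ∈ e.primeFactors, (pw p T : ℝ) ≤ ∑ p ∈ S, (pw p T : ℝ) :=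
            Finset.sum_le_sum_of_subset_of_nonneg hepf (fun _ _ _ => by positivity)
        _ ≤ ∑ p ∈ S, (pw q T : ℝ) := by
            apply Finset.sum_le_sum
            intro p hp
            exact_mod_cast hqmax p hp
        _ = _ := by rw [Finset.sum_const, nsmul_eq_mul]
    have hlogT : 0 < Real.log T := Real.log_pos (by exact_mod_cast (by omega : 1 < T))
    have hcardle : (S.card : ℝ) ≤ 3 * Real.log T := by
      have h1 : 2 ^ S.card ≤ T ^ 2 := hcard.trans (hem.trans hmT)
      have h2 : ((2 : ℝ)) ^ S.card ≤ (T : ℝ) ^ 2 := by exact_mod_cast h1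
      have h3 := Real.log_le_log (by positivity) h2
      rw [Real.log_pow, Real.log_pow] at h3
      have h4 := Real.log_two_gt_d9
      push_cast at h3
      have h5 : (S.card : ℝ) * (2 / 3) ≤ S.card * Real.log 2 := by
        exact mul_le_mul_of_nonneg_left (by linarith) (Nat.cast_nonneg _)
      linarith
    have he0 : (0 : ℝ) < e := by exact_mod_cast (by omega : 0 < e)
    have hpq0 : (0 : ℝ) < pw q T := by exact_mod_cast pw_pos T (hSp q hqS).1.two_le
    have ha0' : (0 : ℝ) < a := by exact_mod_cast Nat.pos_of_ne_zero ha0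
    have hm' : (m : ℝ) = a * e := by exact_mod_cast ha
    have hmain : (T : ℝ) ≤ 8 * Real.log T * a * pw q T := by
      have h1 : (T : ℝ) * (e / 2) ≤ t * ((e : ℝ) - 1) := by
        have : (2 : ℝ) ≤ e := by exact_mod_cast he2
        apply mul_le_mul hTt (by linarith) (by positivity) (by linarith)
      have h2 : (m : ℝ) * ∑ p ∈ e.primeFactors, (pw p ⌊t⌋₊ : ℝ) ≤ a * e * (S.card * pw q T) := by
        rw [hm']
        exact mul_le_mul_of_nonneg_left hsum (by positivity)
      have h3 : (T : ℝ) * (e / 2) ≤ a * e * (S.card * pw q T) := h1.trans (hcond.trans h2)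
      have h4 : (T : ℝ) ≤ 2 * a * (S.card * pw q T) := by
        have h5 : (T : ℝ) * (e / 2) = (T / 2) * e := by ring
        have h6 : a * e * (S.card * pw q T) = (a * (S.card * pw q T) : ℝ) * e := by ring
        rw [h5, h6] at h3
        have := le_of_mul_le_mul_right h3 he0
        linarith
      calc (T : ℝ) ≤ 2 * a * (S.card * pw q T) := h4
        _ ≤ 2 * a * ((3 * Real.log T) * pw q T) := by gcongr
        _ = 6 * (Real.log T * a * pw q T) := by ring
        _ ≤ 8 * (Real.log T * a * pw q T) := by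
            have : 0 ≤ Real.log T * a * pw q T := by positivity
            linarith
        _ = _ := by ring
    have h7 := Real.log_le_log hT0 hmain
    rw [Real.log_mul (by positivity) hpq0.ne'] at h7
    unfold DD
    linarith
  · intro q q' hq hq' hqn hq'n hqq hq'Y
    refine hpk T q q' hq hq' hqq hq'Y le_rfl (by omega) ?_
    intro i J hi hJ hle
    have h1 := (ht.2 (q ^ i * q' ^ J) (two_le_prod hq hq' hi) (by
      rw [pf_two hq hq' hi hJ]
      intro r hr
      rw [Finset.mem_insert, Finset.mem_singleton] at hr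
      rw [Nat.mem_primeFactors]
      rcases hr with rfl | rfl
      · exact ⟨hq, hqn, by omega⟩
      · exact ⟨hq', hq'n, by omega⟩)).1 (by
        calc ((q ^ i * q' ^ J : ℕ) : ℝ) ≤ T := by exact_mod_cast hle
          _ ≤ t := hTt)
    rw [pf_two hq hq' hi hJ, Finset.sum_pair hqq.ne, htT] at h1
    exact_mod_cast h1

/-- medium prime factors -/
noncomputable def cc (T N : ℕ) : Finset ℕ := N.primeFactors.filter (fun p => z0 T < p ∧ p ≤ Y1 T)
/-- large prime factors -/
noncomputable def dd (T N : ℕ) : Finset ℕ := N.primeFactors.filter (fun p => Y1 T < p)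

/-- no square of a prime above `z0` divides `N` -/
def NoSq (T N : ℕ) : Prop := ∀ p : ℕ, p.Prime → z0 T < p → ¬ p ^ 2 ∣ N

theorem fact_one {T N p : ℕ} (hN : N ≠ 0) (hsq : NoSq T N) (hp : p ∈ N.primeFactors)
    (hz : z0 T < p) : N.factorization p = 1 := by
  have hp' := Nat.mem_primeFactors.mp hp
  have h1 : 1 ≤ N.factorization p := hp'.1.factorization_pos_of_dvd hN hp'.2.1
  by_contra hcon
  have h2 : 2 ≤ N.factorization p := by omega
  exact hsq p hp'.1 hz ((hp'.1.pow_dvd_iff_le_factorization hN).mpr h2)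

theorem split_at {T N z : ℕ} (hN : N ≠ 0) (hsq : NoSq T N) (hz : z0 T < z) :
    N = (sp (z0 T) N * ∏ p ∈ N.primeFactors.filter (fun p => z0 T < p ∧ p < z), p) *
      ∏ p ∈ N.primeFactors.filter (fun p => z ≤ p), p ^ N.factorization p := by
  have h1 : N = ∏ p ∈ N.primeFactors, p ^ N.factorization p := by
    conv_lhs => rw [← Nat.prod_factorization_pow_eq_self hN]
    rfl
  have h2 := Finset.prod_filter_mul_prod_filter_not N.primeFactors (fun p => p ≤ z0 T)
    (fun p => p ^ N.factorization p)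
  have h3 := Finset.prod_filter_mul_prod_filter_not
    (N.primeFactors.filter (fun p => ¬ p ≤ z0 T)) (fun p => p < z)
    (fun p => p ^ N.factorization p)
  rw [Finset.filter_filter, Finset.filter_filter] at h3
  have h4 : N.primeFactors.filter (fun p => ¬ p ≤ z0 T ∧ p < z) =
      N.primeFactors.filter (fun p => z0 T < p ∧ p < z) := by
    apply Finset.filter_congr
    intro p _
    constructor
    · rintro ⟨h, h'⟩; exact ⟨by omega, h'⟩
    · rintro ⟨h, h'⟩; exact ⟨by omega, h'⟩
  have h5 : N.primeFactors.filter (fun p => ¬ p ≤ z0 T ∧ ¬ p < z) =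
      N.primeFactors.filter (fun p => z ≤ p) := by
    apply Finset.filter_congr
    intro p _
    constructor
    · rintro ⟨_, h'⟩; omega
    · intro h; exact ⟨by omega, by omega⟩
  rw [h4, h5] at h3
  have h6 : ∏ p ∈ N.primeFactors.filter (fun p => z0 T < p ∧ p < z), p ^ N.factorization p =
      ∏ p ∈ N.primeFactors.filter (fun p => z0 T < p ∧ p < z), p := by
    apply Finset.prod_congr rfl
    intro p hp
    rw [Finset.mem_filter] at hp
    rw [fact_one hN hsq hp.1 hp.2.1, pow_one]
  rw [h6] at h3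
  calc N = ∏ p ∈ N.primeFactors, p ^ N.factorization p := h1
    _ = _ := h2.symm
    _ = _ := by rw [← h3]; unfold sp; ring

theorem split_full {T N : ℕ} (hN : N ≠ 0) (hsq : NoSq T N) (hzY : z0 T ≤ Y1 T) :
    N = (sp (z0 T) N * ∏ p ∈ cc T N, p) * ∏ p ∈ dd T N, p := by
  have h := split_at (z := Y1 T + 1) hN hsq (by omega)
  have h4 : N.primeFactors.filter (fun p => z0 T < p ∧ p < Y1 T + 1) = cc T N := by
    unfold cc
    apply Finset.filter_congr
    intro p _
    constructor
    · rintro ⟨h, h'⟩; exact ⟨by omega, by omega⟩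
    · rintro ⟨h, h'⟩; exact ⟨by omega, by omega⟩
  have h5 : N.primeFactors.filter (fun p => Y1 T + 1 ≤ p) = dd T N := by
    unfold dd
    apply Finset.filter_congr
    intro p _
    constructor
    · intro h; omega
    · intro h; omega
  have h6 : ∏ p ∈ dd T N, p ^ N.factorization p = ∏ p ∈ dd T N, p := by
    apply Finset.prod_congr rfl
    intro p hp
    unfold dd at hp
    rw [Finset.mem_filter] at hp
    rw [fact_one hN hsq hp.1 (by omega), pow_one]
  rw [h4, h5, h6] at h
  exact h

end Pool.Agent.Helper923.PPS
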