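import Mathlib
import Pool.Agent.Helper923.PPS.Good

set_option autoImplicit false

open Finset Filter

namespace Pool.Agent.Helper923.PPS

noncomputable def v0 (T : ℕ) : ℝ := 10 * (Real.log T) ^ (1 / 500 : ℝ) * Real.log (Real.log T)
noncomputable def V1 (T : ℕ) : ℝ := 12 * (Real.log T) ^ (1 / 500 : ℝ) * Real.log (Real.log T)
noncomputable def Cg (T k : ℕ) : ℝ := 12 * Real.log (Real.log T) + k + 1
noncomputable def GG (T k : ℕ) (c : Finset ℕ) : ℝ :=
  ∏ q ∈ c, gg (fun p => Real.log p) (DD T) (Cg T k) q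

theorem DD_nonneg' {T : ℕ} (hT : 1 ≤ T) (q : ℕ) : 0 ≤ DD T q := by
  rcases Nat.lt_or_ge q 2 with h | h
  · have h1 : pw q T = 1 := by
      unfold pw
      rw [Nat.log_of_left_le_one (by omega), pow_zero]
    unfold DD
    rw [h1]
    have : 0 ≤ Real.log T := Real.log_natCast_nonneg T
    simpa using this
  · exact DD_nonneg h hT

theorem one_le_GG (T k : ℕ) (c : Finset ℕ) : 1 ≤ GG T k c := one_le_prod_gg _ _ _ _

theorem sp_pos (z n : ℕ) : 0 < sp z n := by
  unfold sp
  apply Finset.prod_pos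
  intro p hp
  have := (Nat.mem_primeFactors.mp (Finset.mem_filter.mp hp).1).1.pos
  positivity

theorem log_prod_nat (S : Finset ℕ) (h : ∀ p ∈ S, 0 < p) :
    Real.log ((∏ p ∈ S, p : ℕ) : ℝ) = ∑ p ∈ S, Real.log p := by
  rw [Nat.cast_prod, Real.log_prod]
  intro p hp
  have := h p hp
  exact_mod_cast this.ne'

theorem log_split {T a : ℕ} {S : Finset ℕ} (hT : 0 < Real.log T) (ha : 0 < a)
    (h : ∀ p ∈ S, 0 < p) :
    Real.log (8 * Real.log T * ((a * ∏ p ∈ S, p : ℕ) : ℝ)) =
      Real.log (8 * Real.log T * a) + ∑ p ∈ S, Real.log p := by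
  rw [← log_prod_nat S h, ← Real.log_mul]
  · push_cast; ring_nf
  · have : (0 : ℝ) < a := by exact_mod_cast ha
    positivity
  · have : 0 < ∏ p ∈ S, p := Finset.prod_pos h
    exact_mod_cast this.ne'

theorem gain_main (k : ℕ) : ∀ᶠ T : ℕ in atTop, ∀ N : ℕ, Good T N → NoSq T N →
    (sp (z0 T) N : ℝ) ≤ Real.exp (v0 T) → (cc T N).card ≤ k → ∀ y : ℝ,
    y ≤ Real.log (8 * Real.log T * sp (z0 T) N) + ∑ p ∈ cc T N, Real.log p →
    (∀ q ∈ dd T N, y ≤ DD T q) → y ≤ V1 T * GG T k (cc T N) := by
  have hpow : Tendsto (fun L : ℝ => L ^ (1 / 500 : ℝ)) atTop atTop :=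
    tendsto_rpow_atTop (by norm_num)
  filter_upwards [tendsto_logT.eventually_ge_atTop 12, eventually_ge_atTop 2,
    tendsto_logT.eventually (hpow.eventually_ge_atTop 4),
    tendsto_loglogT.eventually_ge_atTop 3] with T hL hT hpw hLL N hG hsq hsp hck y hy1 hy2
  set L := Real.log T with hLdef
  have hL0 : 0 < L := by linarith
  have hspp : (1 : ℝ) ≤ sp (z0 T) N := by exact_mod_cast sp_pos (z0 T) N
  set V := Real.log (8 * L * sp (z0 T) N) with hV
  have hV1 : 1 ≤ V := by
    have h1 : Real.log L ≤ V := by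
      apply Real.log_le_log hL0
      nlinarith
    linarith
  have hVV : V ≤ V1 T := by
    have h1 : V = Real.log 8 + Real.log L + Real.log (sp (z0 T) N) := by
      rw [hV, Real.log_mul (by positivity) (by positivity), Real.log_mul (by norm_num) hL0.ne']
    have h2 : Real.log (sp (z0 T) N) ≤ v0 T := by
      have := Real.log_le_log (by positivity) hsp
      rwa [Real.log_exp] at this
    have h3 : Real.log 8 ≤ 3 := by
      have : Real.log 8 = 3 * Real.log 2 := by
        rw [show (8 : ℝ) = 2 ^ 3 by norm_num, Real.log_pow]; norm_num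
      have := Real.log_two_lt_d9
      linarith
    unfold v0 at h2
    unfold V1
    rw [← hLdef] at h2 ⊢
    nlinarith
  have hCg0 : 0 ≤ Cg T k := by
    unfold Cg
    have : (0 : ℝ) ≤ k := by positivity
    rw [← hLdef]
    linarith
  have hprime : ∀ p ∈ cc T N, p.Prime ∧ p ∣ N ∧ z0 T < p ∧ p ≤ Y1 T := by
    intro p hp
    unfold cc at hp
    rw [Finset.mem_filter, Nat.mem_primeFactors] at hp
    exact ⟨hp.1.1, hp.1.2.1, hp.2⟩
  have hmono : ∀ p q : ℕ, p ≤ q → Real.log p ≤ Real.log q := by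
    intro p q hpq
    rcases Nat.eq_zero_or_pos p with rfl | hp
    · simpa using Real.log_natCast_nonneg q
    · exact Real.log_le_log (by exact_mod_cast hp) (by exact_mod_cast hpq)
  have hfin : y ≤ V * ∏ q ∈ cc T N, gg (fun p => Real.log p) (DD T) (Cg T k) q := by
    apply chain (fun p => Real.log p) (DD T) V (Cg T k) hV1 hCg0
      (fun p => Real.log_natCast_nonneg p) (DD_nonneg' (by omega)) hmono (cc T N).card (cc T N) rfl
    · -- W z + u z ≤ Cg u z
      intro z hz
      have hz' := hprime z hz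
      have hlz : L ^ (1 / 500 : ℝ) ≤ Real.log z := lt_log_of_z0 hz'.2.2.1
      have hsum : ∑ p ∈ (cc T N).filter (fun p => p < z), Real.log p ≤ k * Real.log z := by
        calc ∑ p ∈ (cc T N).filter (fun p => p < z), Real.log p
            ≤ ∑ p ∈ (cc T N).filter (fun p => p < z), Real.log z := by
              apply Finset.sum_le_sum
              intro p hp
              exact hmono p z (Finset.mem_filter.mp hp).2.le
          _ = ((cc T N).filter (fun p => p < z)).card * Real.log z := by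
              rw [Finset.sum_const, nsmul_eq_mul]
          _ ≤ k * Real.log z := by
              apply mul_le_mul_of_nonneg_right _ (Real.log_natCast_nonneg z)
              have := (Finset.card_filter_le (cc T N) (fun p => p < z)).trans hck
              exact_mod_cast this
      unfold WW Cg
      have hV2 : V ≤ 12 * Real.log L * Real.log z := by
        refine hVV.trans ?_
        unfold V1
        rw [← hLdef]
        nlinarith
      rw [← hLdef]
      nlinarith
    · exact hy1
    · intro z hz hWz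
      have hz' := hprime z hz
      have hsplit := split_at (T := T) (N := N) (z := z) hG.ne hsq hz'.2.2.1
      have hSsub : N.primeFactors.filter (fun p => z ≤ p) ⊆ N.primeFactors :=
        Finset.filter_subset _ _
      have hSne : (N.primeFactors.filter (fun p => z ≤ p)).Nonempty :=
        ⟨z, Finset.mem_filter.mpr ⟨Nat.mem_primeFactors.mpr ⟨hz'.1, hz'.2.1, hG.ne⟩, le_rfl⟩⟩
      obtain ⟨q, hq, hDq⟩ := hG.bc _ hSsub hSne _ hsplit
      have hfilt : N.primeFactors.filter (fun p => z0 T < p ∧ p < z) =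
          (cc T N).filter (fun p => p < z) := by
        unfold cc
        rw [Finset.filter_filter]
        apply Finset.filter_congr
        intro p _
        constructor
        · rintro ⟨h1, h2⟩; exact ⟨⟨h1, by omega⟩, h2⟩
        · rintro ⟨⟨h1, h3⟩, h2⟩; exact ⟨h1, h2⟩
      rw [hfilt, log_split hL0 (sp_pos _ _) (fun p hp => (hprime p (Finset.mem_filter.mp hp).1).1.pos)]
        at hDq
      have hDq' : DD T q ≤ WW (fun p => Real.log p) V (cc T N) z := hDq
      rw [Finset.mem_filter] at hq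
      refine ⟨q, ?_, hq.2, hDq'⟩
      by_cases hqY : q ≤ Y1 T
      · unfold cc
        rw [Finset.mem_filter]
        exact ⟨hq.1, by omega, hqY⟩
      · exfalso
        have h1 : q ∈ dd T N := by
          unfold dd
          rw [Finset.mem_filter]
          exact ⟨hq.1, by omega⟩
        have h2 := hy2 q h1
        linarith
  refine hfin.trans ?_
  apply mul_le_mul_of_nonneg_right hVV
  have := one_le_GG T k (cc T N)
  unfold GG at this
  linarith

theorem b1_gain (k : ℕ) : ∀ᶠ T : ℕ in atTop, ∀ N : ℕ, Good T N → NoSq T N →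
    (sp (z0 T) N : ℝ) ≤ Real.exp (v0 T) → (cc T N).card ≤ k → (dd T N).Nonempty →
    ∃ q ∈ dd T N, DD T q ≤ V1 T * GG T k (cc T N) := by
  have hz : ∀ᶠ T : ℕ in atTop, z0 T ≤ Y1 T := by
    filter_upwards [tendsto_logT.eventually_ge_atTop 1] with T hT
    unfold z0 Y1
    apply Nat.floor_le_floor
    apply Real.exp_le_exp.mpr
    exact Real.rpow_le_rpow_of_exponent_le hT (by norm_num)
  filter_upwards [gain_main k, hz, tendsto_logT.eventually_ge_atTop 12] with T hg hzY hL N hG hsq
    hsp hck hne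
  have hL0 : 0 < Real.log T := by linarith
  obtain ⟨q, hq, hmin⟩ := Finset.exists_min_image (dd T N) (fun p => DD T p) hne
  refine ⟨q, hq, ?_⟩
  refine hg N hG hsq hsp hck _ ?_ hmin
  have hsplit := split_full hG.ne hsq hzY
  have h6 : ∏ p ∈ dd T N, p ^ N.factorization p = ∏ p ∈ dd T N, p := by
    apply Finset.prod_congr rfl
    intro p hp
    unfold dd at hp
    rw [Finset.mem_filter] at hp
    rw [fact_one hG.ne hsq hp.1 (by omega), pow_one]
  rw [← h6] at hsplit
  obtain ⟨q', hq', hDq'⟩ := hG.bc _ (by unfold dd; exact Finset.filter_subset _ _) hne _ hsplit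
  rw [log_split hL0 (sp_pos _ _) (fun p hp => by
    unfold cc at hp
    exact (Nat.mem_primeFactors.mp (Finset.mem_filter.mp hp).1).1.pos)] at hDq'
  exact (hmin q' hq').trans hDq'

theorem b2_gain (k : ℕ) : ∀ᶠ T : ℕ in atTop, ∀ N : ℕ, Good T N → NoSq T N →
    (sp (z0 T) N : ℝ) ≤ Real.exp (v0 T) → (cc T N).card ≤ k →
    (∀ q ∈ dd T N, Real.log ((sp (z0 T) N * ∏ p ∈ cc T N, p : ℕ) : ℝ) ≤ DD T q) →
    Real.log ((sp (z0 T) N * ∏ p ∈ cc T N, p : ℕ) : ℝ) ≤ V1 T * GG T k (cc T N) := by
  filter_upwards [gain_main k, tendsto_logT.eventually_ge_atTop 12] with T hg hL N hG hsq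
    hsp hck hd
  have hL0 : 0 < Real.log T := by linarith
  refine hg N hG hsq hsp hck _ ?_ hd
  rw [← log_split hL0 (sp_pos _ _) (fun p hp => by
    unfold cc at hp
    exact (Nat.mem_primeFactors.mp (Finset.mem_filter.mp hp).1).1.pos)]
  have hpos : (0 : ℝ) < ((sp (z0 T) N * ∏ p ∈ cc T N, p : ℕ) : ℝ) := by
    have : 0 < sp (z0 T) N * ∏ p ∈ cc T N, p := by
      apply Nat.mul_pos (sp_pos _ _)
      apply Finset.prod_pos
      intro p hp
      unfold cc at hp
      exact (Nat.mem_primeFactors.mp (Finset.mem_filter.mp hp).1).1.pos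
    exact_mod_cast this
  apply Real.log_le_log hpos
  nlinarith

/-- the weighted sum over small sets of medium primes -/
theorem gg_sum (k : ℕ) : ∃ C : ℝ, 1 ≤ C ∧ ∀ᶠ T : ℕ in atTop,
    ∑ c ∈ (RR T).powerset.filter (fun c => c.card < k + 1),
      (∏ p ∈ c, (1 : ℝ) / p) * GG T k c ≤ C * (Real.log (Real.log T)) ^ (4 * (k + 1)) := by
  obtain ⟨C1, hC1, h1⟩ := primes_recip
  obtain ⟨C2, hC2, h2⟩ := sum_gain
  refine ⟨((k + 1 : ℕ) : ℝ) * (1 + C1 + 2 * (13 + k) * C2) ^ (k + 1), ?_, ?_⟩
  · have h3 : (1 : ℝ) ≤ ((k + 1 : ℕ) : ℝ) := by push_cast; linarith [Nat.cast_nonneg (α := ℝ) k]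
    have h4 : (1 : ℝ) ≤ (1 + C1 + 2 * (13 + k) * C2) ^ (k + 1) := by
      apply one_le_pow₀
      have : 0 ≤ 2 * (13 + (k : ℝ)) * C2 := by positivity
      linarith
    nlinarith
  filter_upwards [h1, h2, tendsto_logT.eventually_ge_atTop 12, eventually_ge_atTop 2,
    tendsto_loglogT.eventually_ge_atTop 2] with T h1T h2T hL hT hLL
  set L := Real.log T with hLdef
  have hL0 : 0 < L := by linarith
  have hRR : ∀ q ∈ RR T, q.Prime ∧ q ≤ T ∧ L ^ (1 / 500 : ℝ) ≤ Real.log q := by
    intro q hq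
    rw [mem_RR] at hq
    exact ⟨hq.1, le_T_of_Y1 (by linarith) hq.1.pos hq.2.2, lt_log_of_z0 hq.2.1⟩
  set w : ℕ → ℝ := fun p => (1 : ℝ) / p * gg (fun p => Real.log p) (DD T) (Cg T k) p with hw
  have hw0 : ∀ p, 0 ≤ w p := fun p => by
    rw [hw]
    have := one_le_gg (fun p => Real.log p) (DD T) (Cg T k) p
    have h3 : (0 : ℝ) ≤ 1 / (p : ℝ) := by positivity
    simp only
    nlinarith
  have hk0 : (0 : ℝ) ≤ k := by positivity
  have hCg : Cg T k ≤ (13 + k) * Real.log L := by
    unfold Cg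
    rw [← hLdef]
    nlinarith
  have hCg0 : 0 ≤ Cg T k := by
    unfold Cg
    rw [← hLdef]
    linarith
  have hsum : ∑ p ∈ RR T, w p ≤ (C1 + 2 * (13 + k) * C2) * (Real.log L) ^ 4 := by
    calc ∑ p ∈ RR T, w p ≤ ∑ p ∈ RR T, ((1 : ℝ) / p +
          2 * Cg T k * (1 / p * (Real.log p / (1 + DD T p)))) := by
          apply Finset.sum_le_sum
          intro p hp
          have hD := DD_nonneg' (T := T) (by omega) p
          have hlp := Real.log_natCast_nonneg p
          have h3 : gg (fun p => Real.log p) (DD T) (Cg T k) p ≤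
              1 + 2 * Cg T k * Real.log p / (1 + DD T p) := by
            unfold gg
            have : 0 ≤ 2 * Cg T k * Real.log p / (1 + DD T p) := by positivity
            exact max_le (by linarith) (by linarith)
          have h4 : (0 : ℝ) ≤ 1 / (p : ℝ) := by positivity
          calc w p = (1 : ℝ) / p * gg (fun p => Real.log p) (DD T) (Cg T k) p := rfl
            _ ≤ (1 : ℝ) / p * (1 + 2 * Cg T k * Real.log p / (1 + DD T p)) :=
              mul_le_mul_of_nonneg_left h3 h4
            _ = _ := by ring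
      _ = ∑ p ∈ RR T, (1 : ℝ) / p +
          2 * Cg T k * ∑ p ∈ RR T, (1 : ℝ) / p * (Real.log p / (1 + DD T p)) := by
          rw [Finset.sum_add_distrib, Finset.mul_sum]
      _ ≤ C1 * Real.log L + 2 * Cg T k * (C2 * (Real.log L) ^ 3) := by
          apply add_le_add
          · exact h1T _ (fun q hq => ⟨(hRR q hq).1, (hRR q hq).2.1⟩)
          · apply mul_le_mul_of_nonneg_left _ (by positivity)
            exact h2T _ hRR
      _ ≤ C1 * (Real.log L) ^ 4 + 2 * ((13 + k) * Real.log L) * (C2 * (Real.log L) ^ 3) := by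
          have h5 : Real.log L ≤ (Real.log L) ^ 4 := by
            calc Real.log L = (Real.log L) ^ 1 := (pow_one _).symm
              _ ≤ (Real.log L) ^ 4 := pow_le_pow_right₀ (by linarith) (by norm_num)
          gcongr
      _ = _ := by ring
  have hS0 : 0 ≤ ∑ p ∈ RR T, w p := Finset.sum_nonneg fun _ _ => hw0 _
  calc ∑ c ∈ (RR T).powerset.filter (fun c => c.card < k + 1),
        (∏ p ∈ c, (1 : ℝ) / p) * GG T k c
      = ∑ c ∈ (RR T).powerset.filter (fun c => c.card < k + 1), ∏ p ∈ c, w p := by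
        apply Finset.sum_congr rfl
        intro c _
        unfold GG
        rw [← Finset.prod_mul_distrib]
    _ ≤ ((k + 1 : ℕ) : ℝ) * (1 + ∑ p ∈ RR T, w p) ^ (k + 1) := sum_small_subsets w hw0 _ _
    _ ≤ ((k + 1 : ℕ) : ℝ) * ((1 + C1 + 2 * (13 + k) * C2) * (Real.log L) ^ 4) ^ (k + 1) := by
        apply mul_le_mul_of_nonneg_left _ (by positivity)
        apply pow_le_pow_left₀ (by linarith)
        have : 1 ≤ (Real.log L) ^ 4 := one_le_pow₀ (by linarith)
        nlinarith
    _ = _ := by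
        rw [mul_pow, ← pow_mul]; ring

end Pool.Agent.Helper923.PPS
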