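import Mathlib
import Pool.Agent.Helper923.PPS.Gain
import Pool.Agent.Helper923.HMertens

set_option autoImplicit false

open Finset Filter

namespace Pool.Agent.Helper923.PPS

theorem z0_facts : ∀ᶠ T : ℕ in atTop, 3000 ≤ z0 T ∧ Real.log (z0 T) ≤ (Real.log T) ^ (1 / 500 : ℝ) ∧
    Real.exp ((Real.log T) ^ (1 / 500 : ℝ)) ≤ 2 * z0 T := by
  have hpow : Tendsto (fun L : ℝ => L ^ (1 / 500 : ℝ)) atTop atTop :=
    tendsto_rpow_atTop (by norm_num)
  filter_upwards [tendsto_logT.eventually (hpow.eventually_ge_atTop 10)] with T hT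
  have h1 : (4000 : ℝ) ≤ Real.exp ((Real.log T) ^ (1 / 500 : ℝ)) := by
    have h2 : Real.exp 10 ≤ Real.exp ((Real.log T) ^ (1 / 500 : ℝ)) := Real.exp_le_exp.mpr hT
    have h3 : (4000 : ℝ) ≤ Real.exp 10 := by
      have h4 : (2.7182818283 : ℝ) < Real.exp 1 := Real.exp_one_gt_d9
      have h5 : Real.exp 10 = (Real.exp 1) ^ 10 := by rw [← Real.exp_nat_mul]; norm_num
      rw [h5]
      calc (4000 : ℝ) ≤ 2.7 ^ 10 := by norm_num
        _ ≤ (Real.exp 1) ^ 10 := by
          apply pow_le_pow_left₀ (by norm_num)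
          linarith
    linarith
  have h2 : (3000 : ℕ) ≤ z0 T := by
    unfold z0
    apply Nat.le_floor
    push_cast
    linarith
  have h3 : (z0 T : ℝ) ≤ Real.exp ((Real.log T) ^ (1 / 500 : ℝ)) :=
    Nat.floor_le (Real.exp_pos _).le
  have h4 : Real.exp ((Real.log T) ^ (1 / 500 : ℝ)) < (z0 T : ℝ) + 1 := Nat.lt_floor_add_one _
  have h5 : (3000 : ℝ) ≤ z0 T := by exact_mod_cast h2
  refine ⟨h2, ?_, by linarith⟩
  have := Real.log_le_log (by linarith) h3
  rwa [Real.log_exp] at this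

theorem Y1_facts : ∀ᶠ T : ℕ in atTop, 3000 ≤ Y1 T ∧ Real.log (Y1 T) ≤ (Real.log T) ^ (3 / 5 : ℝ) ∧
    (Real.log T) ^ (3 / 5 : ℝ) / 2 ≤ Real.log (Y1 T) ∧ z0 T ≤ Y1 T := by
  have hpow : Tendsto (fun L : ℝ => L ^ (3 / 5 : ℝ)) atTop atTop :=
    tendsto_rpow_atTop (by norm_num)
  filter_upwards [z0_facts, tendsto_logT.eventually (hpow.eventually_ge_atTop 10),
    tendsto_logT.eventually_ge_atTop 1] with T hz hT hL
  have hzY : z0 T ≤ Y1 T := by
    unfold z0 Y1
    apply Nat.floor_le_floor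
    apply Real.exp_le_exp.mpr
    exact Real.rpow_le_rpow_of_exponent_le hL (by norm_num)
  have h2 : 3000 ≤ Y1 T := hz.1.trans hzY
  have h3 : (Y1 T : ℝ) ≤ Real.exp ((Real.log T) ^ (3 / 5 : ℝ)) := Nat.floor_le (Real.exp_pos _).le
  have h4 : Real.exp ((Real.log T) ^ (3 / 5 : ℝ)) < (Y1 T : ℝ) + 1 := Nat.lt_floor_add_one _
  have h5 : (3000 : ℝ) ≤ Y1 T := by exact_mod_cast h2
  refine ⟨h2, ?_, ?_, hzY⟩
  · have := Real.log_le_log (by linarith) h3
    rwa [Real.log_exp] at this
  · have h6 : Real.exp ((Real.log T) ^ (3 / 5 : ℝ)) ≤ 2 * Y1 T := by linarith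
    have h7 := Real.log_le_log (Real.exp_pos _) h6
    rw [Real.log_exp, Real.log_mul (by norm_num) (by linarith)] at h7
    have := Real.log_two_lt_d9
    linarith

/-- large smooth part -/
theorem count_E1 : ∀ᶠ T : ℕ in atTop,
    (((Finset.Icc 1 T).filter (fun n => Real.exp (v0 T) < (sp (z0 T) n : ℝ))).card : ℝ) ≤
      T * (Real.log T) ^ (-(3 / 2) : ℝ) := by
  obtain ⟨C, hC, hr⟩ := rankin_count HMertens.mertens_log HMertens.mertens_ratio
  filter_upwards [z0_facts, tendsto_logT.eventually_ge_atTop 12,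
    tendsto_loglogT.eventually_ge_atTop 2,
    tendsto_logT.eventually (polylog_le C 0 (1 / 500 + -10) (-(3 / 2)) (by norm_num))]
    with T hz hL hLL hp
  set L := Real.log T with hLdef
  have hL0 : 0 < L := by linarith
  have hv0 : 0 ≤ v0 T := by
    unfold v0
    rw [← hLdef]
    have : 0 ≤ L ^ (1 / 500 : ℝ) := Real.rpow_nonneg hL0.le _
    positivity
  have h1 := hr (z0 T) T (v0 T) hz.1 hv0
  refine le_trans (le_of_eq ?_) (h1.trans ?_)
  · congr!
  have hlz : 0 < Real.log (z0 T) := Real.log_pos (by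
    have : (3000 : ℝ) ≤ z0 T := by exact_mod_cast hz.1
    linarith)
  have h2 : Real.exp (-v0 T / Real.log (z0 T)) ≤ L ^ (-10 : ℝ) := by
    have h3 : 10 * Real.log L ≤ v0 T / Real.log (z0 T) := by
      rw [le_div_iff₀ hlz]
      unfold v0
      rw [← hLdef]
      have : 10 * Real.log L * Real.log (z0 T) ≤ 10 * Real.log L * L ^ (1 / 500 : ℝ) :=
        mul_le_mul_of_nonneg_left hz.2.1 (by positivity)
      linarith
    rw [Real.rpow_def_of_pos hL0]
    apply Real.exp_le_exp.mpr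
    rw [neg_div]
    linarith
  have hT0 : (0 : ℝ) ≤ T := by positivity
  calc C * T * Real.log (z0 T) * Real.exp (-v0 T / Real.log (z0 T))
      ≤ C * T * L ^ (1 / 500 : ℝ) * L ^ (-10 : ℝ) := by
        apply mul_le_mul _ h2 (Real.exp_pos _).le (by positivity)
        exact mul_le_mul_of_nonneg_left hz.2.1 (by positivity)
    _ = T * (C * L ^ (1 / 500 + -10 : ℝ)) := by rw [Real.rpow_add hL0]; ring
    _ ≤ T * L ^ (-(3 / 2) : ℝ) := by
        apply mul_le_mul_of_nonneg_left _ hT0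
        rw [pow_zero, mul_one] at hp
        exact hp

/-- very large medium-smooth part -/
theorem count_E2 : ∀ᶠ T : ℕ in atTop,
    (((Finset.Icc 1 T).filter (fun n => Real.exp (Real.log T / 3) < (sp (Y1 T) n : ℝ))).card : ℝ) ≤
      T * (Real.log T) ^ (-(3 / 2) : ℝ) := by
  obtain ⟨C, hC, hr⟩ := rankin_count HMertens.mertens_log HMertens.mertens_ratio
  filter_upwards [Y1_facts, tendsto_logT.eventually_ge_atTop 12,
    tendsto_logT.eventually (polylog_le C 0 (3 / 5 + -10) (-(3 / 2)) (by norm_num)),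
    tendsto_logT.eventually (exp_small (2 / 5) (1 / 3) (-10) (by norm_num) (by norm_num))]
    with T hz hL hp he
  set L := Real.log T with hLdef
  have hL0 : 0 < L := by linarith
  have h1 := hr (Y1 T) T (L / 3) hz.1 (by positivity)
  refine le_trans (le_of_eq ?_) (h1.trans ?_)
  · congr!
  have hlz : 0 < Real.log (Y1 T) := Real.log_pos (by
    have : (3000 : ℝ) ≤ Y1 T := by exact_mod_cast hz.1
    linarith)
  have h2 : Real.exp (-(L / 3) / Real.log (Y1 T)) ≤ L ^ (-10 : ℝ) := by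
    refine le_trans ?_ he
    apply Real.exp_le_exp.mpr
    rw [neg_div]
    have h3 : 1 / 3 * L ^ (2 / 5 : ℝ) ≤ L / 3 / Real.log (Y1 T) := by
      rw [le_div_iff₀ hlz]
      have h4 : L ^ (2 / 5 : ℝ) * L ^ (3 / 5 : ℝ) = L := by
        rw [← Real.rpow_add hL0]; norm_num
      have h5 : L ^ (2 / 5 : ℝ) * Real.log (Y1 T) ≤ L ^ (2 / 5 : ℝ) * L ^ (3 / 5 : ℝ) :=
        mul_le_mul_of_nonneg_left hz.2.1 (Real.rpow_nonneg hL0.le _)
      linarith
    linarith
  have hT0 : (0 : ℝ) ≤ T := by positivity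
  calc C * T * Real.log (Y1 T) * Real.exp (-(L / 3) / Real.log (Y1 T))
      ≤ C * T * L ^ (3 / 5 : ℝ) * L ^ (-10 : ℝ) := by
        apply mul_le_mul _ h2 (Real.exp_pos _).le (by positivity)
        exact mul_le_mul_of_nonneg_left hz.2.1 (by positivity)
    _ = T * (C * L ^ (3 / 5 + -10 : ℝ)) := by rw [Real.rpow_add hL0]; ring
    _ ≤ T * L ^ (-(3 / 2) : ℝ) := by
        apply mul_le_mul_of_nonneg_left _ hT0
        rw [pow_zero, mul_one] at hp
        exact hp

theorem card_multiples_le (T d : ℕ) :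
    (((Finset.Icc 1 T).filter (fun n => d ∣ n)).card : ℝ) ≤ T / d := by
  have h : (Finset.Icc 1 T).filter (fun n => d ∣ n) = (Finset.Ioc 0 T).filter (fun n => d ∣ n) := by
    congr 1
  rw [h, Nat.Ioc_filter_dvd_card_eq_div]
  exact Nat.cast_div_le

open scoped Classical in
/-- squares -/
theorem count_E3 : ∀ᶠ T : ℕ in atTop,
    (((Finset.Icc 1 T).filter (fun n => ¬ NoSq T n)).card : ℝ) ≤
      T * (Real.log T) ^ (-(3 / 2) : ℝ) := by
  filter_upwards [z0_facts, tendsto_logT.eventually_ge_atTop 12,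
    tendsto_logT.eventually (polylog_le 2 0 (-2) (-(3 / 2)) (by norm_num)),
    tendsto_logT.eventually (exp_small (1 / 500) 1 (-2) (by norm_num) (by norm_num))]
    with T hz hL hp he
  set L := Real.log T with hLdef
  have hL0 : 0 < L := by linarith
  have hsub : (Finset.Icc 1 T).filter (fun n => ¬ NoSq T n) ⊆
      (Finset.Ioc (z0 T) (max (z0 T) T)).biUnion
        (fun p => (Finset.Icc 1 T).filter (fun n => p ^ 2 ∣ n)) := by
    intro n hn
    rw [Finset.mem_filter] at hn
    obtain ⟨hn1, hn2⟩ := hn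
    unfold NoSq at hn2
    push Not at hn2
    obtain ⟨p, hp1, hp2, hp3⟩ := hn2
    rw [Finset.mem_biUnion]
    refine ⟨p, ?_, Finset.mem_filter.mpr ⟨hn1, hp3⟩⟩
    rw [Finset.mem_Icc] at hn1
    rw [Finset.mem_Ioc]
    refine ⟨hp2, le_max_of_le_right ?_⟩
    have h1 := Nat.le_of_dvd (by omega) hp3
    have h2 := hp1.pos
    nlinarith
  have hz0 : z0 T ≠ 0 := by have := hz.1; omega
  have h1 : (((Finset.Icc 1 T).filter (fun n => ¬ NoSq T n)).card : ℝ) ≤ T * (1 / z0 T) := by
    calc (((Finset.Icc 1 T).filter (fun n => ¬ NoSq T n)).card : ℝ)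
        ≤ (((Finset.Ioc (z0 T) (max (z0 T) T)).biUnion
          (fun p => (Finset.Icc 1 T).filter (fun n => p ^ 2 ∣ n))).card : ℝ) := by
          exact_mod_cast Finset.card_le_card hsub
      _ ≤ ∑ p ∈ Finset.Ioc (z0 T) (max (z0 T) T),
          (((Finset.Icc 1 T).filter (fun n => p ^ 2 ∣ n)).card : ℝ) := by
          exact_mod_cast Finset.card_biUnion_le
      _ ≤ ∑ p ∈ Finset.Ioc (z0 T) (max (z0 T) T), (T : ℝ) * ((p : ℝ) ^ 2)⁻¹ := by
          apply Finset.sum_le_sum
          intro p _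
          have := card_multiples_le T (p ^ 2)
          push_cast at this
          rwa [div_eq_mul_inv] at this
      _ = T * ∑ p ∈ Finset.Ioc (z0 T) (max (z0 T) T), ((p : ℝ) ^ 2)⁻¹ := by
          rw [Finset.mul_sum]
      _ ≤ T * (1 / z0 T) := by
          apply mul_le_mul_of_nonneg_left _ (by positivity)
          have h2 := sum_Ioc_inv_sq_le_sub (α := ℝ) hz0 (le_max_left (z0 T) T)
          refine h2.trans ?_
          rw [one_div]
          have : (0 : ℝ) ≤ ((max (z0 T) T : ℕ) : ℝ)⁻¹ := by positivity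
          linarith
  refine h1.trans ?_
  apply mul_le_mul_of_nonneg_left _ (by positivity)
  have hz0' : (0 : ℝ) < z0 T := by exact_mod_cast Nat.pos_of_ne_zero hz0
  rw [pow_zero, mul_one] at hp
  refine le_trans ?_ hp
  rw [one_mul, Real.exp_neg] at he
  calc 1 / (z0 T : ℝ) ≤ 2 * (Real.exp (L ^ (1 / 500 : ℝ)))⁻¹ := by
        rw [div_le_iff₀ hz0', mul_comm (2 : ℝ), mul_assoc, ← div_eq_inv_mul,
          le_div_iff₀ (Real.exp_pos _)]
        linarith [hz.2.2]
    _ ≤ 2 * L ^ (-2 : ℝ) := by linarith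

open scoped Classical in
/-- many medium prime factors -/
theorem count_E4 (k : ℕ) (hk : k = 1000) : ∀ᶠ T : ℕ in atTop,
    (((Finset.Icc 1 T).filter (fun n => Good T n ∧ k < (cc T n).card)).card : ℝ) ≤
      T * (Real.log T) ^ (-(3 / 2) : ℝ) := by
  filter_upwards [star_bound k hk] with T hst
  have hsub : (Finset.Icc 1 T).filter (fun n => Good T n ∧ k < (cc T n).card) ⊆
      ((Finset.powersetCard (k + 1) (RR T)).filter (fun c => PairOK T c)).biUnion
        (fun c => (Finset.Icc 1 T).filter (fun n => (∏ p ∈ c, p) ∣ n)) := by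
    intro n hn
    rw [Finset.mem_filter] at hn
    obtain ⟨hn1, hG, hcard⟩ := hn
    obtain ⟨c, hcsub, hccard⟩ := Finset.exists_subset_card_eq (show k + 1 ≤ (cc T n).card from hcard)
    rw [Finset.mem_biUnion]
    have hmem : ∀ p ∈ c, p.Prime ∧ p ∣ n ∧ z0 T < p ∧ p ≤ Y1 T := by
      intro p hp
      have := hcsub hp
      unfold cc at this
      rw [Finset.mem_filter, Nat.mem_primeFactors] at this
      exact ⟨this.1.1, this.1.2.1, this.2⟩
    refine ⟨c, ?_, ?_⟩
    · rw [Finset.mem_filter, Finset.mem_powersetCard]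
      refine ⟨⟨?_, hccard⟩, ?_⟩
      · intro p hp
        have := hmem p hp
        exact mem_RR.mpr ⟨this.1, this.2.2⟩
      · intro q hq q' hq' hqq
        have h1 := hmem q hq
        have h2 := hmem q' hq'
        exact hG.pc q q' h1.1 h2.1 h1.2.1 h2.2.1 hqq h2.2.2.2
    · rw [Finset.mem_filter]
      refine ⟨hn1, ?_⟩
      apply Finset.prod_primes_dvd
      · intro p hp; exact (hmem p hp).1.prime
      · intro p hp; exact (hmem p hp).2.1
  calc (((Finset.Icc 1 T).filter (fun n => Good T n ∧ k < (cc T n).card)).card : ℝ)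
      ≤ ((((Finset.powersetCard (k + 1) (RR T)).filter (fun c => PairOK T c)).biUnion
        (fun c => (Finset.Icc 1 T).filter (fun n => (∏ p ∈ c, p) ∣ n))).card : ℝ) := by
        exact_mod_cast Finset.card_le_card hsub
    _ ≤ ∑ c ∈ (Finset.powersetCard (k + 1) (RR T)).filter (fun c => PairOK T c),
        (((Finset.Icc 1 T).filter (fun n => (∏ p ∈ c, p) ∣ n)).card : ℝ) := by
        exact_mod_cast Finset.card_biUnion_le
    _ ≤ ∑ c ∈ (Finset.powersetCard (k + 1) (RR T)).filter (fun c => PairOK T c),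
        (T : ℝ) * ∏ p ∈ c, (1 : ℝ) / p := by
        apply Finset.sum_le_sum
        intro c _
        have := card_multiples_le T (∏ p ∈ c, p)
        refine this.trans (le_of_eq ?_)
        rw [Nat.cast_prod, div_eq_mul_inv, ← Finset.prod_inv_distrib]
        simp
    _ = T * ∑ c ∈ (Finset.powersetCard (k + 1) (RR T)).filter (fun c => PairOK T c),
        ∏ p ∈ c, (1 : ℝ) / p := by rw [Finset.mul_sum]
    _ ≤ T * (Real.log T) ^ (-(3 / 2) : ℝ) := mul_le_mul_of_nonneg_left hst (by positivity)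

end Pool.Agent.Helper923.PPS
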