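import Mathlib
import Pool.Agent.Helper923.PPS.ExcA

set_option autoImplicit false

open Finset Filter

namespace Pool.Agent.Helper923.PPS

open scoped Classical in
noncomputable def A0 (T : ℕ) : Finset ℕ :=
  (Finset.Icc 1 T).filter (fun a => ∀ p : ℕ, p.Prime → p ∣ a → p ≤ z0 T)

noncomputable def C0 (T k : ℕ) : Finset (Finset ℕ) :=
  (RR T).powerset.filter (fun c => c.card < k + 1)

open scoped Classical in
noncomputable def QQ (T k : ℕ) (c : Finset ℕ) : Finset ℕ :=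
  (Finset.Icc 1 T).filter (fun q => q.Prime ∧ Y1 T < q ∧ DD T q ≤ V1 T * GG T k c)

theorem smooth_sum : ∃ C : ℝ, 1 ≤ C ∧ ∀ᶠ T : ℕ in atTop,
    ∑ a ∈ A0 T, (1 : ℝ) / a ≤ C * (Real.log T) ^ (1 / 500 : ℝ) := by
  classical
  obtain ⟨C, hC, hr⟩ := rankin HMertens.mertens_log HMertens.mertens_ratio
  refine ⟨C, hC, ?_⟩
  filter_upwards [z0_facts] with T hz
  have h := hr (z0 T) 0 hz.1 le_rfl (A0 T) (fun a ha => by
    unfold A0 at ha
    rw [Finset.mem_filter, Finset.mem_Icc] at ha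
    refine ⟨?_, ha.2⟩
    rw [Real.exp_zero]
    exact_mod_cast ha.1.1)
  rw [neg_zero, zero_div, Real.exp_zero, mul_one] at h
  exact h.trans (mul_le_mul_of_nonneg_left hz.2.1 (by linarith))

theorem V1_pos {T : ℕ} (h : 1 ≤ Real.log T) (h' : 1 ≤ Real.log (Real.log T)) : 1 ≤ V1 T := by
  unfold V1
  have h1 : 1 ≤ (Real.log T) ^ (1 / 500 : ℝ) := Real.one_le_rpow h (by norm_num)
  nlinarith

/-- the primes with a power close to `T` in terms of the gain -/
theorem QQ_sum (k : ℕ) : ∃ C : ℝ, 1 ≤ C ∧ ∀ᶠ T : ℕ in atTop, ∀ c : Finset ℕ,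
    ∑ q ∈ QQ T k c, (1 : ℝ) / q ≤
      C * Real.log (Real.log T) * (V1 T * GG T k c) / (Real.log T) ^ (3 / 5 : ℝ) := by
  obtain ⟨C, hC, hp⟩ := prox
  refine ⟨2 * C, by linarith, ?_⟩
  filter_upwards [hp, tendsto_logT.eventually_ge_atTop 12, tendsto_loglogT.eventually_ge_atTop 2]
    with T hpT hL hLL c
  set L := Real.log T with hLdef
  have hL0 : 0 < L := by linarith
  have hV : 1 ≤ V1 T := V1_pos (by linarith) (by linarith)
  have hG := one_le_GG T k c
  have h1 : 1 ≤ V1 T * GG T k c := by nlinarith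
  have h := hpT (L ^ (3 / 5 : ℝ)) (V1 T * GG T k c)
    (Real.rpow_le_rpow_of_exponent_le (by linarith) (by norm_num)) (by linarith) (QQ T k c)
    (fun q hq => by
      unfold QQ at hq
      rw [Finset.mem_filter, Finset.mem_Icc] at hq
      exact ⟨hq.2.1, hq.1.2, log_ge_of_Y1 hq.2.2.1, hq.2.2.2⟩)
  refine h.trans ?_
  apply div_le_div_of_nonneg_right _ (Real.rpow_nonneg hL0.le _)
  have h2 : 0 ≤ C * Real.log L := by positivity
  calc C * Real.log L * (V1 T * GG T k c + 1) ≤ C * Real.log L * (2 * (V1 T * GG T k c)) := by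
        apply mul_le_mul_of_nonneg_left _ h2
        linarith
    _ = _ := by ring

theorem cc_mem {T N p : ℕ} (hp : p ∈ cc T N) : p.Prime ∧ p ∣ N ∧ z0 T < p ∧ p ≤ Y1 T := by
  unfold cc at hp
  rw [Finset.mem_filter, Nat.mem_primeFactors] at hp
  exact ⟨hp.1.1, hp.1.2.1, hp.2⟩

theorem dd_mem {T N p : ℕ} (hp : p ∈ dd T N) : p.Prime ∧ p ∣ N ∧ Y1 T < p := by
  unfold dd at hp
  rw [Finset.mem_filter, Nat.mem_primeFactors] at hp
  exact ⟨hp.1.1, hp.1.2.1, hp.2⟩

theorem cc_mem_C0 {T N k : ℕ} (h : (cc T N).card ≤ k) : cc T N ∈ C0 T k := by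
  unfold C0
  rw [Finset.mem_filter, Finset.mem_powerset]
  refine ⟨fun p hp => ?_, by omega⟩
  have := cc_mem hp
  exact mem_RR.mpr ⟨this.1, this.2.2⟩

theorem sp_mem_A0 {T N : ℕ} (hN : N ≠ 0) (hNT : N ≤ T) : sp (z0 T) N ∈ A0 T := by
  classical
  unfold A0
  rw [Finset.mem_filter, Finset.mem_Icc]
  refine ⟨⟨sp_pos _ _, (Nat.le_of_dvd (Nat.pos_of_ne_zero hN) (sp_dvd hN)).trans hNT⟩, ?_⟩
  intro p hp hpd
  exact sp_smooth hp hpd

theorem one_div_nat_mul (T a b : ℕ) : (T : ℝ) / ((a * b : ℕ) : ℝ) = T * (1 / a) * (1 / b) := by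
  push_cast; rw [one_div, one_div, div_eq_mul_inv, mul_inv]; ring

theorem one_div_prod (c : Finset ℕ) : (1 : ℝ) / ((∏ p ∈ c, p : ℕ) : ℝ) = ∏ p ∈ c, (1 : ℝ) / p := by
  rw [Nat.cast_prod, one_div, ← Finset.prod_inv_distrib]
  simp

/-- data for numbers with at least two large prime factors -/
def P5 (T k n : ℕ) : Prop := Good T n ∧ NoSq T n ∧ (sp (z0 T) n : ℝ) ≤ Real.exp (v0 T) ∧
  (cc T n).card ≤ k ∧ 2 ≤ (dd T n).card

open scoped Classical in
noncomputable def Rset (T a : ℕ) (c : Finset ℕ) (q : ℕ) : Finset ℕ :=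
  (Finset.range (T / (a * (∏ p ∈ c, p) * q) + 1)).filter (fun r =>
    (∀ p : ℕ, p.Prime → p ∣ 0 + r → Y1 T < p) ∧ Y1 T ≤ T / (a * (∏ p ∈ c, p) * q))

open scoped Classical in
theorem Rset_card : ∃ C : ℝ, 1 ≤ C ∧ ∀ᶠ T : ℕ in atTop, ∀ (a : ℕ) (c : Finset ℕ) (q : ℕ),
    ((Rset T a c q).card : ℝ) ≤
      (C * T / (Real.log T) ^ (3 / 5 : ℝ)) * ((1 / a) * ((∏ p ∈ c, (1 : ℝ) / p) * (1 / q))) := by
  obtain ⟨C, hC, hr⟩ := rough_count
  refine ⟨4 * C, by linarith, ?_⟩
  filter_upwards [Y1_facts, tendsto_logT.eventually_ge_atTop 12] with T hY hL a c q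
  set L := Real.log T with hLdef
  have hL0 : 0 < L := by linarith
  have hL35 : 0 < L ^ (3 / 5 : ℝ) := Real.rpow_pos_of_pos hL0 _
  set X := T / (a * (∏ p ∈ c, p) * q) with hX
  by_cases hYX : Y1 T ≤ X
  · have h1 := hr 0 (X + 1) (Y1 T) (by have := hY.1; omega) (by omega)
    have h2 : ((Rset T a c q).card : ℝ) ≤ C * ((X + 1 : ℕ) : ℝ) / Real.log (Y1 T) := by
      refine le_trans ?_ h1
      have : Rset T a c q ⊆ (Finset.range (X + 1)).filter
          (fun r => ∀ p : ℕ, p.Prime → p ∣ 0 + r → Y1 T < p) := by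
        intro r hr
        unfold Rset at hr
        rw [Finset.mem_filter] at hr ⊢
        exact ⟨hr.1, hr.2.1⟩
      exact_mod_cast Finset.card_le_card this
    refine h2.trans ?_
    have hX1 : (1 : ℝ) ≤ X := by
      have : 1 ≤ X := by have := hY.1; omega
      exact_mod_cast this
    have hXT : (X : ℝ) ≤ T * ((1 / a) * ((∏ p ∈ c, (1 : ℝ) / p) * (1 / q))) := by
      have h3 : (X : ℝ) ≤ T / ((a * (∏ p ∈ c, p) * q : ℕ) : ℝ) := Nat.cast_div_le
      refine h3.trans (le_of_eq ?_)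
      rw [← one_div_prod]
      push_cast
      rw [one_div, one_div, one_div, div_eq_mul_inv, mul_inv, mul_inv]
      ring
    have hXT0 : 0 ≤ (T : ℝ) * ((1 / a) * ((∏ p ∈ c, (1 : ℝ) / p) * (1 / q))) :=
      le_trans (by linarith) hXT
    have hY2 := hY.2.2.1
    calc C * ((X + 1 : ℕ) : ℝ) / Real.log (Y1 T)
        ≤ C * (2 * (T * ((1 / a) * ((∏ p ∈ c, (1 : ℝ) / p) * (1 / q))))) /
          (L ^ (3 / 5 : ℝ) / 2) := by
          apply div_le_div₀ (by positivity) _ (by positivity) hY2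
          apply mul_le_mul_of_nonneg_left _ (by linarith)
          push_cast
          linarith
      _ = _ := by field_simp; ring
  · have : Rset T a c q = ∅ := by
      unfold Rset
      rw [Finset.filter_eq_empty_iff]
      intro r _ h
      exact hYX h.2
    rw [this, Finset.card_empty, Nat.cast_zero]
    have h5 : 0 ≤ ∏ p ∈ c, (1 : ℝ) / p := Finset.prod_nonneg fun _ _ => by positivity
    positivity

open scoped Classical in
theorem count_E5 (k : ℕ) : ∀ᶠ T : ℕ in atTop,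
    (((Finset.Icc 1 T).filter (fun n => P5 T k n)).card : ℝ) ≤
      T * (Real.log T) ^ (-(11 / 10) : ℝ) := by
  obtain ⟨CR, hCR, hR⟩ := Rset_card
  obtain ⟨CQ, hCQ, hQ⟩ := QQ_sum k
  obtain ⟨CS, hCS, hS⟩ := smooth_sum
  obtain ⟨CG, hCG, hGs⟩ := gg_sum k
  have hfin := polylog_le (12 * CR * CQ * CS * CG) (4 * (k + 1) + 2)
    (-(6 / 5) + 1 / 250) (-(11 / 10)) (by norm_num)
  filter_upwards [hR, hQ, hS, hGs, Y1_facts, b1_gain k, tendsto_logT.eventually_ge_atTop 12,
    tendsto_loglogT.eventually_ge_atTop 2, tendsto_logT.eventually hfin]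
    with T hRT hQT hST hGT hY hb1 hL hLL hfinT
  set L := Real.log T with hLdef
  have hL0 : 0 < L := by linarith
  have hsub : (Finset.Icc 1 T).filter (fun n => P5 T k n) ⊆
      (A0 T).biUnion (fun a => (C0 T k).biUnion (fun c => (QQ T k c).biUnion (fun q =>
        (Rset T a c q).image (fun r => a * (∏ p ∈ c, p) * q * r)))) := by
    intro n hn
    rw [Finset.mem_filter, Finset.mem_Icc] at hn
    obtain ⟨⟨hn1, hnT⟩, hG, hsq, hsp, hck, hd2⟩ := hn
    have hdne : (dd T n).Nonempty := by rw [← Finset.card_pos]; omega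
    obtain ⟨q, hqd, hDq⟩ := hb1 n hG hsq hsp hck hdne
    have hq := dd_mem hqd
    have hsplit := split_full hG.ne hsq hY.2.2.2
    set r := ∏ p ∈ (dd T n).erase q, p with hr
    have hprod : ∏ p ∈ dd T n, p = q * r := (Finset.mul_prod_erase _ _ hqd).symm
    rw [hprod] at hsplit
    have hneq : n = sp (z0 T) n * (∏ p ∈ cc T n, p) * q * r := by
      conv_lhs => rw [hsplit]
      ring
    have hcpos : 0 < ∏ p ∈ cc T n, p := Finset.prod_pos fun p hp => (cc_mem hp).1.pos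
    have hden : 0 < sp (z0 T) n * (∏ p ∈ cc T n, p) * q :=
      Nat.mul_pos (Nat.mul_pos (sp_pos _ _) hcpos) hq.1.pos
    have hrpos : 0 < r := Finset.prod_pos fun p hp => (dd_mem (Finset.mem_of_mem_erase hp)).1.pos
    have hrX : r ≤ T / (sp (z0 T) n * (∏ p ∈ cc T n, p) * q) := by
      rw [Nat.le_div_iff_mul_le hden]
      calc r * (sp (z0 T) n * (∏ p ∈ cc T n, p) * q) =
            sp (z0 T) n * (∏ p ∈ cc T n, p) * q * r := by ring
        _ = n := hneq.symm
        _ ≤ T := hnT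
    have hdne2 : ((dd T n).erase q).Nonempty := by
      rw [← Finset.card_pos, Finset.card_erase_of_mem hqd]; omega
    obtain ⟨q', hq'⟩ := hdne2
    have hq'd := dd_mem (Finset.mem_of_mem_erase hq')
    have hq'r : q' ≤ r := Nat.le_of_dvd hrpos (Finset.dvd_prod_of_mem _ hq')
    rw [Finset.mem_biUnion]
    refine ⟨sp (z0 T) n, sp_mem_A0 hG.ne hnT, ?_⟩
    rw [Finset.mem_biUnion]
    refine ⟨cc T n, cc_mem_C0 hck, ?_⟩
    rw [Finset.mem_biUnion]
    refine ⟨q, ?_, ?_⟩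
    · unfold QQ
      rw [Finset.mem_filter, Finset.mem_Icc]
      exact ⟨⟨hq.1.pos, (Nat.le_of_dvd (by omega) hq.2.1).trans hnT⟩, hq.1, hq.2.2, hDq⟩
    · rw [Finset.mem_image]
      refine ⟨r, ?_, hneq.symm⟩
      unfold Rset
      rw [Finset.mem_filter, Finset.mem_range]
      refine ⟨by omega, ?_, by omega⟩
      intro p hp hpr
      rw [zero_add] at hpr
      obtain ⟨s, hs, hps⟩ := (hp.prime.dvd_finsetProd_iff _).mp hpr
      have hs' := dd_mem (Finset.mem_of_mem_erase hs)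
      have := (Nat.prime_dvd_prime_iff_eq hp hs'.1).mp hps
      rw [this]; exact hs'.2.2
  have hcard : (((Finset.Icc 1 T).filter (fun n => P5 T k n)).card : ℝ) ≤
      ∑ a ∈ A0 T, ∑ c ∈ C0 T k, ∑ q ∈ QQ T k c, ((Rset T a c q).card : ℝ) := by
    have h1 : ((Finset.Icc 1 T).filter (fun n => P5 T k n)).card ≤
        ∑ a ∈ A0 T, ∑ c ∈ C0 T k, ∑ q ∈ QQ T k c, (Rset T a c q).card := by
      refine (Finset.card_le_card hsub).trans (Finset.card_biUnion_le.trans ?_)
      apply Finset.sum_le_sum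
      intro a _
      refine Finset.card_biUnion_le.trans ?_
      apply Finset.sum_le_sum
      intro c _
      refine Finset.card_biUnion_le.trans ?_
      apply Finset.sum_le_sum
      intro q _
      exact Finset.card_image_le
    exact_mod_cast h1
  set K1 := CR * T / L ^ (3 / 5 : ℝ) with hK1
  have hL35 : 0 < L ^ (3 / 5 : ℝ) := Real.rpow_pos_of_pos hL0 _
  have hK1nn : 0 ≤ K1 := by positivity
  set K2 := CQ * Real.log L * V1 T / L ^ (3 / 5 : ℝ) with hK2
  have hV : 1 ≤ V1 T := V1_pos (by linarith) (by linarith)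
  have hK2nn : 0 ≤ K2 := by positivity
  calc (((Finset.Icc 1 T).filter (fun n => P5 T k n)).card : ℝ)
      ≤ ∑ a ∈ A0 T, ∑ c ∈ C0 T k, ∑ q ∈ QQ T k c, ((Rset T a c q).card : ℝ) := hcard
    _ ≤ ∑ a ∈ A0 T, ∑ c ∈ C0 T k, ∑ q ∈ QQ T k c,
        K1 * ((1 / a) * ((∏ p ∈ c, (1 : ℝ) / p) * (1 / q))) := by
        apply Finset.sum_le_sum; intro a _
        apply Finset.sum_le_sum; intro c _
        apply Finset.sum_le_sum; intro q _
        exact hRT a c q
    _ = ∑ a ∈ A0 T, ∑ c ∈ C0 T k,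
        K1 * ((1 / a) * ((∏ p ∈ c, (1 : ℝ) / p) * ∑ q ∈ QQ T k c, (1 : ℝ) / q)) := by
        apply Finset.sum_congr rfl; intro a _
        apply Finset.sum_congr rfl; intro c _
        rw [Finset.mul_sum, Finset.mul_sum, Finset.mul_sum]
    _ ≤ ∑ a ∈ A0 T, ∑ c ∈ C0 T k,
        K1 * ((1 / a) * ((∏ p ∈ c, (1 : ℝ) / p) * (K2 * GG T k c))) := by
        apply Finset.sum_le_sum; intro a _
        apply Finset.sum_le_sum; intro c _
        have h5 : 0 ≤ ∏ p ∈ c, (1 : ℝ) / p := Finset.prod_nonneg fun _ _ => by positivity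
        have h6 : ∑ q ∈ QQ T k c, (1 : ℝ) / q ≤ K2 * GG T k c := by
          refine (hQT c).trans (le_of_eq ?_)
          rw [hK2]; ring
        have h7 : (0 : ℝ) ≤ 1 / (a : ℝ) := by positivity
        exact mul_le_mul_of_nonneg_left (mul_le_mul_of_nonneg_left
          (mul_le_mul_of_nonneg_left h6 h5) h7) hK1nn
    _ = K1 * K2 * ((∑ a ∈ A0 T, (1 : ℝ) / a) *
        ∑ c ∈ C0 T k, (∏ p ∈ c, (1 : ℝ) / p) * GG T k c) := by
        rw [Finset.sum_mul_sum, Finset.mul_sum]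
        apply Finset.sum_congr rfl; intro a _
        rw [Finset.mul_sum]
        apply Finset.sum_congr rfl; intro c _
        ring
    _ ≤ K1 * K2 * ((CS * L ^ (1 / 500 : ℝ)) * (CG * (Real.log L) ^ (4 * (k + 1)))) := by
        apply mul_le_mul_of_nonneg_left _ (by positivity)
        apply mul_le_mul hST hGT _ (by positivity)
        apply Finset.sum_nonneg
        intro c _
        have h5 : 0 ≤ ∏ p ∈ c, (1 : ℝ) / p := Finset.prod_nonneg fun _ _ => by positivity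
        have := one_le_GG T k c
        nlinarith
    _ = T * (12 * CR * CQ * CS * CG * (Real.log L) ^ (4 * (k + 1) + 2) *
        L ^ (-(6 / 5) + 1 / 250 : ℝ)) := by
        have e1 : L ^ (-(6 / 5) + 1 / 250 : ℝ) =
            (L ^ (3 / 5 : ℝ))⁻¹ * (L ^ (3 / 5 : ℝ))⁻¹ * (L ^ (1 / 500 : ℝ) * L ^ (1 / 500 : ℝ)) := by
          rw [← Real.rpow_neg hL0.le, ← Real.rpow_add hL0, ← Real.rpow_add hL0,
            ← Real.rpow_add hL0]
          norm_num
        rw [e1, hK1, hK2]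
        unfold V1
        rw [← hLdef, pow_add]
        field_simp
    _ ≤ T * L ^ (-(11 / 10) : ℝ) := mul_le_mul_of_nonneg_left hfinT (by positivity)

end Pool.Agent.Helper923.PPS
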