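import Mathlib
import Pool.Agent.Helper923.PPS.ExcB

set_option autoImplicit false

open Finset Filter

namespace Pool.Agent.Helper923.PPS

/-- data for numbers with one large prime factor and a large cofactor -/
def P6 (T k n : ℕ) : Prop := Good T n ∧ NoSq T n ∧ (sp (z0 T) n : ℝ) ≤ Real.exp (v0 T) ∧
  (cc T n).card ≤ k ∧ (sp (Y1 T) n : ℝ) ≤ Real.exp (Real.log T / 3) ∧ (dd T n).card ≤ 1 ∧
  T < 4 * n ∧ ¬ ∃ m q : ℕ, q.Prime ∧ n = m * q ∧
    (m : ℝ) ≤ Real.exp ((Real.log T) ^ (1 / 200 : ℝ))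

open scoped Classical in
noncomputable def Pset (T k a : ℕ) (c : Finset ℕ) : Finset ℕ :=
  (Finset.range (T / (a * ∏ p ∈ c, p) + 1)).filter (fun q =>
    (0 + q * 1).Prime ∧ Real.exp (Real.log T / 2) ≤ ((T / (a * ∏ p ∈ c, p) : ℕ) : ℝ) ∧
      (Real.log T) ^ (1 / 200 : ℝ) ≤ V1 T * GG T k c)

open scoped Classical in
theorem Pset_card (k : ℕ) : ∃ C : ℝ, 1 ≤ C ∧ ∀ᶠ T : ℕ in atTop, ∀ (a : ℕ) (c : Finset ℕ),
    ((Pset T k a c).card : ℝ) ≤
      (C * T / Real.log T * (V1 T / (Real.log T) ^ (1 / 200 : ℝ))) *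
        ((1 / a) * ((∏ p ∈ c, (1 : ℝ) / p) * GG T k c)) := by
  obtain ⟨C, hC, hr⟩ := brun_titchmarsh
  refine ⟨4 * C, by linarith, ?_⟩
  filter_upwards [tendsto_logT.eventually_ge_atTop 12, tendsto_loglogT.eventually_ge_atTop 2,
    eventually_ge_atTop 2] with T hL hLL hT a c
  set L := Real.log T with hLdef
  have hL0 : 0 < L := by linarith
  have hLs : 0 < L ^ (1 / 200 : ℝ) := Real.rpow_pos_of_pos hL0 _
  have hV : 1 ≤ V1 T := V1_pos (by linarith) (by linarith)
  have hG := one_le_GG T k c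
  have h5 : 0 ≤ ∏ p ∈ c, (1 : ℝ) / p := Finset.prod_nonneg fun _ _ => by positivity
  set X := T / (a * ∏ p ∈ c, p) with hX
  by_cases hcond : Real.exp (L / 2) ≤ (X : ℝ) ∧ L ^ (1 / 200 : ℝ) ≤ V1 T * GG T k c
  · obtain ⟨hX1, hVG⟩ := hcond
    have hXR : (1 : ℝ) ≤ X := le_trans (Real.one_le_exp (by positivity)) hX1
    have hXN : 1 ≤ X := by exact_mod_cast hXR
    have h1 := hr 0 1 (X + 1) (by omega) (Or.inl rfl)
    have h2 : ((Pset T k a c).card : ℝ) ≤ C * ((X + 1 : ℕ) : ℝ) / Real.log ((X + 1 : ℕ) : ℝ) := by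
      refine le_trans ?_ h1
      have : Pset T k a c ⊆ (Finset.range (X + 1)).filter (fun q => (0 + q * 1).Prime) := by
        intro r hr
        unfold Pset at hr
        rw [Finset.mem_filter] at hr ⊢
        exact ⟨hr.1, hr.2.1⟩
      have h9 : ((Pset T k a c).card : ℝ) ≤
          (((Finset.range (X + 1)).filter (fun q => (0 + q * 1).Prime)).card : ℝ) := by
        exact_mod_cast Finset.card_le_card this
      refine h9.trans (le_of_eq ?_)
      congr!
    have hlog : L / 2 ≤ Real.log ((X + 1 : ℕ) : ℝ) := by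
      rw [← Real.log_exp (L / 2)]
      apply Real.log_le_log (Real.exp_pos _)
      push_cast
      linarith
    have hXT : (X : ℝ) ≤ T * ((1 / a) * ∏ p ∈ c, (1 : ℝ) / p) := by
      have h3 : (X : ℝ) ≤ T / ((a * ∏ p ∈ c, p : ℕ) : ℝ) := Nat.cast_div_le
      refine h3.trans (le_of_eq ?_)
      rw [← one_div_prod]
      push_cast
      rw [one_div, one_div, div_eq_mul_inv, mul_inv]
    have hXT0 : 0 ≤ (T : ℝ) * ((1 / a) * ∏ p ∈ c, (1 : ℝ) / p) := le_trans (by linarith) hXT
    have hone : 1 ≤ V1 T * GG T k c / L ^ (1 / 200 : ℝ) := by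
      rw [le_div_iff₀ hLs]; linarith
    have h6 : 0 ≤ C * (2 * (T * ((1 / a) * ∏ p ∈ c, (1 : ℝ) / p))) / (L / 2) := by positivity
    calc ((Pset T k a c).card : ℝ) ≤ C * ((X + 1 : ℕ) : ℝ) / Real.log ((X + 1 : ℕ) : ℝ) := h2
      _ ≤ C * (2 * (T * ((1 / a) * ∏ p ∈ c, (1 : ℝ) / p))) / (L / 2) := by
          apply div_le_div₀ (by positivity) _ (by positivity) hlog
          apply mul_le_mul_of_nonneg_left _ (by linarith)
          push_cast
          linarith
      _ = C * (2 * (T * ((1 / a) * ∏ p ∈ c, (1 : ℝ) / p))) / (L / 2) * 1 := by ring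
      _ ≤ C * (2 * (T * ((1 / a) * ∏ p ∈ c, (1 : ℝ) / p))) / (L / 2) *
          (V1 T * GG T k c / L ^ (1 / 200 : ℝ)) := mul_le_mul_of_nonneg_left hone h6
      _ = _ := by field_simp; ring
  · have : Pset T k a c = ∅ := by
      unfold Pset
      rw [Finset.filter_eq_empty_iff]
      intro r _ h
      exact hcond h.2
    rw [this, Finset.card_empty, Nat.cast_zero]
    positivity

open scoped Classical in
theorem count_E6 (k : ℕ) : ∀ᶠ T : ℕ in atTop,
    (((Finset.Icc 1 T).filter (fun n => P6 T k n)).card : ℝ) ≤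
      T * (Real.log T) ^ (-(1 + 1 / 1500) : ℝ) := by
  obtain ⟨CP, hCP, hP⟩ := Pset_card k
  obtain ⟨CS, hCS, hS⟩ := smooth_sum
  obtain ⟨CG, hCG, hGs⟩ := gg_sum k
  have hfin := polylog_le (12 * CP * CS * CG) (4 * (k + 1) + 1)
    (-(1 + 1 / 200) + 1 / 250) (-(1 + 1 / 1500)) (by norm_num)
  filter_upwards [hP, hS, hGs, Y1_facts, b2_gain k, tendsto_logT.eventually_ge_atTop 30,
    tendsto_loglogT.eventually_ge_atTop 2, tendsto_logT.eventually hfin, eventually_ge_atTop 2]
    with T hPT hST hGT hY hb2 hL hLL hfinT hT2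
  set L := Real.log T with hLdef
  have hL0 : 0 < L := by linarith
  have hT0 : (0 : ℝ) < T := by exact_mod_cast (by omega : 0 < T)
  have hsub : (Finset.Icc 1 T).filter (fun n => P6 T k n) ⊆
      (A0 T).biUnion (fun a => (C0 T k).biUnion (fun c =>
        (Pset T k a c).image (fun q => a * (∏ p ∈ c, p) * q))) := by
    intro n hn
    rw [Finset.mem_filter, Finset.mem_Icc] at hn
    obtain ⟨⟨hn1, hnT⟩, hG, hsq, hsp, hck, hspY, hd1, hTn, hnot⟩ := hn
    have hcpos : 0 < ∏ p ∈ cc T n, p := Finset.prod_pos fun p hp => (cc_mem hp).1.pos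
    have hsplit := split_full hG.ne hsq hY.2.2.2
    set m := sp (z0 T) n * ∏ p ∈ cc T n, p with hm
    have hmpos : 0 < m := Nat.mul_pos (sp_pos _ _) hcpos
    -- m equals the Y1 smooth part
    have hm_sp : m = sp (Y1 T) n := by
      have h1 := Finset.prod_filter_mul_prod_filter_not n.primeFactors (fun p => p ≤ Y1 T)
        (fun p => p ^ n.factorization p)
      have h2 : n = ∏ p ∈ n.primeFactors, p ^ n.factorization p := by
        conv_lhs => rw [← Nat.prod_factorization_pow_eq_self hG.ne]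
        rfl
      rw [← h2] at h1
      have h3 : ∏ p ∈ n.primeFactors.filter (fun p => ¬ p ≤ Y1 T), p ^ n.factorization p =
          ∏ p ∈ dd T n, p := by
        have h4 : n.primeFactors.filter (fun p => ¬ p ≤ Y1 T) = dd T n := by
          unfold dd
          apply Finset.filter_congr
          intro p _
          constructor
          · intro h; omega
          · intro h; omega
        rw [h4]
        apply Finset.prod_congr rfl
        intro p hp
        have h5 := dd_mem hp
        rw [fact_one hG.ne hsq (Nat.mem_primeFactors.mpr ⟨h5.1, h5.2.1, hG.ne⟩)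
          (lt_of_le_of_lt hY.2.2.2 h5.2.2), pow_one]
      rw [h3] at h1
      have hdpos : 0 < ∏ p ∈ dd T n, p := Finset.prod_pos fun p hp => (dd_mem hp).1.pos
      have h6 : m * ∏ p ∈ dd T n, p = sp (Y1 T) n * ∏ p ∈ dd T n, p := by
        rw [← hsplit]
        exact h1.symm
      exact Nat.eq_of_mul_eq_mul_right hdpos h6
    have hmle : (m : ℝ) ≤ Real.exp (L / 3) := by rw [hm_sp]; exact hspY
    have hexp4 : (4 : ℝ) < Real.exp (L / 6) := by
      have h1 : Real.exp 5 ≤ Real.exp (L / 6) := Real.exp_le_exp.mpr (by linarith)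
      have h2 := Real.add_one_le_exp (5 : ℝ)
      linarith
    have hTn' : (T : ℝ) < 4 * n := by exact_mod_cast hTn
    have hTexp : Real.exp L = T := Real.exp_log hT0
    have hn0 : (0 : ℝ) < n := by exact_mod_cast hn1
    have hm0 : (0 : ℝ) < m := by exact_mod_cast hmpos
    -- exactly one large prime
    have hd : (dd T n).Nonempty := by
      by_contra hcon
      rw [Finset.not_nonempty_iff_eq_empty] at hcon
      rw [hcon, Finset.prod_empty, mul_one] at hsplit
      have h1 : (n : ℝ) ≤ Real.exp (L / 3) := by rw [hsplit]; exact hmle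
      have h2 : Real.exp L = Real.exp (L / 3) * Real.exp (L / 6) * Real.exp (L / 2) := by
        rw [← Real.exp_add, ← Real.exp_add]; ring_nf
      have h3 : 1 ≤ Real.exp (L / 2) := Real.one_le_exp (by positivity)
      have h4 : 0 < Real.exp (L / 3) := Real.exp_pos _
      have h5 : 4 * Real.exp (L / 3) ≤ Real.exp (L / 3) * Real.exp (L / 6) * Real.exp (L / 2) := by
        calc 4 * Real.exp (L / 3) = Real.exp (L / 3) * 4 * 1 := by ring
          _ ≤ Real.exp (L / 3) * Real.exp (L / 6) * Real.exp (L / 2) := by gcongr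
      linarith
    obtain ⟨q, hqd⟩ := hd
    have hdq : dd T n = {q} := by
      have h1 : (dd T n).card = 1 := le_antisymm hd1 (Finset.card_pos.mpr ⟨q, hqd⟩)
      obtain ⟨q', hq'⟩ := Finset.card_eq_one.mp h1
      rw [hq', Finset.mem_singleton] at hqd
      rw [hq', hqd]
    rw [hdq, Finset.prod_singleton] at hsplit
    have hq := dd_mem hqd
    have hq0 : (0 : ℝ) < q := by exact_mod_cast hq.1.pos
    have hnR : (n : ℝ) = m * q := by exact_mod_cast hsplit
    -- q is large
    have hqbig : Real.exp (L / 2) < q := by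
      have h1 : Real.exp L = Real.exp (L / 3) * Real.exp (L / 6) * Real.exp (L / 2) := by
        rw [← Real.exp_add, ← Real.exp_add]; ring_nf
      by_contra hcon
      push Not at hcon
      have h2 : (n : ℝ) ≤ Real.exp (L / 3) * Real.exp (L / 2) := by
        rw [hnR]; exact mul_le_mul hmle hcon hq0.le (Real.exp_pos _).le
      have h3 : 0 < Real.exp (L / 3) * Real.exp (L / 2) := by positivity
      have h4 : 4 * (Real.exp (L / 3) * Real.exp (L / 2)) ≤
          Real.exp (L / 3) * Real.exp (L / 6) * Real.exp (L / 2) := by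
        calc 4 * (Real.exp (L / 3) * Real.exp (L / 2)) ≤
              Real.exp (L / 6) * (Real.exp (L / 3) * Real.exp (L / 2)) :=
              mul_le_mul_of_nonneg_right hexp4.le h3.le
          _ = _ := by ring
      linarith
    have hqT : q ≤ T := (Nat.le_of_dvd (by omega) hq.2.1).trans hnT
    have hlog1 : Nat.log q T = 1 := by
      rw [Nat.log_eq_iff (Or.inl one_ne_zero)]
      refine ⟨by rw [pow_one]; exact hqT, ?_⟩
      have h1 : (T : ℝ) < (q : ℝ) ^ 2 := by
        have h2 : Real.exp L = Real.exp (L / 2) * Real.exp (L / 2) := by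
          rw [← Real.exp_add]; ring_nf
        rw [← hTexp, h2]
        have h3 := Real.exp_pos (L / 2)
        nlinarith
      exact_mod_cast h1
    have hDD : Real.log m ≤ DD T q := by
      unfold DD pw
      rw [hlog1, pow_one]
      have h1 : Real.log n ≤ Real.log T := Real.log_le_log hn0 (by exact_mod_cast hnT)
      rw [hnR, Real.log_mul hm0.ne' hq0.ne'] at h1
      linarith
    have hgain := hb2 n hG hsq hsp hck (fun q' hq' => by
      rw [hdq, Finset.mem_singleton] at hq'
      rw [hq']; exact hDD)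
    have hmbig : L ^ (1 / 200 : ℝ) ≤ Real.log m := by
      have h1 : Real.exp (L ^ (1 / 200 : ℝ)) < m := by
        by_contra hcon
        push Not at hcon
        exact hnot ⟨m, q, hq.1, hsplit, hcon⟩
      have := Real.log_le_log (Real.exp_pos _) h1.le
      rwa [Real.log_exp] at this
    have hqX : q ≤ T / m := by
      rw [Nat.le_div_iff_mul_le hmpos]
      calc q * m = m * q := by ring
        _ = n := hsplit.symm
        _ ≤ T := hnT
    rw [Finset.mem_biUnion]
    refine ⟨sp (z0 T) n, sp_mem_A0 hG.ne hnT, ?_⟩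
    rw [Finset.mem_biUnion]
    refine ⟨cc T n, cc_mem_C0 hck, ?_⟩
    rw [Finset.mem_image]
    refine ⟨q, ?_, hsplit.symm⟩
    unfold Pset
    rw [Finset.mem_filter, Finset.mem_range]
    refine ⟨Nat.lt_succ_of_le hqX, by simpa using hq.1, ?_, hmbig.trans hgain⟩
    have h1 : (q : ℝ) ≤ ((T / m : ℕ) : ℝ) := by exact_mod_cast hqX
    exact hqbig.le.trans h1
  have hcard : (((Finset.Icc 1 T).filter (fun n => P6 T k n)).card : ℝ) ≤
      ∑ a ∈ A0 T, ∑ c ∈ C0 T k, ((Pset T k a c).card : ℝ) := by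
    have h1 : ((Finset.Icc 1 T).filter (fun n => P6 T k n)).card ≤
        ∑ a ∈ A0 T, ∑ c ∈ C0 T k, (Pset T k a c).card := by
      refine (Finset.card_le_card hsub).trans (Finset.card_biUnion_le.trans ?_)
      apply Finset.sum_le_sum
      intro a _
      refine Finset.card_biUnion_le.trans ?_
      apply Finset.sum_le_sum
      intro c _
      exact Finset.card_image_le
    exact_mod_cast h1
  have hV : 1 ≤ V1 T := V1_pos (by linarith) (by linarith)
  have hLs : 0 < L ^ (1 / 200 : ℝ) := Real.rpow_pos_of_pos hL0 _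
  set K1 := CP * T / L * (V1 T / L ^ (1 / 200 : ℝ)) with hK1
  have hK1nn : 0 ≤ K1 := by positivity
  calc (((Finset.Icc 1 T).filter (fun n => P6 T k n)).card : ℝ)
      ≤ ∑ a ∈ A0 T, ∑ c ∈ C0 T k, ((Pset T k a c).card : ℝ) := hcard
    _ ≤ ∑ a ∈ A0 T, ∑ c ∈ C0 T k,
        K1 * ((1 / a) * ((∏ p ∈ c, (1 : ℝ) / p) * GG T k c)) := by
        apply Finset.sum_le_sum; intro a _
        apply Finset.sum_le_sum; intro c _
        exact hPT a c
    _ = K1 * ((∑ a ∈ A0 T, (1 : ℝ) / a) *
        ∑ c ∈ C0 T k, (∏ p ∈ c, (1 : ℝ) / p) * GG T k c) := by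
        rw [Finset.sum_mul_sum, Finset.mul_sum]
        apply Finset.sum_congr rfl; intro a _
        rw [Finset.mul_sum]
    _ ≤ K1 * ((CS * L ^ (1 / 500 : ℝ)) * (CG * (Real.log L) ^ (4 * (k + 1)))) := by
        apply mul_le_mul_of_nonneg_left _ hK1nn
        apply mul_le_mul hST hGT _ (by positivity)
        apply Finset.sum_nonneg
        intro c _
        have h5 : 0 ≤ ∏ p ∈ c, (1 : ℝ) / p := Finset.prod_nonneg fun _ _ => by positivity
        have := one_le_GG T k c
        nlinarith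
    _ = T * (12 * CP * CS * CG * (Real.log L) ^ (4 * (k + 1) + 1) *
        L ^ (-(1 + 1 / 200) + 1 / 250 : ℝ)) := by
        have e1 : L ^ (-(1 + 1 / 200) + 1 / 250 : ℝ) =
            L⁻¹ * (L ^ (1 / 200 : ℝ))⁻¹ * (L ^ (1 / 500 : ℝ) * L ^ (1 / 500 : ℝ)) := by
          rw [← Real.rpow_neg hL0.le, ← Real.rpow_neg_one L, ← Real.rpow_add hL0,
            ← Real.rpow_add hL0, ← Real.rpow_add hL0]
          norm_num
        rw [e1, hK1]
        unfold V1
        rw [← hLdef, pow_add]
        field_simp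
    _ ≤ T * L ^ (-(1 + 1 / 1500) : ℝ) := mul_le_mul_of_nonneg_left hfinT (by positivity)

open scoped Classical in
/-- the exceptional set in a block -/
theorem exc_block : ∀ᶠ T : ℕ in atTop,
    (((Finset.Icc 1 T).filter (fun n : ℕ => T < 4 * n ∧ Crit n ∧
      ¬ ∃ m q : ℕ, q.Prime ∧ n = m * q ∧
        (m : ℝ) ≤ Real.exp ((Real.log T) ^ (1 / 200 : ℝ)))).card : ℝ) ≤
      T / (Real.log T) ^ (1 + 1 / 2000 : ℝ) := by
  obtain ⟨k, hk⟩ : ∃ k : ℕ, k = 1000 := ⟨_, rfl⟩
  filter_upwards [count_E1, count_E2, count_E3, count_E4 k hk, count_E5 k, count_E6 k,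
    good_of_crit, tendsto_logT.eventually (polylog_le 6 0 (-(1 + 1 / 1500)) (-(1 + 1 / 2000))
      (by norm_num)), tendsto_logT.eventually_ge_atTop 12]
    with T h1 h2 h3 h4 h5 h6 hgood hp hL
  set L := Real.log T with hLdef
  have hL0 : 0 < L := by linarith
  have hT0 : (0 : ℝ) ≤ T := by positivity
  set S := (Finset.Icc 1 T) with hS
  have hsub : S.filter (fun n : ℕ => T < 4 * n ∧ Crit n ∧
      ¬ ∃ m q : ℕ, q.Prime ∧ n = m * q ∧ (m : ℝ) ≤ Real.exp (L ^ (1 / 200 : ℝ))) ⊆
      S.filter (fun n => Real.exp (v0 T) < (sp (z0 T) n : ℝ)) ∪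
      (S.filter (fun n => Real.exp (L / 3) < (sp (Y1 T) n : ℝ)) ∪
      (S.filter (fun n => ¬ NoSq T n) ∪
      (S.filter (fun n => Good T n ∧ k < (cc T n).card) ∪
      (S.filter (fun n => P5 T k n) ∪ S.filter (fun n => P6 T k n))))) := by
    intro n hn
    rw [Finset.mem_filter] at hn
    obtain ⟨hnS, hTn, hc, hnot⟩ := hn
    have hnS' := Finset.mem_Icc.mp hnS
    have hG := hgood n hc hnS'.2 hTn
    simp only [Finset.mem_union, Finset.mem_filter]
    by_cases c1 : Real.exp (v0 T) < (sp (z0 T) n : ℝ)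
    · exact Or.inl ⟨hnS, c1⟩
    by_cases c2 : Real.exp (L / 3) < (sp (Y1 T) n : ℝ)
    · exact Or.inr (Or.inl ⟨hnS, c2⟩)
    by_cases c3 : NoSq T n
    · by_cases c4 : k < (cc T n).card
      · exact Or.inr (Or.inr (Or.inr (Or.inl ⟨hnS, hG, c4⟩)))
      · by_cases c5 : 2 ≤ (dd T n).card
        · exact Or.inr (Or.inr (Or.inr (Or.inr (Or.inl ⟨hnS, hG, c3, not_lt.mp c1,
            not_lt.mp c4, c5⟩))))
        · exact Or.inr (Or.inr (Or.inr (Or.inr (Or.inr ⟨hnS, hG, c3, not_lt.mp c1,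
            not_lt.mp c4, not_lt.mp c2, by omega, hTn, hnot⟩))))
    · exact Or.inr (Or.inr (Or.inl ⟨hnS, c3⟩))
  have hmono : ∀ a : ℝ, a ≤ -(1 + 1 / 1500) → T * L ^ a ≤ T * L ^ (-(1 + 1 / 1500) : ℝ) := by
    intro a ha
    apply mul_le_mul_of_nonneg_left _ hT0
    exact Real.rpow_le_rpow_of_exponent_le (by linarith) ha
  have hcard := (Finset.card_le_card hsub).trans ((Finset.card_union_le _ _).trans
    (Nat.add_le_add_left ((Finset.card_union_le _ _).trans (Nat.add_le_add_left
      ((Finset.card_union_le _ _).trans (Nat.add_le_add_left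
        ((Finset.card_union_le _ _).trans (Nat.add_le_add_left
          (Finset.card_union_le _ _) _)) _)) _)) _))
  have hcard' : ((S.filter (fun n : ℕ => T < 4 * n ∧ Crit n ∧
      ¬ ∃ m q : ℕ, q.Prime ∧ n = m * q ∧ (m : ℝ) ≤ Real.exp (L ^ (1 / 200 : ℝ)))).card : ℝ) ≤
      ((S.filter (fun n => Real.exp (v0 T) < (sp (z0 T) n : ℝ))).card : ℝ) +
      (((S.filter (fun n => Real.exp (L / 3) < (sp (Y1 T) n : ℝ))).card : ℝ) +
      (((S.filter (fun n => ¬ NoSq T n)).card : ℝ) +
      (((S.filter (fun n => Good T n ∧ k < (cc T n).card)).card : ℝ) +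
      (((S.filter (fun n => P5 T k n)).card : ℝ) +
        ((S.filter (fun n => P6 T k n)).card : ℝ))))) := by
    exact_mod_cast hcard
  have g1 := h1.trans (hmono (-(3 / 2)) (by norm_num))
  have g2 := h2.trans (hmono (-(3 / 2)) (by norm_num))
  have g3 := h3.trans (hmono (-(3 / 2)) (by norm_num))
  have g4 := h4.trans (hmono (-(3 / 2)) (by norm_num))
  have g5 := h5.trans (hmono (-(11 / 10)) (by norm_num))
  calc _ ≤ _ := hcard'
    _ ≤ 6 * (T * L ^ (-(1 + 1 / 1500) : ℝ)) := by
        have e1 : ((S.filter (fun n => Real.exp (v0 T) < (sp (z0 T) n : ℝ))).card : ℝ) ≤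
            T * L ^ (-(1 + 1 / 1500) : ℝ) := by
          refine le_trans (le_of_eq ?_) g1
          congr!
        have e2 : ((S.filter (fun n => Real.exp (L / 3) < (sp (Y1 T) n : ℝ))).card : ℝ) ≤
            T * L ^ (-(1 + 1 / 1500) : ℝ) := by
          refine le_trans (le_of_eq ?_) g2
          congr!
        linarith
    _ = T * (6 * L ^ (-(1 + 1 / 1500) : ℝ)) := by ring
    _ ≤ T * L ^ (-(1 + 1 / 2000) : ℝ) := by
        apply mul_le_mul_of_nonneg_left _ hT0
        rw [pow_zero, mul_one] at hp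
        exact hp
    _ = T / L ^ (1 + 1 / 2000 : ℝ) := by
        rw [Real.rpow_neg hL0.le]
        exact (div_eq_mul_inv _ _).symm

end Pool.Agent.Helper923.PPS
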