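import Mathlib
import Pool.Agent.Helper923.PPS.ExcC

set_option autoImplicit false

open Finset Filter

namespace Pool.Agent.Helper923.PPS

theorem sum_image_le' {ι α : Type*} [DecidableEq α] (s : Finset ι) (φ : ι → α)
    (g : α → ℝ) (hg : ∀ a, 0 ≤ g a) : ∑ x ∈ s.image φ, g x ≤ ∑ i ∈ s, g (φ i) := by
  classical
  have h : s.image φ = s.biUnion (fun i => {φ i}) := by
    ext x; simp [eq_comm]
  rw [h]
  refine (sum_biUnion_le' s _ g hg).trans (le_of_eq ?_)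
  simp

theorem sum_le_param {ι α : Type*} [DecidableEq α] (S : Finset α) (P : Finset ι) (φ : ι → α)
    (g : α → ℝ) (w : ι → ℝ) (hg : ∀ a, 0 ≤ g a)
    (hS : ∀ m ∈ S, ∃ i ∈ P, φ i = m) (hw : ∀ i ∈ P, g (φ i) ≤ w i) :
    ∑ m ∈ S, g m ≤ ∑ i ∈ P, w i := by
  have hsub : S ⊆ P.image φ := by
    intro m hm
    obtain ⟨i, hi, h⟩ := hS m hm
    exact Finset.mem_image.mpr ⟨i, hi, h⟩
  calc ∑ m ∈ S, g m ≤ ∑ m ∈ P.image φ, g m :=
        Finset.sum_le_sum_of_subset_of_nonneg hsub (fun _ _ _ => hg _)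
    _ ≤ ∑ i ∈ P, g (φ i) := sum_image_le' _ _ _ hg
    _ ≤ ∑ i ∈ P, w i := Finset.sum_le_sum hw

theorem harm_T : ∀ᶠ T : ℕ in atTop, ∑ b ∈ Finset.Icc 1 (T ^ 2), (1 : ℝ) / b ≤ 3 * Real.log T := by
  filter_upwards [tendsto_logT.eventually_ge_atTop 1] with T hT
  have h := harmonic_le_one_add_log (T ^ 2)
  rw [harmonic_eq_sum_Icc] at h
  push_cast at h
  rw [Real.log_pow] at h
  push_cast at h
  calc ∑ b ∈ Finset.Icc 1 (T ^ 2), (1 : ℝ) / b = ∑ b ∈ Finset.Icc 1 (T ^ 2), ((b : ℝ))⁻¹ := by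
        simp only [one_div]
    _ ≤ 1 + 2 * Real.log T := h
    _ ≤ 3 * Real.log T := by linarith

open scoped Classical in
noncomputable def A2 (T : ℕ) : Finset ℕ :=
  (Finset.Icc 1 (T ^ 2)).filter (fun a => ∀ p : ℕ, p.Prime → p ∣ a → p ≤ z0 T)

theorem smooth_sum2 : ∃ C : ℝ, 1 ≤ C ∧ ∀ᶠ T : ℕ in atTop,
    ∑ a ∈ A2 T, (1 : ℝ) / a ≤ C * (Real.log T) ^ (1 / 500 : ℝ) := by
  classical
  obtain ⟨C, hC, hr⟩ := rankin HMertens.mertens_log HMertens.mertens_ratio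
  refine ⟨C, hC, ?_⟩
  filter_upwards [z0_facts] with T hz
  have h := hr (z0 T) 0 hz.1 le_rfl (A2 T) (fun a ha => by
    unfold A2 at ha
    rw [Finset.mem_filter, Finset.mem_Icc] at ha
    refine ⟨?_, ha.2⟩
    rw [Real.exp_zero]
    exact_mod_cast ha.1.1)
  rw [neg_zero, zero_div, Real.exp_zero, mul_one] at h
  exact h.trans (mul_le_mul_of_nonneg_left hz.2.1 (by linarith))

theorem sp_mem_A2 {T N : ℕ} (hN : N ≠ 0) (hNT : N ≤ T ^ 2) : sp (z0 T) N ∈ A2 T := by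
  classical
  unfold A2
  rw [Finset.mem_filter, Finset.mem_Icc]
  refine ⟨⟨sp_pos _ _, (Nat.le_of_dvd (Nat.pos_of_ne_zero hN) (sp_dvd hN)).trans hNT⟩, ?_⟩
  intro p hp hpd
  exact sp_smooth hp hpd

/-- large smooth part -/
theorem tail_1 : ∀ᶠ T : ℕ in atTop, ∀ S : Finset ℕ,
    (∀ m ∈ S, 1 ≤ m ∧ m ≤ T ^ 2 ∧ Real.exp (v0 T) < (sp (z0 T) m : ℝ)) →
    ∑ m ∈ S, (1 : ℝ) / m ≤ (Real.log T) ^ (-(1 / 3) : ℝ) := by
  classical
  obtain ⟨C, hC, hr⟩ := rankin HMertens.mertens_log HMertens.mertens_ratio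
  filter_upwards [z0_facts, harm_T, tendsto_logT.eventually_ge_atTop 12,
    tendsto_loglogT.eventually_ge_atTop 2,
    tendsto_logT.eventually (polylog_le (3 * C) 0 (1 / 500 + -10 + 1) (-(1 / 3)) (by norm_num))]
    with T hz hh hL hLL hp S hS
  set L := Real.log T with hLdef
  have hL0 : 0 < L := by linarith
  have hv0 : 0 ≤ v0 T := by
    unfold v0
    rw [← hLdef]
    have : 0 ≤ L ^ (1 / 500 : ℝ) := Real.rpow_nonneg hL0.le _
    positivity
  set B : Finset ℕ := (A2 T).filter (fun a : ℕ => Real.exp (v0 T) ≤ (a : ℝ)) with hB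
  have h1 := hr (z0 T) (v0 T) hz.1 hv0 B (fun a ha => by
    rw [hB, Finset.mem_filter] at ha
    unfold A2 at ha
    rw [Finset.mem_filter] at ha
    exact ⟨ha.2, ha.1.2⟩)
  have hlz : 0 < Real.log (z0 T) := Real.log_pos (by
    have : (3000 : ℝ) ≤ z0 T := by exact_mod_cast hz.1
    linarith)
  have h2 : Real.exp (-v0 T / Real.log (z0 T)) ≤ L ^ (-10 : ℝ) := by
    have h3 : 10 * Real.log L ≤ v0 T / Real.log (z0 T) := by
      rw [le_div_iff₀ hlz]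
      unfold v0
      rw [← hLdef]
      have : 10 * Real.log L * Real.log (z0 T) ≤ 10 * Real.log L * L ^ (1 / 500 : ℝ) :=
        mul_le_mul_of_nonneg_left hz.2.1 (by positivity)
      linarith
    rw [Real.rpow_def_of_pos hL0]
    apply Real.exp_le_exp.mpr
    rw [neg_div]
    linarith
  have h4 : ∑ m ∈ S, (1 : ℝ) / m ≤ ∑ i ∈ B ×ˢ Finset.Icc 1 (T ^ 2),
      (1 : ℝ) / i.1 * (1 / i.2) := by
    apply sum_le_param S (B ×ˢ Finset.Icc 1 (T ^ 2)) (fun i => i.1 * i.2)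
      (fun m => (1 : ℝ) / m) _ (fun _ => by positivity)
    · intro m hm
      have hm' := hS m hm
      have hm0 : m ≠ 0 := by omega
      refine ⟨(sp (z0 T) m, m / sp (z0 T) m), ?_, Nat.mul_div_cancel' (sp_dvd hm0)⟩
      rw [Finset.mem_product, Finset.mem_Icc, hB, Finset.mem_filter]
      refine ⟨⟨sp_mem_A2 hm0 hm'.2.1, hm'.2.2.le⟩, ?_, (Nat.div_le_self _ _).trans hm'.2.1⟩
      exact Nat.div_pos (Nat.le_of_dvd (by omega) (sp_dvd hm0)) (sp_pos _ _)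
    · intro i _
      push_cast
      rw [one_div_mul_one_div]
  refine h4.trans ?_
  rw [Finset.sum_product]
  calc ∑ a ∈ B, ∑ b ∈ Finset.Icc 1 (T ^ 2), (1 : ℝ) / a * (1 / b)
      = (∑ a ∈ B, (1 : ℝ) / a) * ∑ b ∈ Finset.Icc 1 (T ^ 2), (1 : ℝ) / b := by
        rw [Finset.sum_mul_sum]
    _ ≤ (C * L ^ (1 / 500 : ℝ) * L ^ (-10 : ℝ)) * (3 * L) := by
        apply mul_le_mul _ hh (Finset.sum_nonneg fun _ _ => by positivity) (by positivity)
        refine h1.trans ?_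
        apply mul_le_mul _ h2 (Real.exp_pos _).le (by positivity)
        exact mul_le_mul_of_nonneg_left hz.2.1 (by linarith)
    _ = 3 * C * L ^ (1 / 500 + -10 + 1 : ℝ) := by
        rw [Real.rpow_add hL0, Real.rpow_add hL0, Real.rpow_one]; ring
    _ ≤ L ^ (-(1 / 3) : ℝ) := by
        rw [pow_zero, mul_one] at hp
        exact hp

/-- squares -/
theorem tail_3 : ∀ᶠ T : ℕ in atTop, ∀ S : Finset ℕ,
    (∀ m ∈ S, 1 ≤ m ∧ m ≤ T ^ 2 ∧ ¬ NoSq T m) →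
    ∑ m ∈ S, (1 : ℝ) / m ≤ (Real.log T) ^ (-(1 / 3) : ℝ) := by
  classical
  filter_upwards [z0_facts, harm_T, tendsto_logT.eventually_ge_atTop 12,
    tendsto_logT.eventually (polylog_le 6 0 (-10 + 1) (-(1 / 3)) (by norm_num)),
    tendsto_logT.eventually (exp_small (1 / 500) 1 (-10) (by norm_num) (by norm_num))]
    with T hz hh hL hp he S hS
  set L := Real.log T with hLdef
  have hL0 : 0 < L := by linarith
  set P := Finset.Ioc (z0 T) (max (z0 T) (T ^ 2)) with hP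
  have h4 : ∑ m ∈ S, (1 : ℝ) / m ≤ ∑ i ∈ P ×ˢ Finset.Icc 1 (T ^ 2),
      ((i.1 : ℝ) ^ 2)⁻¹ * (1 / i.2) := by
    apply sum_le_param S (P ×ˢ Finset.Icc 1 (T ^ 2)) (fun i => i.1 ^ 2 * i.2)
      (fun m => (1 : ℝ) / m) _ (fun _ => by positivity)
    · intro m hm
      obtain ⟨hm1, hmT, hsq⟩ := hS m hm
      unfold NoSq at hsq
      push Not at hsq
      obtain ⟨p, hp1, hp2, hp3⟩ := hsq
      have hp2m : p ^ 2 ≤ m := Nat.le_of_dvd (by omega) hp3
      refine ⟨(p, m / p ^ 2), ?_, Nat.mul_div_cancel' hp3⟩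
      rw [Finset.mem_product, Finset.mem_Icc, hP, Finset.mem_Ioc]
      refine ⟨⟨hp2, le_max_of_le_right ?_⟩, ?_, (Nat.div_le_self _ _).trans hmT⟩
      · have := hp1.pos
        simp only
        nlinarith
      · exact Nat.div_pos hp2m (by have := hp1.pos; positivity)
    · intro i _
      push_cast
      rw [one_div, one_div, mul_inv]
  refine h4.trans ?_
  rw [Finset.sum_product]
  have hz0 : z0 T ≠ 0 := by have := hz.1; omega
  have hz0' : (0 : ℝ) < z0 T := by exact_mod_cast Nat.pos_of_ne_zero hz0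
  have h5 : ∑ p ∈ P, ((p : ℝ) ^ 2)⁻¹ ≤ 2 * L ^ (-10 : ℝ) := by
    have h2 := sum_Ioc_inv_sq_le_sub (α := ℝ) hz0 (le_max_left (z0 T) (T ^ 2))
    have h6 : (0 : ℝ) ≤ ((max (z0 T) (T ^ 2) : ℕ) : ℝ)⁻¹ := by positivity
    rw [one_mul, Real.exp_neg] at he
    calc ∑ p ∈ P, ((p : ℝ) ^ 2)⁻¹ ≤ 1 / (z0 T : ℝ) := by
          rw [one_div]; linarith
      _ ≤ 2 * (Real.exp (L ^ (1 / 500 : ℝ)))⁻¹ := by
          rw [div_le_iff₀ hz0', mul_comm (2 : ℝ), mul_assoc, ← div_eq_inv_mul,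
            le_div_iff₀ (Real.exp_pos _)]
          linarith [hz.2.2]
      _ ≤ 2 * L ^ (-10 : ℝ) := by linarith
  calc ∑ p ∈ P, ∑ b ∈ Finset.Icc 1 (T ^ 2), ((p : ℝ) ^ 2)⁻¹ * (1 / b)
      = (∑ p ∈ P, ((p : ℝ) ^ 2)⁻¹) * ∑ b ∈ Finset.Icc 1 (T ^ 2), (1 : ℝ) / b := by
        rw [Finset.sum_mul_sum]
    _ ≤ (2 * L ^ (-10 : ℝ)) * (3 * L) := by
        apply mul_le_mul h5 hh (Finset.sum_nonneg fun _ _ => by positivity) (by positivity)
    _ = 6 * L ^ (-10 + 1 : ℝ) := by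
        rw [Real.rpow_add hL0, Real.rpow_one]; ring
    _ ≤ L ^ (-(1 / 3) : ℝ) := by
        rw [pow_zero, mul_one] at hp
        exact hp

/-- many medium primes -/
theorem tail_4 (k : ℕ) (hk : k = 1000) : ∀ᶠ T : ℕ in atTop, ∀ S : Finset ℕ,
    (∀ m ∈ S, 1 ≤ m ∧ m ≤ T ^ 2 ∧ Good T m ∧ k < (cc T m).card) →
    ∑ m ∈ S, (1 : ℝ) / m ≤ (Real.log T) ^ (-(1 / 3) : ℝ) := by
  classical
  filter_upwards [star_bound k hk, harm_T, tendsto_logT.eventually_ge_atTop 12,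
    tendsto_logT.eventually (polylog_le 3 0 (-(3 / 2) + 1) (-(1 / 3)) (by norm_num))]
    with T hst hh hL hp S hS
  set L := Real.log T with hLdef
  have hL0 : 0 < L := by linarith
  set P := (Finset.powersetCard (k + 1) (RR T)).filter (fun c => PairOK T c) with hP
  have hst' : ∑ c ∈ P, ∏ q ∈ c, (1 : ℝ) / q ≤ L ^ (-(3 / 2) : ℝ) := by
    refine le_trans (le_of_eq ?_) hst
    congr!
  have h4 : ∑ m ∈ S, (1 : ℝ) / m ≤ ∑ i ∈ P ×ˢ Finset.Icc 1 (T ^ 2),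
      (∏ q ∈ i.1, (1 : ℝ) / q) * (1 / i.2) := by
    apply sum_le_param S (P ×ˢ Finset.Icc 1 (T ^ 2)) (fun i => (∏ p ∈ i.1, p) * i.2)
      (fun m => (1 : ℝ) / m) _ (fun _ => by positivity)
    · intro m hm
      obtain ⟨hm1, hmT, hG, hcard⟩ := hS m hm
      obtain ⟨c, hcsub, hccard⟩ :=
        Finset.exists_subset_card_eq (show k + 1 ≤ (cc T m).card from hcard)
      have hmem : ∀ p ∈ c, p.Prime ∧ p ∣ m ∧ z0 T < p ∧ p ≤ Y1 T := fun p hp => cc_mem (hcsub hp)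
      have hdvd : (∏ p ∈ c, p) ∣ m := by
        apply Finset.prod_primes_dvd
        · intro p hp; exact (hmem p hp).1.prime
        · intro p hp; exact (hmem p hp).2.1
      refine ⟨(c, m / ∏ p ∈ c, p), ?_, Nat.mul_div_cancel' hdvd⟩
      rw [Finset.mem_product, Finset.mem_Icc, hP, Finset.mem_filter, Finset.mem_powersetCard]
      refine ⟨⟨⟨fun p hp => ?_, hccard⟩, ?_⟩, ?_, (Nat.div_le_self _ _).trans hmT⟩
      · have := hmem p hp
        exact mem_RR.mpr ⟨this.1, this.2.2⟩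
      · intro q hq q' hq' hqq
        have h1 := hmem q hq
        have h2 := hmem q' hq'
        exact hG.pc q q' h1.1 h2.1 h1.2.1 h2.2.1 hqq h2.2.2.2
      · exact Nat.div_pos (Nat.le_of_dvd (by omega) hdvd)
          (Finset.prod_pos fun p hp => (hmem p hp).1.pos)
    · intro i _
      rw [← one_div_prod]
      push_cast
      rw [one_div_mul_one_div]
  refine h4.trans ?_
  rw [Finset.sum_product]
  calc ∑ c ∈ P, ∑ b ∈ Finset.Icc 1 (T ^ 2), (∏ q ∈ c, (1 : ℝ) / q) * (1 / b)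
      = (∑ c ∈ P, ∏ q ∈ c, (1 : ℝ) / q) * ∑ b ∈ Finset.Icc 1 (T ^ 2), (1 : ℝ) / b := by
        rw [Finset.sum_mul_sum]
    _ ≤ (L ^ (-(3 / 2) : ℝ)) * (3 * L) := by
        apply mul_le_mul hst' hh (Finset.sum_nonneg fun _ _ => by positivity) (by positivity)
    _ = 3 * L ^ (-(3 / 2) + 1 : ℝ) := by
        rw [Real.rpow_add hL0, Real.rpow_one]; ring
    _ ≤ L ^ (-(1 / 3) : ℝ) := by
        rw [pow_zero, mul_one] at hp
        exact hp

end Pool.Agent.Helper923.PPS
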