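import Mathlib
import Pool.Agent.Helper923.PPS.Tail

set_option autoImplicit false

open Finset Filter

namespace Pool.Agent.Helper923.PPS

/-- the large primes -/
noncomputable def LP (T : ℕ) : Finset ℕ := (Finset.Ioc (Y1 T) (T ^ 2)).filter Nat.Prime

open scoped Classical in
noncomputable def Q2 (T k : ℕ) (c : Finset ℕ) : Finset ℕ :=
  (LP T).filter (fun q => DD T q ≤ V1 T * GG T k c)

theorem LP_prod : ∃ C : ℝ, 1 ≤ C ∧ ∀ᶠ T : ℕ in atTop,
    ∑ d ∈ (LP T).powerset, ∏ p ∈ d, (1 : ℝ) / p ≤ C * (Real.log T) ^ (2 / 5 : ℝ) := by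
  obtain ⟨C, hC0, hC⟩ := HMertens.mertens_ratio
  refine ⟨4 * Real.exp C, ?_, ?_⟩
  · have := Real.one_le_exp hC0
    linarith
  filter_upwards [Y1_facts, tendsto_logT.eventually_ge_atTop 12] with T hY hL
  set L := Real.log T with hLdef
  have hL0 : 0 < L := by linarith
  have hL35 : 0 < L ^ (3 / 5 : ℝ) := Real.rpow_pos_of_pos hL0 _
  have hlY : 0 < Real.log (Y1 T) := by linarith [hY.2.2.1]
  rw [← Finset.prod_one_add]
  have h1 : ∏ p ∈ LP T, (1 + (1 : ℝ) / p) ≤ Real.exp (∑ p ∈ LP T, (1 : ℝ) / p) := by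
    rw [Real.exp_sum]
    apply Finset.prod_le_prod (fun _ _ => by positivity)
    intro p _
    have := Real.add_one_le_exp ((1 : ℝ) / p)
    linarith
  refine h1.trans ?_
  have h2 : ∑ p ∈ LP T, (1 : ℝ) / p ≤ Real.log (4 * L ^ (2 / 5 : ℝ)) + C := by
    by_cases hcase : Y1 T ≤ T ^ 2
    · have h3 := (abs_le.mp (hC (Y1 T) (T ^ 2) (by have := hY.1; omega) hcase)).2
      have h4 : C / Real.log (Y1 T) ≤ C := by
        apply div_le_self hC0
        have h5 : (1 : ℝ) ≤ L ^ (3 / 5 : ℝ) / 2 := by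
          have h6 : (2 : ℝ) ≤ L ^ (3 / 5 : ℝ) := by
            calc (2 : ℝ) ≤ Real.sqrt L := Real.le_sqrt_of_sq_le (by linarith)
              _ = L ^ (1 / 2 : ℝ) := Real.sqrt_eq_rpow L
              _ ≤ L ^ (3 / 5 : ℝ) :=
                Real.rpow_le_rpow_of_exponent_le (by linarith) (by norm_num)
          linarith
        linarith [hY.2.2.1]
      have h5 : Real.log (Real.log ((T ^ 2 : ℕ) : ℝ) / Real.log (Y1 T)) ≤
          Real.log (4 * L ^ (2 / 5 : ℝ)) := by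
        have h6 : Real.log ((T ^ 2 : ℕ) : ℝ) = 2 * L := by
          push_cast; rw [Real.log_pow, ← hLdef]; norm_num
        rw [h6]
        apply Real.log_le_log (by positivity)
        rw [div_le_iff₀ hlY]
        have h7 : L ^ (2 / 5 : ℝ) * L ^ (3 / 5 : ℝ) = L := by
          rw [← Real.rpow_add hL0]; norm_num
        have h8 : L ^ (2 / 5 : ℝ) * (L ^ (3 / 5 : ℝ) / 2) ≤ L ^ (2 / 5 : ℝ) * Real.log (Y1 T) :=
          mul_le_mul_of_nonneg_left hY.2.2.1 (Real.rpow_nonneg hL0.le _)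
        linarith
      unfold LP
      linarith
    · have h3 : LP T = ∅ := by
        unfold LP
        rw [Finset.Ioc_eq_empty (by omega), Finset.filter_empty]
      rw [h3, Finset.sum_empty]
      have h4 : 0 ≤ Real.log (4 * L ^ (2 / 5 : ℝ)) := by
        apply Real.log_nonneg
        have : 1 ≤ L ^ (2 / 5 : ℝ) := Real.one_le_rpow (by linarith) (by norm_num)
        linarith
      linarith
  calc Real.exp (∑ p ∈ LP T, (1 : ℝ) / p) ≤ Real.exp (Real.log (4 * L ^ (2 / 5 : ℝ)) + C) :=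
        Real.exp_le_exp.mpr h2
    _ = 4 * Real.exp C * L ^ (2 / 5 : ℝ) := by
        rw [Real.exp_add, Real.exp_log (by positivity)]; ring

theorem Q2_sum (k : ℕ) : ∃ C : ℝ, 1 ≤ C ∧ ∀ᶠ T : ℕ in atTop, ∀ c : Finset ℕ,
    ∑ q ∈ Q2 T k c, (1 : ℝ) / q ≤
      C * Real.log (Real.log T) * (V1 T * GG T k c) / (Real.log T) ^ (3 / 5 : ℝ) := by
  classical
  obtain ⟨C, hC, hQ⟩ := QQ_sum k
  obtain ⟨C', hC0', hC'⟩ := HMertens.mertens_ratio
  refine ⟨C + (1 + C'), by linarith, ?_⟩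
  filter_upwards [hQ, tendsto_logT.eventually_ge_atTop 12, tendsto_loglogT.eventually_ge_atTop 2,
    eventually_ge_atTop 2] with T hQT hL hLL hT c
  set L := Real.log T with hLdef
  have hL0 : 0 < L := by linarith
  have hV : 1 ≤ V1 T := V1_pos (by linarith) (by linarith)
  have hG := one_le_GG T k c
  have hVG : 0 ≤ V1 T * GG T k c := by positivity
  have hL35 : 0 < L ^ (3 / 5 : ℝ) := Real.rpow_pos_of_pos hL0 _
  -- split at T
  have hsplit : ∑ q ∈ Q2 T k c, (1 : ℝ) / q =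
      ∑ q ∈ (Q2 T k c).filter (fun q => q ≤ T), (1 : ℝ) / q +
      ∑ q ∈ (Q2 T k c).filter (fun q => ¬ q ≤ T), (1 : ℝ) / q :=
    (Finset.sum_filter_add_sum_filter_not _ _ _).symm
  have h1 : ∑ q ∈ (Q2 T k c).filter (fun q => q ≤ T), (1 : ℝ) / q ≤
      C * Real.log L * (V1 T * GG T k c) / L ^ (3 / 5 : ℝ) := by
    refine le_trans ?_ (hQT c)
    apply Finset.sum_le_sum_of_subset_of_nonneg _ (fun _ _ _ => by positivity)
    intro q hq
    unfold Q2 LP at hq
    rw [Finset.mem_filter, Finset.mem_filter, Finset.mem_filter, Finset.mem_Ioc] at hq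
    unfold QQ
    rw [Finset.mem_filter, Finset.mem_Icc]
    exact ⟨⟨hq.1.1.2.pos, hq.2⟩, hq.1.1.2, hq.1.1.1.1, hq.1.2⟩
  have h2 : ∑ q ∈ (Q2 T k c).filter (fun q => ¬ q ≤ T), (1 : ℝ) / q ≤
      (1 + C') * (V1 T * GG T k c) / L := by
    by_cases hne : ((Q2 T k c).filter (fun q => ¬ q ≤ T)).Nonempty
    · obtain ⟨q, hq⟩ := hne
      have hLVG : L ≤ V1 T * GG T k c := by
        unfold Q2 at hq
        rw [Finset.mem_filter, Finset.mem_filter] at hq
        have h3 : DD T q = L := by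
          unfold DD pw
          rw [Nat.log_of_lt (by omega), pow_zero]
          simp [hLdef]
        rw [← h3]; exact hq.1.2
      have h4 : ∑ q ∈ (Q2 T k c).filter (fun q => ¬ q ≤ T), (1 : ℝ) / q ≤ 1 + C' := by
        have h5 := (abs_le.mp (hC' T (T ^ 2) hT (by nlinarith))).2
        have h6 : Real.log (Real.log ((T ^ 2 : ℕ) : ℝ) / Real.log T) ≤ 1 := by
          have h7 : Real.log ((T ^ 2 : ℕ) : ℝ) / Real.log T = 2 := by
            push_cast
            rw [Real.log_pow, ← hLdef]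
            field_simp
            norm_num
          rw [h7]
          have := Real.log_two_lt_d9
          linarith
        have h8 : C' / Real.log T ≤ C' := div_le_self hC0' (by linarith)
        have h9 : ∑ q ∈ (Q2 T k c).filter (fun q => ¬ q ≤ T), (1 : ℝ) / q ≤
            ∑ q ∈ (Finset.Ioc T (T ^ 2)).filter Nat.Prime, (1 : ℝ) / q := by
          apply Finset.sum_le_sum_of_subset_of_nonneg _ (fun _ _ _ => by positivity)
          intro q hq
          unfold Q2 LP at hq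
          rw [Finset.mem_filter, Finset.mem_filter, Finset.mem_filter, Finset.mem_Ioc] at hq
          rw [Finset.mem_filter, Finset.mem_Ioc]
          exact ⟨⟨by omega, hq.1.1.1.2⟩, hq.1.1.2⟩
        linarith
      refine h4.trans ?_
      rw [le_div_iff₀ hL0]
      apply mul_le_mul_of_nonneg_left hLVG (by linarith)
    · rw [Finset.not_nonempty_iff_eq_empty] at hne
      rw [hne, Finset.sum_empty]
      positivity
  have h3 : (1 + C') * (V1 T * GG T k c) / L ≤
      (1 + C') * Real.log L * (V1 T * GG T k c) / L ^ (3 / 5 : ℝ) := by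
    apply div_le_div₀ (by positivity) _ hL35
    · calc L ^ (3 / 5 : ℝ) ≤ L ^ (1 : ℝ) :=
            Real.rpow_le_rpow_of_exponent_le (by linarith) (by norm_num)
        _ = L := Real.rpow_one _
    · apply mul_le_mul_of_nonneg_right _ hVG
      nlinarith
  rw [hsplit]
  calc _ ≤ C * Real.log L * (V1 T * GG T k c) / L ^ (3 / 5 : ℝ) +
        (1 + C') * Real.log L * (V1 T * GG T k c) / L ^ (3 / 5 : ℝ) :=
        add_le_add h1 (h2.trans h3)
    _ = _ := by ring

/-- at least one large prime -/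
theorem tail_5 (k : ℕ) : ∀ᶠ T : ℕ in atTop, ∀ S : Finset ℕ,
    (∀ m ∈ S, 1 ≤ m ∧ m ≤ T ^ 2 ∧ Good T m ∧ NoSq T m ∧
      (sp (z0 T) m : ℝ) ≤ Real.exp (v0 T) ∧ (cc T m).card ≤ k ∧ (dd T m).Nonempty) →
    ∑ m ∈ S, (1 : ℝ) / m ≤ (Real.log T) ^ (-(1 / 10) : ℝ) := by
  classical
  obtain ⟨CL, hCL, hLPs⟩ := LP_prod
  obtain ⟨CQ, hCQ, hQ⟩ := Q2_sum k
  obtain ⟨CS, hCS, hSs⟩ := smooth_sum2
  obtain ⟨CG, hCG, hGs⟩ := gg_sum k
  have hfin := polylog_le (12 * CL * CQ * CS * CG) (4 * (k + 1) + 2)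
    (-(1 / 5) + 1 / 250) (-(1 / 10)) (by norm_num)
  filter_upwards [hLPs, hQ, hSs, hGs, Y1_facts, b1_gain k, tendsto_logT.eventually_ge_atTop 12,
    tendsto_loglogT.eventually_ge_atTop 2, tendsto_logT.eventually hfin]
    with T hLPT hQT hST hGT hY hb1 hL hLL hfinT S hS
  set L := Real.log T with hLdef
  have hL0 : 0 < L := by linarith
  have hL35 : 0 < L ^ (3 / 5 : ℝ) := Real.rpow_pos_of_pos hL0 _
  have hV : 1 ≤ V1 T := V1_pos (by linarith) (by linarith)
  set P : Finset ((_ : ℕ) × (_ : Finset ℕ) × (_ : ℕ) × (Finset ℕ)) :=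
    (A2 T).sigma (fun _ => (C0 T k).sigma (fun c => (Q2 T k c).sigma (fun _ => (LP T).powerset)))
    with hP
  have h4 : ∑ m ∈ S, (1 : ℝ) / m ≤ ∑ i ∈ P, (1 : ℝ) / i.1 * ((∏ p ∈ i.2.1, (1 : ℝ) / p) *
      (1 / i.2.2.1 * ∏ p ∈ i.2.2.2, (1 : ℝ) / p)) := by
    apply sum_le_param S P (fun i => i.1 * ((∏ p ∈ i.2.1, p) * (i.2.2.1 * ∏ p ∈ i.2.2.2, p)))
      (fun m => (1 : ℝ) / m) _ (fun _ => by positivity)
    · intro m hm
      obtain ⟨hm1, hmT, hG, hsq, hsp, hck, hdne⟩ := hS m hm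
      obtain ⟨q, hqd, hDq⟩ := hb1 m hG hsq hsp hck hdne
      have hq := dd_mem hqd
      have hsplit := split_full hG.ne hsq hY.2.2.2
      have hprod : ∏ p ∈ dd T m, p = q * ∏ p ∈ (dd T m).erase q, p :=
        (Finset.mul_prod_erase _ _ hqd).symm
      rw [hprod] at hsplit
      refine ⟨⟨sp (z0 T) m, cc T m, q, (dd T m).erase q⟩, ?_, ?_⟩
      · rw [hP, Finset.mem_sigma, Finset.mem_sigma, Finset.mem_sigma]
        refine ⟨sp_mem_A2 hG.ne hmT, cc_mem_C0 hck, ?_, ?_⟩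
        · unfold Q2 LP
          rw [Finset.mem_filter, Finset.mem_filter, Finset.mem_Ioc]
          exact ⟨⟨⟨hq.2.2, (Nat.le_of_dvd (by omega) hq.2.1).trans hmT⟩, hq.1⟩, hDq⟩
        · rw [Finset.mem_powerset]
          intro p hp
          have hp' := dd_mem (Finset.mem_of_mem_erase hp)
          unfold LP
          rw [Finset.mem_filter, Finset.mem_Ioc]
          exact ⟨⟨hp'.2.2, (Nat.le_of_dvd (by omega) hp'.2.1).trans hmT⟩, hp'.1⟩
      · simp only
        conv_rhs => rw [hsplit]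
        ring
    · intro i _
      rw [← one_div_prod, ← one_div_prod]
      push_cast
      rw [one_div_mul_one_div, one_div_mul_one_div, one_div_mul_one_div]
  refine h4.trans ?_
  set K2 := CQ * Real.log L * V1 T / L ^ (3 / 5 : ℝ) with hK2
  have hK2nn : 0 ≤ K2 := by positivity
  rw [hP, Finset.sum_sigma]
  calc ∑ a ∈ A2 T, ∑ j ∈ (C0 T k).sigma (fun c => (Q2 T k c).sigma (fun _ => (LP T).powerset)),
        (1 : ℝ) / a * ((∏ p ∈ j.1, (1 : ℝ) / p) * (1 / j.2.1 * ∏ p ∈ j.2.2, (1 : ℝ) / p))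
      = ∑ a ∈ A2 T, ∑ c ∈ C0 T k, ∑ q ∈ Q2 T k c, ∑ d ∈ (LP T).powerset,
        (1 : ℝ) / a * ((∏ p ∈ c, (1 : ℝ) / p) * (1 / q * ∏ p ∈ d, (1 : ℝ) / p)) := by
        apply Finset.sum_congr rfl; intro a _
        rw [Finset.sum_sigma]
        apply Finset.sum_congr rfl; intro c _
        rw [Finset.sum_sigma]
    _ = ∑ a ∈ A2 T, ∑ c ∈ C0 T k,
        (1 : ℝ) / a * ((∏ p ∈ c, (1 : ℝ) / p) *
          ((∑ q ∈ Q2 T k c, (1 : ℝ) / q) * ∑ d ∈ (LP T).powerset, ∏ p ∈ d, (1 : ℝ) / p)) := by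
        apply Finset.sum_congr rfl; intro a _
        apply Finset.sum_congr rfl; intro c _
        rw [Finset.sum_mul_sum]
        simp only [← Finset.mul_sum]
    _ ≤ ∑ a ∈ A2 T, ∑ c ∈ C0 T k,
        (1 : ℝ) / a * ((∏ p ∈ c, (1 : ℝ) / p) * ((K2 * GG T k c) * (CL * L ^ (2 / 5 : ℝ)))) := by
        apply Finset.sum_le_sum; intro a _
        apply Finset.sum_le_sum; intro c _
        have h5 : 0 ≤ ∏ p ∈ c, (1 : ℝ) / p := Finset.prod_nonneg fun _ _ => by positivity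
        have h6 : ∑ q ∈ Q2 T k c, (1 : ℝ) / q ≤ K2 * GG T k c := by
          refine (hQT c).trans (le_of_eq ?_)
          rw [hK2]; ring
        have h7 : (0 : ℝ) ≤ 1 / (a : ℝ) := by positivity
        have hG := one_le_GG T k c
        apply mul_le_mul_of_nonneg_left _ h7
        apply mul_le_mul_of_nonneg_left _ h5
        apply mul_le_mul h6 hLPT
        · exact Finset.sum_nonneg fun _ _ => Finset.prod_nonneg fun _ _ => by positivity
        · positivity
    _ = K2 * (CL * L ^ (2 / 5 : ℝ)) * ((∑ a ∈ A2 T, (1 : ℝ) / a) *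
        ∑ c ∈ C0 T k, (∏ p ∈ c, (1 : ℝ) / p) * GG T k c) := by
        rw [Finset.sum_mul_sum, Finset.mul_sum]
        apply Finset.sum_congr rfl; intro a _
        rw [Finset.mul_sum]
        apply Finset.sum_congr rfl; intro c _
        ring
    _ ≤ K2 * (CL * L ^ (2 / 5 : ℝ)) *
        ((CS * L ^ (1 / 500 : ℝ)) * (CG * (Real.log L) ^ (4 * (k + 1)))) := by
        apply mul_le_mul_of_nonneg_left _ (by positivity)
        apply mul_le_mul hST hGT _ (by positivity)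
        apply Finset.sum_nonneg
        intro c _
        have h5 : 0 ≤ ∏ p ∈ c, (1 : ℝ) / p := Finset.prod_nonneg fun _ _ => by positivity
        have := one_le_GG T k c
        nlinarith
    _ = 12 * CL * CQ * CS * CG * (Real.log L) ^ (4 * (k + 1) + 2) *
        L ^ (-(1 / 5) + 1 / 250 : ℝ) := by
        have e1 : L ^ (-(1 / 5) + 1 / 250 : ℝ) =
            (L ^ (3 / 5 : ℝ))⁻¹ * L ^ (2 / 5 : ℝ) * (L ^ (1 / 500 : ℝ) * L ^ (1 / 500 : ℝ)) := by
          rw [← Real.rpow_neg hL0.le, ← Real.rpow_add hL0, ← Real.rpow_add hL0,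
            ← Real.rpow_add hL0]
          norm_num
        rw [e1, hK2]
        unfold V1
        rw [← hLdef, pow_add]
        field_simp
    _ ≤ L ^ (-(1 / 10) : ℝ) := hfinT

/-- no large prime -/
theorem tail_6 (k : ℕ) : ∀ᶠ T : ℕ in atTop, ∀ S : Finset ℕ,
    (∀ m ∈ S, 1 ≤ m ∧ m ≤ T ^ 2 ∧ Good T m ∧ NoSq T m ∧
      (sp (z0 T) m : ℝ) ≤ Real.exp (v0 T) ∧ (cc T m).card ≤ k ∧ ¬ (dd T m).Nonempty ∧
      Real.exp ((Real.log T) ^ (1 / 200 : ℝ)) < m) →
    ∑ m ∈ S, (1 : ℝ) / m ≤ (Real.log T) ^ (-(1 / 1500) : ℝ) := by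
  classical
  obtain ⟨CS, hCS, hSs⟩ := smooth_sum2
  obtain ⟨CG, hCG, hGs⟩ := gg_sum k
  have hfin := polylog_le (12 * CS * CG) (4 * (k + 1) + 1)
    (-(1 / 200) + 1 / 250) (-(1 / 1500)) (by norm_num)
  filter_upwards [hSs, hGs, Y1_facts, b2_gain k, tendsto_logT.eventually_ge_atTop 12,
    tendsto_loglogT.eventually_ge_atTop 2, tendsto_logT.eventually hfin]
    with T hST hGT hY hb2 hL hLL hfinT S hS
  set L := Real.log T with hLdef
  have hL0 : 0 < L := by linarith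
  have hLs : 0 < L ^ (1 / 200 : ℝ) := Real.rpow_pos_of_pos hL0 _
  have hV : 1 ≤ V1 T := V1_pos (by linarith) (by linarith)
  set P : Finset (ℕ × Finset ℕ) := (A2 T) ×ˢ
    ((C0 T k).filter (fun c => L ^ (1 / 200 : ℝ) ≤ V1 T * GG T k c)) with hP
  have h4 : ∑ m ∈ S, (1 : ℝ) / m ≤ ∑ i ∈ P, (1 : ℝ) / i.1 * (∏ p ∈ i.2, (1 : ℝ) / p) := by
    apply sum_le_param S P (fun i => i.1 * (∏ p ∈ i.2, p))
      (fun m => (1 : ℝ) / m) _ (fun _ => by positivity)
    · intro m hm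
      obtain ⟨hm1, hmT, hG, hsq, hsp, hck, hdne, hbig⟩ := hS m hm
      rw [Finset.not_nonempty_iff_eq_empty] at hdne
      have hsplit := split_full hG.ne hsq hY.2.2.2
      rw [hdne, Finset.prod_empty, mul_one] at hsplit
      have hgain := hb2 m hG hsq hsp hck (fun q hq => by rw [hdne] at hq; simp at hq)
      rw [← hsplit] at hgain
      have h5 : L ^ (1 / 200 : ℝ) ≤ Real.log m := by
        have := Real.log_le_log (Real.exp_pos _) hbig.le
        rwa [Real.log_exp] at this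
      refine ⟨(sp (z0 T) m, cc T m), ?_, hsplit.symm⟩
      rw [hP, Finset.mem_product, Finset.mem_filter]
      exact ⟨sp_mem_A2 hG.ne hmT, cc_mem_C0 hck, h5.trans hgain⟩
    · intro i _
      rw [← one_div_prod]
      push_cast
      rw [one_div_mul_one_div]
  refine h4.trans ?_
  rw [hP, Finset.sum_product]
  calc ∑ a ∈ A2 T, ∑ c ∈ (C0 T k).filter (fun c => L ^ (1 / 200 : ℝ) ≤ V1 T * GG T k c),
        (1 : ℝ) / a * (∏ p ∈ c, (1 : ℝ) / p)
      = (∑ a ∈ A2 T, (1 : ℝ) / a) *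
        ∑ c ∈ (C0 T k).filter (fun c => L ^ (1 / 200 : ℝ) ≤ V1 T * GG T k c),
          ∏ p ∈ c, (1 : ℝ) / p := by rw [Finset.sum_mul_sum]
    _ ≤ (CS * L ^ (1 / 500 : ℝ)) *
        ((V1 T / L ^ (1 / 200 : ℝ)) * (CG * (Real.log L) ^ (4 * (k + 1)))) := by
        apply mul_le_mul hST _ (Finset.sum_nonneg fun _ _ =>
          Finset.prod_nonneg fun _ _ => by positivity) (by positivity)
        calc ∑ c ∈ (C0 T k).filter (fun c => L ^ (1 / 200 : ℝ) ≤ V1 T * GG T k c),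
              ∏ p ∈ c, (1 : ℝ) / p
            ≤ ∑ c ∈ (C0 T k).filter (fun c => L ^ (1 / 200 : ℝ) ≤ V1 T * GG T k c),
              (V1 T / L ^ (1 / 200 : ℝ)) * ((∏ p ∈ c, (1 : ℝ) / p) * GG T k c) := by
              apply Finset.sum_le_sum
              intro c hc
              rw [Finset.mem_filter] at hc
              have h5 : 0 ≤ ∏ p ∈ c, (1 : ℝ) / p := Finset.prod_nonneg fun _ _ => by positivity
              have h6 : 1 ≤ V1 T * GG T k c / L ^ (1 / 200 : ℝ) := by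
                rw [le_div_iff₀ hLs]; linarith [hc.2]
              calc ∏ p ∈ c, (1 : ℝ) / p = (∏ p ∈ c, (1 : ℝ) / p) * 1 := (mul_one _).symm
                _ ≤ (∏ p ∈ c, (1 : ℝ) / p) * (V1 T * GG T k c / L ^ (1 / 200 : ℝ)) :=
                  mul_le_mul_of_nonneg_left h6 h5
                _ = _ := by ring
          _ = (V1 T / L ^ (1 / 200 : ℝ)) *
              ∑ c ∈ (C0 T k).filter (fun c => L ^ (1 / 200 : ℝ) ≤ V1 T * GG T k c),
                (∏ p ∈ c, (1 : ℝ) / p) * GG T k c := by rw [Finset.mul_sum]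
          _ ≤ (V1 T / L ^ (1 / 200 : ℝ)) *
              ∑ c ∈ C0 T k, (∏ p ∈ c, (1 : ℝ) / p) * GG T k c := by
              apply mul_le_mul_of_nonneg_left _ (by positivity)
              apply Finset.sum_le_sum_of_subset_of_nonneg (Finset.filter_subset _ _)
              intro c _ _
              have h5 : 0 ≤ ∏ p ∈ c, (1 : ℝ) / p := Finset.prod_nonneg fun _ _ => by positivity
              have := one_le_GG T k c
              nlinarith
          _ ≤ _ := mul_le_mul_of_nonneg_left hGT (by positivity)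
    _ = 12 * CS * CG * (Real.log L) ^ (4 * (k + 1) + 1) * L ^ (-(1 / 200) + 1 / 250 : ℝ) := by
        have e1 : L ^ (-(1 / 200) + 1 / 250 : ℝ) =
            (L ^ (1 / 200 : ℝ))⁻¹ * (L ^ (1 / 500 : ℝ) * L ^ (1 / 500 : ℝ)) := by
          rw [← Real.rpow_neg hL0.le, ← Real.rpow_add hL0, ← Real.rpow_add hL0]
          norm_num
        rw [e1]
        unfold V1
        rw [← hLdef, pow_add]
        field_simp
    _ ≤ L ^ (-(1 / 1500) : ℝ) := hfinT

/-- the tail of the sum over cofactors, uniformly in `t` -/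
theorem tail_bound : ∀ᶠ T : ℕ in atTop, ∀ t : ℝ, ⌊t⌋₊ = T → ∀ S : Finset ℕ,
    (∀ m ∈ S, 1 ≤ m ∧ m ≤ T ^ 2 ∧ Real.exp ((Real.log T) ^ (1 / 200 : ℝ)) < m ∧ t ∈ Iset m) →
    ∑ m ∈ S, (1 : ℝ) / m ≤ (Real.log T) ^ (-(1 / 2000) : ℝ) := by
  classical
  obtain ⟨k, hk⟩ : ∃ k : ℕ, k = 1000 := ⟨_, rfl⟩
  filter_upwards [tail_1, tail_3, tail_4 k hk, tail_5 k, tail_6 k, good_of_Iset,
    tendsto_logT.eventually (polylog_le 5 0 (-(1 / 1500)) (-(1 / 2000)) (by norm_num)),
    tendsto_logT.eventually_ge_atTop 12] with T h1 h3 h4 h5 h6 hgood hp hL t ht S hS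
  set L := Real.log T with hLdef
  have hL0 : 0 < L := by linarith
  have hG : ∀ m ∈ S, Good T m := fun m hm => by
    have := hS m hm
    exact hgood t m ht this.2.2.2 this.1 this.2.1
  have hmono : ∀ a : ℝ, a ≤ -(1 / 1500) → L ^ a ≤ L ^ (-(1 / 1500) : ℝ) := by
    intro a ha
    exact Real.rpow_le_rpow_of_exponent_le (by linarith) ha
  have g1 := (h1 (S.filter (fun m => Real.exp (v0 T) < (sp (z0 T) m : ℝ))) (fun m hm => by
    rw [Finset.mem_filter] at hm
    have := hS m hm.1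
    exact ⟨this.1, this.2.1, hm.2⟩)).trans (hmono _ (by norm_num))
  have g3 := (h3 (S.filter (fun m => ¬ NoSq T m)) (fun m hm => by
    rw [Finset.mem_filter] at hm
    have := hS m hm.1
    exact ⟨this.1, this.2.1, hm.2⟩)).trans (hmono _ (by norm_num))
  have g4 := (h4 (S.filter (fun m => k < (cc T m).card)) (fun m hm => by
    rw [Finset.mem_filter] at hm
    have := hS m hm.1
    exact ⟨this.1, this.2.1, hG m hm.1, hm.2⟩)).trans (hmono _ (by norm_num))
  have g5 := (h5 (S.filter (fun m => NoSq T m ∧ (sp (z0 T) m : ℝ) ≤ Real.exp (v0 T) ∧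
      (cc T m).card ≤ k ∧ (dd T m).Nonempty)) (fun m hm => by
    rw [Finset.mem_filter] at hm
    have := hS m hm.1
    exact ⟨this.1, this.2.1, hG m hm.1, hm.2⟩)).trans (hmono _ (by norm_num))
  have g6 := (h6 (S.filter (fun m => NoSq T m ∧ (sp (z0 T) m : ℝ) ≤ Real.exp (v0 T) ∧
      (cc T m).card ≤ k ∧ ¬ (dd T m).Nonempty)) (fun m hm => by
    rw [Finset.mem_filter] at hm
    have := hS m hm.1
    exact ⟨this.1, this.2.1, hG m hm.1, hm.2.1, hm.2.2.1, hm.2.2.2.1, hm.2.2.2.2,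
      this.2.2.1⟩))
  have hpt : ∀ m ∈ S, (1 : ℝ) / m ≤
      (if Real.exp (v0 T) < (sp (z0 T) m : ℝ) then (1 : ℝ) / m else 0) +
      (if ¬ NoSq T m then (1 : ℝ) / m else 0) +
      (if k < (cc T m).card then (1 : ℝ) / m else 0) +
      (if NoSq T m ∧ (sp (z0 T) m : ℝ) ≤ Real.exp (v0 T) ∧
        (cc T m).card ≤ k ∧ (dd T m).Nonempty then (1 : ℝ) / m else 0) +
      (if NoSq T m ∧ (sp (z0 T) m : ℝ) ≤ Real.exp (v0 T) ∧
        (cc T m).card ≤ k ∧ ¬ (dd T m).Nonempty then (1 : ℝ) / m else 0) := by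
    intro m _
    have hm0 : (0 : ℝ) ≤ 1 / (m : ℝ) := by positivity
    have hnn : ∀ p : Prop, [Decidable p] → (0 : ℝ) ≤ if p then (1 : ℝ) / m else 0 := by
      intro p _
      split_ifs <;> linarith
    by_cases c1 : Real.exp (v0 T) < (sp (z0 T) m : ℝ)
    · rw [if_pos c1]
      have := hnn (¬ NoSq T m)
      have := hnn (k < (cc T m).card)
      have := hnn (NoSq T m ∧ (sp (z0 T) m : ℝ) ≤ Real.exp (v0 T) ∧
        (cc T m).card ≤ k ∧ (dd T m).Nonempty)
      have := hnn (NoSq T m ∧ (sp (z0 T) m : ℝ) ≤ Real.exp (v0 T) ∧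
        (cc T m).card ≤ k ∧ ¬ (dd T m).Nonempty)
      linarith
    by_cases c3 : NoSq T m
    · by_cases c4 : k < (cc T m).card
      · rw [if_pos c4]
        have := hnn (¬ NoSq T m)
        have := hnn (Real.exp (v0 T) < (sp (z0 T) m : ℝ))
        have := hnn (NoSq T m ∧ (sp (z0 T) m : ℝ) ≤ Real.exp (v0 T) ∧
          (cc T m).card ≤ k ∧ (dd T m).Nonempty)
        have := hnn (NoSq T m ∧ (sp (z0 T) m : ℝ) ≤ Real.exp (v0 T) ∧
          (cc T m).card ≤ k ∧ ¬ (dd T m).Nonempty)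
        linarith
      · by_cases c5 : (dd T m).Nonempty
        · have hh : NoSq T m ∧ (sp (z0 T) m : ℝ) ≤ Real.exp (v0 T) ∧
            (cc T m).card ≤ k ∧ (dd T m).Nonempty := ⟨c3, not_lt.mp c1, not_lt.mp c4, c5⟩
          rw [if_pos hh]
          have := hnn (¬ NoSq T m)
          have := hnn (Real.exp (v0 T) < (sp (z0 T) m : ℝ))
          have := hnn (k < (cc T m).card)
          have := hnn (NoSq T m ∧ (sp (z0 T) m : ℝ) ≤ Real.exp (v0 T) ∧
            (cc T m).card ≤ k ∧ ¬ (dd T m).Nonempty)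
          linarith
        · have hh : NoSq T m ∧ (sp (z0 T) m : ℝ) ≤ Real.exp (v0 T) ∧
            (cc T m).card ≤ k ∧ ¬ (dd T m).Nonempty := ⟨c3, not_lt.mp c1, not_lt.mp c4, c5⟩
          rw [if_pos hh]
          have := hnn (¬ NoSq T m)
          have := hnn (Real.exp (v0 T) < (sp (z0 T) m : ℝ))
          have := hnn (k < (cc T m).card)
          have := hnn (NoSq T m ∧ (sp (z0 T) m : ℝ) ≤ Real.exp (v0 T) ∧
            (cc T m).card ≤ k ∧ (dd T m).Nonempty)
          linarith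
    · rw [if_pos c3]
      have := hnn (Real.exp (v0 T) < (sp (z0 T) m : ℝ))
      have := hnn (k < (cc T m).card)
      have := hnn (NoSq T m ∧ (sp (z0 T) m : ℝ) ≤ Real.exp (v0 T) ∧
        (cc T m).card ≤ k ∧ (dd T m).Nonempty)
      have := hnn (NoSq T m ∧ (sp (z0 T) m : ℝ) ≤ Real.exp (v0 T) ∧
        (cc T m).card ≤ k ∧ ¬ (dd T m).Nonempty)
      linarith
  have hsum := Finset.sum_le_sum hpt
  rw [Finset.sum_add_distrib, Finset.sum_add_distrib, Finset.sum_add_distrib,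
    Finset.sum_add_distrib, ← Finset.sum_filter, ← Finset.sum_filter, ← Finset.sum_filter,
    ← Finset.sum_filter, ← Finset.sum_filter] at hsum
  rw [pow_zero, mul_one] at hp
  linarith

end Pool.Agent.Helper923.PPS
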