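import Mathlib
import Pool.Agent.Helper923.PPS.CutA
import Pool.Agent.Helper923.PPS.TailB
import Pool.Agent.Helper923.PPS.MainTerm

set_option autoImplicit false

open Finset Filter

namespace Pool.Agent.Helper923.PPS

noncomputable def Zc (T : ℕ) : ℕ := ⌊(Real.log T) ^ 3⌋₊
noncomputable def MM (T : ℕ) : ℝ := Real.exp ((Real.log T) ^ (1 / 200 : ℝ))
noncomputable def B2 (T : ℕ) : ℕ := ⌈(Real.log T) ^ (1 / 100 : ℝ)⌉₊
noncomputable def K2 (T : ℕ) : ℕ := ⌊(Real.log T) ^ (1 / 2 : ℝ)⌋₊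

def Bad2 (T p q : ℕ) : Prop :=
  ∃ b : ℕ, 1 ≤ b ∧ b ≤ B2 T ∧ ∃ a : ℤ,
    |b * (Real.log q / Real.log p) - a| ≤ 2 * (b : ℝ) / K2 T

open scoped Classical in
noncomputable def A3 (T : ℕ) : Finset ℕ :=
  (Finset.Icc 1 ⌊MM T⌋₊).filter (fun a => ∀ p : ℕ, p.Prime → p ∣ a → p ≤ Zc T)

noncomputable def BL (T : ℕ) : Finset ℕ := (Finset.Ioc (Zc T) ⌊MM T⌋₊).filter Nat.Prime

open scoped Classical in
noncomputable def SC (T : ℕ) : Finset ℕ := (BL T).filter (fun q => DD T q ≤ 1)

theorem Zc_facts : ∀ᶠ T : ℕ in atTop, 3000 ≤ Zc T ∧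
    Real.log (Zc T) ≤ 3 * Real.log (Real.log T) ∧ (Real.log T) ^ 3 ≤ 2 * Zc T := by
  filter_upwards [tendsto_logT.eventually_ge_atTop 20] with T hL
  set L := Real.log T with hLdef
  have hL0 : 0 < L := by linarith
  have h1 : (8000 : ℝ) ≤ L ^ 3 := by
    calc (8000 : ℝ) = 20 ^ 3 := by norm_num
      _ ≤ L ^ 3 := by gcongr
  have h2 : 3000 ≤ Zc T := by
    unfold Zc
    apply Nat.le_floor
    push_cast
    linarith
  have h3 : (Zc T : ℝ) ≤ L ^ 3 := Nat.floor_le (by positivity)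
  have h4 : L ^ 3 < (Zc T : ℝ) + 1 := Nat.lt_floor_add_one _
  have h5 : (3000 : ℝ) ≤ Zc T := by exact_mod_cast h2
  refine ⟨h2, ?_, by linarith⟩
  have := Real.log_le_log (by linarith) h3
  rw [Real.log_pow] at this
  push_cast at this
  exact this

theorem log_of_Zc {T q : ℕ} (hL : 0 < Real.log T) (h : Zc T < q) :
    3 * Real.log (Real.log T) ≤ Real.log q := by
  have h1 : (Real.log T) ^ 3 < q := (Nat.floor_lt (by positivity)).mp h
  have h2 := Real.log_le_log (by positivity) h1.le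
  rw [Real.log_pow] at h2
  push_cast at h2
  exact h2

theorem log_of_MM {T q : ℕ} (hq : 0 < q) (h : (q : ℝ) ≤ MM T) :
    Real.log q ≤ (Real.log T) ^ (1 / 200 : ℝ) := by
  have := Real.log_le_log (by exact_mod_cast hq) h
  unfold MM at this
  rwa [Real.log_exp] at this

theorem MM_le_T {T : ℕ} (hL : 1 ≤ Real.log T) : MM T ≤ T := by
  have hT0 : (0 : ℝ) < T := by
    rcases Nat.eq_zero_or_pos T with h | h
    · subst h; norm_num at hL
    · exact_mod_cast h
  unfold MM
  calc Real.exp ((Real.log T) ^ (1 / 200 : ℝ)) ≤ Real.exp ((Real.log T) ^ (1 : ℝ)) := by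
        apply Real.exp_le_exp.mpr
        exact Real.rpow_le_rpow_of_exponent_le hL (by norm_num)
    _ = T := by rw [Real.rpow_one, Real.exp_log hT0]

theorem mem_BL {T q : ℕ} : q ∈ BL T ↔ q.Prime ∧ Zc T < q ∧ (q : ℝ) ≤ MM T := by
  unfold BL
  rw [Finset.mem_filter, Finset.mem_Ioc, Nat.le_floor_iff (by unfold MM; positivity)]
  tauto

theorem BL_facts {T q : ℕ} (hL : 1 ≤ Real.log T) (h : q ∈ BL T) :
    q.Prime ∧ q ≤ T ∧ 3 * Real.log (Real.log T) ≤ Real.log q ∧
      Real.log q ≤ (Real.log T) ^ (1 / 200 : ℝ) := by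
  rw [mem_BL] at h
  refine ⟨h.1, ?_, log_of_Zc (by linarith) h.2.1, log_of_MM h.1.pos h.2.2⟩
  have := h.2.2.trans (MM_le_T hL)
  exact_mod_cast this

/-- sums over smooth numbers -/
theorem smooth3 : ∃ C : ℝ, 1 ≤ C ∧ ∀ᶠ T : ℕ in atTop,
    ∑ a ∈ A3 T, (1 : ℝ) / a ≤ C * Real.log (Real.log T) ∧
    ∑ a ∈ A3 T, Real.log a / a ≤ C * (Real.log (Real.log T)) ^ 2 := by
  classical
  obtain ⟨C, hC, hr⟩ := rankin HMertens.mertens_log HMertens.mertens_ratio
  refine ⟨60 * C, by linarith, ?_⟩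
  filter_upwards [Zc_facts, tendsto_loglogT.eventually_ge_atTop 2] with T hz hLL
  set l := Real.log (Real.log T) with hl
  have hl0 : 0 < l := by linarith
  have hmem : ∀ a ∈ A3 T, 1 ≤ a ∧ ∀ p : ℕ, p.Prime → p ∣ a → p ≤ Zc T := by
    intro a ha
    unfold A3 at ha
    rw [Finset.mem_filter, Finset.mem_Icc] at ha
    exact ⟨ha.1.1, ha.2⟩
  have hlz : 0 < Real.log (Zc T) := Real.log_pos (by
    have : (3000 : ℝ) ≤ Zc T := by exact_mod_cast hz.1
    linarith)
  -- levels
  have hlev : ∀ j : ℕ, ∑ a ∈ (A3 T).filter (fun a : ℕ => ⌊Real.log a / (3 * l)⌋₊ = j), (1 : ℝ) / a ≤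
      3 * C * l * Real.exp (-j) := by
    intro j
    have h := hr (Zc T) (3 * l * j) hz.1 (by positivity)
      ((A3 T).filter (fun a : ℕ => ⌊Real.log a / (3 * l)⌋₊ = j)) (fun a ha => by
        rw [Finset.mem_filter] at ha
        have h1 := hmem a ha.1
        refine ⟨?_, h1.2⟩
        have ha0 : (0 : ℝ) < a := by exact_mod_cast h1.1
        rw [← Real.exp_log ha0]
        apply Real.exp_le_exp.mpr
        have h2 : (j : ℝ) ≤ Real.log a / (3 * l) := by
          rw [← ha.2]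
          apply Nat.floor_le
          have := Real.log_natCast_nonneg a
          positivity
        rw [le_div_iff₀ (by positivity)] at h2
        linarith)
    refine h.trans ?_
    have h3 : Real.exp (-(3 * l * j) / Real.log (Zc T)) ≤ Real.exp (-j) := by
      apply Real.exp_le_exp.mpr
      rw [neg_div, neg_le_neg_iff, le_div_iff₀ hlz]
      have : (j : ℝ) * Real.log (Zc T) ≤ j * (3 * l) :=
        mul_le_mul_of_nonneg_left hz.2.1 (Nat.cast_nonneg _)
      linarith
    calc C * Real.log (Zc T) * Real.exp (-(3 * l * j) / Real.log (Zc T))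
        ≤ C * (3 * l) * Real.exp (-j) := by
          apply mul_le_mul _ h3 (Real.exp_pos _).le (by positivity)
          exact mul_le_mul_of_nonneg_left hz.2.1 (by linarith)
      _ = 3 * C * l * Real.exp (-j) := by ring
  constructor
  · have h := hr (Zc T) 0 hz.1 le_rfl (A3 T) (fun a ha => by
      refine ⟨?_, (hmem a ha).2⟩
      rw [Real.exp_zero]
      exact_mod_cast (hmem a ha).1)
    rw [neg_zero, zero_div, Real.exp_zero, mul_one] at h
    refine h.trans ?_
    calc C * Real.log (Zc T) ≤ C * (3 * l) := mul_le_mul_of_nonneg_left hz.2.1 (by linarith)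
      _ ≤ 60 * C * l := by nlinarith
  · -- cover by levels
    set J := (A3 T).sup (fun a : ℕ => ⌊Real.log a / (3 * l)⌋₊) with hJ
    have hcov : A3 T ⊆ (Finset.range (J + 1)).biUnion
        (fun j => (A3 T).filter (fun a : ℕ => ⌊Real.log a / (3 * l)⌋₊ = j)) := by
      intro a ha
      rw [Finset.mem_biUnion]
      refine ⟨⌊Real.log a / (3 * l)⌋₊, ?_, Finset.mem_filter.mpr ⟨ha, rfl⟩⟩
      rw [Finset.mem_range]
      have : ⌊Real.log a / (3 * l)⌋₊ ≤ J :=
        Finset.le_sup (f := fun a : ℕ => ⌊Real.log a / (3 * l)⌋₊) ha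
      omega
    have hnn : ∀ a : ℕ, 0 ≤ Real.log a / (a : ℝ) := fun a =>
      div_nonneg (Real.log_natCast_nonneg a) (Nat.cast_nonneg a)
    have hsq : ∀ j : ℕ, ((j : ℝ) + 1) * Real.exp (-j) ≤ 2 * (Real.exp (-(1 / 2))) ^ j := by
      intro j
      have h1 : (j : ℝ) / 2 + 1 ≤ Real.exp (j / 2) := Real.add_one_le_exp _
      have h2 : Real.exp (-(j : ℝ)) = Real.exp (-(j / 2)) * Real.exp (-(j / 2)) := by
        rw [← Real.exp_add]; ring_nf
      have h3 : (Real.exp (-(1 / 2))) ^ j = Real.exp (-(j / 2)) := by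
        rw [← Real.exp_nat_mul]; ring_nf
      rw [h3, h2]
      have h4 : Real.exp (j / 2) * Real.exp (-(j / 2)) = 1 := by
        rw [← Real.exp_add]; simp
      have h5 := Real.exp_pos (-((j : ℝ) / 2))
      have h6 : ((j : ℝ) + 1) ≤ 2 * Real.exp (j / 2) := by linarith
      calc ((j : ℝ) + 1) * (Real.exp (-(j / 2)) * Real.exp (-(j / 2)))
          ≤ (2 * Real.exp (j / 2)) * (Real.exp (-(j / 2)) * Real.exp (-(j / 2))) := by gcongr
        _ = 2 * (Real.exp (j / 2) * Real.exp (-(j / 2))) * Real.exp (-(j / 2)) := by ring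
        _ = 2 * Real.exp (-(j / 2)) := by rw [h4]; ring
    have hgeo : ∑ j ∈ Finset.range (J + 1), (Real.exp (-(1 / 2))) ^ j ≤ 3 := by
      have hlt : Real.exp (-(1 / 2)) ≤ 2 / 3 := by
        rw [Real.exp_neg]
        have h1 : (3 / 2 : ℝ) ≤ Real.exp (1 / 2) := by
          have := Real.add_one_le_exp (1 / 2 : ℝ)
          linarith
        calc (Real.exp (1 / 2))⁻¹ ≤ (3 / 2 : ℝ)⁻¹ := inv_anti₀ (by norm_num) h1
          _ = 2 / 3 := by norm_num
      calc ∑ j ∈ Finset.range (J + 1), (Real.exp (-(1 / 2))) ^ j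
          ≤ ∑ j ∈ Finset.range (J + 1), (2 / 3 : ℝ) ^ j := by
            apply Finset.sum_le_sum
            intro j _
            exact pow_le_pow_left₀ (Real.exp_pos _).le hlt j
        _ ≤ (1 - 2 / 3 : ℝ)⁻¹ := by
            have h1 := (hasSum_geometric_of_lt_one (r := (2 / 3 : ℝ)) (by norm_num)
              (by norm_num))
            exact sum_le_hasSum _ (fun _ _ => by positivity) h1
        _ = 3 := by norm_num
    calc ∑ a ∈ A3 T, Real.log a / a ≤ ∑ a ∈ (Finset.range (J + 1)).biUnion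
          (fun j => (A3 T).filter (fun a : ℕ => ⌊Real.log a / (3 * l)⌋₊ = j)), Real.log a / a :=
          Finset.sum_le_sum_of_subset_of_nonneg hcov (fun _ _ _ => hnn _)
      _ ≤ ∑ j ∈ Finset.range (J + 1),
          ∑ a ∈ (A3 T).filter (fun a : ℕ => ⌊Real.log a / (3 * l)⌋₊ = j), Real.log a / a :=
          sum_biUnion_le' _ _ _ hnn
      _ ≤ ∑ j ∈ Finset.range (J + 1), (3 * l * (j + 1)) * (3 * C * l * Real.exp (-j)) := by
          apply Finset.sum_le_sum
          intro j _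
          calc ∑ a ∈ (A3 T).filter (fun a : ℕ => ⌊Real.log a / (3 * l)⌋₊ = j), Real.log a / a
              ≤ ∑ a ∈ (A3 T).filter (fun a : ℕ => ⌊Real.log a / (3 * l)⌋₊ = j),
                (3 * l * (j + 1)) * (1 / a) := by
                apply Finset.sum_le_sum
                intro a ha
                rw [Finset.mem_filter] at ha
                rw [div_eq_mul_one_div]
                apply mul_le_mul_of_nonneg_right _ (by positivity)
                have h1 := Nat.lt_floor_add_one (Real.log a / (3 * l))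
                rw [ha.2, div_lt_iff₀ (by positivity)] at h1
                linarith
            _ = (3 * l * (j + 1)) *
                ∑ a ∈ (A3 T).filter (fun a : ℕ => ⌊Real.log a / (3 * l)⌋₊ = j), (1 : ℝ) / a := by
                rw [Finset.mul_sum]
            _ ≤ _ := mul_le_mul_of_nonneg_left (hlev j) (by positivity)
      _ = 9 * C * l ^ 2 * ∑ j ∈ Finset.range (J + 1), ((j : ℝ) + 1) * Real.exp (-j) := by
          rw [Finset.mul_sum]
          apply Finset.sum_congr rfl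
          intro j _
          ring
      _ ≤ 9 * C * l ^ 2 * (2 * 3) := by
          apply mul_le_mul_of_nonneg_left _ (by positivity)
          calc ∑ j ∈ Finset.range (J + 1), ((j : ℝ) + 1) * Real.exp (-j)
              ≤ ∑ j ∈ Finset.range (J + 1), 2 * (Real.exp (-(1 / 2))) ^ j :=
                Finset.sum_le_sum (fun j _ => hsq j)
            _ = 2 * ∑ j ∈ Finset.range (J + 1), (Real.exp (-(1 / 2))) ^ j := by
                rw [Finset.mul_sum]
            _ ≤ 2 * 3 := by linarith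
      _ ≤ 60 * C * l ^ 2 := by nlinarith [sq_nonneg l]

theorem sum_log_subsets (R : Finset ℕ) (w u : ℕ → ℝ) (hw : ∀ p, 0 ≤ w p) (hu : ∀ p, 0 ≤ u p) :
    ∑ c ∈ R.powerset, (∏ p ∈ c, w p) * ∑ q ∈ c, u q ≤
      (∑ q ∈ R, u q * w q) * ∑ c ∈ R.powerset, ∏ p ∈ c, w p := by
  classical
  have hprod : ∀ c : Finset ℕ, 0 ≤ ∏ q ∈ c, w q := fun c => Finset.prod_nonneg fun _ _ => hw _
  have h1 : ∑ c ∈ R.powerset, (∏ p ∈ c, w p) * ∑ q ∈ c, u q =
      ∑ q ∈ R, ∑ c ∈ R.powerset.filter (fun c => q ∈ c), u q * ∏ p ∈ c, w p := by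
    have h2 : ∀ c ∈ R.powerset, (∏ p ∈ c, w p) * ∑ q ∈ c, u q =
        ∑ q ∈ R, if q ∈ c then u q * ∏ p ∈ c, w p else 0 := by
      intro c hc
      rw [Finset.mem_powerset] at hc
      rw [← Finset.sum_filter, Finset.filter_mem_eq_inter, Finset.inter_eq_right.mpr hc,
        Finset.mul_sum]
      apply Finset.sum_congr rfl
      intro q _
      ring
    rw [Finset.sum_congr rfl h2, Finset.sum_comm]
    apply Finset.sum_congr rfl
    intro q _
    rw [Finset.sum_filter]
  rw [h1, Finset.sum_mul]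
  apply Finset.sum_le_sum
  intro q _
  rw [← Finset.mul_sum, mul_assoc]
  apply mul_le_mul_of_nonneg_left _ (hu q)
  have h3 : ∑ c ∈ R.powerset.filter (fun c => q ∈ c), ∏ p ∈ c, w p =
      ∑ c ∈ R.powerset.filter (fun c => q ∈ c), w q * ∏ p ∈ c.erase q, w p := by
    apply Finset.sum_congr rfl
    intro c hc
    rw [Finset.mem_filter] at hc
    exact (Finset.mul_prod_erase c w hc.2).symm
  rw [h3, ← Finset.mul_sum]
  apply mul_le_mul_of_nonneg_left _ (hw q)
  have hinj : Set.InjOn (fun c : Finset ℕ => c.erase q)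
      ((R.powerset.filter (fun c => q ∈ c) : Finset (Finset ℕ)) : Set (Finset ℕ)) := by
    intro c hc c' hc' h
    rw [Finset.mem_coe, Finset.mem_filter] at hc hc'
    simp only at h
    rw [← Finset.insert_erase hc.2, ← Finset.insert_erase hc'.2, h]
  rw [← Finset.sum_image (f := fun c => ∏ r ∈ c, w r) hinj]
  apply Finset.sum_le_sum_of_subset_of_nonneg
  · intro c hc
    rw [Finset.mem_image] at hc
    obtain ⟨c', hc', rfl⟩ := hc
    rw [Finset.mem_filter, Finset.mem_powerset] at hc'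
    rw [Finset.mem_powerset]
    exact (Finset.erase_subset _ _).trans hc'.1
  · intro c _ _; exact hprod c

/-- sums over the sets of primes with a power close to `T` -/
theorem SC_sums : ∃ C : ℝ, 1 ≤ C ∧ ∀ᶠ T : ℕ in atTop,
    ∑ c ∈ (SC T).powerset, ∏ p ∈ c, (1 : ℝ) / p ≤ C ∧
    ∑ c ∈ (SC T).powerset, (∏ p ∈ c, (1 : ℝ) / p) * ∑ q ∈ c, Real.log q ≤
      C * Real.log (Real.log T) := by
  classical
  obtain ⟨C1, hC1, h1⟩ := prox2
  obtain ⟨C2, hC2, h2⟩ := close_log
  have hexp1 : 1 ≤ Real.exp C1 := Real.one_le_exp (by linarith)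
  refine ⟨C2 * Real.exp C1, by nlinarith, ?_⟩
  filter_upwards [h1, h2, tendsto_logT.eventually_ge_atTop 4,
    tendsto_loglogT.eventually_ge_atTop 2] with T h1T h2T hL hLL
  set l := Real.log (Real.log T) with hl
  have hmem : ∀ q ∈ SC T, q.Prime ∧ q ≤ T ∧ 3 * l ≤ Real.log q ∧ DD T q ≤ 1 := by
    intro q hq
    unfold SC at hq
    rw [Finset.mem_filter] at hq
    have := BL_facts (by linarith) hq.1
    exact ⟨this.1, this.2.1, this.2.2.1, hq.2⟩
  have hs := h1T (3 * l) 1 le_rfl (by norm_num) (by linarith) (SC T) hmem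
  have hs' : ∑ q ∈ SC T, (1 : ℝ) / q ≤ C1 := by
    refine hs.trans ?_
    rw [div_le_iff₀ (by linarith)]
    nlinarith
  have hA : ∑ c ∈ (SC T).powerset, ∏ p ∈ c, (1 : ℝ) / p ≤ Real.exp C1 := by
    rw [← Finset.prod_one_add]
    have h3 : ∏ p ∈ SC T, (1 + (1 : ℝ) / p) ≤ Real.exp (∑ p ∈ SC T, (1 : ℝ) / p) := by
      rw [Real.exp_sum]
      apply Finset.prod_le_prod (fun _ _ => by positivity)
      intro p _
      have := Real.add_one_le_exp ((1 : ℝ) / p)
      linarith
    exact h3.trans (Real.exp_le_exp.mpr hs')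
  refine ⟨?_, ?_⟩
  · refine hA.trans ?_
    nlinarith
  · have h4 := sum_log_subsets (SC T) (fun p => (1 : ℝ) / p) (fun p => Real.log p)
      (fun p => by positivity) (fun p => Real.log_natCast_nonneg p)
    refine h4.trans ?_
    have h5 : ∑ q ∈ SC T, Real.log q * (1 / (q : ℝ)) ≤ C2 * l := by
      refine le_trans (le_of_eq ?_) (h2T (SC T) hmem)
      apply Finset.sum_congr rfl
      intro q _
      rw [mul_one_div]
    have h6 : 0 ≤ ∑ c ∈ (SC T).powerset, ∏ p ∈ c, (1 : ℝ) / p :=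
      Finset.sum_nonneg fun _ _ => Finset.prod_nonneg fun _ _ => by positivity
    calc (∑ q ∈ SC T, Real.log q * (1 / (q : ℝ))) * ∑ c ∈ (SC T).powerset, ∏ p ∈ c, (1 : ℝ) / p
        ≤ (C2 * l) * Real.exp C1 := by
          apply mul_le_mul h5 hA h6 (by nlinarith)
      _ = C2 * Real.exp C1 * l := by ring

end Pool.Agent.Helper923.PPS
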