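import Mathlib
import Pool.Agent.Helper923.PPS.CutB

set_option autoImplicit false

open Finset Filter

namespace Pool.Agent.Helper923.PPS

theorem K2_facts : ∀ᶠ L : ℝ in atTop, 4 * ⌈L ^ (1 / 100 : ℝ)⌉₊ ≤ ⌊L ^ (1 / 2 : ℝ)⌋₊ ∧
    8 ≤ ⌊L ^ (1 / 2 : ℝ)⌋₊ ∧ L ^ (1 / 2 : ℝ) / 2 ≤ (⌊L ^ (1 / 2 : ℝ)⌋₊ : ℝ) ∧
    (L ^ (1 / 2 : ℝ) + 2) * L ^ (1 / 200 : ℝ) ≤ L ∧
    4 * L ^ (1 / 200 : ℝ) ≤ (⌊L ^ (1 / 2 : ℝ)⌋₊ : ℝ) ∧
    L ^ (-(1 / 200) : ℝ) ≤ 1 / 10 := by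
  have hpow : Tendsto (fun L : ℝ => L ^ (1 / 4 : ℝ)) atTop atTop :=
    tendsto_rpow_atTop (by norm_num)
  have hpow2 : Tendsto (fun L : ℝ => L ^ (1 / 200 : ℝ)) atTop atTop :=
    tendsto_rpow_atTop (by norm_num)
  filter_upwards [hpow.eventually_ge_atTop 100, eventually_ge_atTop (12 : ℝ),
    hpow2.eventually_ge_atTop 10] with L hL1 hL2 hL3
  have hL0 : (0 : ℝ) < L := by linarith
  have e : L ^ (1 / 2 : ℝ) = L ^ (1 / 4 : ℝ) * L ^ (1 / 4 : ℝ) := by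
    rw [← Real.rpow_add hL0]; norm_num
  have m1 : L ^ (1 / 100 : ℝ) ≤ L ^ (1 / 4 : ℝ) :=
    Real.rpow_le_rpow_of_exponent_le (by linarith) (by norm_num)
  have m2 : L ^ (1 / 200 : ℝ) ≤ L ^ (1 / 4 : ℝ) :=
    Real.rpow_le_rpow_of_exponent_le (by linarith) (by norm_num)
  have h3 : (⌈L ^ (1 / 100 : ℝ)⌉₊ : ℝ) < L ^ (1 / 100 : ℝ) + 1 :=
    Nat.ceil_lt_add_one (Real.rpow_nonneg hL0.le _)
  have h5 : (4 * ⌈L ^ (1 / 100 : ℝ)⌉₊ : ℕ) ≤ ⌊L ^ (1 / 2 : ℝ)⌋₊ := by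
    apply Nat.le_floor
    push_cast
    rw [e]
    nlinarith
  have h6 : 8 ≤ ⌊L ^ (1 / 2 : ℝ)⌋₊ := by
    apply Nat.le_floor
    push_cast
    rw [e]
    nlinarith
  have h7 := Nat.lt_floor_add_one (L ^ (1 / 2 : ℝ))
  have h8 : (8 : ℝ) ≤ (⌊L ^ (1 / 2 : ℝ)⌋₊ : ℝ) := by exact_mod_cast h6
  have h9 : L ^ (1 / 2 : ℝ) / 2 ≤ (⌊L ^ (1 / 2 : ℝ)⌋₊ : ℝ) := by linarith
  refine ⟨h5, h6, h9, ?_, ?_, ?_⟩
  · have h100 : (100 : ℝ) * 100 ≤ L ^ (1 / 2 : ℝ) := by rw [e]; nlinarith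
    have h10 : L ^ (1 / 2 : ℝ) + 2 ≤ 2 * L ^ (1 / 2 : ℝ) := by linarith
    have h11 : L = L ^ (1 / 2 : ℝ) * L ^ (1 / 2 : ℝ) := by
      rw [← Real.rpow_add hL0]; norm_num
    have h12 : 2 * L ^ (1 / 200 : ℝ) ≤ L ^ (1 / 2 : ℝ) := by
      rw [e]; nlinarith
    have h13 : 0 < L ^ (1 / 2 : ℝ) := by rw [e]; positivity
    calc (L ^ (1 / 2 : ℝ) + 2) * L ^ (1 / 200 : ℝ)
        ≤ (2 * L ^ (1 / 2 : ℝ)) * L ^ (1 / 200 : ℝ) := by gcongr
      _ = L ^ (1 / 2 : ℝ) * (2 * L ^ (1 / 200 : ℝ)) := by ring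
      _ ≤ L ^ (1 / 2 : ℝ) * L ^ (1 / 2 : ℝ) := by gcongr
      _ = L := h11.symm
  · refine le_trans ?_ h9
    rw [e]; nlinarith
  · rw [Real.rpow_neg hL0.le]
    calc (L ^ (1 / 200 : ℝ))⁻¹ ≤ (10 : ℝ)⁻¹ := inv_anti₀ (by norm_num) hL3
      _ = 1 / 10 := by norm_num

/-- pairs of primes dividing `m`, one of them above `Zc` -/
theorem big_pair : ∀ᶠ T : ℕ in atTop, ∀ (t : ℝ) (m : ℕ), ⌊t⌋₊ = T → t ∈ Iset m → 1 ≤ m →
    (m : ℝ) ≤ MM T → ∀ p q : ℕ, p.Prime → q.Prime → p ∣ m → q ∣ m → p < q →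
    DD T p ≤ 1 ∨ DD T q ≤ 1 ∨ Bad2 T p q := by
  filter_upwards [tendsto_logT.eventually K2_facts, tendsto_logT.eventually_ge_atTop 12,
    eventually_ge_atTop 2] with T hKB hL hT2 t m htT ht hm hmM p q hp hq hpm hqm hpq
  obtain ⟨hK1, hK2, hK3, hK4, hK5, hK6⟩ := hKB
  by_contra hcon
  push Not at hcon
  obtain ⟨hc1, hc2, hc3⟩ := hcon
  set L := Real.log T with hLdef
  have hL0 : (0 : ℝ) < L := by linarith
  have hT0' : (0 : ℝ) < T := by exact_mod_cast (by omega : 0 < T)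
  set h := L ^ (-(1 / 100) : ℝ) with hh
  have hh0 : 0 < h := Real.rpow_pos_of_pos hL0 _
  set u := Real.log p with hu
  set u' := Real.log q with hu'
  have hu0 : 0 < u := Real.log_pos (by exact_mod_cast hp.one_lt)
  have huu : u < u' := Real.log_lt_log (by exact_mod_cast hp.pos) (by exact_mod_cast hpq)
  have hqM : (q : ℝ) ≤ MM T := by
    have : q ≤ m := Nat.le_of_dvd (by omega) hqm
    have : (q : ℝ) ≤ m := by exact_mod_cast this
    linarith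
  have hu'L : u' ≤ L ^ (1 / 200 : ℝ) := log_of_MM hq.pos hqM
  have hhinv : 1 / h ≤ (B2 T : ℝ) := by
    rw [hh, Real.rpow_neg hL0.le, one_div, inv_inv]
    exact Nat.le_ceil _
  obtain ⟨j, hjK, hj⟩ := rot_hit (u' / u) ((L - u') / u) h (B2 T) (K2 T) hh0 hhinv hK1
    (by
      intro b hb1 hb2 a
      by_contra hcon
      push Not at hcon
      exact hc3 ⟨b, hb1, hb2, a, hcon⟩)
  have hKle : ((K2 T : ℕ) : ℝ) ≤ L ^ (1 / 2 : ℝ) :=
    Nat.floor_le (Real.rpow_nonneg hL0.le _)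
  have hjle : (j : ℝ) ≤ L ^ (1 / 2 : ℝ) := le_trans (by exact_mod_cast hjK) hKle
  have hju : ((j : ℝ) + 2) * u' ≤ L := by
    refine le_trans ?_ hK4
    exact mul_le_mul (by linarith) hu'L (by linarith) (by positivity)
  set x := (L - u') / u - j * (u' / u) with hx
  have hxu : x * u = L - u' - j * u' := by
    rw [hx]; field_simp
  have hx1 : 1 ≤ x := by
    have : 1 * u ≤ x * u := by rw [hxu]; nlinarith
    exact le_of_mul_le_mul_right this hu0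
  set i := ⌊x⌋₊ with hi
  have hi1 : 1 ≤ i := Nat.floor_pos.mpr hx1
  have hfr : Int.fract x = x - i := by
    rw [hi, ← Int.self_sub_floor, natCast_floor_eq_intCast_floor (by linarith)]
  rw [hfr] at hj
  have hix : (i : ℝ) ≤ x := Nat.floor_le (by linarith)
  have hp0 : (0 : ℝ) < p := by exact_mod_cast hp.pos
  have hq0 : (0 : ℝ) < q := by exact_mod_cast hq.pos
  have hloge : Real.log ((p ^ i * q ^ (j + 1) : ℕ) : ℝ) = i * u + (j + 1) * u' := by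
    push_cast
    rw [Real.log_mul (by positivity) (by positivity), Real.log_pow, Real.log_pow]
    push_cast
    ring
  have he0 : (0 : ℝ) < ((p ^ i * q ^ (j + 1) : ℕ) : ℝ) := by
    push_cast; positivity
  have hle : Real.log ((p ^ i * q ^ (j + 1) : ℕ) : ℝ) ≤ L := by
    rw [hloge]
    have : (i : ℝ) * u ≤ x * u := mul_le_mul_of_nonneg_right hix hu0.le
    linarith
  have hhu : h * u ≤ 1 / 10 := by
    calc h * u ≤ h * L ^ (1 / 200 : ℝ) := by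
          apply mul_le_mul_of_nonneg_left _ hh0.le
          linarith
      _ = L ^ (-(1 / 200) : ℝ) := by
          rw [hh, ← Real.rpow_add hL0]; norm_num
      _ ≤ 1 / 10 := hK6
  have hge : L - 1 / 10 ≤ Real.log ((p ^ i * q ^ (j + 1) : ℕ) : ℝ) := by
    rw [hloge]
    have : (x - i) * u ≤ h * u := mul_le_mul_of_nonneg_right hj hu0.le
    linarith
  have heT : ((p ^ i * q ^ (j + 1) : ℕ) : ℝ) ≤ T := (Real.log_le_log_iff he0 hT0').mp hle
  have hTt : (T : ℝ) ≤ t := by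
    rw [← htT]; exact Nat.floor_le (by linarith [ht.1])
  have hcond := (ht.2 (p ^ i * q ^ (j + 1)) (two_le_prod hp hq hi1) (by
    rw [pf_two hp hq hi1 (by omega)]
    intro r hr
    rw [Finset.mem_insert, Finset.mem_singleton] at hr
    rw [Nat.mem_primeFactors]
    rcases hr with rfl | rfl
    · exact ⟨hp, hpm, by omega⟩
    · exact ⟨hq, hqm, by omega⟩)).1 (heT.trans hTt)
  rw [pf_two hp hq hi1 (by omega), Finset.sum_pair hpq.ne, htT] at hcond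
  have hb : ∀ r : ℕ, r.Prime → 1 < DD T r → (pw r T : ℝ) < T * Real.exp (-1) := by
    intro r hr hD
    unfold DD at hD
    have hpp : (0 : ℝ) < pw r T := by exact_mod_cast pw_pos T hr.two_le
    rw [← Real.exp_log hpp]
    calc Real.exp (Real.log (pw r T)) < Real.exp (L + (-1)) :=
          Real.exp_lt_exp.mpr (by linarith)
      _ = T * Real.exp (-1) := by rw [Real.exp_add, Real.exp_log hT0']
  have hb1 := hb p hp hc1
  have hb2 := hb q hq hc2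
  have hge' : (T : ℝ) * Real.exp (-(1 / 10)) ≤ ((p ^ i * q ^ (j + 1) : ℕ) : ℝ) := by
    rw [← Real.exp_log he0]
    calc (T : ℝ) * Real.exp (-(1 / 10)) = Real.exp (L + -(1 / 10)) := by
          rw [Real.exp_add, Real.exp_log hT0']
      _ ≤ _ := Real.exp_le_exp.mpr (by linarith)
  have h9 : (9 / 10 : ℝ) ≤ Real.exp (-(1 / 10)) := by
    have := Real.add_one_le_exp (-(1 / 10) : ℝ)
    linarith
  have h10 : Real.exp (-1) ≤ 2 / 5 := by
    rw [Real.exp_neg]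
    have := Real.exp_one_gt_d9
    calc (Real.exp 1)⁻¹ ≤ (5 / 2 : ℝ)⁻¹ := inv_anti₀ (by norm_num) (by linarith)
      _ = 2 / 5 := by norm_num
  have h11 : (T : ℝ) * (9 / 10) ≤ T * Real.exp (-(1 / 10)) :=
    mul_le_mul_of_nonneg_left h9 hT0'.le
  have h12 : (T : ℝ) * Real.exp (-1) ≤ T * (2 / 5) := mul_le_mul_of_nonneg_left h10 hT0'.le
  linarith

/-- a prime dividing `m` has a power at least `T q / (2m)` below `T` -/
theorem exc_constraint {T m q : ℕ} {t : ℝ} (hT : 1 ≤ T) (htT : ⌊t⌋₊ = T) (ht : t ∈ Iset m)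
    (hm : 1 ≤ m) (hq : q.Prime) (hqm : q ∣ m) : DD T q ≤ Real.log (2 * m / q) := by
  have hTt : (T : ℝ) ≤ t := by
    rw [← htT]; exact Nat.floor_le (by linarith [ht.1])
  have hqle : q ≤ m := Nat.le_of_dvd (by omega) hqm
  have h1 := (ht.2 q hq.two_le (by
    rw [hq.primeFactors]
    intro r hr
    rw [Finset.mem_singleton] at hr
    rw [hr, Nat.mem_primeFactors]
    exact ⟨hq, hqm, by omega⟩)).2 hqle
  rw [hq.primeFactors, Finset.sum_singleton, htT] at h1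
  have hq2 : (2 : ℝ) ≤ q := by exact_mod_cast hq.two_le
  have hpp : (0 : ℝ) < pw q T := by exact_mod_cast pw_pos T hq.two_le
  have hT0 : (0 : ℝ) < T := by exact_mod_cast hT
  have hm0 : (0 : ℝ) < m := by exact_mod_cast hm
  have h2 : (T : ℝ) * (q / 2) ≤ m * pw q T := by
    refine le_trans ?_ h1
    exact mul_le_mul hTt (by linarith) (by positivity) (by linarith)
  have h3 : (T : ℝ) ≤ (2 * m / q) * pw q T := by
    rw [div_mul_eq_mul_div, le_div_iff₀ (by linarith)]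
    linarith
  have h4 := Real.log_le_log hT0 h3
  rw [Real.log_mul (by positivity) hpp.ne'] at h4
  unfold DD
  linarith

theorem harm_M : ∀ᶠ T : ℕ in atTop, ∑ b ∈ Finset.Icc 1 ⌊MM T⌋₊, (1 : ℝ) / b ≤
    2 * (Real.log T) ^ (1 / 200 : ℝ) := by
  filter_upwards [tendsto_logT.eventually_ge_atTop 1] with T hT
  have h1 : 1 ≤ (Real.log T) ^ (1 / 200 : ℝ) := Real.one_le_rpow hT (by norm_num)
  have hM : 1 ≤ MM T := Real.one_le_exp (by linarith)
  have h := harm hM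
  have h2 : Real.log (MM T) = (Real.log T) ^ (1 / 200 : ℝ) := by
    unfold MM; rw [Real.log_exp]
  rw [h2] at h
  calc ∑ b ∈ Finset.Icc 1 ⌊MM T⌋₊, (1 : ℝ) / b = ∑ b ∈ Finset.Icc 1 ⌊MM T⌋₊, ((b : ℝ))⁻¹ := by
        simp only [one_div]
    _ ≤ 1 + (Real.log T) ^ (1 / 200 : ℝ) := h
    _ ≤ 2 * (Real.log T) ^ (1 / 200 : ℝ) := by linarith

/-- cofactors with a bad pair are negligible -/
theorem bad_sum : ∀ᶠ T : ℕ in atTop, ∀ S : Finset ℕ,
    (∀ m ∈ S, 1 ≤ m ∧ (m : ℝ) ≤ MM T ∧ ∃ p q : ℕ, p.Prime ∧ q.Prime ∧ p < q ∧ Zc T < q ∧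
      p ∣ m ∧ q ∣ m ∧ Bad2 T p q) →
    ∑ m ∈ S, (1 : ℝ) / m ≤ (Real.log T) ^ (-(1 / 4) : ℝ) := by
  classical
  obtain ⟨C1, hC1, h1⟩ := primes_recip
  obtain ⟨C3, hC3, h3⟩ := bad_measure2 window_recip
  have hfin := polylog_le (C1 * (32 * C3) * 2) 2 (1 / 50 + -(1 / 2) + 1 / 200) (-(1 / 4))
    (by norm_num)
  filter_upwards [h1, tendsto_logT.eventually K2_facts, harm_M,
    tendsto_logT.eventually_ge_atTop 100, eventually_ge_atTop 2,
    tendsto_loglogT.eventually_ge_atTop 3, tendsto_logT.eventually hfin]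
    with T h1T hKB hh hL hT2 hLL hfinT S hS
  obtain ⟨hK1, hK2, hK3, hK4, hK5, hK6⟩ := hKB
  set L := Real.log T with hLdef
  have hL0 : (0 : ℝ) < L := by linarith
  set PR := (Finset.Icc 1 ⌊MM T⌋₊).filter Nat.Prime with hPR
  set QB : ℕ → Finset ℕ := fun p => (BL T).filter (fun q => p < q ∧ Bad2 T p q) with hQB
  set P : Finset ((_ : ℕ) × (_ : ℕ) × ℕ) :=
    PR.sigma (fun p => (QB p).sigma (fun _ => Finset.Icc 1 ⌊MM T⌋₊)) with hP
  have h4 : ∑ m ∈ S, (1 : ℝ) / m ≤ ∑ i ∈ P, (1 : ℝ) / i.1 * (1 / i.2.1 * (1 / i.2.2)) := by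
    apply sum_le_param S P (fun i => i.1 * (i.2.1 * i.2.2)) (fun m => (1 : ℝ) / m) _
      (fun _ => by positivity)
    · intro m hm
      obtain ⟨hm1, hmM, p, q, hp, hq, hpq, hZq, hpm, hqm, hbad⟩ := hS m hm
      have hcop : Nat.Coprime p q := (Nat.coprime_primes hp hq).mpr hpq.ne
      have hpqm : p * q ∣ m := hcop.mul_dvd_of_dvd_of_dvd hpm hqm
      have hpqle : p * q ≤ m := Nat.le_of_dvd (by omega) hpqm
      refine ⟨⟨p, q, m / (p * q)⟩, ?_, ?_⟩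
      · rw [hP, Finset.mem_sigma, Finset.mem_sigma]
        have hmf : m ≤ ⌊MM T⌋₊ := Nat.le_floor hmM
        refine ⟨?_, ?_, ?_⟩
        · rw [hPR, Finset.mem_filter, Finset.mem_Icc]
          exact ⟨⟨hp.pos, (Nat.le_of_dvd (by omega) hpm).trans hmf⟩, hp⟩
        · rw [hQB]
          simp only [Finset.mem_filter]
          refine ⟨mem_BL.mpr ⟨hq, hZq, ?_⟩, hpq, hbad⟩
          have : (q : ℝ) ≤ m := by exact_mod_cast Nat.le_of_dvd (by omega) hqm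
          linarith
        · simp only [Finset.mem_Icc]
          exact ⟨Nat.div_pos hpqle (Nat.mul_pos hp.pos hq.pos),
            (Nat.div_le_self _ _).trans hmf⟩
      · simp only
        rw [← mul_assoc]
        exact Nat.mul_div_cancel' hpqm
    · intro i _
      push_cast
      rw [one_div_mul_one_div, one_div_mul_one_div]
  have hL200 : 1 ≤ L ^ (1 / 200 : ℝ) := Real.one_le_rpow (by linarith) (by norm_num)
  have hB1 : 1 ≤ B2 T := Nat.ceil_pos.mpr (Real.rpow_pos_of_pos hL0 _)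
  have hB1' : (1 : ℝ) ≤ B2 T := by exact_mod_cast hB1
  have hBle : ((B2 T : ℕ) : ℝ) ≤ 2 * L ^ (1 / 100 : ℝ) := by
    have h5 : ((B2 T : ℕ) : ℝ) < L ^ (1 / 100 : ℝ) + 1 :=
      Nat.ceil_lt_add_one (Real.rpow_nonneg hL0.le _)
    have h6 : 1 ≤ L ^ (1 / 100 : ℝ) := Real.one_le_rpow (by linarith) (by norm_num)
    linarith
  have hQBs : ∀ p ∈ PR, ∑ q ∈ QB p, (1 : ℝ) / q ≤
      32 * C3 * Real.log L * L ^ (1 / 50 + -(1 / 2) : ℝ) := by
    intro p hp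
    rw [hPR, Finset.mem_filter] at hp
    have hlp : 1 / 2 ≤ Real.log p := by
      have h5 : Real.log 2 ≤ Real.log p :=
        Real.log_le_log (by norm_num) (by exact_mod_cast hp.2.two_le)
      have := Real.log_two_gt_d9
      linarith
    have hb := h3 p (B2 T) (K2 T) (L ^ (1 / 200 : ℝ)) (3 * Real.log L) hlp hK2 hB1 (by linarith)
      (by
        calc ((K2 T : ℕ) : ℝ) ≤ L ^ (1 / 2 : ℝ) := Nat.floor_le (Real.rpow_nonneg hL0.le _)
          _ = Real.exp (Real.log L * (1 / 2)) := by rw [Real.rpow_def_of_pos hL0]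
          _ ≤ Real.exp (3 * Real.log L / 4) := Real.exp_le_exp.mpr (by linarith))
      hL200 hK5 (QB p) (fun q hq => by
        rw [hQB] at hq
        simp only [Finset.mem_filter] at hq
        have := BL_facts (by linarith) hq.1
        exact ⟨this.1, hq.2.1, this.2.2.1, this.2.2.2, hq.2.2⟩)
    refine hb.trans ?_
    have hKpos : (0 : ℝ) < L ^ (1 / 2 : ℝ) / 2 := by
      have := Real.rpow_pos_of_pos hL0 (1 / 2 : ℝ); positivity
    have hlog : 1 + Real.log (B2 T * (2 * L ^ (1 / 200 : ℝ) + 1)) ≤ 4 * Real.log L := by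
      have h5 : (B2 T : ℝ) * (2 * L ^ (1 / 200 : ℝ) + 1) ≤ L ^ 2 := by
        have h6 : 2 * L ^ (1 / 200 : ℝ) + 1 ≤ 3 * L ^ (1 / 200 : ℝ) := by linarith
        have h7 : L ^ (1 / 100 : ℝ) * L ^ (1 / 200 : ℝ) ≤ L := by
          rw [← Real.rpow_add hL0]
          calc L ^ (1 / 100 + 1 / 200 : ℝ) ≤ L ^ (1 : ℝ) :=
                Real.rpow_le_rpow_of_exponent_le (by linarith) (by norm_num)
            _ = L := Real.rpow_one _
        calc (B2 T : ℝ) * (2 * L ^ (1 / 200 : ℝ) + 1)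
            ≤ (2 * L ^ (1 / 100 : ℝ)) * (3 * L ^ (1 / 200 : ℝ)) :=
              mul_le_mul hBle h6 (by positivity) (by positivity)
          _ = 6 * (L ^ (1 / 100 : ℝ) * L ^ (1 / 200 : ℝ)) := by ring
          _ ≤ 6 * L := by linarith
          _ ≤ L ^ 2 := by nlinarith
      have h8 : (0 : ℝ) < (B2 T : ℝ) * (2 * L ^ (1 / 200 : ℝ) + 1) := by positivity
      have h9 := Real.log_le_log h8 h5
      rw [Real.log_pow] at h9
      push_cast at h9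
      linarith
    have hB2 : ((B2 T : ℕ) : ℝ) ^ 2 ≤ 4 * L ^ (1 / 50 : ℝ) := by
      calc ((B2 T : ℕ) : ℝ) ^ 2 ≤ (2 * L ^ (1 / 100 : ℝ)) ^ 2 := by gcongr
        _ = 4 * (L ^ (1 / 100 : ℝ) * L ^ (1 / 100 : ℝ)) := by ring
        _ = 4 * L ^ (1 / 50 : ℝ) := by rw [← Real.rpow_add hL0]; norm_num
    have hlog0 : 0 ≤ 1 + Real.log (B2 T * (2 * L ^ (1 / 200 : ℝ) + 1)) := by
      have : 0 ≤ Real.log (B2 T * (2 * L ^ (1 / 200 : ℝ) + 1)) := by
        apply Real.log_nonneg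
        nlinarith
      linarith
    calc C3 * (B2 T : ℝ) ^ 2 * (1 + Real.log (B2 T * (2 * L ^ (1 / 200 : ℝ) + 1))) / K2 T
        ≤ C3 * (4 * L ^ (1 / 50 : ℝ)) * (4 * Real.log L) / (L ^ (1 / 2 : ℝ) / 2) := by
          apply div_le_div₀ (by positivity) _ hKpos hK3
          apply mul_le_mul _ hlog hlog0 (by positivity)
          exact mul_le_mul_of_nonneg_left hB2 (by linarith)
      _ = 32 * C3 * Real.log L * (L ^ (1 / 50 : ℝ) * (L ^ (1 / 2 : ℝ))⁻¹) := by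
          field_simp; ring
      _ = 32 * C3 * Real.log L * L ^ (1 / 50 + -(1 / 2) : ℝ) := by
          rw [← Real.rpow_neg hL0.le, ← Real.rpow_add hL0]
  refine h4.trans ?_
  rw [hP, Finset.sum_sigma]
  have hMT : MM T ≤ T := MM_le_T (by linarith)
  calc ∑ p ∈ PR, ∑ j ∈ (QB p).sigma (fun _ => Finset.Icc 1 ⌊MM T⌋₊),
        (1 : ℝ) / p * (1 / j.1 * (1 / j.2))
      = ∑ p ∈ PR, (1 : ℝ) / p * ((∑ q ∈ QB p, (1 : ℝ) / q) *
          ∑ b ∈ Finset.Icc 1 ⌊MM T⌋₊, (1 : ℝ) / b) := by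
        apply Finset.sum_congr rfl; intro p _
        rw [Finset.sum_sigma, Finset.sum_mul_sum]
        simp only [← Finset.mul_sum]
    _ ≤ ∑ p ∈ PR, (1 : ℝ) / p * ((32 * C3 * Real.log L * L ^ (1 / 50 + -(1 / 2) : ℝ)) *
          (2 * L ^ (1 / 200 : ℝ))) := by
        apply Finset.sum_le_sum
        intro p hp
        apply mul_le_mul_of_nonneg_left _ (by positivity)
        apply mul_le_mul (hQBs p hp) hh (Finset.sum_nonneg fun _ _ => by positivity)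
        positivity
    _ = (∑ p ∈ PR, (1 : ℝ) / p) * ((32 * C3 * Real.log L * L ^ (1 / 50 + -(1 / 2) : ℝ)) *
          (2 * L ^ (1 / 200 : ℝ))) := by rw [Finset.sum_mul]
    _ ≤ (C1 * Real.log L) * ((32 * C3 * Real.log L * L ^ (1 / 50 + -(1 / 2) : ℝ)) *
          (2 * L ^ (1 / 200 : ℝ))) := by
        apply mul_le_mul_of_nonneg_right _ (by positivity)
        apply h1T
        intro p hp
        rw [hPR, Finset.mem_filter, Finset.mem_Icc] at hp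
        refine ⟨hp.2, ?_⟩
        have h5 : (p : ℝ) ≤ MM T := (Nat.le_floor_iff (by unfold MM; positivity)).mp hp.1.2
        exact_mod_cast h5.trans hMT
    _ = C1 * (32 * C3) * 2 * (Real.log L) ^ 2 * L ^ (1 / 50 + -(1 / 2) + 1 / 200 : ℝ) := by
        rw [Real.rpow_add hL0 (1 / 50 + -(1 / 2)) (1 / 200)]; ring
    _ ≤ L ^ (-(1 / 4) : ℝ) := hfinT

/-- cofactors divisible by the square of a large prime are negligible -/
theorem sq_sum : ∀ᶠ T : ℕ in atTop, ∀ S : Finset ℕ,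
    (∀ m ∈ S, 1 ≤ m ∧ (m : ℝ) ≤ MM T ∧ ∃ p : ℕ, p.Prime ∧ Zc T < p ∧ p ^ 2 ∣ m) →
    ∑ m ∈ S, (1 : ℝ) / m ≤ (Real.log T) ^ (-(1 / 4) : ℝ) := by
  classical
  filter_upwards [Zc_facts, harm_M, tendsto_logT.eventually_ge_atTop 12,
    tendsto_logT.eventually (polylog_le 4 0 (-3 + 1 / 200) (-(1 / 4)) (by norm_num))]
    with T hz hh hL hp S hS
  set L := Real.log T with hLdef
  have hL0 : 0 < L := by linarith
  set P := Finset.Ioc (Zc T) (max (Zc T) ⌊MM T⌋₊) with hP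
  have h4 : ∑ m ∈ S, (1 : ℝ) / m ≤ ∑ i ∈ P ×ˢ Finset.Icc 1 ⌊MM T⌋₊,
      ((i.1 : ℝ) ^ 2)⁻¹ * (1 / i.2) := by
    apply sum_le_param S (P ×ˢ Finset.Icc 1 ⌊MM T⌋₊) (fun i => i.1 ^ 2 * i.2)
      (fun m => (1 : ℝ) / m) _ (fun _ => by positivity)
    · intro m hm
      obtain ⟨hm1, hmT, p, hp1, hp2, hp3⟩ := hS m hm
      have hp2m : p ^ 2 ≤ m := Nat.le_of_dvd (by omega) hp3
      have hmf : m ≤ ⌊MM T⌋₊ := Nat.le_floor hmT
      refine ⟨(p, m / p ^ 2), ?_, Nat.mul_div_cancel' hp3⟩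
      rw [Finset.mem_product, Finset.mem_Icc, hP, Finset.mem_Ioc]
      refine ⟨⟨hp2, le_max_of_le_right ?_⟩, ?_, (Nat.div_le_self _ _).trans hmf⟩
      · have := hp1.pos
        simp only
        nlinarith
      · exact Nat.div_pos hp2m (by have := hp1.pos; positivity)
    · intro i _
      push_cast
      rw [one_div, one_div, mul_inv]
  refine h4.trans ?_
  rw [Finset.sum_product]
  have hz0 : Zc T ≠ 0 := by have := hz.1; omega
  have hz0' : (0 : ℝ) < Zc T := by exact_mod_cast Nat.pos_of_ne_zero hz0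
  have h5 : ∑ p ∈ P, ((p : ℝ) ^ 2)⁻¹ ≤ 2 * L ^ (-3 : ℝ) := by
    have h2 := sum_Ioc_inv_sq_le_sub (α := ℝ) hz0 (le_max_left (Zc T) ⌊MM T⌋₊)
    have h6 : (0 : ℝ) ≤ ((max (Zc T) ⌊MM T⌋₊ : ℕ) : ℝ)⁻¹ := by positivity
    have h7 : (L ^ (-3 : ℝ)) = (L ^ 3)⁻¹ := by
      rw [Real.rpow_neg hL0.le]; norm_num
    calc ∑ p ∈ P, ((p : ℝ) ^ 2)⁻¹ ≤ 1 / (Zc T : ℝ) := by
          rw [one_div]; linarith
      _ ≤ 2 * (L ^ 3)⁻¹ := by
          rw [div_le_iff₀ hz0', mul_comm (2 : ℝ), mul_assoc, ← div_eq_inv_mul,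
            le_div_iff₀ (by positivity)]
          linarith [hz.2.2]
      _ = 2 * L ^ (-3 : ℝ) := by rw [h7]
  calc ∑ p ∈ P, ∑ b ∈ Finset.Icc 1 ⌊MM T⌋₊, ((p : ℝ) ^ 2)⁻¹ * (1 / b)
      = (∑ p ∈ P, ((p : ℝ) ^ 2)⁻¹) * ∑ b ∈ Finset.Icc 1 ⌊MM T⌋₊, (1 : ℝ) / b := by
        rw [Finset.sum_mul_sum]
    _ ≤ (2 * L ^ (-3 : ℝ)) * (2 * L ^ (1 / 200 : ℝ)) := by
        apply mul_le_mul h5 hh (Finset.sum_nonneg fun _ _ => by positivity) (by positivity)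
    _ = 4 * L ^ (-3 + 1 / 200 : ℝ) := by
        rw [Real.rpow_add hL0]; ring
    _ ≤ L ^ (-(1 / 4) : ℝ) := by
        rw [pow_zero, mul_one] at hp
        exact hp

end Pool.Agent.Helper923.PPS
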