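import Mathlib
import Pool.Agent.Helper923.PPS.CutC

set_option autoImplicit false

open Finset Filter

namespace Pool.Agent.Helper923.PPS

/-- primes of `m` above `z` -/
def lp (z m : ℕ) : Finset ℕ := m.primeFactors.filter (fun p => z < p)

theorem split_z {m z : ℕ} (hm : m ≠ 0) (hsq : ∀ p : ℕ, p.Prime → z < p → ¬ p ^ 2 ∣ m) :
    m = sp z m * ∏ p ∈ lp z m, p := by
  have h1 : m = ∏ p ∈ m.primeFactors, p ^ m.factorization p := by
    conv_lhs => rw [← Nat.prod_factorization_pow_eq_self hm]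
    rfl
  have h2 := Finset.prod_filter_mul_prod_filter_not m.primeFactors (fun p => p ≤ z)
    (fun p => p ^ m.factorization p)
  have h3 : ∏ p ∈ m.primeFactors.filter (fun p => ¬ p ≤ z), p ^ m.factorization p =
      ∏ p ∈ lp z m, p := by
    unfold lp
    have h0 : m.primeFactors.filter (fun p => ¬ p ≤ z) =
        m.primeFactors.filter (fun p => z < p) := by
      apply Finset.filter_congr
      intro p _
      exact not_le
    rw [h0]
    apply Finset.prod_congr rfl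
    intro p hp
    rw [Finset.mem_filter, Nat.mem_primeFactors] at hp
    have h4 : m.factorization p = 1 := by
      have h5 : 1 ≤ m.factorization p :=
        (hp.1.1.dvd_iff_one_le_factorization hm).mp hp.1.2.1
      have h6 : ¬ 2 ≤ m.factorization p := fun h =>
        hsq p hp.1.1 hp.2 ((hp.1.1.pow_dvd_iff_le_factorization hm).mpr h)
      omega
    rw [h4, pow_one]
  rw [h3, ← h1] at h2
  exact h2.symm

noncomputable def wt (a : ℕ) (c : Finset ℕ) : ℝ := 1 / (a : ℝ) * ∏ p ∈ c, (1 : ℝ) / p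
noncomputable def WV (a : ℕ) (c : Finset ℕ) : ℝ := Real.log a + ∑ q ∈ c, Real.log q

theorem wt_nonneg (a : ℕ) (c : Finset ℕ) : 0 ≤ wt a c := by
  unfold wt
  have : 0 ≤ ∏ p ∈ c, (1 : ℝ) / p := Finset.prod_nonneg fun _ _ => by positivity
  positivity

theorem WV_nonneg (a : ℕ) (c : Finset ℕ) : 0 ≤ WV a c := by
  unfold WV
  have h1 := Real.log_natCast_nonneg a
  have h2 : 0 ≤ ∑ q ∈ c, Real.log q := Finset.sum_nonneg fun q _ => Real.log_natCast_nonneg q
  linarith

theorem mem_A3 {T a : ℕ} (h : a ∈ A3 T) : 1 ≤ a := by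
  classical
  unfold A3 at h
  rw [Finset.mem_filter, Finset.mem_Icc] at h
  exact h.1.1

theorem mem_SC {T p : ℕ} (h : p ∈ SC T) : p.Prime := by
  classical
  unfold SC at h
  rw [Finset.mem_filter, mem_BL] at h
  exact h.1.1

theorem WV_eq {T a : ℕ} {c : Finset ℕ} (ha : a ∈ A3 T) (hc : c ∈ (SC T).powerset) :
    WV a c = Real.log ((a * ∏ p ∈ c, p : ℕ) : ℝ) := by
  rw [Finset.mem_powerset] at hc
  have ha0 : (0 : ℝ) < a := by exact_mod_cast mem_A3 ha
  have hp : ∀ p ∈ c, ((p : ℕ) : ℝ) ≠ 0 := fun p hp => by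
    have := (mem_SC (hc hp)).pos
    positivity
  unfold WV
  push_cast
  rw [Real.log_mul ha0.ne' (Finset.prod_ne_zero_iff.mpr hp), Real.log_prod hp]

theorem moments : ∃ C : ℝ, 1 ≤ C ∧ ∀ᶠ T : ℕ in atTop,
    ∑ a ∈ A3 T, ∑ c ∈ (SC T).powerset, wt a c ≤ C * Real.log (Real.log T) ∧
    ∑ a ∈ A3 T, ∑ c ∈ (SC T).powerset, wt a c * WV a c ≤ C * (Real.log (Real.log T)) ^ 2 := by
  obtain ⟨C3, hC3, h3⟩ := smooth3
  obtain ⟨C4, hC4, h4⟩ := SC_sums
  have hCC : 1 ≤ C3 * C4 := by nlinarith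
  refine ⟨2 * (C3 * C4), by linarith, ?_⟩
  filter_upwards [h3, h4, tendsto_loglogT.eventually_ge_atTop 1] with T h3T h4T hLL
  obtain ⟨h3a, h3b⟩ := h3T
  obtain ⟨h4a, h4b⟩ := h4T
  set l := Real.log (Real.log T) with hl
  have hl0 : 0 < l := by linarith
  have n3 : 0 ≤ ∑ c ∈ (SC T).powerset, ∏ p ∈ c, (1 : ℝ) / p :=
    Finset.sum_nonneg fun _ _ => Finset.prod_nonneg fun _ _ => by positivity
  have n4 : 0 ≤ ∑ c ∈ (SC T).powerset, (∏ p ∈ c, (1 : ℝ) / p) * ∑ q ∈ c, Real.log q := by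
    apply Finset.sum_nonneg
    intro c _
    apply mul_nonneg (Finset.prod_nonneg fun _ _ => by positivity)
    exact Finset.sum_nonneg fun q _ => Real.log_natCast_nonneg q
  constructor
  · have e : ∑ a ∈ A3 T, ∑ c ∈ (SC T).powerset, wt a c =
        (∑ a ∈ A3 T, (1 : ℝ) / a) * ∑ c ∈ (SC T).powerset, ∏ p ∈ c, (1 : ℝ) / p := by
      rw [Finset.sum_mul_sum]; rfl
    rw [e]
    have h5 : (∑ a ∈ A3 T, (1 : ℝ) / a) * ∑ c ∈ (SC T).powerset, ∏ p ∈ c, (1 : ℝ) / p ≤
        (C3 * l) * C4 := mul_le_mul h3a h4a n3 (by positivity)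
    nlinarith
  · have e : ∑ a ∈ A3 T, ∑ c ∈ (SC T).powerset, wt a c * WV a c =
        (∑ a ∈ A3 T, Real.log a / a) * ∑ c ∈ (SC T).powerset, ∏ p ∈ c, (1 : ℝ) / p +
        (∑ a ∈ A3 T, (1 : ℝ) / a) *
          ∑ c ∈ (SC T).powerset, (∏ p ∈ c, (1 : ℝ) / p) * ∑ q ∈ c, Real.log q := by
      rw [Finset.sum_mul_sum, Finset.sum_mul_sum, ← Finset.sum_add_distrib]
      apply Finset.sum_congr rfl
      intro a _
      rw [← Finset.sum_add_distrib]
      apply Finset.sum_congr rfl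
      intro c _
      unfold wt WV
      ring
    rw [e]
    have h5 : (∑ a ∈ A3 T, Real.log a / a) * ∑ c ∈ (SC T).powerset, ∏ p ∈ c, (1 : ℝ) / p ≤
        (C3 * l ^ 2) * C4 := mul_le_mul h3b h4a n3 (by positivity)
    have h6 : (∑ a ∈ A3 T, (1 : ℝ) / a) *
        ∑ c ∈ (SC T).powerset, (∏ p ∈ c, (1 : ℝ) / p) * ∑ q ∈ c, Real.log q ≤
        (C3 * l) * (C4 * l) := mul_le_mul h3a h4b n4 (by positivity)
    nlinarith

/-- the structure of the cofactors without bad pairs -/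
theorem struct_m : ∀ᶠ T : ℕ in atTop, ∀ (t : ℝ) (m : ℕ), ⌊t⌋₊ = T → t ∈ Iset m → 1 ≤ m →
    (m : ℝ) ≤ MM T → (∀ p : ℕ, p.Prime → Zc T < p → ¬ p ^ 2 ∣ m) →
    (∀ p q : ℕ, p.Prime → q.Prime → p < q → Zc T < q → p ∣ m → q ∣ m → ¬ Bad2 T p q) →
    ∃ a ∈ A3 T, ∃ c ∈ (SC T).powerset,
      (a * ∏ p ∈ c, p = m) ∨
      (∃ q ∈ BL T, a * ((∏ p ∈ c, p) * q) = m ∧ DD T q ≤ Real.log 2 + WV a c ∧
        WV a c ≤ (Real.log T) ^ (1 / 200 : ℝ)) := by
  classical
  filter_upwards [big_pair, tendsto_logT.eventually_ge_atTop 12, eventually_ge_atTop 2]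
    with T hpair hL hT2 t m ht htm hm hmM hsq hbad
  have hm0 : m ≠ 0 := by omega
  set R := lp (Zc T) m with hR
  have hRmem : ∀ p ∈ R, p.Prime ∧ p ∣ m ∧ Zc T < p := by
    intro p hp
    rw [hR] at hp
    unfold lp at hp
    rw [Finset.mem_filter, Nat.mem_primeFactors] at hp
    exact ⟨hp.1.1, hp.1.2.1, hp.2⟩
  have hRBL : ∀ p ∈ R, p ∈ BL T := by
    intro p hp
    have h1 := hRmem p hp
    refine mem_BL.mpr ⟨h1.1, h1.2.2, ?_⟩
    have : (p : ℝ) ≤ m := by exact_mod_cast Nat.le_of_dvd (by omega) h1.2.1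
    linarith
  have ha : sp (Zc T) m ∈ A3 T := by
    unfold A3
    rw [Finset.mem_filter, Finset.mem_Icc]
    refine ⟨⟨sp_pos _ _, ?_⟩, fun p hp hpd => sp_smooth hp hpd⟩
    apply Nat.le_floor
    refine le_trans ?_ hmM
    exact_mod_cast Nat.le_of_dvd (by omega) (sp_dvd hm0)
  have hsplit := split_z hm0 hsq
  rw [← hR] at hsplit
  refine ⟨sp (Zc T) m, ha, ?_⟩
  by_cases hall : ∀ q ∈ R, DD T q ≤ 1
  · refine ⟨R, ?_, Or.inl hsplit.symm⟩
    rw [Finset.mem_powerset]
    intro q hq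
    unfold SC
    rw [Finset.mem_filter]
    exact ⟨hRBL q hq, hall q hq⟩
  · push Not at hall
    obtain ⟨q, hq, hDq⟩ := hall
    have hqf := hRmem q hq
    have hc : R.erase q ∈ (SC T).powerset := by
      rw [Finset.mem_powerset]
      intro p hp
      have hpR := Finset.mem_of_mem_erase hp
      have hpf := hRmem p hpR
      unfold SC
      rw [Finset.mem_filter]
      refine ⟨hRBL p hpR, ?_⟩
      rcases lt_or_gt_of_ne (Finset.ne_of_mem_erase hp) with hlt | hlt
      · rcases hpair t m ht htm hm hmM p q hpf.1 hqf.1 hpf.2.1 hqf.2.1 hlt with h | h | h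
        · exact h
        · linarith
        · exact absurd h (hbad p q hpf.1 hqf.1 hlt hqf.2.2 hpf.2.1 hqf.2.1)
      · rcases hpair t m ht htm hm hmM q p hqf.1 hpf.1 hqf.2.1 hpf.2.1 hlt with h | h | h
        · linarith
        · exact h
        · exact absurd h (hbad q p hqf.1 hpf.1 hlt hpf.2.2 hqf.2.1 hpf.2.1)
    refine ⟨R.erase q, hc, Or.inr ⟨q, hRBL q hq, ?_, ?_, ?_⟩⟩
    · rw [Finset.prod_erase_mul _ _ hq]
      exact hsplit.symm
    · have h1 := exc_constraint (by omega : 1 ≤ T) ht htm hm hqf.1 hqf.2.1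
      have h2 : (m : ℝ) = ((sp (Zc T) m * ∏ p ∈ R.erase q, p : ℕ) : ℝ) * q := by
        have h3 : m = (sp (Zc T) m * ∏ p ∈ R.erase q, p) * q := by
          conv_lhs => rw [hsplit, ← Finset.prod_erase_mul _ _ hq]
          ring
        conv_lhs => rw [h3]
        push_cast
        ring
      have hq0 : (q : ℝ) ≠ 0 := by have := hqf.1.pos; positivity
      rw [WV_eq ha hc]
      have h4 : (2 * m / q : ℝ) = 2 * ((sp (Zc T) m * ∏ p ∈ R.erase q, p : ℕ) : ℝ) := by
        conv_lhs => rw [h2]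
        field_simp
      have h5 : ((sp (Zc T) m * ∏ p ∈ R.erase q, p : ℕ) : ℝ) ≠ 0 := by
        intro h
        rw [h, zero_mul] at h2
        exact hm0 (by exact_mod_cast h2)
      rw [h4, Real.log_mul (by norm_num) h5] at h1
      exact h1
    · rw [WV_eq ha hc]
      have h3 : m = (sp (Zc T) m * ∏ p ∈ R.erase q, p) * q := by
        conv_lhs => rw [hsplit, ← Finset.prod_erase_mul _ _ hq]
        ring
      have h5 : 0 < sp (Zc T) m * ∏ p ∈ R.erase q, p := by
        rcases Nat.eq_zero_or_pos (sp (Zc T) m * ∏ p ∈ R.erase q, p) with h | h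
        · rw [h, zero_mul] at h3; exact absurd h3 hm0
        · exact h
      apply log_of_MM h5
      refine le_trans ?_ hmM
      have h6 : sp (Zc T) m * ∏ p ∈ R.erase q, p ≤ m := by
        conv_rhs => rw [h3]
        exact Nat.le_mul_of_pos_right _ hqf.1.pos
      exact_mod_cast h6

open scoped Classical in
noncomputable def QX (T : ℕ) (E : ℝ) (a : ℕ) (c : Finset ℕ) : Finset ℕ :=
  (BL T).filter (fun q : ℕ => DD T q ≤ Real.log 2 + WV a c ∧
    WV a c ≤ (Real.log T) ^ (1 / 200 : ℝ) ∧ E < WV a c + Real.log q)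

theorem mem_QX {T : ℕ} {E : ℝ} {a : ℕ} {c : Finset ℕ} {q : ℕ} : q ∈ QX T E a c ↔ q ∈ BL T ∧
    DD T q ≤ Real.log 2 + WV a c ∧
    WV a c ≤ (Real.log T) ^ (1 / 200 : ℝ) ∧ E < WV a c + Real.log q := by
  unfold QX
  rw [Finset.mem_filter]

theorem small_rpow : ∀ᶠ T : ℕ in atTop,
    Real.log 2 + (Real.log T) ^ (1 / 200 : ℝ) ≤ Real.log T / 4 := by
  filter_upwards [tendsto_logT.eventually K2_facts, tendsto_logT.eventually_ge_atTop 12]
    with T hKB hL
  obtain ⟨hK1, hK2, hK3, hK4, hK5, hK6⟩ := hKB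
  set L := Real.log T with hLdef
  have h1 : (8 : ℝ) ≤ (⌊L ^ (1 / 2 : ℝ)⌋₊ : ℝ) := by exact_mod_cast hK2
  have h2 : ((⌊L ^ (1 / 2 : ℝ)⌋₊ : ℕ) : ℝ) ≤ L ^ (1 / 2 : ℝ) :=
    Nat.floor_le (Real.rpow_nonneg (by linarith) _)
  have h3 : 0 ≤ L ^ (1 / 200 : ℝ) := Real.rpow_nonneg (by linarith) _
  have h4 := Real.log_two_lt_d9
  nlinarith

theorem QX_sum1 : ∃ C : ℝ, 1 ≤ C ∧ ∀ᶠ T : ℕ in atTop, ∀ (E : ℝ) (a : ℕ) (c : Finset ℕ),
    ∑ q ∈ QX T E a c, (1 : ℝ) / q ≤ C * (WV a c + 2) / (3 * Real.log (Real.log T)) := by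
  classical
  obtain ⟨C, hC, hp⟩ := prox2
  refine ⟨C, hC, ?_⟩
  filter_upwards [hp, small_rpow, tendsto_logT.eventually_ge_atTop 12,
    tendsto_loglogT.eventually_ge_atTop 2] with T hpT hsm hL hLL E a c
  have hW := WV_nonneg a c
  have hl2 := Real.log_two_lt_d9
  have hl2' := Real.log_two_gt_d9
  by_cases hWL : WV a c ≤ (Real.log T) ^ (1 / 200 : ℝ)
  · have h := hpT (3 * Real.log (Real.log T)) (Real.log 2 + WV a c) le_rfl (by linarith)
      (by linarith) (QX T E a c) (fun q hq => by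
        rw [mem_QX] at hq
        have hb := BL_facts (by linarith) hq.1
        exact ⟨hb.1, hb.2.1, hb.2.2.1, hq.2.1⟩)
    refine h.trans ?_
    apply div_le_div_of_nonneg_right _ (by linarith)
    apply mul_le_mul_of_nonneg_left _ (by linarith)
    linarith
  · have h0 : QX T E a c = ∅ := by
      rw [Finset.eq_empty_iff_forall_notMem]
      intro q hq
      rw [mem_QX] at hq
      exact hWL hq.2.2.1
    rw [h0, Finset.sum_empty]
    positivity

theorem QX_sum2 : ∃ C : ℝ, 1 ≤ C ∧ ∀ᶠ T : ℕ in atTop, ∀ (E : ℝ) (a : ℕ) (c : Finset ℕ),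
    6 * Real.log (Real.log T) ≤ E →
    ∑ q ∈ QX T E a c, (1 : ℝ) / q ≤
      2 / E * (C * Real.log (Real.log T) * WV a c + C * (WV a c + 2)) := by
  classical
  obtain ⟨C, hC, hp⟩ := prox2
  obtain ⟨C1, hC1, h1⟩ := primes_recip
  refine ⟨C + C1, by linarith, ?_⟩
  filter_upwards [hp, h1, small_rpow, tendsto_logT.eventually_ge_atTop 12,
    tendsto_loglogT.eventually_ge_atTop 2] with T hpT h1T hsm hL hLL E a c hE
  have hW := WV_nonneg a c
  have hl2 := Real.log_two_lt_d9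
  have hl2' := Real.log_two_gt_d9
  set l := Real.log (Real.log T) with hl
  have hE0 : 0 < E := by linarith
  have hl0 : 0 < l := by linarith
  by_cases hWE : E / 2 < WV a c
  · have h := h1T (QX T E a c) (fun q hq => by
      rw [mem_QX] at hq
      have hb := BL_facts (by linarith) hq.1
      exact ⟨hb.1, hb.2.1⟩)
    refine h.trans ?_
    have h2 : 1 ≤ 2 / E * WV a c := by
      rw [div_mul_eq_mul_div, le_div_iff₀ hE0]
      linarith
    have h3 : 0 ≤ 2 / E * ((C + C1) * (WV a c + 2)) := by positivity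
    have h4 : C1 * l ≤ (2 / E * WV a c) * ((C + C1) * l) := by
      calc C1 * l ≤ (C + C1) * l := by nlinarith
        _ = 1 * ((C + C1) * l) := (one_mul _).symm
        _ ≤ (2 / E * WV a c) * ((C + C1) * l) :=
          mul_le_mul_of_nonneg_right h2 (by positivity)
    calc C1 * l ≤ (2 / E * WV a c) * ((C + C1) * l) + 2 / E * ((C + C1) * (WV a c + 2)) := by
          linarith
      _ = _ := by ring
  · push Not at hWE
    by_cases hWL : WV a c ≤ (Real.log T) ^ (1 / 200 : ℝ)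
    · have h := hpT (E / 2) (Real.log 2 + WV a c) (by linarith) (by linarith)
        (by linarith) (QX T E a c) (fun q hq => by
          rw [mem_QX] at hq
          have hb := BL_facts (by linarith) hq.1
          exact ⟨hb.1, hb.2.1, by linarith [hq.2.2.2], hq.2.1⟩)
      refine h.trans ?_
      have h5 : 0 ≤ 2 / E := by positivity
      calc C * (Real.log 2 + WV a c + 1) / (E / 2) = 2 / E * (C * (Real.log 2 + WV a c + 1)) := by
            field_simp
        _ ≤ 2 / E * ((C + C1) * l * WV a c + (C + C1) * (WV a c + 2)) := by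
            apply mul_le_mul_of_nonneg_left _ h5
            have h6 : 0 ≤ (C + C1) * l * WV a c := by positivity
            have h7 : C * (Real.log 2 + WV a c + 1) ≤ C * (WV a c + 2) :=
              mul_le_mul_of_nonneg_left (by linarith) (by linarith)
            have h8 : 0 ≤ C1 * (WV a c + 2) := by positivity
            nlinarith
    · have h0 : QX T E a c = ∅ := by
        rw [Finset.eq_empty_iff_forall_notMem]
        intro q hq
        rw [mem_QX] at hq
        exact hWL hq.2.2.1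
      rw [h0, Finset.sum_empty]
      positivity

/-- the cofactors without bad pairs in terms of the parameters -/
theorem core : ∀ᶠ T : ℕ in atTop, ∀ (t : ℝ), ⌊t⌋₊ = T → ∀ (E : ℝ) (S : Finset ℕ),
    (∀ m ∈ S, 1 ≤ m ∧ (m : ℝ) ≤ MM T ∧ t ∈ Iset m ∧ E < Real.log m ∧
      (∀ p : ℕ, p.Prime → Zc T < p → ¬ p ^ 2 ∣ m) ∧
      (∀ p q : ℕ, p.Prime → q.Prime → p < q → Zc T < q → p ∣ m → q ∣ m → ¬ Bad2 T p q)) →
    ∑ m ∈ S, (1 : ℝ) / m ≤
      ∑ a ∈ A3 T, ∑ c ∈ (SC T).powerset, (if E < WV a c then wt a c else 0) +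
      ∑ a ∈ A3 T, ∑ c ∈ (SC T).powerset, wt a c * ∑ q ∈ QX T E a c, (1 : ℝ) / q := by
  classical
  filter_upwards [struct_m, tendsto_logT.eventually_ge_atTop 12] with T hst hL t ht E S hS
  set S1 := S.filter (fun m => ∃ a ∈ A3 T, ∃ c ∈ (SC T).powerset, a * ∏ p ∈ c, p = m) with hS1
  set S2 := S.filter (fun m => ¬ ∃ a ∈ A3 T, ∃ c ∈ (SC T).powerset, a * ∏ p ∈ c, p = m) with hS2
  have hsplit : ∑ m ∈ S, (1 : ℝ) / m = ∑ m ∈ S1, (1 : ℝ) / m + ∑ m ∈ S2, (1 : ℝ) / m :=
    (Finset.sum_filter_add_sum_filter_not _ _ _).symm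
  rw [hsplit]
  apply add_le_add
  · have h4 : ∑ m ∈ S1, (1 : ℝ) / m ≤
        ∑ i ∈ ((A3 T) ×ˢ (SC T).powerset).filter (fun i => E < WV i.1 i.2), wt i.1 i.2 := by
      apply sum_le_param S1 _ (fun i => i.1 * ∏ p ∈ i.2, p) (fun m => (1 : ℝ) / m) _
        (fun _ => by positivity)
      · intro m hm
        rw [hS1, Finset.mem_filter] at hm
        obtain ⟨hmS, a, ha, c, hc, hac⟩ := hm
        refine ⟨(a, c), ?_, hac⟩
        rw [Finset.mem_filter, Finset.mem_product]
        refine ⟨⟨ha, hc⟩, ?_⟩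
        simp only
        rw [WV_eq ha hc, hac]
        exact (hS m hmS).2.2.2.1
      · intro i _
        unfold wt
        rw [← one_div_prod]
        push_cast
        rw [one_div_mul_one_div]
    refine h4.trans (le_of_eq ?_)
    rw [Finset.sum_filter, Finset.sum_product]
  · set P : Finset ((_ : ℕ) × (_ : Finset ℕ) × ℕ) :=
      (A3 T).sigma (fun a => ((SC T).powerset).sigma (fun c => QX T E a c)) with hP
    have h4 : ∑ m ∈ S2, (1 : ℝ) / m ≤ ∑ i ∈ P, wt i.1 i.2.1 * (1 / i.2.2) := by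
      apply sum_le_param S2 P (fun i => i.1 * ((∏ p ∈ i.2.1, p) * i.2.2)) (fun m => (1 : ℝ) / m) _
        (fun _ => by positivity)
      · intro m hm
        rw [hS2, Finset.mem_filter] at hm
        obtain ⟨hmS, hno⟩ := hm
        obtain ⟨hm1, hmM, htm, hEm, hsq, hbad⟩ := hS m hmS
        obtain ⟨a, ha, c, hc, hor⟩ := hst t m ht htm hm1 hmM hsq hbad
        rcases hor with h | ⟨q, hq, hacq, hD, hW⟩
        · exact absurd ⟨a, ha, c, hc, h⟩ hno
        · refine ⟨⟨a, c, q⟩, ?_, hacq⟩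
          rw [hP, Finset.mem_sigma, Finset.mem_sigma]
          refine ⟨ha, hc, ?_⟩
          simp only
          rw [mem_QX]
          refine ⟨hq, hD, hW, ?_⟩
          have hq0 : (q : ℝ) ≠ 0 := by
            have := (mem_BL.mp hq).1.pos
            positivity
          rw [WV_eq ha hc]
          have hne : ((a * ∏ p ∈ c, p : ℕ) : ℝ) ≠ 0 := by
            intro h
            have h' : a * ∏ p ∈ c, p = 0 := by exact_mod_cast h
            rw [← mul_assoc, h', zero_mul] at hacq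
            omega
          rw [← Real.log_mul hne hq0]
          have : ((a * ∏ p ∈ c, p : ℕ) : ℝ) * q = m := by
            rw [← hacq]; push_cast; ring
          rw [this]
          exact hEm
      · intro i _
        unfold wt
        rw [← one_div_prod]
        push_cast
        rw [one_div_mul_one_div, one_div_mul_one_div, mul_assoc]
    refine h4.trans (le_of_eq ?_)
    rw [hP, Finset.sum_sigma]
    apply Finset.sum_congr rfl
    intro a _
    rw [Finset.sum_sigma]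
    apply Finset.sum_congr rfl
    intro c _
    rw [Finset.mul_sum]

end Pool.Agent.Helper923.PPS
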