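import Mathlib
import Pool.Agent.Helper923.PPS.CutD

set_option autoImplicit false

open Finset Filter

namespace Pool.Agent.Helper923.PPS

theorem good_bound : ∃ C : ℝ, 1 ≤ C ∧ ∀ᶠ T : ℕ in atTop, ∀ t : ℝ, ⌊t⌋₊ = T → ∀ S : Finset ℕ,
    (∀ m ∈ S, 1 ≤ m ∧ (m : ℝ) ≤ MM T ∧ t ∈ Iset m ∧
      (∀ p : ℕ, p.Prime → Zc T < p → ¬ p ^ 2 ∣ m) ∧
      (∀ p q : ℕ, p.Prime → q.Prime → p < q → Zc T < q → p ∣ m → q ∣ m → ¬ Bad2 T p q)) →
    ∑ m ∈ S, (1 : ℝ) / m ≤ C * Real.log (Real.log T) ∧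
    ((∀ m ∈ S, Real.exp ((Real.log (Real.log T)) ^ 4) < m) →
      ∑ m ∈ S, (1 : ℝ) / m ≤ C / Real.log (Real.log T)) := by
  classical
  obtain ⟨K, hK, hmom⟩ := moments
  obtain ⟨C1, hC1, h1⟩ := QX_sum1
  obtain ⟨C2, hC2, h2⟩ := QX_sum2
  refine ⟨9 * (K * C1 * C2), by
    have : 1 ≤ K * C1 := by nlinarith
    have : 1 ≤ K * C1 * C2 := by nlinarith
    linarith, ?_⟩
  filter_upwards [hmom, h1, h2, core, tendsto_logT.eventually_ge_atTop 12,
    tendsto_loglogT.eventually_ge_atTop 2] with T hm h1T h2T hcore hL hLL t ht S hS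
  obtain ⟨hm0, hm1⟩ := hm
  set l := Real.log (Real.log T) with hl
  have hl0 : 0 < l := by linarith
  set S0 := ∑ a ∈ A3 T, ∑ c ∈ (SC T).powerset, wt a c with hS0
  set S1 := ∑ a ∈ A3 T, ∑ c ∈ (SC T).powerset, wt a c * WV a c with hS1
  have hS0nn : 0 ≤ S0 := Finset.sum_nonneg fun a _ => Finset.sum_nonneg fun c _ => wt_nonneg a c
  have hS1nn : 0 ≤ S1 := Finset.sum_nonneg fun a _ => Finset.sum_nonneg fun c _ =>
    mul_nonneg (wt_nonneg a c) (WV_nonneg a c)
  have hlin : ∀ α β : ℝ, ∑ a ∈ A3 T, ∑ c ∈ (SC T).powerset, wt a c * (α * WV a c + β) =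
      α * S1 + β * S0 := by
    intro α β
    rw [hS1, hS0, Finset.mul_sum, Finset.mul_sum, ← Finset.sum_add_distrib]
    apply Finset.sum_congr rfl
    intro a _
    rw [Finset.mul_sum, Finset.mul_sum, ← Finset.sum_add_distrib]
    apply Finset.sum_congr rfl
    intro c _
    ring
  have hKC1 : K ≤ K * C1 * C2 := by
    have h5 : 1 ≤ C1 * C2 := by nlinarith
    nlinarith
  have hC1K : K * C1 ≤ K * C1 * C2 := by
    have h5 : 0 ≤ K * C1 := by positivity
    nlinarith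
  have hC2K : K * C2 ≤ K * C1 * C2 := by
    have h5 : 0 ≤ K * C2 := by positivity
    nlinarith
  constructor
  · have h := hcore t ht (-1) S (fun m hmS => by
      have := hS m hmS
      refine ⟨this.1, this.2.1, this.2.2.1, ?_, this.2.2.2.1, this.2.2.2.2⟩
      have := Real.log_natCast_nonneg m
      linarith)
    have g1 : ∑ a ∈ A3 T, ∑ c ∈ (SC T).powerset, (if (-1 : ℝ) < WV a c then wt a c else 0) ≤
        S0 := by
      apply Finset.sum_le_sum; intro a _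
      apply Finset.sum_le_sum; intro c _
      split_ifs
      · exact le_rfl
      · exact wt_nonneg a c
    have g2 : ∑ a ∈ A3 T, ∑ c ∈ (SC T).powerset, wt a c * ∑ q ∈ QX T (-1) a c, (1 : ℝ) / q ≤
        C1 / (3 * l) * S1 + 2 * C1 / (3 * l) * S0 := by
      rw [← hlin]
      apply Finset.sum_le_sum; intro a _
      apply Finset.sum_le_sum; intro c _
      apply mul_le_mul_of_nonneg_left _ (wt_nonneg a c)
      refine (h1T (-1) a c).trans (le_of_eq ?_)
      ring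
    have g3 : C1 / (3 * l) * S1 ≤ C1 / (3 * l) * (K * l ^ 2) :=
      mul_le_mul_of_nonneg_left hm1 (by positivity)
    have g4 : 2 * C1 / (3 * l) * S0 ≤ 2 * C1 / (3 * l) * (K * l) :=
      mul_le_mul_of_nonneg_left hm0 (by positivity)
    have g5 : C1 / (3 * l) * (K * l ^ 2) = K * C1 * l / 3 := by field_simp
    have g6 : 2 * C1 / (3 * l) * (K * l) = 2 * (K * C1) / 3 := by field_simp
    have g7 : K * C1 * l ≤ K * C1 * C2 * l := mul_le_mul_of_nonneg_right hC1K hl0.le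
    have g8 : K * l ≤ K * C1 * C2 * l := mul_le_mul_of_nonneg_right hKC1 hl0.le
    have g9 : K * C1 ≤ K * C1 * l := by
      have : 0 ≤ K * C1 := by positivity
      nlinarith
    rw [g5] at g3
    rw [g6] at g4
    have g10 : 0 ≤ K * C1 * C2 * l := by positivity
    linarith
  · intro hbig
    have hE : 6 * l ≤ l ^ 4 := by
      have h3 : (2 : ℝ) ^ 3 ≤ l ^ 3 := pow_le_pow_left₀ (by norm_num) hLL 3
      have h4 : l ^ 4 = l ^ 3 * l := by ring
      rw [h4]
      apply mul_le_mul_of_nonneg_right _ hl0.le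
      linarith
    have hE0 : 0 < l ^ 4 := by positivity
    have h := hcore t ht (l ^ 4) S (fun m hmS => by
      have h5 := hS m hmS
      refine ⟨h5.1, h5.2.1, h5.2.2.1, ?_, h5.2.2.2.1, h5.2.2.2.2⟩
      have h6 := Real.log_lt_log (Real.exp_pos _) (hbig m hmS)
      rwa [Real.log_exp] at h6)
    have g1 : ∑ a ∈ A3 T, ∑ c ∈ (SC T).powerset, (if l ^ 4 < WV a c then wt a c else 0) ≤
        1 / l ^ 4 * S1 + 0 * S0 := by
      rw [← hlin]
      apply Finset.sum_le_sum; intro a _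
      apply Finset.sum_le_sum; intro c _
      have hw := wt_nonneg a c
      have hv := WV_nonneg a c
      split_ifs with hc
      · have h7 : 1 ≤ 1 / l ^ 4 * WV a c + 0 := by
          rw [add_zero, one_div_mul_eq_div, le_div_iff₀ hE0]
          linarith
        nlinarith
      · positivity
    have g2 : ∑ a ∈ A3 T, ∑ c ∈ (SC T).powerset, wt a c * ∑ q ∈ QX T (l ^ 4) a c, (1 : ℝ) / q ≤
        (2 / l ^ 4 * (C2 * l + C2)) * S1 + (2 / l ^ 4 * (2 * C2)) * S0 := by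
      rw [← hlin]
      apply Finset.sum_le_sum; intro a _
      apply Finset.sum_le_sum; intro c _
      apply mul_le_mul_of_nonneg_left _ (wt_nonneg a c)
      refine (h2T (l ^ 4) a c hE).trans (le_of_eq ?_)
      ring
    have g3 : 1 / l ^ 4 * S1 ≤ 1 / l ^ 4 * (K * l ^ 2) :=
      mul_le_mul_of_nonneg_left hm1 (by positivity)
    have g4 : (2 / l ^ 4 * (C2 * l + C2)) * S1 ≤ (2 / l ^ 4 * (C2 * l + C2)) * (K * l ^ 2) :=
      mul_le_mul_of_nonneg_left hm1 (by positivity)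
    have g5 : (2 / l ^ 4 * (2 * C2)) * S0 ≤ (2 / l ^ 4 * (2 * C2)) * (K * l) :=
      mul_le_mul_of_nonneg_left hm0 (by positivity)
    have e1 : 1 / l ^ 4 * (K * l ^ 2) = K / l * (1 / l) := by field_simp
    have e2 : (2 / l ^ 4 * (C2 * l + C2)) * (K * l ^ 2) =
        2 * (K * C2) / l + 2 * (K * C2) / l * (1 / l) := by field_simp
    have e3 : (2 / l ^ 4 * (2 * C2)) * (K * l) = 4 * (K * C2) / l * (1 / l) * (1 / l) := by
      field_simp
      ring
    rw [e1] at g3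
    rw [e2] at g4
    rw [e3] at g5
    have hl1 : 1 / l ≤ 1 / 2 := one_div_le_one_div_of_le (by norm_num) hLL
    have hl1' : 0 < 1 / l := by positivity
    have f1 : K / l * (1 / l) ≤ K / l * (1 / 2) := mul_le_mul_of_nonneg_left hl1 (by positivity)
    have f2 : 2 * (K * C2) / l * (1 / l) ≤ 2 * (K * C2) / l * (1 / 2) :=
      mul_le_mul_of_nonneg_left hl1 (by positivity)
    have f3 : 4 * (K * C2) / l * (1 / l) * (1 / l) ≤ 4 * (K * C2) / l * (1 / 2) * (1 / 2) := by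
      apply mul_le_mul _ hl1 hl1'.le (by positivity)
      exact mul_le_mul_of_nonneg_left hl1 (by positivity)
    have f4 : K / l ≤ K * C1 * C2 / l := div_le_div_of_nonneg_right hKC1 hl0.le
    have f5 : K * C2 / l ≤ K * C1 * C2 / l := div_le_div_of_nonneg_right hC2K hl0.le
    have e4 : 2 * (K * C2) / l = 2 * (K * C2 / l) := by ring
    have e5 : 4 * (K * C2) / l = 4 * (K * C2 / l) := by ring
    have e6 : 9 * (K * C1 * C2) / l = 9 * (K * C1 * C2 / l) := by ring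
    rw [e4] at g4 f2
    rw [e5] at g5 f3
    rw [e6]
    have f6 : 0 ≤ K * C1 * C2 / l := by positivity
    linarith

/-- all cofactors up to `MM T` -/
theorem head_bound : ∃ C : ℝ, 1 ≤ C ∧ ∀ᶠ T : ℕ in atTop, ∀ t : ℝ, ⌊t⌋₊ = T → ∀ S : Finset ℕ,
    (∀ m ∈ S, 1 ≤ m ∧ (m : ℝ) ≤ MM T ∧ t ∈ Iset m) →
    ∑ m ∈ S, (1 : ℝ) / m ≤ C * Real.log (Real.log T) ∧
    ((∀ m ∈ S, Real.exp ((Real.log (Real.log T)) ^ 4) < m) →
      ∑ m ∈ S, (1 : ℝ) / m ≤ C / Real.log (Real.log T)) := by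
  classical
  obtain ⟨C, hC, hg⟩ := good_bound
  refine ⟨C + 1, by linarith, ?_⟩
  filter_upwards [hg, bad_sum, sq_sum, tendsto_logT.eventually_ge_atTop 12,
    tendsto_loglogT.eventually_ge_atTop 2,
    tendsto_logT.eventually (polylog_le 2 1 (-(1 / 4)) 0 (by norm_num))]
    with T hgT hb hsq hL hLL hp t ht S hS
  rw [pow_one, Real.rpow_zero] at hp
  set l := Real.log (Real.log T) with hl
  have hl0 : 0 < l := by linarith
  set P1 : ℕ → Prop := fun m => ∃ p q : ℕ, p.Prime ∧ q.Prime ∧ p < q ∧ Zc T < q ∧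
      p ∣ m ∧ q ∣ m ∧ Bad2 T p q with hP1
  set P2 : ℕ → Prop := fun m => ∃ p : ℕ, p.Prime ∧ Zc T < p ∧ p ^ 2 ∣ m with hP2
  have g1 := hb (S.filter P1) (fun m hm => by
    rw [Finset.mem_filter] at hm
    have := hS m hm.1
    exact ⟨this.1, this.2.1, hm.2⟩)
  have g2 := hsq (S.filter P2) (fun m hm => by
    rw [Finset.mem_filter] at hm
    have := hS m hm.1
    exact ⟨this.1, this.2.1, hm.2⟩)
  have g3 := hgT t ht (S.filter (fun m => ¬ P1 m ∧ ¬ P2 m)) (fun m hm => by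
    rw [Finset.mem_filter] at hm
    have h5 := hS m hm.1
    refine ⟨h5.1, h5.2.1, h5.2.2, ?_, ?_⟩
    · intro p hp hz hd
      exact hm.2.2 ⟨p, hp, hz, hd⟩
    · intro p q hp hq hpq hz hpm hqm hbad
      exact hm.2.1 ⟨p, q, hp, hq, hpq, hz, hpm, hqm, hbad⟩)
  have hpt : ∀ m ∈ S, (1 : ℝ) / m ≤
      (if P1 m then (1 : ℝ) / m else 0) + (if P2 m then (1 : ℝ) / m else 0) +
      (if ¬ P1 m ∧ ¬ P2 m then (1 : ℝ) / m else 0) := by
    intro m _
    have hm0 : (0 : ℝ) ≤ 1 / (m : ℝ) := by positivity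
    by_cases c1 : P1 m <;> by_cases c2 : P2 m <;> simp [c1, c2]
  have hsum := Finset.sum_le_sum hpt
  rw [Finset.sum_add_distrib, Finset.sum_add_distrib, ← Finset.sum_filter, ← Finset.sum_filter,
    ← Finset.sum_filter] at hsum
  have hsm : 2 * (Real.log T) ^ (-(1 / 4) : ℝ) ≤ 1 / l := by
    rw [le_div_iff₀ hl0]
    linarith
  have hsm' : (1 : ℝ) / l ≤ l := by
    rw [div_le_iff₀ hl0]; nlinarith
  constructor
  · have := g3.1
    linarith
  · intro hbig
    have h6 := g3.2 (fun m hm => hbig m (Finset.mem_of_mem_filter m hm))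
    rw [add_div]
    linarith

/-- all cofactors up to `T ^ 2` -/
theorem full_bound : ∃ C : ℝ, 1 ≤ C ∧ ∀ᶠ T : ℕ in atTop, ∀ t : ℝ, ⌊t⌋₊ = T → ∀ S : Finset ℕ,
    (∀ m ∈ S, 1 ≤ m ∧ m ≤ T ^ 2 ∧ t ∈ Iset m) →
    ∑ m ∈ S, (1 : ℝ) / m ≤ C * Real.log (Real.log T) ∧
    ((∀ m ∈ S, Real.exp ((Real.log (Real.log T)) ^ 4) < m) →
      ∑ m ∈ S, (1 : ℝ) / m ≤ C / Real.log (Real.log T)) := by
  classical
  obtain ⟨C, hC, hg⟩ := head_bound
  refine ⟨C + 1, by linarith, ?_⟩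
  filter_upwards [hg, tail_bound, tendsto_logT.eventually_ge_atTop 12,
    tendsto_loglogT.eventually_ge_atTop 2,
    tendsto_logT.eventually (polylog_le 1 1 (-(1 / 2000)) 0 (by norm_num))]
    with T hgT htail hL hLL hp t ht S hS
  rw [pow_one, Real.rpow_zero] at hp
  set l := Real.log (Real.log T) with hl
  have hl0 : 0 < l := by linarith
  have g1 := htail t ht (S.filter (fun m : ℕ => MM T < m)) (fun m hm => by
    rw [Finset.mem_filter] at hm
    have := hS m hm.1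
    exact ⟨this.1, this.2.1, hm.2, this.2.2⟩)
  have g2 := hgT t ht (S.filter (fun m : ℕ => ¬ MM T < m)) (fun m hm => by
    rw [Finset.mem_filter] at hm
    have := hS m hm.1
    exact ⟨this.1, not_lt.mp hm.2, this.2.2⟩)
  have hsplit : ∑ m ∈ S, (1 : ℝ) / m = ∑ m ∈ S.filter (fun m : ℕ => MM T < m), (1 : ℝ) / m +
      ∑ m ∈ S.filter (fun m : ℕ => ¬ MM T < m), (1 : ℝ) / m :=
    (Finset.sum_filter_add_sum_filter_not _ _ _).symm
  have hsm : (Real.log T) ^ (-(1 / 2000) : ℝ) ≤ 1 / l := by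
    rw [le_div_iff₀ hl0]
    linarith
  have hsm' : (1 : ℝ) / l ≤ l := by
    rw [div_le_iff₀ hl0]; nlinarith
  rw [hsplit]
  constructor
  · have := g2.1
    linarith
  · intro hbig
    have h6 := g2.2 (fun m hm => hbig m (Finset.mem_of_mem_filter m hm))
    rw [add_div]
    linarith

end Pool.Agent.Helper923.PPS
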