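import Mathlib
import Pool.Agent.Helper923.PPS.Assemble
import Pool.Agent.Helper923.PPS.MainTerm
import Pool.Agent.Helper923.PPS.ExcC
import Pool.Agent.Helper923.PNTQ

set_option autoImplicit false

open Finset Filter MeasureTheory

namespace Pool.Agent.Helper923.PPS

theorem asymptotic_truncated :
    Tendsto (fun x : ℝ => (NN x : ℝ) / (1 / Real.log x * GM x)) atTop (nhds 1) :=
  assemble f_eq_F_iff crit_iff_Iset exc_block (main_count PNTQ.theta_quant)

end Pool.Agent.Helper923.PPS
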