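import Mathlib
import Pool.Agent.Helper923.PPS.Final
import Pool.Agent.Helper923.PPS.TailB

set_option autoImplicit false

open Finset Filter MeasureTheory

namespace Pool.Agent.Helper923.PPS

/-- the sum over all cofactors `m ≤ x` -/
noncomputable def GA (x : ℝ) : ℝ :=
  ∑ m ∈ Finset.Icc 1 ⌊x⌋₊, (volume (Iset m ∩ Set.Icc 1 x)).toReal / m

theorem measurableSet_Iset (m : ℕ) : MeasurableSet (Iset m) := by
  have hΦ : ∀ e : ℕ, Measurable (fun t : ℝ => ∑ p ∈ e.primeFactors, (pw p ⌊t⌋₊ : ℝ)) := by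
    intro e
    have h : (fun t : ℝ => ∑ p ∈ e.primeFactors, (pw p ⌊t⌋₊ : ℝ)) =
        (fun n : ℕ => ∑ p ∈ e.primeFactors, (pw p n : ℝ)) ∘ (fun t : ℝ => ⌊t⌋₊) := rfl
    rw [h]
    exact (measurable_of_countable _).comp Nat.measurable_floor
  have heq : Iset m = {t : ℝ | 1 ≤ t} ∩ ⋂ e : ℕ, {t : ℝ | 2 ≤ e → e.primeFactors ⊆ m.primeFactors →
      ((e : ℝ) ≤ t → (e : ℝ) ≤ ∑ p ∈ e.primeFactors, (pw p ⌊t⌋₊ : ℝ)) ∧
      (e ≤ m → t * ((e : ℝ) - 1) ≤ m * ∑ p ∈ e.primeFactors, (pw p ⌊t⌋₊ : ℝ))} := by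
    ext t
    simp only [Iset, Set.mem_inter_iff, Set.mem_iInter, Set.mem_ofPred_eq]
  rw [heq]
  refine (measurableSet_le measurable_const measurable_id).inter (MeasurableSet.iInter fun e => ?_)
  by_cases h1 : 2 ≤ e ∧ e.primeFactors ⊆ m.primeFactors
  · have h2 : {t : ℝ | 2 ≤ e → e.primeFactors ⊆ m.primeFactors →
      ((e : ℝ) ≤ t → (e : ℝ) ≤ ∑ p ∈ e.primeFactors, (pw p ⌊t⌋₊ : ℝ)) ∧
      (e ≤ m → t * ((e : ℝ) - 1) ≤ m * ∑ p ∈ e.primeFactors, (pw p ⌊t⌋₊ : ℝ))} =
        ({t : ℝ | t < e} ∪ {t : ℝ | (e : ℝ) ≤ ∑ p ∈ e.primeFactors, (pw p ⌊t⌋₊ : ℝ)}) ∩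
        ({t : ℝ | ¬ e ≤ m} ∪
          {t : ℝ | t * ((e : ℝ) - 1) ≤ m * ∑ p ∈ e.primeFactors, (pw p ⌊t⌋₊ : ℝ)}) := by
      ext t
      simp only [Set.mem_ofPred_eq, Set.mem_inter_iff, Set.mem_union]
      constructor
      · intro h
        have h' := h h1.1 h1.2
        refine ⟨?_, ?_⟩
        · by_cases c : t < e
          · exact Or.inl c
          · exact Or.inr (h'.1 (not_lt.mp c))
        · by_cases c : e ≤ m
          · exact Or.inr (h'.2 c)
          · exact Or.inl c
      · rintro ⟨ha, hb⟩ _ _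
        refine ⟨fun hc => ?_, fun hc => ?_⟩
        · rcases ha with ha | ha
          · exact absurd ha (not_lt.mpr hc)
          · exact ha
        · rcases hb with hb | hb
          · exact absurd hc hb
          · exact hb
    rw [h2]
    refine MeasurableSet.inter (MeasurableSet.union ?_ ?_) (MeasurableSet.union ?_ ?_)
    · exact measurableSet_lt measurable_id measurable_const
    · exact measurableSet_le measurable_const (hΦ e)
    · exact MeasurableSet.const _
    · exact measurableSet_le (measurable_id.mul_const _) ((hΦ e).const_mul _)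
  · have h2 : {t : ℝ | 2 ≤ e → e.primeFactors ⊆ m.primeFactors →
      ((e : ℝ) ≤ t → (e : ℝ) ≤ ∑ p ∈ e.primeFactors, (pw p ⌊t⌋₊ : ℝ)) ∧
      (e ≤ m → t * ((e : ℝ) - 1) ≤ m * ∑ p ∈ e.primeFactors, (pw p ⌊t⌋₊ : ℝ))} = Set.univ := by
      ext t
      simp only [Set.mem_ofPred_eq, Set.mem_univ, iff_true]
      intro ha hb
      exact absurd ⟨ha, hb⟩ h1
    rw [h2]
    exact MeasurableSet.univ

/-- exchange of sum and integral -/
theorem sum_vol_le (S : Finset ℕ) (A : ℕ → Set ℝ) (hA : ∀ m, MeasurableSet (A m)) (a b c : ℝ)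
    (hab : a ≤ b) (h : ∀ t ∈ Set.Ioo a b, ∑ m ∈ S, (A m).indicator (fun _ => (1 : ℝ) / m) t ≤ c) :
    ∑ m ∈ S, (volume (A m ∩ Set.Ioo a b)).toReal / m ≤ c * (b - a) := by
  have h1 : ∀ m ∈ S, (volume (A m ∩ Set.Ioo a b)).toReal / m =
      ∫ t in Set.Ioo a b, (A m).indicator (fun _ => (1 : ℝ) / m) t := by
    intro m _
    rw [setIntegral_indicator (hA m), setIntegral_const, smul_eq_mul, Set.inter_comm]
    unfold Measure.real
    rw [mul_one_div]
  have hint : ∀ m ∈ S, IntegrableOn (fun t => (A m).indicator (fun _ => (1 : ℝ) / m) t)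
      (Set.Ioo a b) := by
    intro m _
    apply IntegrableOn.indicator _ (hA m)
    exact integrableOn_const (by rw [Real.volume_Ioo]; exact ENNReal.ofReal_ne_top)
  rw [Finset.sum_congr rfl h1, ← integral_finsetSum S hint]
  calc ∫ t in Set.Ioo a b, ∑ m ∈ S, (A m).indicator (fun _ => (1 : ℝ) / m) t
      ≤ ∫ t in Set.Ioo a b, c := by
        apply setIntegral_mono_on
        · exact integrable_finsetSum S hint
        · exact integrableOn_const (by rw [Real.volume_Ioo]; exact ENNReal.ofReal_ne_top)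
        · exact measurableSet_Ioo
        · exact h
    _ = c * (b - a) := by
        rw [setIntegral_const, smul_eq_mul, mul_comm]
        unfold Measure.real
        rw [Real.volume_Ioo, ENNReal.toReal_ofReal (by linarith)]

theorem GA_sub : ∀ᶠ x : ℝ in atTop, GM x ≤ GA x ∧
    GA x ≤ GM x + (x / (Real.log x) ^ 2 * (1 + Real.log x) +
      (Real.log x / 2) ^ (-(1 / 2000) : ℝ) * x) := by
  classical
  obtain ⟨T0, hT0⟩ := eventually_atTop.mp tail_bound
  have hsq : Tendsto (fun x : ℝ => x ^ (1 / 2 : ℝ)) atTop atTop := tendsto_rpow_atTop (by norm_num)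
  filter_upwards [polylog_le 2 2 (1 / 2) 1 (by norm_num), hsq.eventually_ge_atTop ((T0 : ℝ) + 1),
    hsq.eventually_ge_atTop 1, Real.tendsto_log_atTop.eventually_ge_atTop 2,
    eventually_ge_atTop (3 : ℝ)] with x h1 h2 h3 hL hx
  set L := Real.log x with hLdef
  have hx0 : 0 < x := by linarith
  have hL0 : 0 < L := by linarith
  set M := Real.exp (L ^ (1 / 200 : ℝ)) with hM
  set y := x / L ^ 2 with hy
  rw [Real.rpow_one] at h1
  have hy1 : x ^ (1 / 2 : ℝ) + 1 ≤ y := by
    rw [hy, le_div_iff₀ (by positivity)]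
    have h4 : 0 ≤ L ^ 2 := by positivity
    nlinarith
  have hyx : y ≤ x := by
    rw [hy]
    apply div_le_self hx0.le
    nlinarith
  have hMx : M ≤ x := by
    calc M ≤ Real.exp L := by
          apply Real.exp_le_exp.mpr
          calc L ^ (1 / 200 : ℝ) ≤ L ^ (1 : ℝ) :=
                Real.rpow_le_rpow_of_exponent_le (by linarith) (by norm_num)
            _ = L := Real.rpow_one _
      _ = x := Real.exp_log hx0
  have hMf : ⌊M⌋₊ ≤ ⌊x⌋₊ := Nat.floor_le_floor hMx
  have hsub : Finset.Icc 1 ⌊M⌋₊ ⊆ Finset.Icc 1 ⌊x⌋₊ := Finset.Icc_subset_Icc le_rfl hMf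
  set S := Finset.Icc 1 ⌊x⌋₊ \ Finset.Icc 1 ⌊M⌋₊ with hS
  have hsplit : GA x = ∑ m ∈ S, (volume (Iset m ∩ Set.Icc 1 x)).toReal / m + GM x := by
    unfold GA GM
    rw [← hLdef, ← hM, hS, Finset.sum_sdiff hsub]
  have hSmem : ∀ m ∈ S, 1 ≤ m ∧ m ≤ ⌊x⌋₊ ∧ ⌊M⌋₊ < m := by
    intro m hm
    rw [hS, Finset.mem_sdiff, Finset.mem_Icc, Finset.mem_Icc] at hm
    omega
  refine ⟨?_, ?_⟩
  · rw [hsplit]
    have : 0 ≤ ∑ m ∈ S, (volume (Iset m ∩ Set.Icc 1 x)).toReal / (m : ℝ) :=
      Finset.sum_nonneg fun m _ => by positivity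
    linarith
  · rw [hsplit]
    have hy1' : 1 ≤ y := by linarith
    have hA : ∑ m ∈ S, (volume (Iset m ∩ Set.Icc 1 x)).toReal / m ≤
        ∑ m ∈ S, (volume (Iset m ∩ Set.Ioo y x)).toReal / m + ∑ m ∈ S, y * (1 / (m : ℝ)) := by
      rw [← Finset.sum_add_distrib]
      apply Finset.sum_le_sum
      intro m _
      rw [mul_one_div, ← add_div]
      exact div_le_div_of_nonneg_right (vol_ge m hy1') (Nat.cast_nonneg _)
    have hB : ∑ m ∈ S, y * (1 / (m : ℝ)) ≤ y * (1 + L) := by
      rw [← Finset.mul_sum]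
      apply mul_le_mul_of_nonneg_left _ (by linarith)
      calc ∑ m ∈ S, (1 : ℝ) / m ≤ ∑ m ∈ Finset.Icc 1 ⌊x⌋₊, (1 : ℝ) / m :=
            Finset.sum_le_sum_of_subset_of_nonneg Finset.sdiff_subset (fun _ _ _ => by positivity)
        _ = ∑ m ∈ Finset.Icc 1 ⌊x⌋₊, ((m : ℝ))⁻¹ := by simp only [one_div]
        _ ≤ 1 + L := harm (by linarith)
    have hC : ∑ m ∈ S, (volume (Iset m ∩ Set.Ioo y x)).toReal / m ≤
        (L / 2) ^ (-(1 / 2000) : ℝ) * (x - y) := by
      apply sum_vol_le S Iset measurableSet_Iset y x _ hyx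
      intro t ht
      set T := ⌊t⌋₊ with hT
      have ht0 : 0 ≤ t := by linarith [ht.1]
      have hTt : (T : ℝ) ≤ t := Nat.floor_le ht0
      have htT : t < (T : ℝ) + 1 := Nat.lt_floor_add_one t
      have hTx : x ^ (1 / 2 : ℝ) ≤ T := by linarith [ht.1]
      have hTT0 : T0 ≤ T := by
        have : (T0 : ℝ) ≤ T := by linarith
        exact_mod_cast this
      have hTpos : (0 : ℝ) < T := by linarith
      have hlogT : L / 2 ≤ Real.log T := by
        have h5 := Real.log_le_log (by positivity) hTx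
        rw [Real.log_rpow hx0] at h5
        linarith
      have hlogT2 : Real.log T ≤ L := Real.log_le_log hTpos (by linarith [ht.2])
      have hxT2 : x ≤ (T : ℝ) ^ 2 := by
        calc x = x ^ (1 / 2 : ℝ) * x ^ (1 / 2 : ℝ) := by
              rw [← Real.rpow_add hx0]; norm_num
          _ ≤ (T : ℝ) * T := mul_le_mul hTx hTx (by positivity) hTpos.le
          _ = (T : ℝ) ^ 2 := by ring
      have h6 := hT0 T hTT0 t rfl (S.filter (fun m => t ∈ Iset m)) (by
        intro m hm
        rw [Finset.mem_filter] at hm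
        have hm' := hSmem m hm.1
        refine ⟨hm'.1, ?_, ?_, hm.2⟩
        · have h7 : (m : ℝ) ≤ x :=
            le_trans (by exact_mod_cast hm'.2.1) (Nat.floor_le hx0.le)
          have : (m : ℝ) ≤ (T : ℝ) ^ 2 := h7.trans hxT2
          exact_mod_cast this
        · have h7 : M < m := (Nat.floor_lt (Real.exp_pos _).le).mp hm'.2.2
          refine lt_of_le_of_lt ?_ h7
          apply Real.exp_le_exp.mpr
          exact Real.rpow_le_rpow (by linarith) hlogT2 (by norm_num))
      have h8 : ∑ m ∈ S, (Iset m).indicator (fun _ => (1 : ℝ) / m) t =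
          ∑ m ∈ S.filter (fun m => t ∈ Iset m), (1 : ℝ) / m := by
        rw [Finset.sum_filter]
        apply Finset.sum_congr rfl
        intro m _
        rw [Set.indicator_apply]
      rw [h8]
      refine h6.trans ?_
      rw [Real.rpow_neg (by linarith), Real.rpow_neg (by linarith)]
      apply inv_anti₀ (Real.rpow_pos_of_pos (by linarith) _)
      exact Real.rpow_le_rpow (by linarith) hlogT (by norm_num)
    have hD : (L / 2) ^ (-(1 / 2000) : ℝ) * (x - y) ≤ (L / 2) ^ (-(1 / 2000) : ℝ) * x := by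
      apply mul_le_mul_of_nonneg_left (by linarith) (Real.rpow_nonneg (by linarith) _)
    linarith

theorem GA_ratio : Tendsto (fun x : ℝ => GA x / GM x) atTop (nhds 1) := by
  have hE : Tendsto (fun x : ℝ => 1 + ((1 + Real.log x) / (Real.log x) ^ 2 +
      (Real.log x / 2) ^ (-(1 / 2000) : ℝ)) * (x / (x - 1))) atTop (nhds (1 + (0 + 0) * 1)) := by
    have hlog := Real.tendsto_log_atTop
    have h1 : Tendsto (fun x : ℝ => (1 + Real.log x) / (Real.log x) ^ 2) atTop (nhds 0) := by
      have h2 : Tendsto (fun u : ℝ => (1 + u) / u ^ 2) atTop (nhds 0) := by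
        have h3 : Tendsto (fun u : ℝ => u⁻¹ ^ 2 + u⁻¹) atTop (nhds (0 ^ 2 + 0)) :=
          (tendsto_inv_atTop_zero.pow 2).add tendsto_inv_atTop_zero
        have h4 : (0 : ℝ) ^ 2 + 0 = 0 := by norm_num
        rw [h4] at h3
        refine h3.congr' ?_
        filter_upwards [eventually_gt_atTop (0 : ℝ)] with u hu
        field_simp
      exact h2.comp hlog
    have h5 : Tendsto (fun x : ℝ => (Real.log x / 2) ^ (-(1 / 2000) : ℝ)) atTop (nhds 0) := by
      have h6 : Tendsto (fun u : ℝ => u ^ (-(1 / 2000) : ℝ)) atTop (nhds 0) :=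
        tendsto_rpow_neg_atTop (by norm_num)
      exact h6.comp (hlog.atTop_div_const (by norm_num))
    have h7 : Tendsto (fun x : ℝ => x / (x - 1)) atTop (nhds 1) := by
      have h8 : Tendsto (fun x : ℝ => 1 + (x - 1)⁻¹) atTop (nhds (1 + 0)) := by
        apply tendsto_const_nhds.add
        exact tendsto_inv_atTop_zero.comp (tendsto_atTop_add_const_right _ (-1) tendsto_id)
      rw [add_zero] at h8
      refine h8.congr' ?_
      filter_upwards [eventually_gt_atTop (1 : ℝ)] with x hx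
      have : x - 1 ≠ 0 := by linarith
      field_simp
      ring
    exact tendsto_const_nhds.add ((h1.add h5).mul h7)
  have h0 : (1 : ℝ) + (0 + 0) * 1 = 1 := by norm_num
  rw [h0] at hE
  refine tendsto_of_tendsto_of_tendsto_of_le_of_le' tendsto_const_nhds hE ?_ ?_
  · filter_upwards [GA_sub, eventually_gt_atTop (2 : ℝ)] with x hx hx1
    have h1 := j3482_G1 (x := x) (by linarith)
    have h2 : 0 < GM x := by linarith
    rw [le_div_iff₀ h2]
    linarith [hx.1]
  · filter_upwards [GA_sub, eventually_gt_atTop (2 : ℝ),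
      Real.tendsto_log_atTop.eventually_gt_atTop 0] with x hx hx1 hlog
    have h1 := j3482_G1 (x := x) (by linarith)
    have h2 : 0 < GM x := by linarith
    have h3 : 0 < x - 1 := by linarith
    set E := (1 + Real.log x) / (Real.log x) ^ 2 + (Real.log x / 2) ^ (-(1 / 2000) : ℝ) with hEdef
    have hE0 : 0 ≤ E := by positivity
    have h4 : GA x ≤ GM x + E * x := by
      refine hx.2.trans (le_of_eq ?_)
      rw [hEdef]
      ring
    rw [div_le_iff₀ h2]
    have h5 : E * x ≤ E * (x / (x - 1)) * GM x := by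
      calc E * x = E * (x / (x - 1)) * (x - 1) := by field_simp
        _ ≤ E * (x / (x - 1)) * GM x := by
          apply mul_le_mul_of_nonneg_left h1
          have : 0 ≤ x / (x - 1) := by positivity
          positivity
    linarith

/-- the asymptotic formula with all cofactors `m ≤ x` -/
theorem asymptotic_full :
    Tendsto (fun x : ℝ => (NN x : ℝ) / (1 / Real.log x * GA x)) atTop (nhds 1) := by
  have h := asymptotic_truncated.div GA_ratio one_ne_zero
  rw [div_one] at h
  refine h.congr' ?_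
  filter_upwards [GA_sub, eventually_gt_atTop (2 : ℝ),
      Real.tendsto_log_atTop.eventually_gt_atTop 0] with x hx hx1 hlog
  have h1 := j3482_G1 (x := x) (by linarith)
  have h2 : 0 < GM x := by linarith
  have h3 : 0 < GA x := by linarith [hx.1]
  have h4 : (1 : ℝ) / Real.log x ≠ 0 := by positivity
  simp only [Pi.div_apply]
  field_simp

end Pool.Agent.Helper923.PPS
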