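import Mathlib
import Pool.Agent.Helper923.PPS.Full

set_option autoImplicit false

open Finset Filter MeasureTheory

namespace Pool.Agent.Helper923.PPS

/-- the sum over cofactors `m ≤ y` -/
noncomputable def GY (y x : ℝ) : ℝ :=
  ∑ m ∈ Finset.Icc 1 ⌊y⌋₊, (volume (Iset m ∩ Set.Icc 1 x)).toReal / m

theorem GY_mono {y y' : ℝ} (h : y ≤ y') (x : ℝ) : GY y x ≤ GY y' x := by
  unfold GY
  apply Finset.sum_le_sum_of_subset_of_nonneg
  · exact Finset.Icc_subset_Icc le_rfl (Nat.floor_le_floor h)
  · intro m _ _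
    positivity

theorem asymptotic_general (Y : ℝ → ℝ)
    (hY : ∀ᶠ x : ℝ in atTop, Real.exp ((Real.log x) ^ (1 / 200 : ℝ)) ≤ Y x ∧ Y x ≤ x) :
    Tendsto (fun x : ℝ => (NN x : ℝ) / (1 / Real.log x * GY (Y x) x)) atTop (nhds 1) := by
  refine tendsto_of_tendsto_of_tendsto_of_le_of_le' asymptotic_full asymptotic_truncated ?_ ?_
  · filter_upwards [hY, eventually_gt_atTop (2 : ℝ),
      Real.tendsto_log_atTop.eventually_gt_atTop 0] with x hx hx1 hlog
    have h1 := j3482_G1 (x := x) (by linarith)
    have h2 : GM x ≤ GY (Y x) x := GY_mono hx.1 x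
    have h3 : GY (Y x) x ≤ GA x := GY_mono hx.2 x
    have h4 : 0 < 1 / Real.log x * GY (Y x) x := by
      have : 0 < GY (Y x) x := by linarith
      positivity
    apply div_le_div_of_nonneg_left (Nat.cast_nonneg _) h4
    exact mul_le_mul_of_nonneg_left h3 (by positivity)
  · filter_upwards [hY, eventually_gt_atTop (2 : ℝ),
      Real.tendsto_log_atTop.eventually_gt_atTop 0] with x hx hx1 hlog
    have h1 := j3482_G1 (x := x) (by linarith)
    have h2 : GM x ≤ GY (Y x) x := GY_mono hx.1 x
    have h4 : 0 < 1 / Real.log x * GM x := by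
      have : 0 < GM x := by linarith
      positivity
    apply div_le_div_of_nonneg_left (Nat.cast_nonneg _) h4
    exact mul_le_mul_of_nonneg_left h2 (by positivity)

end Pool.Agent.Helper923.PPS
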