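import Mathlib
import Pool.Agent.Helper923.PPS.CutE
import Pool.Agent.Helper923.PPS.General

set_option autoImplicit false

open Finset Filter MeasureTheory

namespace Pool.Agent.Helper923.PPS

theorem window_T (T0 : ℕ) : ∀ᶠ x : ℝ in atTop, ∀ t : ℝ, x / (Real.log x) ^ 2 < t → t < x →
    T0 ≤ ⌊t⌋₊ ∧ Real.log x / 2 ≤ Real.log ⌊t⌋₊ ∧ Real.log ⌊t⌋₊ ≤ Real.log x ∧
      x ≤ (⌊t⌋₊ : ℝ) ^ 2 := by
  have hsq : Tendsto (fun x : ℝ => x ^ (1 / 2 : ℝ)) atTop atTop := tendsto_rpow_atTop (by norm_num)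
  filter_upwards [polylog_le 2 2 (1 / 2) 1 (by norm_num), hsq.eventually_ge_atTop ((T0 : ℝ) + 1),
    hsq.eventually_ge_atTop 1, Real.tendsto_log_atTop.eventually_ge_atTop 2,
    eventually_ge_atTop (3 : ℝ)] with x h1 h2 h3 hL hx t ht1 ht2
  set L := Real.log x with hLdef
  have hx0 : 0 < x := by linarith
  have hL0 : 0 < L := by linarith
  rw [Real.rpow_one] at h1
  have hy1 : x ^ (1 / 2 : ℝ) + 1 ≤ x / L ^ 2 := by
    rw [le_div_iff₀ (by positivity)]
    have h4 : 0 ≤ L ^ 2 := by positivity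
    nlinarith
  have htT : t < (⌊t⌋₊ : ℝ) + 1 := Nat.lt_floor_add_one t
  have ht0 : 0 ≤ t := by linarith
  have hTt : (⌊t⌋₊ : ℝ) ≤ t := Nat.floor_le ht0
  have hTx : x ^ (1 / 2 : ℝ) ≤ ⌊t⌋₊ := by linarith
  have hTT0 : T0 ≤ ⌊t⌋₊ := by
    have : (T0 : ℝ) ≤ ⌊t⌋₊ := by linarith
    exact_mod_cast this
  have hTpos : (0 : ℝ) < ⌊t⌋₊ := by linarith
  refine ⟨hTT0, ?_, ?_, ?_⟩
  · have h5 := Real.log_le_log (by positivity) hTx
    rw [Real.log_rpow hx0] at h5
    linarith
  · exact Real.log_le_log hTpos (by linarith)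
  · calc x = x ^ (1 / 2 : ℝ) * x ^ (1 / 2 : ℝ) := by
          rw [← Real.rpow_add hx0]; norm_num
      _ ≤ (⌊t⌋₊ : ℝ) * ⌊t⌋₊ := mul_le_mul hTx hTx (by positivity) hTpos.le
      _ = (⌊t⌋₊ : ℝ) ^ 2 := by ring

theorem window_sum : ∀ᶠ x : ℝ in atTop, ∀ (S : Finset ℕ) (c : ℝ), 0 ≤ c →
    S ⊆ Finset.Icc 1 ⌊x⌋₊ →
    (∀ t : ℝ, x / (Real.log x) ^ 2 < t → t < x →
      ∑ m ∈ (open scoped Classical in S.filter (fun m => t ∈ Iset m)), (1 : ℝ) / m ≤ c) →
    ∑ m ∈ S, (volume (Iset m ∩ Set.Icc 1 x)).toReal / m ≤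
      c * x + x / (Real.log x) ^ 2 * (1 + Real.log x) := by
  classical
  filter_upwards [window_T 1, polylog_le 1 2 0 1 (by norm_num),
    Real.tendsto_log_atTop.eventually_ge_atTop 2,
    eventually_ge_atTop (3 : ℝ)] with x hwT h1 hL hx S c hc hS h
  set L := Real.log x with hLdef
  have hx0 : 0 < x := by linarith
  have hL0 : 0 < L := by linarith
  rw [Real.rpow_one, Real.rpow_zero, mul_one, one_mul] at h1
  set y := x / L ^ 2 with hy
  have hyx : y ≤ x := by
    rw [hy]
    apply div_le_self hx0.le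
    nlinarith
  have hy1' : 1 ≤ y := by
    rw [hy, le_div_iff₀ (by positivity), one_mul]
    exact h1
  have hA : ∑ m ∈ S, (volume (Iset m ∩ Set.Icc 1 x)).toReal / m ≤
      ∑ m ∈ S, (volume (Iset m ∩ Set.Ioo y x)).toReal / m + ∑ m ∈ S, y * (1 / (m : ℝ)) := by
    rw [← Finset.sum_add_distrib]
    apply Finset.sum_le_sum
    intro m _
    rw [mul_one_div, ← add_div]
    exact div_le_div_of_nonneg_right (vol_ge m hy1') (Nat.cast_nonneg _)
  have hB : ∑ m ∈ S, y * (1 / (m : ℝ)) ≤ y * (1 + L) := by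
    rw [← Finset.mul_sum]
    apply mul_le_mul_of_nonneg_left _ (by linarith)
    calc ∑ m ∈ S, (1 : ℝ) / m ≤ ∑ m ∈ Finset.Icc 1 ⌊x⌋₊, (1 : ℝ) / m :=
          Finset.sum_le_sum_of_subset_of_nonneg hS (fun _ _ _ => by positivity)
      _ = ∑ m ∈ Finset.Icc 1 ⌊x⌋₊, ((m : ℝ))⁻¹ := by simp only [one_div]
      _ ≤ 1 + L := harm (by linarith)
  have hC : ∑ m ∈ S, (volume (Iset m ∩ Set.Ioo y x)).toReal / m ≤ c * (x - y) := by
    apply sum_vol_le S Iset measurableSet_Iset y x _ hyx
    intro t ht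
    have h8 : ∑ m ∈ S, (Iset m).indicator (fun _ => (1 : ℝ) / m) t =
        ∑ m ∈ S.filter (fun m => t ∈ Iset m), (1 : ℝ) / m := by
      rw [Finset.sum_filter]
      apply Finset.sum_congr rfl
      intro m _
      rw [Set.indicator_apply]
    rw [h8]
    exact h t ht.1 ht.2
  have hD : c * (x - y) ≤ c * x := by
    apply mul_le_mul_of_nonneg_left (by linarith) hc
  linarith

theorem GA_upper : ∃ C : ℝ, 1 ≤ C ∧ ∀ᶠ x : ℝ in atTop,
    GA x ≤ C * (x * Real.log (Real.log x)) := by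
  classical
  obtain ⟨C, hC, hf⟩ := full_bound
  obtain ⟨T0, hT0⟩ := eventually_atTop.mp hf
  refine ⟨C + 1, by linarith, ?_⟩
  filter_upwards [window_sum, window_T T0, Real.tendsto_log_atTop.eventually_ge_atTop 8,
    eventually_ge_atTop (3 : ℝ), (Real.tendsto_log_atTop.comp
      Real.tendsto_log_atTop).eventually_ge_atTop 1] with x hw hwT hL hx hll
  simp only [Function.comp_apply] at hll
  set L := Real.log x with hLdef
  have hx0 : 0 < x := by linarith
  have hL0 : 0 < L := by linarith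
  have h1 := hw (Finset.Icc 1 ⌊x⌋₊) (C * Real.log L) (by positivity) (Finset.Subset.refl _)
    (fun t ht1 ht2 => by
      obtain ⟨hT1, hT2, hT3, hT4⟩ := hwT t ht1 ht2
      have h5 := (hT0 ⌊t⌋₊ hT1 t rfl ((Finset.Icc 1 ⌊x⌋₊).filter (fun m => t ∈ Iset m)) (by
        intro m hm
        rw [Finset.mem_filter, Finset.mem_Icc] at hm
        refine ⟨hm.1.1, ?_, hm.2⟩
        have h7 : (m : ℝ) ≤ x :=
          le_trans (by exact_mod_cast hm.1.2) (Nat.floor_le hx0.le)
        have : (m : ℝ) ≤ ((⌊t⌋₊ : ℕ) : ℝ) ^ 2 := h7.trans hT4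
        exact_mod_cast this)).1
      refine h5.trans ?_
      apply mul_le_mul_of_nonneg_left _ (by linarith)
      exact Real.log_le_log (by linarith) hT3)
  unfold GA
  refine h1.trans ?_
  have h2 : x / L ^ 2 * (1 + L) ≤ x * Real.log L := by
    have h3 : x / L ^ 2 * (1 + L) ≤ x * 1 := by
      rw [div_mul_eq_mul_div, div_le_iff₀ (by positivity)]
      nlinarith [mul_pos hx0 hL0]
    have h4 : x * 1 ≤ x * Real.log L := mul_le_mul_of_nonneg_left hll hx0.le
    linarith
  linarith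

/-- the sum over cofactors up to `exp ((log log x)^4)` -/
noncomputable def GLL (x : ℝ) : ℝ := GY (Real.exp ((Real.log (Real.log x)) ^ 4)) x

theorem GLL_le : ∀ᶠ x : ℝ in atTop, Real.exp ((Real.log (Real.log x)) ^ 4) ≤ x := by
  filter_upwards [Real.tendsto_log_atTop.eventually (polylog_le 1 4 0 1 (by norm_num)),
    eventually_gt_atTop (1 : ℝ)] with x h hx
  rw [Real.rpow_one, Real.rpow_zero, mul_one, one_mul] at h
  calc Real.exp ((Real.log (Real.log x)) ^ 4) ≤ Real.exp (Real.log x) := Real.exp_le_exp.mpr h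
    _ = x := Real.exp_log (by linarith)

theorem GA_le_GLL : ∃ C : ℝ, 1 ≤ C ∧ ∀ᶠ x : ℝ in atTop,
    GA x ≤ GLL x + (C / Real.log (Real.log x / 2) * x +
      x / (Real.log x) ^ 2 * (1 + Real.log x)) := by
  classical
  obtain ⟨C, hC, hf⟩ := full_bound
  obtain ⟨T0, hT0⟩ := eventually_atTop.mp hf
  refine ⟨C, hC, ?_⟩
  filter_upwards [window_sum, window_T T0, Real.tendsto_log_atTop.eventually_ge_atTop 8,
    eventually_ge_atTop (3 : ℝ), GLL_le] with x hw hwT hL hx hMx
  set L := Real.log x with hLdef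
  have hx0 : 0 < x := by linarith
  have hL0 : 0 < L := by linarith
  set M := Real.exp ((Real.log L) ^ 4) with hM
  have hMf : ⌊M⌋₊ ≤ ⌊x⌋₊ := Nat.floor_le_floor hMx
  have hsub : Finset.Icc 1 ⌊M⌋₊ ⊆ Finset.Icc 1 ⌊x⌋₊ := Finset.Icc_subset_Icc le_rfl hMf
  set S := Finset.Icc 1 ⌊x⌋₊ \ Finset.Icc 1 ⌊M⌋₊ with hS
  have hsplit : GA x = ∑ m ∈ S, (volume (Iset m ∩ Set.Icc 1 x)).toReal / m + GLL x := by
    unfold GA GLL GY
    rw [← hLdef, ← hM, hS, Finset.sum_sdiff hsub]
  have hSmem : ∀ m ∈ S, 1 ≤ m ∧ m ≤ ⌊x⌋₊ ∧ ⌊M⌋₊ < m := by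
    intro m hm
    rw [hS, Finset.mem_sdiff, Finset.mem_Icc, Finset.mem_Icc] at hm
    omega
  have hl2 : 1 < Real.log (L / 2) := by
    rw [Real.lt_log_iff_exp_lt (by linarith)]
    have := Real.exp_one_lt_d9
    linarith
  have h1 := hw S (C / Real.log (L / 2)) (by positivity) Finset.sdiff_subset
    (fun t ht1 ht2 => by
      obtain ⟨hT1, hT2, hT3, hT4⟩ := hwT t ht1 ht2
      have h5 := (hT0 ⌊t⌋₊ hT1 t rfl (S.filter (fun m => t ∈ Iset m)) (by
        intro m hm
        rw [Finset.mem_filter] at hm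
        have hm' := hSmem m hm.1
        refine ⟨hm'.1, ?_, hm.2⟩
        have h7 : (m : ℝ) ≤ x :=
          le_trans (by exact_mod_cast hm'.2.1) (Nat.floor_le hx0.le)
        have : (m : ℝ) ≤ ((⌊t⌋₊ : ℕ) : ℝ) ^ 2 := h7.trans hT4
        exact_mod_cast this)).2 (by
        intro m hm
        rw [Finset.mem_filter] at hm
        have hm' := hSmem m hm.1
        have h7 : M < m := (Nat.floor_lt (Real.exp_pos _).le).mp hm'.2.2
        refine lt_of_le_of_lt ?_ h7
        apply Real.exp_le_exp.mpr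
        have h8 : 0 ≤ Real.log (Real.log ((⌊t⌋₊ : ℕ) : ℝ)) := by
          apply Real.log_nonneg
          linarith
        exact pow_le_pow_left₀ h8 (Real.log_le_log (by linarith) hT3) 4)
      refine h5.trans ?_
      apply div_le_div_of_nonneg_left (by linarith) (by linarith)
      exact Real.log_le_log (by linarith) hT2)
  rw [hsplit]
  linarith

theorem GLL_ratio : Tendsto (fun x : ℝ => GA x / GLL x) atTop (nhds 1) := by
  obtain ⟨C, hC, hGA⟩ := GA_le_GLL
  have hE : Tendsto (fun x : ℝ => 1 + ((1 + Real.log x) / (Real.log x) ^ 2 +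
      C / Real.log (Real.log x / 2)) * (x / (x - 1))) atTop (nhds (1 + (0 + 0) * 1)) := by
    have hlog := Real.tendsto_log_atTop
    have h1 : Tendsto (fun x : ℝ => (1 + Real.log x) / (Real.log x) ^ 2) atTop (nhds 0) := by
      have h2 : Tendsto (fun u : ℝ => (1 + u) / u ^ 2) atTop (nhds 0) := by
        have h3 : Tendsto (fun u : ℝ => u⁻¹ ^ 2 + u⁻¹) atTop (nhds (0 ^ 2 + 0)) :=
          (tendsto_inv_atTop_zero.pow 2).add tendsto_inv_atTop_zero
        have h4 : (0 : ℝ) ^ 2 + 0 = 0 := by norm_num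
        rw [h4] at h3
        refine h3.congr' ?_
        filter_upwards [eventually_gt_atTop (0 : ℝ)] with u hu
        field_simp
      exact h2.comp hlog
    have h5 : Tendsto (fun x : ℝ => C / Real.log (Real.log x / 2)) atTop (nhds 0) := by
      have h6 : Tendsto (fun x : ℝ => Real.log (Real.log x / 2)) atTop atTop :=
        hlog.comp (hlog.atTop_div_const (by norm_num))
      exact h6.const_div_atTop C
    have h7 : Tendsto (fun x : ℝ => x / (x - 1)) atTop (nhds 1) := by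
      have h8 : Tendsto (fun x : ℝ => 1 + (x - 1)⁻¹) atTop (nhds (1 + 0)) := by
        apply tendsto_const_nhds.add
        exact tendsto_inv_atTop_zero.comp (tendsto_atTop_add_const_right _ (-1) tendsto_id)
      rw [add_zero] at h8
      refine h8.congr' ?_
      filter_upwards [eventually_gt_atTop (1 : ℝ)] with x hx
      have : x - 1 ≠ 0 := by linarith
      field_simp
      ring
    exact tendsto_const_nhds.add ((h1.add h5).mul h7)
  have h0 : (1 : ℝ) + (0 + 0) * 1 = 1 := by norm_num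
  rw [h0] at hE
  have hGLL1 : ∀ x : ℝ, 1 ≤ x → x - 1 ≤ GLL x := by
    intro x hx
    unfold GLL GY
    have h1 : (1 : ℕ) ∈ Finset.Icc 1 ⌊Real.exp ((Real.log (Real.log x)) ^ 4)⌋₊ := by
      rw [Finset.mem_Icc]
      refine ⟨le_rfl, ?_⟩
      rw [Nat.le_floor_iff (Real.exp_pos _).le, Nat.cast_one]
      apply Real.one_le_exp
      positivity
    refine le_trans ?_ (Finset.single_le_sum (f := fun m : ℕ =>
      (volume (Iset m ∩ Set.Icc 1 x)).toReal / (m : ℝ)) (fun m _ => by positivity) h1)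
    simp only [Nat.cast_one, div_one]
    rw [j3482_Iset1]
    have h2 : Set.Ici (1 : ℝ) ∩ Set.Icc 1 x = Set.Icc 1 x :=
      Set.inter_eq_right.2 (fun y hy => hy.1)
    rw [h2, Real.volume_Icc, ENNReal.toReal_ofReal (by linarith)]
  refine tendsto_of_tendsto_of_tendsto_of_le_of_le' tendsto_const_nhds hE ?_ ?_
  · filter_upwards [GLL_le, eventually_gt_atTop (2 : ℝ)] with x hx hx1
    have h1 := hGLL1 x (by linarith)
    have h2 : 0 < GLL x := by linarith
    rw [le_div_iff₀ h2, one_mul]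
    exact GY_mono hx x
  · filter_upwards [hGA, eventually_gt_atTop (2 : ℝ),
      Real.tendsto_log_atTop.eventually_ge_atTop 8] with x hx hx1 hlog
    have h1 := hGLL1 x (by linarith)
    have h2 : 0 < GLL x := by linarith
    have h3 : 0 < x - 1 := by linarith
    have hl2 : 1 < Real.log (Real.log x / 2) := by
      rw [Real.lt_log_iff_exp_lt (by linarith)]
      have := Real.exp_one_lt_d9
      linarith
    have hlx : 0 < Real.log x := by linarith
    set E := (1 + Real.log x) / (Real.log x) ^ 2 + C / Real.log (Real.log x / 2) with hEdef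
    have hE0 : 0 ≤ E := by positivity
    have h4 : GA x ≤ GLL x + E * x := by
      refine hx.trans (le_of_eq ?_)
      rw [hEdef]
      ring
    rw [div_le_iff₀ h2]
    have h5 : E * x ≤ E * (x / (x - 1)) * GLL x := by
      calc E * x = E * (x / (x - 1)) * (x - 1) := by field_simp
        _ ≤ E * (x / (x - 1)) * GLL x := by
          apply mul_le_mul_of_nonneg_left h1
          have : 0 ≤ x / (x - 1) := by positivity
          positivity
    linarith

/-- the asymptotic formula with any cutoff between `exp ((log log x)^4)` and `x` -/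
theorem asymptotic_cut (Y : ℝ → ℝ)
    (hY : ∀ᶠ x : ℝ in atTop, Real.exp ((Real.log (Real.log x)) ^ 4) ≤ Y x ∧ Y x ≤ x) :
    Tendsto (fun x : ℝ => (NN x : ℝ) / (1 / Real.log x * GY (Y x) x)) atTop (nhds 1) := by
  have hGLL1 : ∀ x : ℝ, 1 ≤ x → x - 1 ≤ GLL x := by
    intro x hx
    unfold GLL GY
    have h1 : (1 : ℕ) ∈ Finset.Icc 1 ⌊Real.exp ((Real.log (Real.log x)) ^ 4)⌋₊ := by
      rw [Finset.mem_Icc]
      refine ⟨le_rfl, ?_⟩
      rw [Nat.le_floor_iff (Real.exp_pos _).le, Nat.cast_one]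
      apply Real.one_le_exp
      positivity
    refine le_trans ?_ (Finset.single_le_sum (f := fun m : ℕ =>
      (volume (Iset m ∩ Set.Icc 1 x)).toReal / (m : ℝ)) (fun m _ => by positivity) h1)
    simp only [Nat.cast_one, div_one]
    rw [j3482_Iset1]
    have h2 : Set.Ici (1 : ℝ) ∩ Set.Icc 1 x = Set.Icc 1 x :=
      Set.inter_eq_right.2 (fun y hy => hy.1)
    rw [h2, Real.volume_Icc, ENNReal.toReal_ofReal (by linarith)]
  have hlow : Tendsto (fun x : ℝ => (NN x : ℝ) / (1 / Real.log x * GLL x)) atTop (nhds 1) := by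
    have h := asymptotic_full.mul GLL_ratio
    rw [one_mul] at h
    refine h.congr' ?_
    filter_upwards [GLL_le, eventually_gt_atTop (2 : ℝ),
      Real.tendsto_log_atTop.eventually_gt_atTop 0] with x hx hx1 hlog
    have h1 := hGLL1 x (by linarith)
    have h2 : 0 < GLL x := by linarith
    have h3 : GLL x ≤ GA x := GY_mono hx x
    have h4 : 0 < GA x := by linarith
    field_simp
  refine tendsto_of_tendsto_of_tendsto_of_le_of_le' asymptotic_full hlow ?_ ?_
  · filter_upwards [hY, eventually_gt_atTop (2 : ℝ),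
      Real.tendsto_log_atTop.eventually_gt_atTop 0] with x hx hx1 hlog
    have h1 := hGLL1 x (by linarith)
    have h2 : GLL x ≤ GY (Y x) x := GY_mono hx.1 x
    have h3 : GY (Y x) x ≤ GA x := GY_mono hx.2 x
    have h4 : 0 < 1 / Real.log x * GY (Y x) x := by
      have : 0 < GY (Y x) x := by linarith
      positivity
    apply div_le_div_of_nonneg_left (Nat.cast_nonneg _) h4
    exact mul_le_mul_of_nonneg_left h3 (by positivity)
  · filter_upwards [hY, eventually_gt_atTop (2 : ℝ),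
      Real.tendsto_log_atTop.eventually_gt_atTop 0] with x hx hx1 hlog
    have h1 := hGLL1 x (by linarith)
    have h2 : GLL x ≤ GY (Y x) x := GY_mono hx.1 x
    have h4 : 0 < 1 / Real.log x * GLL x := by
      have : 0 < GLL x := by linarith
      positivity
    apply div_le_div_of_nonneg_left (Nat.cast_nonneg _) h4
    exact mul_le_mul_of_nonneg_left h2 (by positivity)

/-- upper bound -/
theorem N_upper : ∃ C : ℝ, ∀ᶠ x : ℝ in atTop,
    (NN x : ℝ) ≤ C * (x * Real.log (Real.log x) / Real.log x) := by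
  obtain ⟨C, hC, hG⟩ := GA_upper
  refine ⟨2 * C, ?_⟩
  have h1 : ∀ᶠ x : ℝ in atTop, (NN x : ℝ) / (1 / Real.log x * GA x) < 2 :=
    asymptotic_full.eventually (gt_mem_nhds (by norm_num))
  filter_upwards [h1, hG, GA_sub, eventually_gt_atTop (2 : ℝ),
      Real.tendsto_log_atTop.eventually_gt_atTop 0] with x hx hx2 hx3 hx1 hlog
  have h2 := j3482_G1 (x := x) (by linarith)
  have h3 : 0 < GA x := by linarith [hx3.1]
  have h4 : 0 < 1 / Real.log x * GA x := by positivity
  rw [div_lt_iff₀ h4] at hx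
  refine hx.le.trans ?_
  calc 2 * (1 / Real.log x * GA x) ≤
        2 * (1 / Real.log x * (C * (x * Real.log (Real.log x)))) := by
        apply mul_le_mul_of_nonneg_left _ (by norm_num)
        exact mul_le_mul_of_nonneg_left hx2 (by positivity)
    _ = 2 * C * (x * Real.log (Real.log x) / Real.log x) := by ring

end Pool.Agent.Helper923.PPS
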