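import Mathlib
import Pool.Agent.Helper923.PPS.Crit

set_option autoImplicit false

open Finset Filter MeasureTheory

namespace Pool.Agent.Helper923.PPS

theorem pf_singleton {e p : ℕ} (he : 2 ≤ e) (h : e.primeFactors = {p}) : ∃ j, e = p ^ j := by
  have h1 := Nat.prod_factorization_pow_eq_self (n := e) (by omega)
  rw [Finsupp.prod, Nat.support_factorization, h, prod_singleton] at h1
  exact ⟨_, h1.symm⟩

theorem pow_le_pw {p j : ℕ} (hp : 2 ≤ p) {t : ℝ} (ht : 1 ≤ t) (h : ((p ^ j : ℕ) : ℝ) ≤ t) :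
    ((p ^ j : ℕ) : ℝ) ≤ (pw p ⌊t⌋₊ : ℝ) := by
  have h1 : p ^ j ≤ ⌊t⌋₊ := Nat.le_floor h
  have h2 : j ≤ Nat.log p ⌊t⌋₊ := Nat.le_log_of_pow_le (by omega) h1
  exact_mod_cast Nat.pow_le_pow_right (by omega) h2

/-- a two prime sufficient condition -/
theorem mem_Iset_three_mul (q : ℕ) (hq : q.Prime) (hq3 : 3 < q) (h2 : 2 * pw 3 q ≤ q) (t : ℝ)
    (ht : 1 ≤ t) (h3 : t ≤ 2 * (pw 3 ⌊t⌋₊ : ℝ)) (hqt : t ≤ 2 * (pw q ⌊t⌋₊ : ℝ)) 
    (hs : t ≤ (pw 3 ⌊t⌋₊ : ℝ) + pw q ⌊t⌋₊) : t ∈ Iset (3 * q) := by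
  have hpf : (3 * q).primeFactors = {3, q} := by
    rw [Nat.primeFactors_mul (by norm_num) hq.ne_zero, Nat.prime_three.primeFactors,
      hq.primeFactors]
    rfl
  have hq3' : (3 : ℝ) < q := by exact_mod_cast hq3
  have hpos3 : (0 : ℝ) ≤ (pw 3 ⌊t⌋₊ : ℝ) := Nat.cast_nonneg _
  have hposq : (0 : ℝ) ≤ (pw q ⌊t⌋₊ : ℝ) := Nat.cast_nonneg _
  refine ⟨ht, fun e he hsub => ?_⟩
  rw [hpf] at hsub
  have hne : e.primeFactors.Nonempty := Nat.nonempty_primeFactors.mpr (by omega)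
  have hcases : e.primeFactors = {3} ∨ e.primeFactors = {q} ∨ e.primeFactors = {3, q} := by
    by_cases a1 : 3 ∈ e.primeFactors <;> by_cases a2 : q ∈ e.primeFactors
    · exact Or.inr (Or.inr (subset_antisymm hsub (by
        intro x hx; rcases mem_insert.mp hx with rfl | hx
        · exact a1
        · rw [mem_singleton.mp hx]; exact a2)))
    · refine Or.inl (subset_antisymm (fun x hx => ?_) (by simpa using a1))
      rcases mem_insert.mp (hsub hx) with rfl | h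
      · simp
      · rw [mem_singleton] at h; subst h; exact absurd hx a2
    · refine Or.inr (Or.inl (subset_antisymm (fun x hx => ?_) (by simpa using a2)))
      rcases mem_insert.mp (hsub hx) with rfl | h
      · exact absurd hx a1
      · exact h
    · obtain ⟨x, hx⟩ := hne
      rcases mem_insert.mp (hsub hx) with rfl | h
      · exact absurd hx a1
      · rw [mem_singleton] at h; subst h; exact absurd hx a2
  rcases hcases with h | h | h
  · obtain ⟨j, rfl⟩ := pf_singleton he h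
    rw [h, sum_singleton]
    refine ⟨fun h' => pow_le_pw (by norm_num) ht h', fun h' => ?_⟩
    have h4 : 3 ^ j ≤ 3 * pw 3 q := by
      unfold pw
      rw [← pow_succ']
      refine Nat.pow_le_pow_right (by norm_num) ?_
      rw [← Nat.log_mul_base (by norm_num) hq.ne_zero]
      refine Nat.le_log_of_pow_le (by norm_num) ?_
      rw [mul_comm]; exact h'
    have h5 : ((3 ^ j : ℕ) : ℝ) ≤ 3 * (pw 3 q : ℝ) := by exact_mod_cast h4
    have h6 : 2 * (pw 3 q : ℝ) ≤ q := by exact_mod_cast h2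
    have h7 : (1 : ℝ) ≤ ((3 ^ j : ℕ) : ℝ) := by
      exact_mod_cast Nat.one_le_pow _ _ (by norm_num)
    have h8 : t * (((3 ^ j : ℕ) : ℝ) - 1) ≤ 2 * (pw 3 ⌊t⌋₊ : ℝ) * (3 * (pw 3 q : ℝ)) := by
      refine mul_le_mul h3 (by linarith) (by linarith) (by positivity)
    have h9 : 2 * (pw 3 ⌊t⌋₊ : ℝ) * (3 * (pw 3 q : ℝ)) ≤ 3 * q * (pw 3 ⌊t⌋₊ : ℝ) := by
      nlinarith
    push_cast at h8 h9 ⊢
    linarith
  · obtain ⟨j, rfl⟩ := pf_singleton he h
    rw [h, sum_singleton]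
    refine ⟨fun h' => pow_le_pw (by omega) ht h', fun h' => ?_⟩
    have hj : j ≤ 1 := by
      by_contra hj
      have : q ^ 2 ≤ q ^ j := Nat.pow_le_pow_right (by omega) (by omega)
      nlinarith
    have h5 : ((q ^ j : ℕ) : ℝ) ≤ q := by
      have : q ^ j ≤ q ^ 1 := Nat.pow_le_pow_right (by omega) hj
      rw [pow_one] at this
      exact_mod_cast this
    have h7 : (1 : ℝ) ≤ ((q ^ j : ℕ) : ℝ) := by
      exact_mod_cast Nat.one_le_pow _ _ (by omega)
    have h8 : t * (((q ^ j : ℕ) : ℝ) - 1) ≤ 2 * (pw q ⌊t⌋₊ : ℝ) * q := by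
      refine mul_le_mul hqt (by linarith) (by linarith) (by positivity)
    push_cast at h8 ⊢
    nlinarith
  · rw [h, sum_pair (by omega)]
    refine ⟨fun h' => h'.trans hs, fun h' => ?_⟩
    have h5 : (e : ℝ) ≤ ((3 * q : ℕ) : ℝ) := by exact_mod_cast h'
    have h6 : (2 : ℝ) ≤ e := by exact_mod_cast he
    calc t * ((e : ℝ) - 1) ≤ ((pw 3 ⌊t⌋₊ : ℝ) + pw q ⌊t⌋₊) * ((3 * q : ℕ) : ℝ) :=
          mul_le_mul hs (by linarith) (by linarith) (by positivity)
      _ = _ := by ring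

/-- simultaneous approximation: all primes of a finite set have a power just below `X` -/
theorem simul (S : Finset ℕ) (hS : ∀ p ∈ S, p.Prime) (ε : ℝ) (hε : 0 < ε) (X0 : ℝ) :
    ∃ X : ℝ, X0 ≤ X ∧ 1 ≤ X ∧ ∀ p ∈ S, ∃ k : ℕ, (p : ℝ) ^ k ≤ X ∧ X ≤ (1 + ε) * (p : ℝ) ^ k := by
  classical
  -- bound for the logarithms
  set L : ℝ := ∑ p ∈ S, Real.log p with hL
  have hlog : ∀ p ∈ S, 0 < Real.log p := fun p hp =>
    Real.log_pos (by exact_mod_cast (hS p hp).one_lt)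
  have hL0 : 0 ≤ L := sum_nonneg fun p hp => (hlog p hp).le
  have hLp : ∀ p ∈ S, Real.log p ≤ L := fun p hp =>
    single_le_sum (f := fun p : ℕ => Real.log p) (fun i hi => (hlog i hi).le) hp
  have hle : 0 < Real.log (1 + ε) := Real.log_pos (by linarith)
  obtain ⟨M, hM⟩ := exists_nat_gt (2 * L / Real.log (1 + ε))
  have hM0 : 0 < M := by
    have : (0 : ℝ) < M := lt_of_le_of_lt (by positivity) hM
    exact_mod_cast this
  have hM0' : (0 : ℝ) < M := by exact_mod_cast hM0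
  have hM2 : 2 * (L / M) ≤ Real.log (1 + ε) := by
    rw [div_lt_iff₀ hle] at hM
    rw [← mul_div_assoc, div_le_iff₀ hM0']
    linarith
  obtain ⟨N0, hN0⟩ := exists_nat_gt (max X0 1)
  have hN1 : X0 < N0 := lt_of_le_of_lt (le_max_left _ _) hN0
  have hN2 : (1 : ℝ) < N0 := lt_of_le_of_lt (le_max_right _ _) hN0
  -- colouring
  let col : ℕ → (S → Fin M) := fun j p =>
    ⟨⌊Int.fract ((j : ℝ) * N0 / Real.log p) * M⌋₊, by
      have h1 := Int.fract_lt_one ((j : ℝ) * N0 / Real.log p)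
      have h0 := Int.fract_nonneg ((j : ℝ) * N0 / Real.log p)
      rw [Nat.floor_lt (by positivity)]
      nlinarith⟩
  obtain ⟨j1, j2, hne, hcol⟩ := Finite.exists_ne_map_eq_of_infinite col
  wlog hlt : j1 < j2 generalizing j1 j2
  · exact this j2 j1 hne.symm hcol.symm (by omega)
  refine ⟨Real.exp (((j2 : ℝ) - j1) * N0 + L / M), ?_, ?_, ?_⟩
  · have h1 : (1 : ℝ) ≤ (j2 : ℝ) - j1 := by
      have : j1 + 1 ≤ j2 := hlt
      have : ((j1 : ℝ) + 1) ≤ j2 := by exact_mod_cast this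
      linarith
    have h2 : ((j2 : ℝ) - j1) * N0 + L / M + 1 ≤ Real.exp (((j2 : ℝ) - j1) * N0 + L / M) :=
      Real.add_one_le_exp _
    have h3 : 0 ≤ L / M := by positivity
    nlinarith
  · apply Real.one_le_exp
    have h1 : (1 : ℝ) ≤ (j2 : ℝ) - j1 := by
      have : j1 + 1 ≤ j2 := hlt
      have : ((j1 : ℝ) + 1) ≤ j2 := by exact_mod_cast this
      linarith
    have h3 : 0 ≤ L / M := by positivity
    nlinarith
  · intro p hp
    have hc := congrFun hcol ⟨p, hp⟩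
    simp only [col, Fin.mk.injEq] at hc
    set lp := Real.log p with hlp
    have hlp0 : 0 < lp := hlog p hp
    set x1 : ℝ := (j1 : ℝ) * N0 / lp with hx1
    set x2 : ℝ := (j2 : ℝ) * N0 / lp with hx2
    have hx12 : x1 ≤ x2 := by
      rw [hx1, hx2]
      gcongr
    have hk : ⌊x1⌋ ≤ ⌊x2⌋ := Int.floor_le_floor hx12
    obtain ⟨k, hk'⟩ := Int.eq_ofNat_of_zero_le (sub_nonneg.mpr hk)
    have e1 : x2 - x1 = k + (Int.fract x2 - Int.fract x1) := by
      have a1 := Int.floor_add_fract x1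
      have a2 := Int.floor_add_fract x2
      have a3 : ((⌊x2⌋ : ℝ) - ⌊x1⌋) = k := by exact_mod_cast hk'
      linarith
    have hf : |Int.fract x2 - Int.fract x1| ≤ 1 / M := by
      have b1 := Nat.floor_le (mul_nonneg (Int.fract_nonneg x1) hM0'.le)
      have b2 := Nat.lt_floor_add_one (Int.fract x1 * M)
      have b3 := Nat.floor_le (mul_nonneg (Int.fract_nonneg x2) hM0'.le)
      have b4 := Nat.lt_floor_add_one (Int.fract x2 * M)
      rw [hc] at b1 b2
      rw [abs_le]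
      constructor
      · rw [neg_le_sub_iff_le_add, ← sub_le_iff_le_add', le_div_iff₀ hM0']
        nlinarith
      · rw [le_div_iff₀ hM0']
        nlinarith
    have hmain : |((j2 : ℝ) - j1) * N0 - k * lp| ≤ L / M := by
      have e2 : ((j2 : ℝ) - j1) * N0 - k * lp = (Int.fract x2 - Int.fract x1) * lp := by
        have : Int.fract x2 - Int.fract x1 = x2 - x1 - k := by linarith
        rw [this, hx1, hx2]
        field_simp
      rw [e2, abs_mul, abs_of_pos hlp0]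
      calc |Int.fract x2 - Int.fract x1| * lp ≤ 1 / M * L :=
            mul_le_mul hf (hLp p hp) hlp0.le (by positivity)
        _ = L / M := by ring
    rw [abs_le] at hmain
    have hpk : (p : ℝ) ^ k = Real.exp (k * lp) := by
      rw [hlp, mul_comm, Real.exp_mul, Real.exp_log (by exact_mod_cast (hS p hp).pos),
        Real.rpow_natCast]
    refine ⟨k, ?_, ?_⟩
    · rw [hpk]
      apply Real.exp_le_exp.mpr
      linarith
    · rw [hpk]
      have : (1 + ε) = Real.exp (Real.log (1 + ε)) := (Real.exp_log (by linarith)).symm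
      rw [this, ← Real.exp_add]
      apply Real.exp_le_exp.mpr
      linarith

/-- primes in the upper part of the block -/
def blk (j : ℕ) : Finset ℕ := (Ioc (2 * 3 ^ j) (3 ^ (j + 1))).filter Nat.Prime

theorem blk_mem {j q : ℕ} (hj : 1 ≤ j) (hq : q ∈ blk j) : q.Prime ∧ 3 < q ∧ Nat.log 3 q = j ∧ 2 * pw 3 q ≤ q := by
  unfold blk at hq
  rw [mem_filter, mem_Ioc] at hq
  obtain ⟨⟨h1, h2⟩, h3⟩ := hq
  have h4 : q ≠ 3 ^ (j + 1) := by
    rintro rfl
    exact Nat.Prime.not_prime_pow (by omega) h3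
  have h5 : q < 3 ^ (j + 1) := lt_of_le_of_ne h2 h4
  have h6 : Nat.log 3 q = j := by
    refine (Nat.log_eq_iff (Or.inr ⟨by norm_num, h3.ne_zero⟩)).mpr ⟨by omega, h5⟩
  have h7 : 3 ^ 1 ≤ 3 ^ j := Nat.pow_le_pow_right (by norm_num) hj
  refine ⟨h3, by omega, h6, ?_⟩
  unfold pw
  rw [h6]
  omega

theorem theta_sub_u (j : ℕ) : Chebyshev.theta ((3 ^ (j + 1) : ℕ) : ℝ) - Chebyshev.theta ((2 * 3 ^ j : ℕ) : ℝ) =
    ∑ q ∈ blk j, Real.log q := by
  unfold Chebyshev.theta blk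
  rw [Nat.floor_natCast, Nat.floor_natCast, sub_eq_iff_eq_add, sum_filter, sum_filter, sum_filter]
  rw [← sum_Ioc_consecutive _ (Nat.zero_le (2 * 3 ^ j)) (by rw [pow_succ]; omega), add_comm]

theorem blk_sum
    (H : ∃ C : ℝ, 0 < C ∧ ∀ x : ℝ, 2 ≤ x →
      |Chebyshev.theta x - x| ≤ C * x / (Real.log x) ^ (1 / 50 : ℝ)) :
    ∃ j0 : ℕ, 1 ≤ j0 ∧ ∀ j, j0 ≤ j → (1 / 12 : ℝ) * (1 / ((j : ℝ) + 1)) ≤ ∑ q ∈ blk j, (1 : ℝ) / q := by
  obtain ⟨C, hC, H⟩ := H
  have ht : Tendsto (fun x : ℝ => C / (Real.log x) ^ (1 / 50 : ℝ)) atTop (nhds 0) :=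
    Tendsto.const_div_atTop ((tendsto_rpow_atTop (by norm_num)).comp Real.tendsto_log_atTop) C
  have he := ht.eventually (gt_mem_nhds (show (0 : ℝ) < 1 / 10 by norm_num))
  obtain ⟨x0, hx0⟩ := eventually_atTop.mp he
  have hth : ∀ x : ℝ, x0 ≤ x → 2 ≤ x → |Chebyshev.theta x - x| ≤ x / 10 := by
    intro x h1 h2
    refine (H x h2).trans ?_
    have := hx0 x h1
    rw [mul_div_right_comm]
    nlinarith
  obtain ⟨j0, hj0⟩ := exists_nat_gt (max x0 1)
  refine ⟨j0, ?_, fun j hj => ?_⟩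
  · have : (1 : ℝ) < j0 := lt_of_le_of_lt (le_max_right _ _) hj0
    have : 1 < j0 := by exact_mod_cast this
    omega
  have hj1 : (j : ℝ) ≤ (3 ^ j : ℕ) := by
    exact_mod_cast (Nat.lt_pow_self (by norm_num)).le
  have hjj : (j0 : ℝ) ≤ j := by exact_mod_cast hj
  have hxj : x0 ≤ (3 ^ j : ℕ) := by
    have := le_max_left x0 1
    linarith
  have hxj1 : (1 : ℝ) ≤ (3 ^ j : ℕ) := by
    have := le_max_right x0 1
    linarith
  have a1 := hth ((3 ^ (j + 1) : ℕ) : ℝ) (by rw [pow_succ]; push_cast at *; linarith)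
    (by rw [pow_succ]; push_cast at *; linarith)
  have a2 := hth ((2 * 3 ^ j : ℕ) : ℝ) (by push_cast at *; linarith)
    (by push_cast at *; linarith)
  rw [abs_le] at a1 a2
  have a3 := theta_sub_u j
  have a4 : ((3 ^ j : ℕ) : ℝ) / 2 ≤ ∑ q ∈ blk j, Real.log q := by
    rw [← a3]
    rw [pow_succ] at a1 ⊢
    push_cast at *
    linarith
  have hlog3 : Real.log 3 ≤ 2 := by
    have := Real.log_le_sub_one_of_pos (show (0 : ℝ) < 3 by norm_num)
    linarith
  have hlog3' : 0 < Real.log 3 := Real.log_pos (by norm_num)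
  have hj2 : (0 : ℝ) < (j : ℝ) + 1 := by positivity
  have h3j : (0 : ℝ) < 3 ^ j := by positivity
  have a5 : ∀ q ∈ blk j, Real.log q / (3 * 3 ^ j * (2 * ((j : ℝ) + 1))) ≤ (1 : ℝ) / q := by
    intro q hq
    unfold blk at hq
    rw [mem_filter, mem_Ioc] at hq
    have hq0 : (0 : ℝ) < q := by exact_mod_cast hq.2.pos
    have hq1 : (q : ℝ) ≤ 3 * 3 ^ j := by
      have := hq.1.2
      rw [pow_succ] at this
      have h' : (q : ℝ) ≤ ((3 ^ j * 3 : ℕ) : ℝ) := by exact_mod_cast this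
      push_cast at h'
      linarith
    have hlq : Real.log q ≤ 2 * ((j : ℝ) + 1) := by
      have : Real.log q ≤ Real.log (3 * 3 ^ j) := Real.log_le_log hq0 hq1
      rw [← pow_succ', Real.log_pow] at this
      push_cast at this
      nlinarith
    have hlq0 : 0 ≤ Real.log q := Real.log_natCast_nonneg q
    rw [div_le_div_iff₀ (by positivity) hq0]
    calc Real.log q * q ≤ (2 * ((j : ℝ) + 1)) * (3 * 3 ^ j) :=
          mul_le_mul hlq hq1 hq0.le (by positivity)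
      _ = _ := by ring
  calc (1 / 12 : ℝ) * (1 / ((j : ℝ) + 1)) = ((3 ^ j : ℕ) : ℝ) / 2 / (3 * 3 ^ j * (2 * ((j : ℝ) + 1))) := by
        push_cast
        field_simp
        norm_num
    _ ≤ (∑ q ∈ blk j, Real.log q) / (3 * 3 ^ j * (2 * ((j : ℝ) + 1))) := by
        gcongr
    _ = ∑ q ∈ blk j, Real.log q / (3 * 3 ^ j * (2 * ((j : ℝ) + 1))) := by
        rw [sum_div]
    _ ≤ _ := sum_le_sum a5

/-- divergence of the reciprocals of the primes `q` in the upper parts of the intervals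
`[3^j, 3^(j+1))` -/
theorem diverge
    (H : ∃ C : ℝ, 0 < C ∧ ∀ x : ℝ, 2 ≤ x →
      |Chebyshev.theta x - x| ≤ C * x / (Real.log x) ^ (1 / 50 : ℝ)) (C : ℝ) :
    ∃ S : Finset ℕ, (∀ q ∈ S, q.Prime ∧ 3 < q ∧ 2 * pw 3 q ≤ q) ∧ C ≤ ∑ q ∈ S, (1 : ℝ) / q := by
  classical
  obtain ⟨j0, hj0, hb⟩ := blk_sum H
  have ht := Real.tendsto_sum_range_one_div_nat_succ_atTop
  obtain ⟨J, hJ⟩ := (ht.eventually (eventually_ge_atTop
    (12 * C + ∑ i ∈ range j0, (1 : ℝ) / ((i : ℝ) + 1)))).and (eventually_ge_atTop j0) |>.exists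
  obtain ⟨hJ1, hJ2⟩ := hJ
  refine ⟨(Ico j0 J).biUnion blk, ?_, ?_⟩
  · intro q hq
    obtain ⟨j, hj, hq⟩ := mem_biUnion.mp hq
    rw [mem_Ico] at hj
    have := blk_mem (by omega : 1 ≤ j) hq
    exact ⟨this.1, this.2.1, this.2.2.2⟩
  · rw [sum_biUnion]
    · have h1 : ∑ i ∈ Ico j0 J, (1 : ℝ) / ((i : ℝ) + 1) =
          (∑ i ∈ range J, (1 : ℝ) / ((i : ℝ) + 1)) - ∑ i ∈ range j0, (1 : ℝ) / ((i : ℝ) + 1) :=
        sum_Ico_eq_sub _ hJ2
      have h2 : (1 / 12 : ℝ) * ∑ i ∈ Ico j0 J, (1 : ℝ) / ((i : ℝ) + 1) ≤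
          ∑ j ∈ Ico j0 J, ∑ q ∈ blk j, (1 : ℝ) / q := by
        rw [mul_sum]
        refine sum_le_sum fun j hj => hb j (mem_Ico.mp hj).1
      linarith
    · intro i hi j hj hij
      rw [Function.onFun, Finset.disjoint_left]
      intro q hqi hqj
      rw [mem_coe, mem_Ico] at hi hj
      have b1 := (blk_mem (by omega : 1 ≤ i) hqi).2.2.1
      have b2 := (blk_mem (by omega : 1 ≤ j) hqj).2.2.1
      omega

theorem unbounded
    (H : ∃ C : ℝ, 0 < C ∧ ∀ x : ℝ, 2 ≤ x →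
      |Chebyshev.theta x - x| ≤ C * x / (Real.log x) ^ (1 / 50 : ℝ)) (C : ℝ) :
    ∃ S : Finset ℕ, (∀ m ∈ S, 1 ≤ m) ∧ ∀ x0 : ℝ, ∃ x : ℝ, x0 ≤ x ∧
      C * x ≤ ∑ m ∈ S, (volume (Iset m ∩ Set.Icc 1 x)).toReal / m := by
  classical
  obtain ⟨S0, hS0, hsum⟩ := diverge H (9 * (|C| + 1))
  refine ⟨S0.image (fun q => 3 * q), ?_, fun x0 => ?_⟩
  · intro m hm
    obtain ⟨q, hq, rfl⟩ := mem_image.mp hm
    have := (hS0 q hq).2.1
    omega
  obtain ⟨X, hX0, hX1, hX⟩ := simul (insert 3 S0) (fun p hp => by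
    rcases mem_insert.mp hp with rfl | hp
    · exact Nat.prime_three
    · exact (hS0 p hp).1) (1 / 10) (by norm_num) x0
  set x : ℝ := 20 / 11 * X with hx
  have hxX : X ≤ x := by rw [hx]; linarith
  refine ⟨x, hX0.trans hxX, ?_⟩
  have hpw : ∀ p ∈ insert 3 S0, ∀ t : ℝ, X ≤ t → t < x →
      10 / 11 * X ≤ (pw p ⌊t⌋₊ : ℝ) := by
    intro p hp t ht1 ht2
    obtain ⟨k, hk1, hk2⟩ := hX p hp
    have hp2 : 2 ≤ p := by
      rcases mem_insert.mp hp with rfl | hp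
      · norm_num
      · exact (hS0 p hp).1.two_le
    have h1 := pow_le_pw (j := k) hp2 (t := t) (hX1.trans ht1) (by push_cast; linarith)
    push_cast at h1
    linarith
  have hmem : ∀ q ∈ S0, Set.Ico X x ⊆ Iset (3 * q) ∩ Set.Icc 1 x := by
    intro q hq t ht
    have h3 := hpw 3 (mem_insert_self _ _) t ht.1 ht.2
    have h4 := hpw q (mem_insert_of_mem hq) t ht.1 ht.2
    have ht2 : t < 20 / 11 * X := ht.2
    refine ⟨?_, hX1.trans ht.1, ht.2.le⟩
    exact mem_Iset_three_mul q (hS0 q hq).1 (hS0 q hq).2.1 (hS0 q hq).2.2 t (hX1.trans ht.1)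
      (by linarith) (by linarith) (by linarith)
  have hvol : ∀ q ∈ S0, 9 / 20 * x ≤ (volume (Iset (3 * q) ∩ Set.Icc 1 x)).toReal := by
    intro q hq
    have h1 : volume (Set.Ico X x) ≤ volume (Iset (3 * q) ∩ Set.Icc 1 x) :=
      measure_mono (hmem q hq)
    have h2 : volume (Iset (3 * q) ∩ Set.Icc 1 x) ≠ ⊤ := by
      refine ne_top_of_le_ne_top ?_ (measure_mono Set.inter_subset_right)
      rw [Real.volume_Icc]
      exact ENNReal.ofReal_ne_top
    have h3 := ENNReal.toReal_mono h2 h1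
    rw [Real.volume_Ico, ENNReal.toReal_ofReal (by linarith)] at h3
    rw [hx] at h3 ⊢
    linarith
  rw [sum_image (fun a _ b _ h => by simpa using h)]
  have hxpos : 0 < x := by linarith
  calc C * x ≤ (3 / 20 * x) * (9 * (|C| + 1)) := by
        have := le_abs_self C
        have := abs_nonneg C
        nlinarith
    _ ≤ (3 / 20 * x) * ∑ q ∈ S0, (1 : ℝ) / q := by gcongr
    _ = ∑ q ∈ S0, 9 / 20 * x / ((3 * q : ℕ) : ℝ) := by
        rw [mul_sum]
        refine sum_congr rfl fun q hq => ?_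
        have : (q : ℝ) ≠ 0 := by exact_mod_cast (hS0 q hq).1.ne_zero
        push_cast
        field_simp
        norm_num
    _ ≤ _ := sum_le_sum fun q hq => by
        have := hvol q hq
        gcongr

end Pool.Agent.Helper923.PPS
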