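import Mathlib
import Pool.Agent.Helper923.PPS.General
import Pool.Agent.Helper923.PPS.Unb

set_option autoImplicit false

open Finset Filter MeasureTheory

namespace Pool.Agent.Helper923.PPS

/-- `N x * log x / x` is unbounded -/
theorem N_unbounded (C x0 : ℝ) : ∃ x : ℝ, x0 ≤ x ∧ C * (x / Real.log x) ≤ NN x := by
  obtain ⟨S, hS1, hS⟩ := unbounded PNTQ.theta_quant (2 * |C|)
  have hpow : Tendsto (fun x : ℝ => Real.exp ((Real.log x) ^ (1 / 200 : ℝ))) atTop atTop :=
    Real.tendsto_exp_atTop.comp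
      ((tendsto_rpow_atTop (by norm_num)).comp Real.tendsto_log_atTop)
  have h1 : ∀ᶠ x : ℝ in atTop, (1 / 2 : ℝ) < (NN x : ℝ) / (1 / Real.log x * GM x) :=
    asymptotic_truncated.eventually (lt_mem_nhds (by norm_num))
  have h2 : ∀ᶠ x : ℝ in atTop, ((∑ m ∈ S, m : ℕ) : ℝ) ≤ Real.exp ((Real.log x) ^ (1 / 200 : ℝ)) :=
    hpow.eventually_ge_atTop _
  obtain ⟨x1, hx1⟩ := eventually_atTop.mp (h1.and (h2.and ((eventually_gt_atTop (2 : ℝ)).and
    (Real.tendsto_log_atTop.eventually_gt_atTop 0))))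
  obtain ⟨x, hx, hC⟩ := hS (max x0 x1)
  refine ⟨x, (le_max_left _ _).trans hx, ?_⟩
  obtain ⟨g1, g2, g3, g4⟩ := hx1 x ((le_max_right _ _).trans hx)
  have hG0 := j3482_G1 (x := x) (by linarith)
  have hGM : 2 * |C| * x ≤ GM x := by
    refine hC.trans ?_
    unfold GM
    apply Finset.sum_le_sum_of_subset_of_nonneg
    · intro m hm
      rw [Finset.mem_Icc]
      refine ⟨hS1 m hm, ?_⟩
      apply Nat.le_floor
      refine le_trans ?_ g2
      exact_mod_cast Finset.single_le_sum (f := fun m : ℕ => m) (fun _ _ => Nat.zero_le _) hm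
    · intro m _ _
      positivity
  have hpos : 0 < 1 / Real.log x * GM x := by
    have : 0 < GM x := by linarith
    positivity
  rw [lt_div_iff₀ hpos] at g1
  have h5 : |C| * (x / Real.log x) ≤ 1 / 2 * (1 / Real.log x * GM x) := by
    calc |C| * (x / Real.log x) = 1 / 2 * (1 / Real.log x * (2 * |C| * x)) := by field_simp
      _ ≤ _ := by
        apply mul_le_mul_of_nonneg_left _ (by norm_num)
        exact mul_le_mul_of_nonneg_left hGM (by positivity)
  have h6 : C * (x / Real.log x) ≤ |C| * (x / Real.log x) := by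
    apply mul_le_mul_of_nonneg_right (le_abs_self C)
    have : 0 < x := by linarith
    positivity
  linarith

end Pool.Agent.Helper923.PPS
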